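import Pool.Agent.Lib.MP_f3b2fd_co.KEP.N.Der

/-! The closed cube of squared edge lengths: continuity, positivity, minimum at a vertex. -/

namespace Pool.Agent.Lib.MP_f3b2fd_co.KA.Box

open Real Set Der

/-- the dihedral angle along the first edge, in a form continuous on the closed cube. -/
noncomputable def dic (x1 x2 x3 x4 x5 x6 : ℝ) : ℝ :=
  arccos (del4 x1 x2 x3 x4 x5 x6 / √(up x1 x2 x6 * up x1 x3 x5))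

theorem arc_eq {A D : ℝ} (hD : 0 < D) : arccos (A / √(D + A ^ 2)) = π / 2 - arctan (A / √D) := by
  have hs : 0 < √D := sqrt_pos.2 hD
  have e : √(1 + (A / √D) ^ 2) = √(D + A ^ 2) / √D := by
    rw [← sqrt_div' _ hD.le, div_pow, sq_sqrt hD.le]
    congr 1
    field_simp
  have hp : 0 < √(D + A ^ 2) := sqrt_pos.2 (by positivity)
  rw [arctan_eq_arcsin, e, arccos]
  congr 2
  field_simp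

theorem dic_eq {x1 x2 x3 x4 x5 x6 : ℝ} (h : 0 < x1) (hd : 0 < del x1 x2 x3 x4 x5 x6) :
    dic x1 x2 x3 x4 x5 x6 = dih x1 x2 x3 x4 x5 x6 := by
  rw [dic, dih, ← disc, arc_eq (by positivity)]

theorem dic_mem (x1 x2 x3 x4 x5 x6 : ℝ) :
    0 ≤ dic x1 x2 x3 x4 x5 x6 ∧ dic x1 x2 x3 x4 x5 x6 ≤ π := ⟨arccos_nonneg _, arccos_le_pi _⟩

theorem up_ge {a b c : ℝ} (ha : a ∈ Icc (4 : ℝ) 8) (hb : b ∈ Icc (4 : ℝ) 8)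
    (hc : c ∈ Icc (4 : ℝ) 8) : 48 ≤ up a b c := by
  obtain ⟨a1, a2⟩ := ha
  obtain ⟨b1, b2⟩ := hb
  obtain ⟨c1, c2⟩ := hc
  unfold up
  nlinarith [mul_nonneg (sub_nonneg.2 a1) (sub_nonneg.2 a2),
    mul_nonneg (sub_nonneg.2 b1) (sub_nonneg.2 b2), mul_nonneg (sub_nonneg.2 c1) (sub_nonneg.2 c2),
    mul_nonneg (sub_nonneg.2 a1) (sub_nonneg.2 b1), mul_nonneg (sub_nonneg.2 a1) (sub_nonneg.2 c1),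
    mul_nonneg (sub_nonneg.2 b1) (sub_nonneg.2 c1)]

theorem up_pos {a b c : ℝ} (ha : a ∈ Icc (4 : ℝ) 8) (hb : b ∈ Icc (4 : ℝ) 8)
    (hc : c ∈ Icc (4 : ℝ) 8) : 0 < up a b c := by linarith [up_ge ha hb hc]

/-- continuity of the angle along any path in the closed cube. -/
theorem dic_cont {X : Type} [TopologicalSpace X] {s : Set X} {f1 f2 f3 f4 f5 f6 : X → ℝ}
    (c1 : ContinuousOn f1 s) (c2 : ContinuousOn f2 s) (c3 : ContinuousOn f3 s)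
    (c4 : ContinuousOn f4 s) (c5 : ContinuousOn f5 s) (c6 : ContinuousOn f6 s)
    (h1 : ∀ t ∈ s, f1 t ∈ Icc (4 : ℝ) 8) (h2 : ∀ t ∈ s, f2 t ∈ Icc (4 : ℝ) 8)
    (h3 : ∀ t ∈ s, f3 t ∈ Icc (4 : ℝ) 8) (h5 : ∀ t ∈ s, f5 t ∈ Icc (4 : ℝ) 8)
    (h6 : ∀ t ∈ s, f6 t ∈ Icc (4 : ℝ) 8) :
    ContinuousOn (fun t => dic (f1 t) (f2 t) (f3 t) (f4 t) (f5 t) (f6 t)) s := by
  unfold dic
  refine continuous_arccos.comp_continuousOn (ContinuousOn.div ?_ (ContinuousOn.sqrt ?_) ?_)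
  · unfold del4
    fun_prop
  · unfold up
    fun_prop
  · intro t ht
    exact (sqrt_pos.2 (mul_pos (up_pos (h1 t ht) (h2 t ht) (h6 t ht))
      (up_pos (h1 t ht) (h3 t ht) (h5 t ht)))).ne'

/-- six successive reductions to the end points of an interval. -/
theorem six (F : ℝ → ℝ → ℝ → ℝ → ℝ → ℝ → Prop) (I1 I2 I3 I4 I5 I6 : Set ℝ)
    {l1 u1 l2 u2 l3 u3 l4 u4 l5 u5 l6 u6 : ℝ}
    (a1 : l1 ∈ I1) (b1 : u1 ∈ I1) (a2 : l2 ∈ I2) (b2 : u2 ∈ I2) (a3 : l3 ∈ I3) (b3 : u3 ∈ I3)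
    (a4 : l4 ∈ I4) (b4 : u4 ∈ I4) (a5 : l5 ∈ I5) (b5 : u5 ∈ I5)
    (s1 : ∀ x1 ∈ I1, ∀ x2 ∈ I2, ∀ x3 ∈ I3, ∀ x4 ∈ I4, ∀ x5 ∈ I5, ∀ x6 ∈ I6,
      F l1 x2 x3 x4 x5 x6 → F u1 x2 x3 x4 x5 x6 → F x1 x2 x3 x4 x5 x6)
    (s2 : ∀ x1 ∈ I1, ∀ x2 ∈ I2, ∀ x3 ∈ I3, ∀ x4 ∈ I4, ∀ x5 ∈ I5, ∀ x6 ∈ I6,
      F x1 l2 x3 x4 x5 x6 → F x1 u2 x3 x4 x5 x6 → F x1 x2 x3 x4 x5 x6)
    (s3 : ∀ x1 ∈ I1, ∀ x2 ∈ I2, ∀ x3 ∈ I3, ∀ x4 ∈ I4, ∀ x5 ∈ I5, ∀ x6 ∈ I6,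
      F x1 x2 l3 x4 x5 x6 → F x1 x2 u3 x4 x5 x6 → F x1 x2 x3 x4 x5 x6)
    (s4 : ∀ x1 ∈ I1, ∀ x2 ∈ I2, ∀ x3 ∈ I3, ∀ x4 ∈ I4, ∀ x5 ∈ I5, ∀ x6 ∈ I6,
      F x1 x2 x3 l4 x5 x6 → F x1 x2 x3 u4 x5 x6 → F x1 x2 x3 x4 x5 x6)
    (s5 : ∀ x1 ∈ I1, ∀ x2 ∈ I2, ∀ x3 ∈ I3, ∀ x4 ∈ I4, ∀ x5 ∈ I5, ∀ x6 ∈ I6,
      F x1 x2 x3 x4 l5 x6 → F x1 x2 x3 x4 u5 x6 → F x1 x2 x3 x4 x5 x6)
    (s6 : ∀ x1 ∈ I1, ∀ x2 ∈ I2, ∀ x3 ∈ I3, ∀ x4 ∈ I4, ∀ x5 ∈ I5, ∀ x6 ∈ I6,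
      F x1 x2 x3 x4 x5 l6 → F x1 x2 x3 x4 x5 u6 → F x1 x2 x3 x4 x5 x6)
    (hv : ∀ v1 v2 v3 v4 v5 v6, (v1 = l1 ∨ v1 = u1) → (v2 = l2 ∨ v2 = u2) → (v3 = l3 ∨ v3 = u3) →
      (v4 = l4 ∨ v4 = u4) → (v5 = l5 ∨ v5 = u5) → (v6 = l6 ∨ v6 = u6) → F v1 v2 v3 v4 v5 v6) :
    ∀ x1 ∈ I1, ∀ x2 ∈ I2, ∀ x3 ∈ I3, ∀ x4 ∈ I4, ∀ x5 ∈ I5, ∀ x6 ∈ I6, F x1 x2 x3 x4 x5 x6 := by
  have m : ∀ {I : Set ℝ} {l u v : ℝ}, l ∈ I → u ∈ I → (v = l ∨ v = u) → v ∈ I :=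
    fun a b h => h.elim (fun h => h ▸ a) fun h => h ▸ b
  have t6 : ∀ v1 v2 v3 v4 v5, (v1 = l1 ∨ v1 = u1) → (v2 = l2 ∨ v2 = u2) → (v3 = l3 ∨ v3 = u3) →
      (v4 = l4 ∨ v4 = u4) → (v5 = l5 ∨ v5 = u5) → ∀ x6 ∈ I6, F v1 v2 v3 v4 v5 x6 :=
    fun v1 v2 v3 v4 v5 k1 k2 k3 k4 k5 x6 h6 =>
      s6 _ (m a1 b1 k1) _ (m a2 b2 k2) _ (m a3 b3 k3) _ (m a4 b4 k4) _ (m a5 b5 k5) _ h6
        (hv _ _ _ _ _ _ k1 k2 k3 k4 k5 (.inl rfl)) (hv _ _ _ _ _ _ k1 k2 k3 k4 k5 (.inr rfl))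
  have t5 : ∀ v1 v2 v3 v4, (v1 = l1 ∨ v1 = u1) → (v2 = l2 ∨ v2 = u2) → (v3 = l3 ∨ v3 = u3) →
      (v4 = l4 ∨ v4 = u4) → ∀ x5 ∈ I5, ∀ x6 ∈ I6, F v1 v2 v3 v4 x5 x6 :=
    fun v1 v2 v3 v4 k1 k2 k3 k4 x5 h5 x6 h6 =>
      s5 _ (m a1 b1 k1) _ (m a2 b2 k2) _ (m a3 b3 k3) _ (m a4 b4 k4) _ h5 _ h6
        (t6 _ _ _ _ _ k1 k2 k3 k4 (.inl rfl) _ h6) (t6 _ _ _ _ _ k1 k2 k3 k4 (.inr rfl) _ h6)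
  have t4 : ∀ v1 v2 v3, (v1 = l1 ∨ v1 = u1) → (v2 = l2 ∨ v2 = u2) → (v3 = l3 ∨ v3 = u3) →
      ∀ x4 ∈ I4, ∀ x5 ∈ I5, ∀ x6 ∈ I6, F v1 v2 v3 x4 x5 x6 :=
    fun v1 v2 v3 k1 k2 k3 x4 h4 x5 h5 x6 h6 =>
      s4 _ (m a1 b1 k1) _ (m a2 b2 k2) _ (m a3 b3 k3) _ h4 _ h5 _ h6
        (t5 _ _ _ _ k1 k2 k3 (.inl rfl) _ h5 _ h6) (t5 _ _ _ _ k1 k2 k3 (.inr rfl) _ h5 _ h6)
  have t3 : ∀ v1 v2, (v1 = l1 ∨ v1 = u1) → (v2 = l2 ∨ v2 = u2) →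
      ∀ x3 ∈ I3, ∀ x4 ∈ I4, ∀ x5 ∈ I5, ∀ x6 ∈ I6, F v1 v2 x3 x4 x5 x6 :=
    fun v1 v2 k1 k2 x3 h3 x4 h4 x5 h5 x6 h6 =>
      s3 _ (m a1 b1 k1) _ (m a2 b2 k2) _ h3 _ h4 _ h5 _ h6
        (t4 _ _ _ k1 k2 (.inl rfl) _ h4 _ h5 _ h6) (t4 _ _ _ k1 k2 (.inr rfl) _ h4 _ h5 _ h6)
  have t2 : ∀ v1, (v1 = l1 ∨ v1 = u1) →
      ∀ x2 ∈ I2, ∀ x3 ∈ I3, ∀ x4 ∈ I4, ∀ x5 ∈ I5, ∀ x6 ∈ I6, F v1 x2 x3 x4 x5 x6 :=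
    fun v1 k1 x2 h2 x3 h3 x4 h4 x5 h5 x6 h6 =>
      s2 _ (m a1 b1 k1) _ h2 _ h3 _ h4 _ h5 _ h6
        (t3 _ _ k1 (.inl rfl) _ h3 _ h4 _ h5 _ h6) (t3 _ _ k1 (.inr rfl) _ h3 _ h4 _ h5 _ h6)
  exact fun x1 h1 x2 h2 x3 h3 x4 h4 x5 h5 x6 h6 => s1 _ h1 _ h2 _ h3 _ h4 _ h5 _ h6
    (t2 _ (.inl rfl) _ h2 _ h3 _ h4 _ h5 _ h6) (t2 _ (.inr rfl) _ h2 _ h3 _ h4 _ h5 _ h6)

/-- a quadratic with nonpositive leading coefficient on the interval from `4` to `8`. -/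
theorem quad_ge {a b c x : ℝ} (hx : x ∈ Icc (4 : ℝ) 8) (h4 : 0 ≤ -a * 4 ^ 2 + b * 4 + c)
    (h8 : 0 ≤ -a * 8 ^ 2 + b * 8 + c) : a * ((x - 4) * (8 - x)) ≤ -a * x ^ 2 + b * x + c := by
  nlinarith [mul_nonneg (sub_nonneg.2 hx.2) h4, mul_nonneg (sub_nonneg.2 hx.1) h8]

theorem del_step {x1 x2 x3 x4 x5 x6 : ℝ} (h4 : x4 ∈ Icc (4 : ℝ) 8)
    (a : 0 ≤ del x1 x2 x3 4 x5 x6) (b : 0 ≤ del x1 x2 x3 8 x5 x6) :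
    x1 * ((x4 - 4) * (8 - x4)) ≤ del x1 x2 x3 x4 x5 x6 := by
  have e : ∀ t, del x1 x2 x3 t x5 x6 =
      -x1 * t ^ 2 + del4 x1 x2 x3 0 x5 x6 * t + del x1 x2 x3 0 x5 x6 := fun t => by
    unfold del del4; ring
  rw [e] at a b ⊢
  exact quad_ge h4 a b

theorem del_step' {x1 x2 x3 x4 x5 x6 : ℝ} (h1 : x1 ∈ Icc (4 : ℝ) 8) (h4 : x4 ∈ Icc (4 : ℝ) 8)
    (a : 0 ≤ del x1 x2 x3 4 x5 x6) (b : 0 ≤ del x1 x2 x3 8 x5 x6) :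
    0 ≤ del x1 x2 x3 x4 x5 x6 :=
  (mul_nonneg (by linarith [h1.1]) (mul_nonneg (sub_nonneg.2 h4.1) (sub_nonneg.2 h4.2))).trans
    (del_step h4 a b)

theorem del_nonneg : ∀ x1 ∈ Icc (4 : ℝ) 8, ∀ x2 ∈ Icc (4 : ℝ) 8, ∀ x3 ∈ Icc (4 : ℝ) 8,
    ∀ x4 ∈ Icc (4 : ℝ) 8, ∀ x5 ∈ Icc (4 : ℝ) 8, ∀ x6 ∈ Icc (4 : ℝ) 8,
    0 ≤ del x1 x2 x3 x4 x5 x6 := by
  have p : (4 : ℝ) ∈ Icc (4 : ℝ) 8 := ⟨le_rfl, by norm_num⟩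
  have q : (8 : ℝ) ∈ Icc (4 : ℝ) 8 := ⟨by norm_num, le_rfl⟩
  refine six (fun x1 x2 x3 x4 x5 x6 => 0 ≤ del x1 x2 x3 x4 x5 x6) _ _ _ _ _ _
    (l6 := 4) (u6 := 8) p q p q p q p q p q ?_ ?_ ?_ ?_ ?_ ?_ ?_
  · intro x1 h1 x2 _ x3 _ x4 h4 x5 _ x6 _ a b
    rw [← sy4] at a b ⊢
    exact del_step' h4 h1 a b
  · intro x1 _ x2 h2 x3 _ x4 _ x5 h5 x6 _ a b
    rw [← sy5] at a b ⊢
    exact del_step' h5 h2 a b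
  · intro x1 _ x2 _ x3 h3 x4 _ x5 _ x6 h6 a b
    rw [← sy6] at a b ⊢
    exact del_step' h6 h3 a b
  · intro x1 h1 x2 _ x3 _ x4 h4 x5 _ x6 _ a b
    exact del_step' h1 h4 a b
  · intro x1 _ x2 h2 x3 _ x4 _ x5 h5 x6 _ a b
    rw [← sy2] at a b ⊢
    exact del_step' h2 h5 a b
  · intro x1 _ x2 _ x3 h3 x4 _ x5 _ x6 h6 a b
    rw [← sy3] at a b ⊢
    exact del_step' h3 h6 a b
  · rintro _ _ _ _ _ _ (rfl | rfl) (rfl | rfl) (rfl | rfl) (rfl | rfl) (rfl | rfl) (rfl | rfl) <;>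
      norm_num [del]

/-- inside an edge direction of the cube the tetrahedron is not flat. -/
theorem del_pos {x1 x2 x3 x4 x5 x6 : ℝ} (h1 : x1 ∈ Icc (4 : ℝ) 8) (h2 : x2 ∈ Icc (4 : ℝ) 8)
    (h3 : x3 ∈ Icc (4 : ℝ) 8) (h4 : x4 ∈ Ioo (4 : ℝ) 8) (h5 : x5 ∈ Icc (4 : ℝ) 8)
    (h6 : x6 ∈ Icc (4 : ℝ) 8) : 0 < del x1 x2 x3 x4 x5 x6 :=
  (mul_pos (by linarith [h1.1]) (mul_pos (sub_pos.2 h4.1) (sub_pos.2 h4.2))).trans_le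
    (del_step (Ioo_subset_Icc_self h4)
      (del_nonneg _ h1 _ h2 _ h3 _ ⟨le_rfl, by norm_num⟩ _ h5 _ h6)
      (del_nonneg _ h1 _ h2 _ h3 _ ⟨by norm_num, le_rfl⟩ _ h5 _ h6))

/-- if the derivative `g` of `φ`, multiplied by a positive function `m`, has nonpositive
derivative, then `φ` is at least its smaller boundary value. -/
theorem quasi {φ g m d : ℝ → ℝ} {l u x c : ℝ} (hx : x ∈ Icc l u) (hc : ContinuousOn φ (Icc l u))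
    (h1 : ∀ t ∈ Ioo l u, HasDerivAt φ (g t) t) (hm : ∀ t ∈ Ioo l u, 0 < m t)
    (h2 : ∀ t ∈ Ioo l u, HasDerivAt (fun s => m s * g s) (d t) t) (hd : ∀ t ∈ Ioo l u, d t ≤ 0)
    (hl : c ≤ φ l) (hu : c ≤ φ u) : c ≤ φ x := by
  by_contra hlt
  rw [not_le] at hlt
  have xl : l < x := hx.1.lt_of_ne fun h => by rw [← h] at hlt; linarith
  have xu : x < u := hx.2.lt_of_ne fun h => by rw [h] at hlt; linarith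
  obtain ⟨a, ha, ea⟩ := exists_hasDerivAt_eq_slope φ g xl (hc.mono (Icc_subset_Icc_right hx.2))
    fun t ht => h1 t ⟨ht.1, ht.2.trans xu⟩
  obtain ⟨b, hb, eb⟩ := exists_hasDerivAt_eq_slope φ g xu (hc.mono (Icc_subset_Icc_left hx.1))
    fun t ht => h1 t ⟨xl.trans ht.1, ht.2⟩
  have ha' : a ∈ Ioo l u := ⟨ha.1, ha.2.trans xu⟩
  have hb' : b ∈ Ioo l u := ⟨xl.trans hb.1, hb.2⟩
  have ga : g a < 0 := ea ▸ div_neg_of_neg_of_pos (by linarith) (by linarith)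
  have gb : 0 < g b := eb ▸ div_pos (by linarith) (by linarith)
  have ab : a < b := ha.2.trans hb.1
  have sub : Icc a b ⊆ Ioo l u := fun t ht => ⟨ha'.1.trans_le ht.1, ht.2.trans_lt hb'.2⟩
  obtain ⟨e, he, ee⟩ := exists_hasDerivAt_eq_slope (fun s => m s * g s) d ab
    (fun t ht => (h2 t (sub ht)).continuousAt.continuousWithinAt)
    fun t ht => h2 t (sub (Ioo_subset_Icc_self ht))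
  have k := hd e (sub (Ioo_subset_Icc_self he))
  have k1 := mul_neg_of_pos_of_neg (hm a ha') ga
  have k2 := mul_pos (hm b hb') gb
  have : 0 < d e := ee ▸ div_pos (by linarith) (by linarith)
  linarith

end Pool.Agent.Lib.MP_f3b2fd_co.KA.Box
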