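import Pool.Agent.Lib.MP_f3b2fd_co.KEP.A.St2

/-! The weight function, the corrections along critical edges, and the count round an edge. -/

namespace Pool.Agent.Lib.MP_f3b2fd_co.KN

open Real KA

noncomputable section

/-- the function affine in `x ^ 3` with values `a` at `l` and `b` at `u`. -/
def lin (l u a b x : ℝ) : ℝ := a + (b - a) / (u ^ 3 - l ^ 3) * (x ^ 3 - l ^ 3)

/-- the weight of an edge of squared length `x`. -/
def FF (x : ℝ) : ℝ :=
  if x ≤ 17 / 4 then lin 4 (17 / 4) 1 (829 / 1000) x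
  else if x ≤ 37 / 8 then lin (17 / 4) (37 / 8) (829 / 1000) (1217 / 2000) x
  else if x ≤ 41 / 8 then lin (37 / 8) (41 / 8) (1217 / 2000) (757 / 2000) x
  else if x ≤ 23 / 4 then lin (41 / 8) (23 / 4) (757 / 2000) (359 / 2000) x
  else if x ≤ 425 / 64 then lin (23 / 4) (425 / 64) (359 / 2000) (59 / 2000) x
  else 0

/-- the weight of an edge of length `2 * h`. -/
def ff (h : ℝ) : ℝ := FF (4 * h ^ 2)

/-- the correction along a critical edge. -/
def cr (k : ℕ) (θ : ℝ) : ℝ :=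
  if k = 4 then min (3 / 160 * (π / 2 - θ)) (13 / 800 * (θ - 2 * π / 5))
  else if k = 3 then -min (3 / 160 * θ) (11 / 1000) else -(3 / 160 * θ)

open Classical in
/-- the gain of a `k`-cell along an edge. -/
def PP (b : ℝ) (k : ℕ) (x θ : ℝ) : ℝ :=
  8 * b / π * FF x * θ + if 425 / 64 < x ∧ x ≤ 57 / 8 then cr k θ else 0

end

theorem FF1 {x : ℝ} (h : x ≤ 17 / 4) : FF x = lin 4 (17 / 4) 1 (829 / 1000) x := by
  rw [FF, if_pos h]

theorem FF2 {x : ℝ} (g : 17 / 4 < x) (h : x ≤ 37 / 8) :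
    FF x = lin (17 / 4) (37 / 8) (829 / 1000) (1217 / 2000) x := by
  rw [FF, if_neg (by linarith), if_pos h]

theorem FF3 {x : ℝ} (g : 37 / 8 < x) (h : x ≤ 41 / 8) :
    FF x = lin (37 / 8) (41 / 8) (1217 / 2000) (757 / 2000) x := by
  rw [FF, if_neg (by linarith), if_neg (by linarith), if_pos h]

theorem FF4 {x : ℝ} (g : 41 / 8 < x) (h : x ≤ 23 / 4) :
    FF x = lin (41 / 8) (23 / 4) (757 / 2000) (359 / 2000) x := by
  rw [FF, if_neg (by linarith), if_neg (by linarith), if_neg (by linarith), if_pos h]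

theorem FF5 {x : ℝ} (g : 23 / 4 < x) (h : x ≤ 425 / 64) :
    FF x = lin (23 / 4) (425 / 64) (359 / 2000) (59 / 2000) x := by
  rw [FF, if_neg (by linarith), if_neg (by linarith), if_neg (by linarith), if_neg (by linarith),
    if_pos h]

theorem FF6 {x : ℝ} (g : 425 / 64 < x) : FF x = 0 := by
  rw [FF, if_neg (by linarith), if_neg (by linarith), if_neg (by linarith), if_neg (by linarith),
    if_neg (by linarith)]

/-- the six ranges. -/
theorem FF_cases (x : ℝ) : x ≤ 17 / 4 ∨ (17 / 4 < x ∧ x ≤ 37 / 8) ∨ (37 / 8 < x ∧ x ≤ 41 / 8) ∨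
    (41 / 8 < x ∧ x ≤ 23 / 4) ∨ (23 / 4 < x ∧ x ≤ 425 / 64) ∨ 425 / 64 < x := by
  rcases le_or_gt x (17 / 4) with h | h
  · exact Or.inl h
  rcases le_or_gt x (37 / 8) with h1 | h1
  · exact Or.inr (Or.inl ⟨h, h1⟩)
  rcases le_or_gt x (41 / 8) with h2 | h2
  · exact Or.inr (Or.inr (Or.inl ⟨h1, h2⟩))
  rcases le_or_gt x (23 / 4) with h3 | h3
  · exact Or.inr (Or.inr (Or.inr (Or.inl ⟨h2, h3⟩)))
  rcases le_or_gt x (425 / 64) with h4 | h4
  · exact Or.inr (Or.inr (Or.inr (Or.inr (Or.inl ⟨h3, h4⟩))))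
  exact Or.inr (Or.inr (Or.inr (Or.inr (Or.inr h4))))

theorem cube_le {x u : ℝ} (h : x ≤ u) : x ^ 3 ≤ u ^ 3 :=
  (Odd.strictMono_pow (by decide : Odd 3)).monotone h

theorem FF_nonneg (x : ℝ) : 0 ≤ FF x := by
  rcases FF_cases x with h | ⟨g, h⟩ | ⟨g, h⟩ | ⟨g, h⟩ | ⟨g, h⟩ | g
  · rw [FF1 h, lin]; have := cube_le h; norm_num at this ⊢; linarith
  · rw [FF2 g h, lin]; have := cube_le h; norm_num at this ⊢; linarith
  · rw [FF3 g h, lin]; have := cube_le h; norm_num at this ⊢; linarith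
  · rw [FF4 g h, lin]; have := cube_le h; norm_num at this ⊢; linarith
  · rw [FF5 g h, lin]; have := cube_le h; norm_num at this ⊢; linarith
  · rw [FF6 g]

theorem ff_nonneg (h : ℝ) : 0 ≤ ff h := FF_nonneg _

theorem ff_zero {hs : ℝ} (h0 : 0 ≤ hs) (h1 : 425 / 256 ≤ hs ^ 2) (h : ℝ) (hh : hs < h) :
    ff h = 0 := FF6 (by nlinarith)

/-- a linear bound in the squared length. -/
theorem FF_slope {x : ℝ} (h0 : 4 ≤ x) (h1 : x ≤ 57 / 8) : FF x ≤ 1 - (x - 4) / 4 := by
  rcases FF_cases x with h | ⟨g, h⟩ | ⟨g, h⟩ | ⟨g, h⟩ | ⟨g, h⟩ | g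
  · rw [FF1 h, lin]
    have : 48 * (x - 4) ≤ x ^ 3 - 64 := by nlinarith [mul_nonneg (sq_nonneg (x - 4)) (by linarith : 0 ≤ x + 8)]
    norm_num
    linarith
  · rw [FF2 g h, lin]; have := cube_le g.le; norm_num at this ⊢; linarith
  · rw [FF3 g h, lin]; have := cube_le g.le; norm_num at this ⊢; linarith
  · rw [FF4 g h, lin]; have := cube_le g.le; norm_num at this ⊢; linarith
  · rw [FF5 g h, lin]; have := cube_le g.le; norm_num at this ⊢; linarith
  · rw [FF6 g]; linarith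

theorem ff_slope {hs : ℝ} (h1 : hs ≤ 4 / 3) (h : ℝ) (g0 : 1 ≤ h) (g1 : h ≤ hs) :
    2 * (h - 1) ≤ 1 - ff h := by
  have := FF_slope (x := 4 * h ^ 2) (by nlinarith) (by nlinarith)
  rw [ff]
  nlinarith

theorem cr_sum {J : Type} (s : Finset J) (k : J → ℕ) (θ : J → ℝ) (h0 : ∀ j ∈ s, 0 ≤ θ j)
    (hs : ∑ j ∈ s, θ j = 2 * π) : ∑ j ∈ s, cr (k j) (θ j) ≤ 0 := by
  classical
  have hp := pi_pos
  have cnt : ∀ c : ℝ, ∑ j ∈ s, (if k j = 4 then c else 0) =
      ((s.filter fun j => k j = 4).card : ℝ) * c := fun c => by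
    rw [← Finset.sum_filter, Finset.sum_const, nsmul_eq_mul]
  set n := (s.filter fun j => k j = 4).card
  rcases le_or_gt 5 n with hn | hn
  · have hn' : (5 : ℝ) ≤ n := by exact_mod_cast hn
    refine (Finset.sum_le_sum (g := fun j => 13 / 800 * θ j -
      if k j = 4 then 13 / 800 * (2 * π / 5) else 0) fun j hj => ?_).trans ?_
    · have := h0 j hj
      unfold cr
      split_ifs
      · exact (min_le_right _ _).trans (by linarith)
      · have : 0 ≤ min (3 / 160 * θ j) (11 / 1000) := le_min (by linarith) (by norm_num)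
        linarith
      · linarith
    · rw [Finset.sum_sub_distrib, cnt, ← Finset.mul_sum, hs]
      nlinarith
  have hn' : (n : ℝ) ≤ 4 := by exact_mod_cast Nat.lt_succ_iff.1 hn
  by_cases hq : ∃ i ∈ s, k i = 3 ∧ 11 / 1000 ≤ 3 / 160 * θ i
  · obtain ⟨i, hi, k3, hq⟩ := hq
    refine (Finset.sum_le_sum (g := fun j => (if k j = 4 then 11 / 4000 else 0) -
      if j = i then (11 / 1000 : ℝ) else 0) fun j hj => ?_).trans ?_
    · have := h0 j hj
      by_cases e : j = i
      · subst e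
        simp only [cr, k3, if_true, min_eq_right hq]
        norm_num
      · rw [if_neg e]
        unfold cr
        split_ifs
        · have a1 := min_le_left (3 / 160 * (π / 2 - θ j)) (13 / 800 * (θ j - 2 * π / 5))
          have a2 := min_le_right (3 / 160 * (π / 2 - θ j)) (13 / 800 * (θ j - 2 * π / 5))
          linarith [pi_lt_d2]
        · have : 0 ≤ min (3 / 160 * θ j) (11 / 1000) := le_min (by linarith) (by norm_num)
          linarith
        · linarith
    · rw [Finset.sum_sub_distrib, cnt, Finset.sum_ite_eq' s i, if_pos hi]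
      linarith
  · refine (Finset.sum_le_sum (g := fun j => (if k j = 4 then 3 / 160 * (π / 2) else 0) -
      3 / 160 * θ j) fun j hj => ?_).trans ?_
    · unfold cr
      split_ifs with a b
      · exact (min_le_left _ _).trans (by linarith)
      · rw [min_eq_left (le_of_not_ge fun c => hq ⟨j, hj, b, c⟩)]
        linarith
      · linarith
    · rw [Finset.sum_sub_distrib, cnt, ← Finset.mul_sum, hs]
      nlinarith

theorem clS (b : ℝ) : CL b ff (PP b) := by
  intro h J s k θ _ _ hk hs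
  have e : ∑ j ∈ s, 8 * b / π * FF (4 * h ^ 2) * θ j = 16 * b * ff h := by
    rw [← Finset.mul_sum, hs, ff]
    field_simp
    ring
  simp only [PP]
  rw [Finset.sum_add_distrib, e]
  split_ifs
  · linarith [cr_sum s k θ (fun j hj => (hk j hj).2.2.1) hs]
  · simp

end Pool.Agent.Lib.MP_f3b2fd_co.KN
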