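import Mathlib

/-! Vectors of 64-bit lanes packed into one natural number: comparison, square root, angle. -/

namespace Pool.Agent.Lib.MP_f3b2fd_co.KS

open Real

/-- lanes of width `w`. -/
def pk (w n : ℕ) (f : ℕ → ℕ) : ℕ :=
  Nat.rec 0 (fun i r => Nat.add r (Nat.shiftLeft (f i) (Nat.mul w i))) n

/-- the mask of the lanes with `b ≤ a`. -/
def ge (G a b : ℕ) : ℕ :=
  Nat.sub (Nat.land (Nat.sub (Nat.add a G) b) G)
    (Nat.shiftRight (Nat.land (Nat.sub (Nat.add a G) b) G) 63)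

/-- lanewise square root. -/
def sq (O G n : ℕ) : ℕ → ℕ → ℕ :=
  Nat.rec (fun _ q => q) (fun j ih r q =>
    ih (Nat.sub r (Nat.land (Nat.add (Nat.shiftLeft q (Nat.succ j)) (Nat.shiftLeft O (Nat.mul 2 j)))
        (ge G r (Nat.add (Nat.shiftLeft q (Nat.succ j)) (Nat.shiftLeft O (Nat.mul 2 j))))))
      (Nat.add q (Nat.land (Nat.shiftLeft O j)
        (ge G r (Nat.add (Nat.shiftLeft q (Nat.succ j)) (Nat.shiftLeft O (Nat.mul 2 j))))))) n

/-- lanewise shift. -/
def shr (O k a : ℕ) : ℕ :=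
  Nat.shiftRight (Nat.land a (Nat.mul O (Nat.sub 18446744073709551616 (Nat.shiftLeft 1 k)))) k

/-- rotations by the angles `arctan (1 / 2 ^ k)`; `T k` is added in the lanes that turn. -/
def rot (O G : ℕ) (T : ℕ → ℕ) (n : ℕ) : ℕ → ℕ → ℕ → ℕ → ℕ :=
  Nat.rec (fun _ _ _ z => z) (fun _ ih k x y z =>
    ih (Nat.succ k) (Nat.add x (Nat.land (shr O (Nat.mul 2 k) y) (ge G y x)))
      (Nat.shiftLeft (Nat.sub y (Nat.land x (ge G y x))) 1)
      (Nat.add z (Nat.land (T k) (ge G y x)))) n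

theorem pk_zero (w : ℕ) (f : ℕ → ℕ) : pk w 0 f = 0 := rfl
theorem pk_succ (w n : ℕ) (f : ℕ → ℕ) : pk w (n + 1) f = 2 ^ (w * n) * f n + pk w n f := by
  show pk w n f + f n <<< (w * n) = _
  rw [Nat.shiftLeft_eq]; ring

theorem pk_congr (w n : ℕ) (f g : ℕ → ℕ) (h : ∀ i < n, f i = g i) : pk w n f = pk w n g := by
  induction n with
  | zero => rfl
  | succ n ih => rw [pk_succ, pk_succ, ih fun i hi => h i (by omega), h n (by omega)]

theorem pk_add (w n : ℕ) (f g : ℕ → ℕ) : pk w n f + pk w n g = pk w n fun i => f i + g i := by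
  induction n with
  | zero => rfl
  | succ n ih => rw [pk_succ, pk_succ, pk_succ, ← ih]; ring

theorem pk_mul (w n c : ℕ) (f : ℕ → ℕ) : pk w n f * c = pk w n fun i => f i * c := by
  induction n with
  | zero => simp [pk_zero]
  | succ n ih => rw [pk_succ, pk_succ, ← ih]; ring

theorem pk_shl (w n k : ℕ) (f : ℕ → ℕ) : pk w n f <<< k = pk w n fun i => f i * 2 ^ k := by
  rw [Nat.shiftLeft_eq, pk_mul]

theorem pk_sub (w n : ℕ) (f g : ℕ → ℕ) (h : ∀ i < n, g i ≤ f i) :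
    pk w n f - pk w n g = pk w n fun i => f i - g i :=
  Nat.sub_eq_of_eq_add (by
    rw [pk_add]; exact pk_congr _ _ _ _ fun i hi => (Nat.sub_add_cancel (h i hi)).symm)

theorem pk_shr (w n k : ℕ) (e : ℕ → ℕ) : (pk w n fun i => e i * 2 ^ k) >>> k = pk w n e := by
  rw [← pk_mul, Nat.shiftRight_eq_div_pow, Nat.mul_div_cancel _ (by positivity)]

theorem pk_lt (w n : ℕ) (f : ℕ → ℕ) (h : ∀ i < n, f i < 2 ^ w) : pk w n f < 2 ^ (w * n) := by
  induction n with
  | zero => simp [pk_zero]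
  | succ n ih =>
    have h1 := ih fun i hi => h i (by omega)
    have h2 : f n + 1 ≤ 2 ^ w := h n (by omega)
    rw [pk_succ, mul_add, mul_one, pow_add]
    have := Nat.mul_le_mul_left (2 ^ (w * n)) h2
    nlinarith

theorem pk_and (w n : ℕ) (f g : ℕ → ℕ) (hf : ∀ i < n, f i < 2 ^ w) (hg : ∀ i < n, g i < 2 ^ w) :
    pk w n f &&& pk w n g = pk w n fun i => f i &&& g i := by
  induction n with
  | zero => simp [pk_zero]
  | succ n ih =>
    have h1 := pk_lt w n f fun i hi => hf i (by omega)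
    have h2 := pk_lt w n g fun i hi => hg i (by omega)
    rw [pk_succ, pk_succ, pk_succ, ← ih (fun i hi => hf i (by omega)) fun i hi => hg i (by omega)]
    apply Nat.eq_of_testBit_eq
    intro j
    rw [Nat.testBit_and, Nat.testBit_two_pow_mul_add _ h1, Nat.testBit_two_pow_mul_add _ h2,
      Nat.testBit_two_pow_mul_add _ (Nat.and_lt_two_pow _ h2)]
    split_ifs <;> simp

theorem pk_eq_zero (w n : ℕ) (f : ℕ → ℕ) (h : pk w n f = 0) : ∀ i < n, f i = 0 := by
  induction n with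
  | zero => intro i hi; omega
  | succ n ih =>
    rw [pk_succ, Nat.add_eq_zero_iff, Nat.mul_eq_zero] at h
    intro i hi
    rcases Nat.lt_succ_iff_lt_or_eq.1 hi with h1 | rfl
    · exact ih h.2 i h1
    · exact h.1.resolve_left (by positivity)

theorem pk_split (w n m : ℕ) (f : ℕ → ℕ) :
    pk w (n + m) f = 2 ^ (w * n) * pk w m (fun i => f (n + i)) + pk w n f := by
  induction m with
  | zero => simp [pk_zero]
  | succ m ih => rw [← add_assoc, pk_succ, pk_succ, ih]; ring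

/-- the outer product. -/
theorem pk_outer (w n m : ℕ) (hn : 0 < n) (f g : ℕ → ℕ) :
    pk w n f * pk (w * n) m g = pk w (n * m) fun i => f (i % n) * g (i / n) := by
  induction m with
  | zero => simp [pk_zero]
  | succ m ih =>
    rw [pk_succ, Nat.mul_succ, pk_split, ← ih, mul_add, mul_left_comm, pk_mul, mul_assoc]
    congr 2
    refine pk_congr _ _ _ _ fun i hi => ?_
    rw [Nat.mul_add_mod, Nat.mod_eq_of_lt hi, Nat.mul_add_div hn, Nat.div_eq_of_lt hi, add_zero]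

theorem ge_pk (n : ℕ) (f g : ℕ → ℕ) (h : ∀ i < n, f i < 2 ^ 63 ∧ g i < 2 ^ 63) :
    ge (pk 64 n fun _ => 2 ^ 63) (pk 64 n f) (pk 64 n g) =
      pk 64 n fun i => if g i ≤ f i then 2 ^ 63 - 1 else 0 := by
  have hd : pk 64 n f + (pk 64 n fun _ => 2 ^ 63) - pk 64 n g =
      pk 64 n fun i => f i + 2 ^ 63 - g i := by
    rw [pk_add, pk_sub _ _ _ _ fun i hi => by have := h i hi; omega]
  have hl : ∀ i < n, f i + 2 ^ 63 - g i < 2 ^ (63 + 1) := fun i hi => by
    have := h i hi; omega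
  have hm : (pk 64 n fun i => f i + 2 ^ 63 - g i) &&& (pk 64 n fun _ => 2 ^ 63) =
      pk 64 n fun i => (if g i ≤ f i then 1 else 0) * 2 ^ 63 := by
    rw [pk_and _ _ _ _ hl fun i _ => by norm_num]
    refine pk_congr _ _ _ _ fun i hi => ?_
    have := h i hi
    rw [Nat.and_two_pow]
    split_ifs with e
    · rw [Nat.testBit_of_two_pow_le_and_two_pow_add_one_gt (by omega) (hl i hi)]; rfl
    · rw [Nat.testBit_lt_two_pow (by omega)]; rfl
  show ((pk 64 n f + _ - pk 64 n g) &&& _) - ((pk 64 n f + _ - pk 64 n g) &&& _) >>> 63 = _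
  rw [hd, hm, pk_shr, pk_sub _ _ _ _ fun i _ => Nat.le_mul_of_pos_right _ (by positivity)]
  refine pk_congr _ _ _ _ fun i _ => ?_
  split_ifs <;> rfl

theorem and_sel (n : ℕ) (h : ℕ → ℕ) (c : ℕ → Prop) [DecidablePred c] (hh : ∀ i < n, h i < 2 ^ 63) :
    pk 64 n h &&& pk 64 n (fun i => if c i then 2 ^ 63 - 1 else 0) =
      pk 64 n fun i => if c i then h i else 0 := by
  rw [pk_and _ _ _ _ (fun i hi => (hh i hi).trans (by norm_num))
    fun i _ => by split_ifs <;> norm_num]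
  refine pk_congr _ _ _ _ fun i hi => ?_
  split_ifs
  · rw [Nat.and_two_pow_sub_one_eq_mod, Nat.mod_eq_of_lt (hh i hi)]
  · exact Nat.and_zero _

theorem shr_pk (n k : ℕ) (hk : k ≤ 64) (f : ℕ → ℕ) (hf : ∀ i < n, f i < 2 ^ 64) :
    shr (pk 64 n fun _ => 1) k (pk 64 n f) = pk 64 n fun i => f i / 2 ^ k := by
  show (pk 64 n f &&& (pk 64 n fun _ => 1) * (2 ^ 64 - 1 <<< k)) >>> k = _
  have hp : 0 < 2 ^ k := by positivity
  rw [pk_mul, pk_and _ _ _ _ hf fun i _ => by rw [Nat.shiftLeft_eq]; omega,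
    ← pk_shr 64 n k fun i => f i / 2 ^ k]
  congr 1
  refine pk_congr _ _ _ _ fun i hi => ?_
  obtain ⟨d, hd⟩ := Nat.exists_eq_add_of_le hk
  have e : 1 * (2 ^ 64 - 1 <<< k) = (2 ^ d - 1) * 2 ^ k := by
    rw [Nat.shiftLeft_eq, one_mul, one_mul, Nat.sub_mul, one_mul, ← pow_add, hd, add_comm]
  rw [e]
  apply Nat.eq_of_testBit_eq
  intro j
  rw [Nat.testBit_and, Nat.testBit_mul_two_pow, Nat.testBit_mul_two_pow, Nat.testBit_div_two_pow,
    Nat.testBit_two_pow_sub_one]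
  by_cases h1 : k ≤ j
  · by_cases h2 : j - k < d
    · simp [h1, h2]
    · rw [Nat.sub_add_cancel h1, Nat.testBit_lt_two_pow
        ((hf i hi).trans_le (Nat.pow_le_pow_right two_pos (by omega)))]
      simp
  · simp [h1]

theorem sq_pk (n : ℕ) (D : ℕ → ℕ) (j : ℕ) : j ≤ 30 → ∀ r q : ℕ → ℕ,
    (∀ i < n, q i ^ 2 + r i = D i ∧ D i < (q i + 2 ^ j) ^ 2 ∧ D i < 2 ^ 60) →
    ∃ s : ℕ → ℕ, sq (pk 64 n fun _ => 1) (pk 64 n fun _ => 2 ^ 63) j (pk 64 n r) (pk 64 n q) =
      pk 64 n s ∧ ∀ i < n, s i ^ 2 ≤ D i ∧ D i < (s i + 1) ^ 2 := by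
  induction j with
  | zero => exact fun _ r q h => ⟨q, rfl, fun i hi => ⟨by have := h i hi; omega, (h i hi).2.1⟩⟩
  | succ j ih =>
    intro hj r q h
    have p1 : 2 ^ j ≤ 2 ^ 29 := Nat.pow_le_pow_right two_pos (by omega)
    have p0 : 0 < 2 ^ j := by positivity
    have hc : ∀ i < n, q i * 2 ^ (j + 1) + 1 * 2 ^ (2 * j) < 2 ^ 63 := fun i hi => by
      obtain ⟨a, -, c⟩ := h i hi
      have : q i < 2 ^ 30 := by
        by_contra e
        nlinarith
      rw [pow_mul', pow_succ]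
      nlinarith
    have hr : ∀ i < n, r i < 2 ^ 63 := fun i hi => by have := h i hi; omega
    obtain ⟨s, e, hs⟩ := ih (by omega)
      (fun i => r i - if q i * 2 ^ (j + 1) + 1 * 2 ^ (2 * j) ≤ r i then
        q i * 2 ^ (j + 1) + 1 * 2 ^ (2 * j) else 0)
      (fun i => q i + if q i * 2 ^ (j + 1) + 1 * 2 ^ (2 * j) ≤ r i then 1 * 2 ^ j else 0)
      fun i hi => by
        obtain ⟨a, b, c⟩ := h i hi
        rw [pow_mul', pow_succ 2 j] at *
        generalize 2 ^ j = t at *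
        split_ifs with e
        · obtain ⟨d, hd⟩ := Nat.exists_eq_add_of_le e
          refine ⟨by rw [hd, Nat.add_sub_cancel_left]; nlinarith, by nlinarith, c⟩
        · refine ⟨by simpa using a, by nlinarith, c⟩
    refine ⟨s, Eq.trans ?_ e, hs⟩
    show sq _ _ j (_ - ((_ <<< (j + 1) + _ <<< (2 * j)) &&& ge _ _ (_ <<< (j + 1) + _ <<< (2 * j))))
      (_ + ((_ <<< j) &&& ge _ _ (_ <<< (j + 1) + _ <<< (2 * j)))) = _
    rw [pk_shl, pk_shl, pk_shl, pk_add, ge_pk _ _ _ fun i hi => ⟨hr i hi, hc i hi⟩,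
      and_sel _ _ _ hc, and_sel _ _ _ fun i _ => by omega, pk_add,
      pk_sub _ _ _ _ fun i _ => by split_ifs <;> omega]

theorem rot_succ (n m k : ℕ) (hk : k ≤ 32) (T : ℕ → ℕ) (t x y z : ℕ → ℕ) (hT : T k = pk 64 n t)
    (h : ∀ i < n, x i < 2 ^ 63 ∧ y i < 2 ^ 63 ∧ t i < 2 ^ 63) :
    rot (pk 64 n fun _ => 1) (pk 64 n fun _ => 2 ^ 63) T (m + 1) k (pk 64 n x) (pk 64 n y)
        (pk 64 n z) =
      rot (pk 64 n fun _ => 1) (pk 64 n fun _ => 2 ^ 63) T m (k + 1)
        (pk 64 n fun i => x i + if x i ≤ y i then y i / 2 ^ (2 * k) else 0)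
        (pk 64 n fun i => (y i - if x i ≤ y i then x i else 0) * 2 ^ 1)
        (pk 64 n fun i => z i + if x i ≤ y i then t i else 0) := by
  show rot _ _ T m (k + 1) (_ + (shr _ (2 * k) _ &&& ge _ _ _)) ((_ - (_ &&& ge _ _ _)) <<< 1)
    (_ + (T k &&& ge _ _ _)) = _
  rw [hT, ge_pk _ _ _ fun i hi => ⟨(h i hi).2.1, (h i hi).1⟩,
    shr_pk _ _ (by omega) _ fun i hi => (h i hi).2.1.trans (by norm_num),
    and_sel _ _ _ fun i hi => (Nat.div_le_self _ _).trans_lt (h i hi).2.1,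
    and_sel _ _ _ fun i hi => (h i hi).1, and_sel _ _ _ fun i hi => (h i hi).2.2, pk_add, pk_add,
    pk_sub _ _ _ _ fun i _ => by split_ifs <;> omega, pk_shl]

theorem atan_le (t : ℝ) (h : 0 ≤ t) : arctan t ≤ t := by
  have := Real.le_tan (arctan_nonneg.2 h) (arctan_lt_pi_div_two t)
  rwa [tan_arctan] at this

theorem atan_turn (t X Y X' : ℝ) (ht : 0 < t) (hX : 0 < X) (hY : t * X ≤ Y) (h0 : 0 < X')
    (h1 : X' ≤ X + t * Y) : arctan (Y / X) ≤ arctan t + arctan ((Y - t * X) / X') := by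
  have hy : 0 < Y := lt_of_lt_of_le (by positivity) hY
  have e := arctan_add (x := Y / X) (y := -t) (by
    have : 0 < Y / X * t := by positivity
    linarith)
  rw [arctan_neg, show (Y / X + -t) / (1 - Y / X * -t) = (Y - t * X) / (X + t * Y) by
    rw [show 1 - Y / X * -t = (X + t * Y) / X by field_simp; ring]
    field_simp; ring] at e
  have := arctan_mono (div_le_div_of_nonneg_left (sub_nonneg.2 hY) h0 h1)
  linarith

/-- the later rotations. -/
theorem rot_pk (n : ℕ) (T : ℕ → ℕ) (t : ℕ → ℕ → ℕ) (c : ℕ → ℝ) (m : ℕ) : ∀ k, 1 ≤ k → k + m ≤ 32 →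
    (∀ j, k ≤ j → j < k + m → T j = pk 64 n (t j) ∧
      ∀ i < n, t j i < 2 ^ 63 ∧ c i * arctan (1 / 2 ^ j) ≤ t j i) → (∀ i < n, 0 ≤ c i) →
    ∀ x y z : ℕ → ℕ,
    (∀ i < n, 0 < x i ∧ y i ≤ 2 * x i ∧ 3 * 4 ^ k * x i + 8 * 2 ^ 60 ≤ 3 * 4 ^ k * 2 ^ 60) →
    ∃ z' : ℕ → ℕ, rot (pk 64 n fun _ => 1) (pk 64 n fun _ => 2 ^ 63) T m k (pk 64 n x) (pk 64 n y)
      (pk 64 n z) = pk 64 n z' ∧ ∀ i < n, z' i ≤ z i + ∑ j ∈ Finset.Ico k (k + m), t j i ∧
        z i + c i * arctan (y i / (2 ^ k * x i)) ≤ z' i + c i * (2 / 2 ^ (k + m)) := by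
  induction m with
  | zero =>
    intro k _ _ _ hc x y z h
    refine ⟨z, rfl, fun i hi => ⟨by simp, ?_⟩⟩
    obtain ⟨a, b, -⟩ := h i hi
    have a' : (0 : ℝ) < x i := by exact_mod_cast a
    have b' : (y i : ℝ) ≤ 2 * x i := by exact_mod_cast b
    have : (y i : ℝ) / (2 ^ k * x i) ≤ 2 / 2 ^ (k + 0) := by
      rw [add_zero, div_le_div_iff₀ (by positivity) (by positivity)]
      nlinarith [pow_pos (two_pos (α := ℝ)) k]
    have := mul_le_mul_of_nonneg_left ((atan_le _ (by positivity)).trans this) (hc i hi)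
    linarith
  | succ m ih =>
    intro k k1 k2 hT hc x y z h
    obtain ⟨T1, T2⟩ := hT k le_rfl (by omega)
    have p4 : 0 < 4 ^ k := by positivity
    have hx : ∀ i < n, x i ≤ 2 ^ 60 := fun i hi => by
      obtain ⟨-, -, c⟩ := h i hi
      by_contra e
      nlinarith
    obtain ⟨z', e, hz⟩ := ih (k + 1) (by omega) (by omega)
      (fun j a b => hT j (by omega) (by omega)) hc
      (fun i => x i + if x i ≤ y i then y i / 2 ^ (2 * k) else 0)
      (fun i => (y i - if x i ≤ y i then x i else 0) * 2 ^ 1)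
      (fun i => z i + if x i ≤ y i then t k i else 0) fun i hi => by
        obtain ⟨a, b, c⟩ := h i hi
        have d := hx i hi
        have d2 := Nat.mul_div_le (y i) (4 ^ k)
        rw [pow_mul, pow_succ 4 k, show 2 ^ 2 = 4 from rfl]
        generalize y i / 4 ^ k = u at *
        split_ifs with e
        · exact ⟨by omega, by omega, by nlinarith⟩
        · exact ⟨by omega, by omega, by nlinarith⟩
    refine ⟨z', Eq.trans (rot_succ n m k (by omega) T (t k) x y z T1 fun i hi => ?_) e,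
      fun i hi => ?_⟩
    · have := hx i hi
      have := h i hi
      exact ⟨by omega, by omega, (T2 i hi).1⟩
    obtain ⟨z1, z2⟩ := hz i hi
    obtain ⟨a, b, -⟩ := h i hi
    have a' : (0 : ℝ) < x i := by exact_mod_cast a
    rw [show k + 1 + m = k + (m + 1) by omega] at z1 z2
    rw [Finset.sum_eq_sum_Ico_succ_bot (by omega)]
    refine ⟨by split_ifs at z1 <;> omega, le_trans ?_ z2⟩
    have pk2 : (0 : ℝ) < 2 ^ k := by positivity
    split_ifs with e
    · have e' : (x i : ℝ) ≤ y i := by exact_mod_cast e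
      have d : ((y i / 2 ^ (2 * k) : ℕ) : ℝ) ≤ y i / 2 ^ (2 * k) := by
        have := Nat.cast_div_le (α := ℝ) (m := y i) (n := 2 ^ (2 * k))
        simpa using this
      have := atan_turn (1 / 2 ^ k) (x i) (y i / 2 ^ k) (x i + ((y i / 2 ^ (2 * k) : ℕ) : ℝ))
        (by positivity) a' (by rw [one_div_mul_eq_div]; gcongr) (by positivity)
        (by rw [div_mul_div_comm, one_mul, ← pow_add, ← two_mul]; linarith)
      have e1 := mul_le_mul_of_nonneg_left this (hc i hi)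
      have e2 := (T2 i hi).2
      rw [div_div, mul_add] at e1
      push_cast [Nat.cast_sub e]
      rw [show ((y i : ℝ) - x i) * 2 / (2 ^ (k + 1) * (x i + ((y i / 2 ^ (2 * k) : ℕ) : ℝ))) =
        (y i / 2 ^ k - 1 / 2 ^ k * x i) / (x i + ((y i / 2 ^ (2 * k) : ℕ) : ℝ)) by
          field_simp; ring]
      linarith
    · simp only [add_zero, Nat.sub_zero]
      push_cast
      rw [show (y i : ℝ) * 2 / (2 ^ (k + 1) * x i) = y i / (2 ^ k * x i) by field_simp; ring]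

end Pool.Agent.Lib.MP_f3b2fd_co.KS
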