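import Mathlib

/-! Affine arithmetic in six symbols, the seven coefficients packed in one number modulo `cM`. -/

namespace Pool.Agent.Lib.MP_f3b2fd_co.KN.AA

open Finset

noncomputable section

/-- Evaluate `v` before continuing. -/
def fc (v : ℕ) (k : ℕ → Bool) : Bool :=
  Nat.rec (motive := fun _ => Bool) false (fun m _ => k m) (Nat.add v 1)

def an (a b : Bool) : Bool := Bool.rec false b a

def cH : ℕ := Nat.pow 2 316
def cB : ℕ := Nat.mul 16 cH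
def cB1 : ℕ := Nat.sub cB 1
def cM : ℕ := Nat.pow cB 7
def cM1 : ℕ := Nat.sub cM 1
def pk7 (a b c d e f g : ℕ) : ℕ := a + cB * (b + cB * (c + cB * (d + cB * (e + cB * (f + cB * g)))))
def cHH : ℕ := pk7 cH cH cH cH cH cH cH
def cK0 : ℕ := Nat.sub cM cH
def cK1 : ℕ := Nat.add (Nat.sub cM cHH) cH
def cH7 : ℕ := Nat.mul 7 cH

/-- A normalised form: linear part, centre, bound of the centre, error, radius. -/
structure G where
  L : ℕ
  c : ℕ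
  a : ℕ
  e : ℕ
  R : ℕ

def nm (N e : ℕ) (k : G → Bool) : Bool :=
  fc (Nat.land (Nat.add N cHH) cM1) fun U => fc (Nat.land U cHH) fun T =>
  fc (Nat.land U cB1) fun u => fc (Nat.add (Nat.sub u cH) (Nat.sub cH u)) fun a =>
  fc e fun e' => fc (Nat.add (Nat.sub U u) cK1) fun L => fc (Nat.add u cK0) fun c =>
  fc (Nat.sub (Nat.add (Nat.add
      (Nat.mul 2 (Nat.mod (Nat.land U (Nat.sub T (Nat.shiftRight T 316))) cB1)) cH7) e')
      (Nat.add (Nat.mod U cB1) a)) fun R => k ⟨L, c, a, e', R⟩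

def G.n (x : G) : ℕ := Nat.add x.L x.c
def mN (x y : G) : ℕ := Nat.add (Nat.mul x.c y.L) (Nat.mul y.c (Nat.add x.L x.c))
def mE (x y : G) : ℕ := Nat.add (Nat.add (Nat.mul x.a y.e) (Nat.mul y.a x.e)) (Nat.mul x.R y.R)
def m0 (x y : G) : ℕ := Nat.mul x.R y.R
def ng (N : ℕ) : ℕ := Nat.sub cM (Nat.land N cM1)
def sE (x : G) : ℕ := Nat.add (Nat.shiftRight (Nat.mul x.R x.R) 1) 1
def sN (x : G) : ℕ := Nat.add (Nat.mul x.c (Nat.add (Nat.mul 2 x.L) x.c)) (sE x)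

/-- the form of `P ^ 2 / v`, for `v` with coefficients at most `K` and result at most `K'`. -/
def rcp (x : G) (P K K' : ℕ) (k : G → Bool) : Bool :=
  an (an (Nat.beq (Nat.land x.c cM1) x.a) (Nat.blt x.R x.a))
    (fc (Nat.div P x.a) fun g => fc (Nat.mul g g) fun g2 =>
    fc (Nat.add (Nat.sub P (Nat.mul g x.a)) (Nat.mul g x.R)) fun D =>
    fc (Nat.add (Nat.div (Nat.mul D D) (Nat.mul 2 (Nat.sub x.a x.R))) 1) fun E =>
    fc (Nat.add (Nat.mul 2 (Nat.mul g P)) E) fun c =>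
    an (Nat.ble (Nat.add c (Nat.mul g2 K)) K')
      (nm (Nat.add c (ng (Nat.mul g2 x.n))) (Nat.add (Nat.mul g2 x.e) E) k))

/-- the form `α + β t ± e` with `Bi` the place of the symbol. -/
def var (Bi α β e : ℕ) (k : G → Bool) : Bool :=
  fc α fun a => fc β fun b => fc e fun e' => fc (Nat.mul b Bi) fun L => fc (Nat.add b e') fun R =>
    k ⟨L, a, a, e', R⟩

def neg (x : G) : Bool := an (Nat.beq (Nat.add x.c x.a) cM) (Nat.blt x.R x.a)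

def lin (a : Fin 6 → ℤ) : ℤ := ∑ i : Fin 6, a i * (cB : ℤ) ^ (i.1 + 1)
def nrm (a : Fin 6 → ℤ) : ℤ := ∑ i, |a i|
def val (t : Fin 6 → ℝ) (a : Fin 6 → ℤ) : ℝ := ∑ i, (a i : ℝ) * t i

def Rep (t : Fin 6 → ℝ) (k N e : ℕ) (v : ℝ) : Prop :=
  ∃ (c : ℤ) (a : Fin 6 → ℤ), (N : ℤ) ≡ c + lin a [ZMOD cM] ∧ |c| + nrm a ≤ 2 ^ k ∧
    |v - (c + val t a)| ≤ e

def RepG (t : Fin 6 → ℝ) (k : ℕ) (x : G) (v : ℝ) : Prop :=
  ∃ (c : ℤ) (a : Fin 6 → ℤ), (x.c : ℤ) ≡ c [ZMOD cM] ∧ (x.L : ℤ) ≡ lin a [ZMOD cM] ∧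
    |c| + nrm a ≤ 2 ^ k ∧ |v - (c + val t a)| ≤ x.e ∧ |c| = x.a ∧ nrm a + x.e = x.R

end

end Pool.Agent.Lib.MP_f3b2fd_co.KN.AA
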