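import Pool.Agent.Lib.MP_f3b2fd_co.KEP.N.AA

/-! Normalisation of a packed affine form. -/

namespace Pool.Agent.Lib.MP_f3b2fd_co.KN.AA

set_option exponentiation.threshold 3000

open Finset

theorem fc_eq (v : ℕ) (k : ℕ → Bool) : fc v k = k v := rfl

namespace Nm

theorem eH : cH = 2 ^ 316 := by decide +kernel
theorem eB : cB = 2 ^ 320 := by decide +kernel
theorem eB1 : cB1 = 2 ^ 320 - 1 := by decide +kernel
theorem eM : cM = 2 ^ 2240 := by decide +kernel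
theorem eM1 : cM1 = 2 ^ 2240 - 1 := by decide +kernel
theorem eBH : cB = 16 * cH := by decide +kernel
theorem eBB : cB = cB1 + 1 := by decide +kernel
theorem eMB : cM = cB * (cB * (cB * (cB * (cB * (cB * cB))))) := by decide +kernel
theorem eK0 : cK0 + cH = cM := by decide +kernel
theorem eK1 : cK1 + cHH = cM + cH := by decide +kernel
theorem eH7 : cH7 = 7 * cH := by decide +kernel
theorem pH : 0 < cH := by decide +kernel
theorem kH : 2 * 2 ^ 315 = cH := by decide +kernel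

theorem lane {a b : ℕ} (A C : ℕ) (ha : a < cB) (hb : b < cB) :
    (a + cB * A) &&& (b + cB * C) = (a &&& b) + cB * (A &&& C) := by
  have hc : a &&& b < cB := Nat.and_le_left.trans_lt ha
  rw [eB] at *
  rw [add_comm a, add_comm b, add_comm (a &&& b)]
  refine Nat.eq_of_testBit_eq fun j => ?_
  rw [Nat.testBit_and, Nat.testBit_two_pow_mul_add _ ha, Nat.testBit_two_pow_mul_add _ hb,
    Nat.testBit_two_pow_mul_add _ hc]
  split_ifs <;> rw [Nat.testBit_and]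

theorem pk_and {a b c d e f a' b' c' d' e' f' : ℕ} (g g' : ℕ) (ha : a < cB) (hb : b < cB)
    (hc : c < cB) (hd : d < cB) (he : e < cB) (hf : f < cB) (ha' : a' < cB) (hb' : b' < cB)
    (hc' : c' < cB) (hd' : d' < cB) (he' : e' < cB) (hf' : f' < cB) :
    pk7 a b c d e f g &&& pk7 a' b' c' d' e' f' g' =
      pk7 (a &&& a') (b &&& b') (c &&& c') (d &&& d') (e &&& e') (f &&& f') (g &&& g') := by
  unfold pk7
  rw [lane _ _ ha ha', lane _ _ hb hb', lane _ _ hc hc', lane _ _ hd hd', lane _ _ he he',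
    lane _ _ hf hf']

theorem up {a X Y : ℕ} (ha : a < cB) (h : X < Y) : a + cB * X < cB * Y :=
  calc a + cB * X < cB * (X + 1) := by rw [mul_add, mul_one]; omega
    _ ≤ cB * Y := Nat.mul_le_mul_left _ h

theorem pk_lt {a b c d e f g : ℕ} (ha : a < cB) (hb : b < cB) (hc : c < cB) (hd : d < cB)
    (he : e < cB) (hf : f < cB) (hg : g < cB) : pk7 a b c d e f g < cM := by
  rw [eMB]
  exact up ha (up hb (up hc (up hd (up he (up hf hg)))))

theorem one (a X : ℕ) : (a + cB * X) % cB1 = (a + X) % cB1 := by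
  rw [eBB, add_mul, one_mul, add_comm (cB1 * X), ← add_assoc, Nat.add_mul_mod_self_left]

theorem pk_sum {a b c d e f g : ℕ} (h : a + b + c + d + e + f + g < cB1) :
    pk7 a b c d e f g % cB1 = a + b + c + d + e + f + g := by
  unfold pk7
  rw [one, ← add_assoc, one, ← add_assoc, one, ← add_assoc, one, ← add_assoc, one, ← add_assoc,
    one, Nat.mod_eq_of_lt h]

theorem top {u : ℕ} (h : u < 2 * cH) : u &&& cH = cH * (u / cH) := by
  have e : u / cH < 2 := (Nat.div_lt_iff_lt_mul pH).2 h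
  have e2 : u &&& cH = (u.testBit 316).toNat * cH := by rw [eH, Nat.and_two_pow]
  rw [e2, Nat.testBit_eq_decide_div_mod_eq, ← eH, Nat.mod_eq_of_lt e, mul_comm]
  generalize u / cH = s at e
  interval_cases s <;> simp

theorem low {u : ℕ} (h : u < 2 * cH) : u &&& ((cH - 1) * (u / cH)) = u - cH := by
  rcases lt_or_ge u cH with k | k
  · rw [Nat.div_eq_of_lt k, mul_zero, Nat.and_zero]
    omega
  · have e : u / cH = 1 := Nat.div_eq_of_lt_le (by omega) (by omega)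
    have e2 : u &&& (cH - 1) = u % cH := by rw [eH, Nat.and_two_pow_sub_one_eq_mod]
    rw [e, mul_one, e2, Nat.mod_eq_sub_mod k, Nat.mod_eq_of_lt (by omega)]

theorem msk (a b c d e f g : ℕ) :
    pk7 (cH * a) (cH * b) (cH * c) (cH * d) (cH * e) (cH * f) (cH * g) -
      pk7 (cH * a) (cH * b) (cH * c) (cH * d) (cH * e) (cH * f) (cH * g) >>> 316 =
    pk7 ((cH - 1) * a) ((cH - 1) * b) ((cH - 1) * c) ((cH - 1) * d) ((cH - 1) * e) ((cH - 1) * f)
      ((cH - 1) * g) := by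
  have m : ∀ x, pk7 (x * a) (x * b) (x * c) (x * d) (x * e) (x * f) (x * g) =
      x * pk7 a b c d e f g := fun x => by unfold pk7; ring
  rw [m, m, Nat.shiftRight_eq_div_pow, ← eH, Nat.mul_div_cancel_left _ pH, Nat.sub_one_mul]

theorem sm {u : ℕ} (h : u < 2 * cH) : (cH - 1) * (u / cH) < cB := by
  have e : u / cH < 2 := (Nat.div_lt_iff_lt_mul pH).2 h
  have := Nat.mul_le_mul_left (cH - 1) e.le
  have := eBH
  have := pH
  omega

theorem core {u0 u1 u2 u3 u4 u5 u6 : ℕ} (h0 : u0 < 2 * cH) (h1 : u1 < 2 * cH) (h2 : u2 < 2 * cH)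
    (h3 : u3 < 2 * cH) (h4 : u4 < 2 * cH) (h5 : u5 < 2 * cH) (h6 : u6 < 2 * cH) {U : ℕ}
    (hU : U = pk7 u0 u1 u2 u3 u4 u5 u6) :
    U &&& cB1 = u0 ∧ U % cB1 = u0 + u1 + u2 + u3 + u4 + u5 + u6 ∧
      (U &&& ((U &&& cHH) - (U &&& cHH) >>> 316)) % cB1 =
        (u0 - cH) + (u1 - cH) + (u2 - cH) + (u3 - cH) + (u4 - cH) + (u5 - cH) + (u6 - cH) := by
  have b := eBH
  have b1 := eBB
  have p := pH
  have k : ∀ {u}, u < 2 * cH → u < cB := fun h => by omega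
  have kh : cH < cB := by omega
  refine ⟨?_, ?_, ?_⟩
  · rw [eB1, Nat.and_two_pow_sub_one_eq_mod, ← eB, hU, pk7, Nat.add_mul_mod_self_left,
      Nat.mod_eq_of_lt (k h0)]
  · rw [hU, pk_sum (by omega)]
  · rw [hU, cHH, pk_and _ _ (k h0) (k h1) (k h2) (k h3) (k h4) (k h5) kh kh kh kh kh kh, top h0,
      top h1, top h2, top h3, top h4, top h5, top h6, msk,
      pk_and _ _ (k h0) (k h1) (k h2) (k h3) (k h4) (k h5) (sm h0) (sm h1) (sm h2) (sm h3) (sm h4)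
        (sm h5), low h0, low h1, low h2, low h3, low h4, low h5, low h6, pk_sum (by omega)]

theorem sh {z : ℤ} (h : |z| ≤ 2 ^ 315) : ∃ u : ℕ, u < 2 * cH ∧ (u : ℤ) = z + cH := by
  have e : (2 : ℤ) * 2 ^ 315 = cH := by exact_mod_cast kH
  have p : (0 : ℤ) < 2 ^ 315 := by positivity
  generalize (2 : ℤ) ^ 315 = w at *
  have := abs_le.1 h
  exact ⟨(z + cH).toNat, by omega, by omega⟩

theorem f1 {K H M u : ℕ} {c : ℤ} (h : K + H = M) (e : (u : ℤ) = c + H) :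
    c - ((u + K : ℕ) : ℤ) = M * -1 := by omega

theorem f2 {K H HH M u U : ℕ} {c l : ℤ} (h : K + HH = M + H) (e : (u : ℤ) = c + H) (le : u ≤ U)
    (E : (U : ℤ) = c + l + HH) : l - ((U - u + K : ℕ) : ℤ) = M * -1 := by omega

theorem f3 {H u : ℕ} {c : ℤ} (e : (u : ℤ) = c + H) : ((u - H + (H - u) : ℕ) : ℤ) = |c| := by
  rcases abs_cases c with h | h <;> omega

theorem f4 {H u : ℕ} {c : ℤ} (e : (u : ℤ) = c + H) : |c| + u = 2 * ((u - H : ℕ) : ℤ) + H := by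
  rcases abs_cases c with h | h <;> omega

theorem f5 {H e w u0 u1 u2 u3 u4 u5 u6 w0 w1 w2 w3 w4 w5 w6 : ℕ} {z z0 z1 z2 z3 z4 z5 : ℤ}
    (a : (w : ℤ) = z) (a0 : z + u0 = 2 * w0 + H) (a1 : z0 + u1 = 2 * w1 + H)
    (a2 : z1 + u2 = 2 * w2 + H) (a3 : z2 + u3 = 2 * w3 + H) (a4 : z3 + u4 = 2 * w4 + H)
    (a5 : z4 + u5 = 2 * w5 + H) (a6 : z5 + u6 = 2 * w6 + H) (q0 : 0 ≤ z0) (q1 : 0 ≤ z1)
    (q2 : 0 ≤ z2) (q3 : 0 ≤ z3) (q4 : 0 ≤ z4) (q5 : 0 ≤ z5) :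
    z0 + z1 + z2 + z3 + z4 + z5 + (e : ℤ) = ((2 * (w0 + w1 + w2 + w3 + w4 + w5 + w6) + 7 * H + e -
      (u0 + u1 + u2 + u3 + u4 + u5 + u6 + w) : ℕ) : ℤ) := by omega

theorem nm_eq (N e : ℕ) (K : G → Bool) {U : ℕ} (h : (N + cHH) &&& cM1 = U) :
    nm N e K = K ⟨U - (U &&& cB1) + cK1, (U &&& cB1) + cK0, (U &&& cB1) - cH + (cH - (U &&& cB1)), e,
      2 * ((U &&& ((U &&& cHH) - (U &&& cHH) >>> 316)) % cB1) + cH7 + e -
        (U % cB1 + ((U &&& cB1) - cH + (cH - (U &&& cB1))))⟩ := by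
  subst h
  rw [nm, fc_eq, fc_eq, fc_eq, fc_eq, fc_eq, fc_eq, fc_eq, fc_eq]
  have m : ∀ a b : ℕ, a.mod b = a % b := fun _ _ => rfl
  simp only [Nat.land_eq, Nat.add_eq, Nat.sub_eq, Nat.mul_eq, m, Nat.shiftRight_eq']

end Nm

open Nm in
theorem nm_spec {t : Fin 6 → ℝ} {k N e : ℕ} {v : ℝ} {K : G → Bool} (h : Rep t k N e v)
    (hk : k ≤ 315) (hb : nm N e K = true) : ∃ g, RepG t k g v ∧ g.e = e ∧ K g = true := by
  obtain ⟨c, a, hN, hs, hv⟩ := h
  have hs' : |c| + nrm a ≤ 2 ^ 315 := hs.trans (pow_le_pow_right₀ one_le_two hk)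
  have n : nrm a = |a 0| + |a 1| + |a 2| + |a 3| + |a 4| + |a 5| := Fin.sum_univ_six _
  have q := abs_nonneg c
  have q0 := abs_nonneg (a 0)
  have q1 := abs_nonneg (a 1)
  have q2 := abs_nonneg (a 2)
  have q3 := abs_nonneg (a 3)
  have q4 := abs_nonneg (a 4)
  have q5 := abs_nonneg (a 5)
  obtain ⟨u0, h0, e0⟩ := sh (z := c) (by linarith)
  obtain ⟨u1, h1, e1⟩ := sh (z := a 0) (by linarith)
  obtain ⟨u2, h2, e2⟩ := sh (z := a 1) (by linarith)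
  obtain ⟨u3, h3, e3⟩ := sh (z := a 2) (by linarith)
  obtain ⟨u4, h4, e4⟩ := sh (z := a 3) (by linarith)
  obtain ⟨u5, h5, e5⟩ := sh (z := a 4) (by linarith)
  obtain ⟨u6, h6, e6⟩ := sh (z := a 5) (by linarith)
  have b := eBH
  have p := pH
  have kb : ∀ {u}, u < 2 * cH → u < cB := fun h => by omega
  have E : ((pk7 u0 u1 u2 u3 u4 u5 u6 : ℕ) : ℤ) = c + lin a + cHH := by
    rw [cHH, lin, Fin.sum_univ_six]
    simp only [pk7]
    push_cast
    rw [e0, e1, e2, e3, e4, e5, e6]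
    norm_num
    ring
  have hU : (N + cHH) &&& cM1 = pk7 u0 u1 u2 u3 u4 u5 u6 := by
    rw [eM1, Nat.and_two_pow_sub_one_eq_mod, ← eM, ← Nat.mod_eq_of_lt
      (pk_lt (kb h0) (kb h1) (kb h2) (kb h3) (kb h4) (kb h5) (kb h6))]
    refine Int.natCast_modEq_iff.1 ?_
    rw [E, Nat.cast_add]
    exact hN.add_right _
  have le : u0 ≤ pk7 u0 u1 u2 u3 u4 u5 u6 := Nat.le_add_right _ _
  obtain ⟨c1, c2, c3⟩ := core h0 h1 h2 h3 h4 h5 h6 hU
  rw [← hU] at E le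
  rw [nm_eq N e K rfl] at hb
  rw [c1, c2, c3, eH7] at hb
  refine ⟨_, ⟨c, a, ?_, ?_, hs, hv, ?_, ?_⟩, rfl, hb⟩
  · exact Int.modEq_iff_dvd.2 ⟨-1, f1 eK0 e0⟩
  · exact Int.modEq_iff_dvd.2 ⟨-1, f2 eK1 e0 le E⟩
  · exact (f3 e0).symm
  · rw [n]
    exact f5 (f3 e0) (f4 e0) (f4 e1) (f4 e2) (f4 e3) (f4 e4) (f4 e5) (f4 e6) q0 q1 q2 q3 q4 q5

end Pool.Agent.Lib.MP_f3b2fd_co.KN.AA
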