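import Pool.Agent.Lib.MP_f3b2fd_co.KEP.N.AAn

/-! Soundness of the operations on affine forms. -/

namespace Pool.Agent.Lib.MP_f3b2fd_co.KN.AA

open Finset

variable {t : Fin 6 → ℝ} {i j k N e N' e' : ℕ} {v w : ℝ} {x y : G}

theorem an_iff (a b : Bool) : an a b = true ↔ a = true ∧ b = true := by
  cases a <;> cases b <;> simp [an]

theorem lin_comb (p q : ℤ) (a b : Fin 6 → ℤ) :
    lin (fun i => p * a i + q * b i) = p * lin a + q * lin b := by
  simp only [lin, mul_sum, ← sum_add_distrib]; exact sum_congr rfl fun i _ => by ring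

theorem val_comb (p q : ℤ) (a b : Fin 6 → ℤ) :
    val t (fun i => p * a i + q * b i) = p * val t a + q * val t b := by
  simp only [val, mul_sum, ← sum_add_distrib]; exact sum_congr rfl fun i _ => by push_cast; ring

theorem nrm_comb (p q : ℤ) (a b : Fin 6 → ℤ) :
    nrm (fun i => p * a i + q * b i) ≤ |p| * nrm a + |q| * nrm b := by
  simp only [nrm, mul_sum, ← sum_add_distrib]
  exact sum_le_sum fun i _ => (abs_add_le _ _).trans (by rw [abs_mul, abs_mul])

theorem nrm_nonneg (a : Fin 6 → ℤ) : 0 ≤ nrm a := sum_nonneg fun _ _ => abs_nonneg _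

theorem val_le (ht : ∀ i, |t i| ≤ 1) (a : Fin 6 → ℤ) : |val t a| ≤ nrm a := by
  simp only [val, nrm]; push_cast
  exact (abs_sum_le_sum_abs _ _).trans (sum_le_sum fun i _ => by
    rw [abs_mul]; exact mul_le_of_le_one_right (abs_nonneg _) (ht i))

theorem RepG.cg (h : RepG t k x v) (hv : v = w) : RepG t k x w := hv ▸ h

theorem RepG.n (h : RepG t k x v) : Rep t k x.n x.e v := by
  obtain ⟨c, a, h1, h2, h3, h4, -, -⟩ := h
  refine ⟨c, a, ?_, h3, h4⟩
  show ((x.L + x.c : ℕ) : ℤ) ≡ _ [ZMOD _]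
  push_cast; rw [add_comm c]; exact h2.add h1

theorem RepG.n0 (h : RepG t k x v) (h0 : x.e = 0) : Rep t k x.n 0 v := h0 ▸ h.n

theorem Rep.add (k : ℕ) (h : Rep t i N e v) (h' : Rep t j N' e' w) (hi : i < k) (hj : j < k) :
    Rep t k (Nat.add N N') (Nat.add e e') (v + w) := by
  obtain ⟨c, a, h1, h2, h3⟩ := h
  obtain ⟨c', a', k1, k2, k3⟩ := h'
  refine ⟨c + c', fun i => 1 * a i + 1 * a' i, ?_, ?_, ?_⟩
  · rw [lin_comb]
    show ((N + N' : ℕ) : ℤ) ≡ _ [ZMOD _]
    push_cast; convert h1.add k1 using 1; ring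
  · have := nrm_comb 1 1 a a'
    have := abs_add_le c c'
    obtain ⟨k, rfl⟩ : ∃ m, k = m + 1 := ⟨k - 1, by omega⟩
    have : (2 : ℤ) ^ i ≤ 2 ^ k := pow_le_pow_right₀ (by norm_num) (by omega)
    have : (2 : ℤ) ^ j ≤ 2 ^ k := pow_le_pow_right₀ (by norm_num) (by omega)
    simp only [abs_one] at *; rw [pow_succ]; linarith
  · rw [val_comb]
    show _ ≤ ((e + e' : ℕ) : ℝ)
    push_cast
    rw [abs_le] at *; constructor <;> linarith [h3.1, h3.2, k3.1, k3.2]

theorem Rep.add0 (k : ℕ) (h : Rep t i N 0 v) (h' : Rep t j N' 0 w) (hi : i < k) (hj : j < k) :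
    Rep t k (Nat.add N N') 0 (v + w) := h.add k h' hi hj

theorem Rep.addR (k : ℕ) (h : Rep t i N e v) (h' : Rep t j N' 0 w) (hi : i < k) (hj : j < k) :
    Rep t k (Nat.add N N') e (v + w) := h.add k h' hi hj

theorem Rep.addL (k : ℕ) (h : Rep t i N 0 v) (h' : Rep t j N' e w) (hi : i < k) (hj : j < k) :
    Rep t k (Nat.add N N') e (v + w) := by
  have := h.add k h' hi hj
  rwa [Nat.add_eq, Nat.add_eq, Nat.zero_add] at this

theorem cM_eq : ∃ n, cM1 = 2 ^ n - 1 ∧ cM = 2 ^ n := ⟨2240, by decide +kernel, by decide +kernel⟩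
theorem cM_big : ∃ n, 315 ≤ n ∧ 2 ^ (n + 1) < cM := ⟨315, le_rfl, by decide +kernel⟩

theorem land_cM1 (N : ℕ) : Nat.land N cM1 = N % cM := by
  obtain ⟨n, h1, h2⟩ := cM_eq
  rw [h1, h2]; exact Nat.and_two_pow_sub_one_eq_mod N n

theorem ng_mod (N : ℕ) : (ng N : ℤ) ≡ -N [ZMOD cM] := by
  have hp : 0 < cM := cM_big.elim fun _ h => lt_trans (Nat.two_pow_pos _) h.2
  rw [ng, land_cM1, Nat.sub_eq, Nat.cast_sub (Nat.mod_lt N hp).le]
  push_cast
  have := (Int.modEq_zero_iff_dvd.2 (dvd_refl (cM : ℤ))).sub (Int.mod_modEq (N : ℤ) cM)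
  rwa [zero_sub] at this

theorem Rep.ng (h : Rep t k N e v) : Rep t k (ng N) e (-v) := by
  obtain ⟨c, a, h1, h2, h3⟩ := h
  refine ⟨-c, fun i => -1 * a i + 0 * a i, ?_, ?_, ?_⟩
  · rw [lin_comb]; convert (ng_mod N).trans h1.neg using 1; ring
  · have := nrm_comb (-1) 0 a a
    simp only [abs_neg, abs_one, abs_zero] at *; linarith
  · rw [val_comb]; push_cast
    rw [abs_le] at *; constructor <;> linarith [h3.1, h3.2]

theorem Rep.sm (K j : ℕ) (h : Rep t k N e v) (hK : K ≤ 2 ^ j) :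
    Rep t (k + j) (Nat.mul K N) (Nat.mul K e) (K * v) := by
  obtain ⟨c, a, h1, h2, h3⟩ := h
  refine ⟨K * c, fun i => K * a i + 0 * a i, ?_, ?_, ?_⟩
  · rw [lin_comb]
    show ((K * N : ℕ) : ℤ) ≡ _ [ZMOD _]
    push_cast; convert h1.mul_left K using 1; ring
  · have k1 := nrm_comb K 0 a a
    have k2 : (K : ℤ) ≤ 2 ^ j := by exact_mod_cast hK
    have k3 := mul_le_mul k2 h2 (add_nonneg (abs_nonneg _) (nrm_nonneg a)) (by positivity)
    rw [abs_mul, pow_add]
    simp only [abs_zero, Nat.abs_cast] at *; linarith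
  · rw [val_comb]
    show _ ≤ ((K * e : ℕ) : ℝ)
    push_cast
    rw [show (K : ℝ) * v - (K * c + (K * val t a + 0 * val t a)) = K * (v - (c + val t a)) by ring,
      abs_mul, Nat.abs_cast]
    exact mul_le_mul_of_nonneg_left h3 (Nat.cast_nonneg _)

theorem Rep.sm0 (K j : ℕ) (h : Rep t k N 0 v) (hK : K ≤ 2 ^ j) :
    Rep t (k + j) (Nat.mul K N) 0 (K * v) := h.sm K j hK

theorem RepG.mul (ht : ∀ i, |t i| ≤ 1) (h : RepG t i x v) (h' : RepG t j y w) :
    Rep t (i + j) (mN x y) (mE x y) (v * w) := by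
  obtain ⟨c, a, h1, h2, h3, h4, h5, h6⟩ := h
  obtain ⟨c', a', k1, k2, k3, k4, k5, k6⟩ := h'
  refine ⟨c * c', fun i => c * a' i + c' * a i, ?_, ?_, ?_⟩
  · rw [lin_comb]
    show ((x.c * y.L + y.c * (x.L + x.c) : ℕ) : ℤ) ≡ _ [ZMOD _]
    push_cast; convert (h1.mul k2).add (k1.mul (h2.add h1)) using 1; ring
  · have l1 := nrm_comb c c' a' a
    have l2 := mul_le_mul h3 k3 (add_nonneg (abs_nonneg _) (nrm_nonneg a')) (by positivity)
    have l3 := mul_nonneg (nrm_nonneg a) (nrm_nonneg a')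
    rw [abs_mul, pow_add]; linarith
  · rw [val_comb]
    show _ ≤ ((x.a * y.e + y.a * x.e + x.R * y.R : ℕ) : ℝ)
    have e5 : |(c : ℝ)| = x.a := by exact_mod_cast h5
    have f5 : |(c' : ℝ)| = y.a := by exact_mod_cast k5
    have e6 : (nrm a : ℝ) + x.e = x.R := by exact_mod_cast h6
    have f6 : (nrm a' : ℝ) + y.e = y.R := by exact_mod_cast k6
    have l1 : |v - c| ≤ x.R := by
      have := val_le ht a
      rw [abs_le] at *; constructor <;> linarith [h4.1, h4.2, this.1, this.2]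
    have l2 : |w - c'| ≤ y.R := by
      have := val_le ht a'
      rw [abs_le] at *; constructor <;> linarith [k4.1, k4.2, this.1, this.2]
    push_cast
    rw [show v * w - (c * c' + (c * val t a' + c' * val t a)) =
      c * (w - (c' + val t a')) + c' * (v - (c + val t a)) + (v - c) * (w - c') by ring]
    refine (abs_add_three _ _ _).trans ?_
    rw [abs_mul, abs_mul, abs_mul, e5, f5]
    gcongr

theorem RepG.mul0 (ht : ∀ i, |t i| ≤ 1) (h : RepG t i x v) (h' : RepG t j y w) (hx : x.e = 0)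
    (hy : y.e = 0) : Rep t (i + j) (mN x y) (m0 x y) (v * w) := by
  have := h.mul ht h'
  rwa [show mE x y = m0 x y by simp [mE, m0, hx, hy]] at this

theorem RepG.sq (ht : ∀ i, |t i| ≤ 1) (h : RepG t i x v) (hx : x.e = 0) :
    Rep t (2 * i + 1) (sN x) (sE x) (v * v) := by
  obtain ⟨c, a, h1, h2, h3, h4, h5, h6⟩ := h
  have hE : sE x = x.R * x.R / 2 + 1 := by simp [sE, Nat.shiftRight_eq_div_pow]
  rw [hx] at h4 h6
  have hR : nrm a = x.R := by simpa using h6
  refine ⟨c * c + sE x, fun i => 2 * c * a i + 0 * a i, ?_, ?_, ?_⟩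
  · rw [lin_comb]
    show ((x.c * (2 * x.L + x.c) + sE x : ℕ) : ℤ) ≡ _ [ZMOD _]
    push_cast
    convert (h1.mul ((h2.mul_left 2).add h1)).add_right (sE x) using 1; ring
  · have l1 := nrm_comb (2 * c) 0 a a
    have l0 := add_nonneg (abs_nonneg c) (nrm_nonneg a)
    have l2 := mul_le_mul h3 h3 l0 (by positivity)
    have l3 : (sE x : ℤ) ≤ nrm a * nrm a + 1 := by
      rw [hR, hE]; exact_mod_cast Nat.add_le_add_right (Nat.div_le_self _ _) 1
    have l4 : (1 : ℤ) ≤ 2 ^ i * 2 ^ i := one_le_mul_of_one_le_of_one_le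
      (one_le_pow₀ (by norm_num)) (one_le_pow₀ (by norm_num))
    have l5 := abs_add_le (c * c) (sE x)
    rw [abs_mul, Nat.abs_cast] at l5
    rw [abs_mul, abs_two, abs_zero] at l1
    rw [pow_succ, two_mul i, pow_add]; linarith
  · rw [val_comb]
    have l1 := val_le ht a
    have l2 : v = c + val t a := by simpa [sub_eq_zero] using h4
    have l3 : (nrm a : ℝ) = x.R := by exact_mod_cast hR
    have l4 : (x.R : ℝ) * x.R ≤ 2 * sE x := by
      rw [hE]; exact_mod_cast (by omega : x.R * x.R ≤ 2 * (x.R * x.R / 2 + 1))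
    have l5 := mul_self_le_mul_self (abs_nonneg _) l1
    rw [abs_mul_abs_self, l3] at l5
    have l6 := mul_self_nonneg (val t a)
    push_cast; rw [l2, abs_le]; constructor <;> linarith

theorem sign_eq {c d : ℤ} (h : c ≡ d [ZMOD cM]) (h1 : |c| ≤ 2 ^ k) (h2 : |d| = |c|)
    (hk : k ≤ 315) : c = d := by
  obtain ⟨n, n1, n2⟩ := cM_big
  have l1 : (2 : ℤ) ^ k ≤ 2 ^ n := pow_le_pow_right₀ (by norm_num) (hk.trans n1)
  have l2 : (2 : ℤ) ^ (n + 1) < cM := by exact_mod_cast n2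
  rw [pow_succ] at l2
  have l3 := abs_sub d c
  have := Int.eq_zero_of_abs_lt_dvd h.dvd (by linarith)
  linarith

theorem neg_spec (ht : ∀ i, |t i| ≤ 1) (h : RepG t k x v) (hk : k ≤ 315) (hb : neg x = true) :
    v < 0 := by
  obtain ⟨c, a, h1, -, h3, h4, h5, h6⟩ := h
  rw [neg, an_iff, Nat.beq_eq, Nat.blt_eq] at hb
  have l1 : (x.c : ℤ) + x.a = cM := by exact_mod_cast hb.1
  have l2 : c = -x.a := sign_eq (k := k) (h1.symm.trans (by
    rw [show (x.c : ℤ) = -x.a + cM by linarith]; exact Int.add_modEq_right))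
    (by linarith [nrm_nonneg a]) (by rw [h5]; simp) hk
  have l3 := val_le ht a
  have e6 : (nrm a : ℝ) + x.e = x.R := by exact_mod_cast h6
  have e7 : (x.R : ℝ) < x.a := by exact_mod_cast hb.2
  rw [l2] at h4; push_cast at h4
  rw [abs_le] at *; linarith [h4.2, l3.2]

theorem rcp_spec {P K K' : ℕ} {c : G → Bool} (ht : ∀ i, |t i| ≤ 1) (j : ℕ) (h : RepG t k x v)
    (hk : k ≤ 315) (hj : j ≤ 315) (hK : K = 2 ^ k) (hK' : K' = 2 ^ j)
    (hb : rcp x P K K' c = true) : ∃ g, RepG t j g ((P : ℝ) ^ 2 / v) ∧ c g = true := by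
  have hn := h.n
  obtain ⟨c0, a, h1, h2, h3, h4, h5, h6⟩ := h
  rw [rcp, an_iff, an_iff, Nat.beq_eq, Nat.blt_eq, land_cM1] at hb
  obtain ⟨⟨b1, b2⟩, hb⟩ := hb
  obtain ⟨g, hg⟩ : ∃ g, g = P / x.a := ⟨_, rfl⟩
  obtain ⟨D, hD⟩ : ∃ D, D = P - g * x.a + g * x.R := ⟨_, rfl⟩
  obtain ⟨E, hE⟩ : ∃ E, E = D * D / (2 * (x.a - x.R)) + 1 := ⟨_, rfl⟩
  replace hb : an (Nat.ble (2 * (g * P) + E + g * g * K) K')
      (nm (2 * (g * P) + E + ng (g * g * x.n)) (g * g * x.e + E) c) = true := by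
    rw [hE, hD, hg]; exact hb
  rw [an_iff, Nat.ble_eq] at hb
  have l2 : c0 = x.a := sign_eq (k := k) (h1.symm.trans (by
    rw [← b1]; push_cast; exact (Int.mod_modEq _ _).symm))
    (by linarith [nrm_nonneg a]) (by rw [h5]; simp) hk
  have hxn : (x.n : ℤ) ≡ c0 + lin a [ZMOD cM] := by
    show ((x.L + x.c : ℕ) : ℤ) ≡ _ [ZMOD _]
    push_cast; rw [add_comm c0]; exact h2.add h1
  refine (nm_spec (t := t) (k := j) (v := (P : ℝ) ^ 2 / v) ⟨2 * (g * P) + E - g * g * c0,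
    fun i => -(g * g) * a i + 0 * a i, ?_, ?_, ?_⟩ hj hb.2).imp fun g h => ⟨h.1, h.2.2⟩
  · rw [lin_comb]; push_cast
    have := ((ng_mod (g * g * x.n)).trans (by push_cast; exact (hxn.mul_left (g * g)).neg)).add_left
      (2 * (g * P) + E)
    convert this using 1; ring
  · have l1 := nrm_comb (-(g * g)) 0 a a
    have l3 : (2 * (g * P) + E + g * g * 2 ^ k : ℤ) ≤ 2 ^ j := by
      have := hb.1; rw [hK, hK'] at this; exact_mod_cast this
    have l4 := abs_sub (2 * (g * P) + E : ℤ) (g * g * c0)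
    have l0 : (0 : ℤ) ≤ g * g := by positivity
    rw [abs_of_nonneg (by positivity : (0 : ℤ) ≤ 2 * (g * P) + E), abs_mul _ c0, abs_of_nonneg l0] at l4
    rw [abs_neg, abs_of_nonneg l0, abs_zero] at l1
    have l5 := mul_le_mul_of_nonneg_left h3 l0
    linarith
  · rw [val_comb]
    have e6 : (nrm a : ℝ) + x.e = x.R := by exact_mod_cast h6
    have e7 : (x.R : ℝ) < x.a := by exact_mod_cast b2
    have e2 : (c0 : ℝ) = x.a := by exact_mod_cast l2
    have l1 : |v - x.a| ≤ x.R := by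
      have := val_le ht a
      rw [abs_le] at *; constructor <;> linarith [h4.1, h4.2, this.1, this.2]
    have lo : (x.a : ℝ) - x.R ≤ v := by linarith [(abs_le.1 l1).1]
    have hv : 0 < v := by linarith
    have m1 : g * x.a ≤ P := hg ▸ Nat.div_mul_le_self _ _
    have m1' : (g : ℝ) * x.a ≤ P := by exact_mod_cast m1
    have eD : (D : ℝ) = P - g * x.a + g * x.R := by rw [hD]; push_cast [m1]; ring
    have m2 : |(P : ℝ) - g * v| ≤ D := by
      have q1 := mul_le_mul_of_nonneg_left (abs_le.1 l1).1 (Nat.cast_nonneg (α := ℝ) g)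
      have q2 := mul_le_mul_of_nonneg_left (abs_le.1 l1).2 (Nat.cast_nonneg (α := ℝ) g)
      rw [abs_le]; constructor <;> linarith
    have m3 : (D : ℝ) * D ≤ 2 * (x.a - x.R) * E := by
      have := (Nat.lt_mul_div_succ (D * D) (by omega : 0 < 2 * (x.a - x.R))).le
      rw [← hE] at this
      have : ((D * D : ℕ) : ℝ) ≤ ((2 * (x.a - x.R) * E : ℕ) : ℝ) := by exact_mod_cast this
      push_cast [b2.le] at this; exact this
    have m4 := mul_self_le_mul_self (abs_nonneg _) m2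
    rw [abs_mul_abs_self] at m4
    have m5 : ((P : ℝ) - g * v) * (P - g * v) / v ≤ 2 * E := by
      rw [div_le_iff₀ hv]
      have := mul_le_mul_of_nonneg_left lo (Nat.cast_nonneg (α := ℝ) E)
      linarith
    have m6 : 0 ≤ ((P : ℝ) - g * v) * (P - g * v) / v := div_nonneg (mul_self_nonneg _) hv.le
    have m7 : (P : ℝ) ^ 2 / v = 2 * (g * P) - g * g * v + (P - g * v) * (P - g * v) / v := by
      field_simp; ring
    have l0 : (0 : ℝ) ≤ g * g := by positivity
    have q1 := mul_le_mul_of_nonneg_left (abs_le.1 h4).1 l0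
    have q2 := mul_le_mul_of_nonneg_left (abs_le.1 h4).2 l0
    push_cast; rw [m7, abs_le]; constructor <;> linarith

theorem var_spec {P α β : ℕ} {c : G → Bool} (i : Fin 6) (hP : P = cB ^ (i.1 + 1))
    (hk : α + β ≤ 2 ^ k) (h : |v - (α + β * t i)| ≤ e) (hb : var P α β e c = true) :
    ∃ g, RepG t k g v ∧ g.e = e ∧ g.R = β + e ∧ c g = true := by
  refine ⟨⟨β * P, α, α, e, β + e⟩, ⟨α, Pi.single i β, Int.ModEq.refl _, ?_, ?_, ?_, by simp, ?_⟩,
    rfl, rfl, hb⟩
  · simp [lin, hP, Pi.single_apply, ite_mul]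
  · have : (α + β : ℤ) ≤ 2 ^ k := by exact_mod_cast hk
    simpa [nrm, Pi.single_apply, apply_ite abs] using this
  · simpa [val, Pi.single_apply, apply_ite (Int.cast (R := ℝ)), ite_mul] using h
  · simp [nrm, Pi.single_apply, apply_ite abs]

end Pool.Agent.Lib.MP_f3b2fd_co.KN.AA
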