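import Pool.Agent.Lib.MP_f3b2fd_co.KEP.N.Tab

/-! Soundness of the table check. -/

namespace Pool.Agent.Lib.MP_f3b2fd_co.KN.AA

namespace TabSd

theorem fc_eq (v : ℕ) (k : ℕ → Bool) : fc v k = k v := rfl

theorem aff {m r A X B : ℝ} (h1 : A ≤ X) (h2 : X ≤ B) (ha : m * A + r ≤ 0) (hb : m * B + r ≤ 0) :
    m * X + r ≤ 0 := by
  rcases le_total 0 m with h | h
  · have := mul_le_mul_of_nonneg_left h2 h
    linarith
  · have := mul_le_mul_of_nonpos_left h1 h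
    linarith

theorem cv2 {k m r A X B : ℝ} (hk : 0 ≤ k) (h1 : A ≤ X) (h2 : X ≤ B)
    (ha : k * A ^ 2 + m * A + r ≤ 0) (hb : k * B ^ 2 + m * B + r ≤ 0) :
    k * X ^ 2 + m * X + r ≤ 0 := by
  have h := aff (m := k * (A + B) + m) (r := r - k * (A * B)) h1 h2 (by linarith) (by linarith)
  have := mul_nonneg hk (mul_nonneg (sub_nonneg.2 h1) (sub_nonneg.2 h2))
  linarith

theorem cv3 {k m r A X B : ℝ} (hk : 0 ≤ k) (h0 : 0 ≤ A) (h1 : A ≤ X) (h2 : X ≤ B)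
    (ha : k * A ^ 3 + m * A + r ≤ 0) (hb : k * B ^ 3 + m * B + r ≤ 0) :
    k * X ^ 3 + m * X + r ≤ 0 := by
  have h := aff (m := k * (A ^ 2 + A * B + B ^ 2) + m) (r := r - k * (A * B * (A + B))) h1 h2
    (by linarith) (by linarith)
  have := mul_nonneg hk (mul_nonneg (mul_nonneg (sub_nonneg.2 h1) (sub_nonneg.2 h2))
    (show 0 ≤ A + B + X by linarith))
  linarith

theorem encY {K C ρ α β e t : ℝ} (ht : |t| ≤ 1) (he : 0 ≤ e) (hβ : 0 ≤ β) (h0 : e + β ≤ α)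
    (h1 : (α - e + β) ^ 2 ≤ K * (C + ρ)) (h2 : (α - e - β) ^ 2 ≤ K * (C - ρ))
    (h3 : K * C + 2 * (α + e) * β ≤ (α + e) ^ 2 + K * ρ)
    (h4 : K * C + K * ρ ≤ (α + e) ^ 2 + 2 * (α + e) * β) :
    |√(K * (C + ρ * t)) - (α + β * t)| ≤ e := by
  obtain ⟨t1, t2⟩ := abs_le.1 ht
  have a1 : 0 ≤ 1 - t := by linarith
  have a2 : 0 ≤ 1 + t := by linarith
  have lo : α - e + β * t ≤ √(K * (C + ρ * t)) := by
    apply Real.le_sqrt_of_sq_le
    have b1 := mul_nonneg a2 (sub_nonneg.2 h1)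
    have b2 := mul_nonneg a1 (sub_nonneg.2 h2)
    have b3 := mul_nonneg (sq_nonneg β) (mul_nonneg a1 a2)
    linarith
  have up : √(K * (C + ρ * t)) ≤ α + e + β * t := by
    apply Real.sqrt_le_iff.2
    refine ⟨?_, ?_⟩
    · have := mul_nonneg hβ a2
      linarith
    · have b1 := mul_nonneg a1 (sub_nonneg.2 h3)
      have b2 := mul_nonneg a2 (sub_nonneg.2 h4)
      have b3 := sq_nonneg (β * t)
      linarith
  rw [abs_le]
  constructor <;> linarith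

theorem encC {S W Z C ρ α β e t c X P Q pl ph ql qh A B n : ℝ} (hS : 0 < S) (hW : 0 ≤ W)
    (hZ : 0 ≤ Z) (hρ : 0 < ρ) (hX : X = C + ρ * t) (h0 : 0 ≤ A) (h1 : A ≤ X) (h2 : X ≤ B)
    (hn : 0 ≤ n) (p1 : pl ≤ P) (p2 : P ≤ ph) (q0 : 0 ≤ ql) (q1 : ql ≤ Q) (q2 : Q ≤ qh)
    (hc : c * S = P * Z + Q * X ^ 3)
    (uA : ρ * W * (ph * Z + qh * A ^ 3) + β * C * S ≤ (ρ * (α + e) + β * A) * S)
    (lA : 4 * S * (ρ * α + β * A) + ρ * W * ql * n ^ 3 ≤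
      ρ * W * (4 * pl * Z + 3 * ql * n ^ 2 * A) + 4 * S * (ρ * e + β * C))
    (uB : ρ * W * (ph * Z + qh * B ^ 3) + β * C * S ≤ (ρ * (α + e) + β * B) * S)
    (lB : 4 * S * (ρ * α + β * B) + ρ * W * ql * n ^ 3 ≤
      ρ * W * (4 * pl * Z + 3 * ql * n ^ 2 * B) + 4 * S * (ρ * e + β * C)) :
    |W * c - (α + β * t)| ≤ e := by
  have hX0 : 0 ≤ X := h0.trans h1
  have hρW : 0 ≤ ρ * W := mul_nonneg hρ.le hW
  have hqh : 0 ≤ qh := q0.trans (q1.trans q2)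
  have hX3 : 0 ≤ X ^ 3 := pow_nonneg hX0 3
  have hρS : 0 < ρ * S := mul_pos hρ hS
  have hbt : ρ * S * (β * t) = β * X * S - β * C * S := by rw [hX]; ring
  have hWc : ρ * S * (W * c) = ρ * W * (P * Z + Q * X ^ 3) := by rw [← hc]; ring
  have u := cv3 (k := ρ * W * qh) (m := -(β * S))
    (r := ρ * W * (ph * Z) + β * C * S - ρ * (α + e) * S) (mul_nonneg hρW hqh) h0 h1 h2
    (by linarith) (by linarith)
  have l := aff (m := 4 * S * β - ρ * W * (3 * ql * n ^ 2))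
    (r := 4 * S * (ρ * α) + ρ * W * ql * n ^ 3 - ρ * W * (4 * pl * Z) - 4 * S * (ρ * e + β * C))
    h1 h2 (by linarith) (by linarith)
  have c1 := mul_nonneg hρW (mul_nonneg (sub_nonneg.2 p2) hZ)
  have c2 := mul_nonneg hρW (mul_nonneg (sub_nonneg.2 q2) hX3)
  have c3 := mul_nonneg hρW (mul_nonneg (sub_nonneg.2 p1) hZ)
  have c4 := mul_nonneg hρW (mul_nonneg (sub_nonneg.2 q1) hX3)
  have c5 := mul_nonneg hρW (mul_nonneg q0 (mul_nonneg (sq_nonneg (2 * X - n))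
    (add_nonneg hX0 hn)))
  rw [abs_le]
  constructor
  · apply le_of_mul_le_mul_left _ hρS
    rw [mul_sub, mul_add, hbt, hWc]
    linarith
  · apply le_of_mul_le_mul_left _ hρS
    rw [mul_sub, mul_add, hbt, hWc]
    linarith

theorem encD {S W C ρ α β e t d X Q ql qh A B n : ℝ} (hS : 0 < S) (hW : 0 ≤ W)
    (hρ : 0 < ρ) (hX : X = C + ρ * t) (h1 : A ≤ X) (h2 : X ≤ B)
    (q0 : 0 ≤ ql) (q1 : ql ≤ Q) (q2 : Q ≤ qh)
    (hc : d * S = 3 * Q * X ^ 2)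
    (uA : ρ * W * 3 * qh * A ^ 2 + β * C * S ≤ (ρ * (α + e) + β * A) * S)
    (lA : 4 * S * (ρ * α + β * A) + ρ * W * 3 * ql * n ^ 2 ≤
      ρ * W * 12 * ql * n * A + 4 * S * (ρ * e + β * C))
    (uB : ρ * W * 3 * qh * B ^ 2 + β * C * S ≤ (ρ * (α + e) + β * B) * S)
    (lB : 4 * S * (ρ * α + β * B) + ρ * W * 3 * ql * n ^ 2 ≤
      ρ * W * 12 * ql * n * B + 4 * S * (ρ * e + β * C)) :
    |W * d - (α + β * t)| ≤ e := by
  have hρW : 0 ≤ ρ * W := mul_nonneg hρ.le hW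
  have hqh : 0 ≤ qh := q0.trans (q1.trans q2)
  have hX2 : 0 ≤ X ^ 2 := sq_nonneg X
  have hρS : 0 < ρ * S := mul_pos hρ hS
  have hbt : ρ * S * (β * t) = β * X * S - β * C * S := by rw [hX]; ring
  have hWc : ρ * S * (W * d) = ρ * W * (3 * Q * X ^ 2) := by rw [← hc]; ring
  have u := cv2 (k := ρ * W * 3 * qh) (m := -(β * S))
    (r := β * C * S - ρ * (α + e) * S) (by positivity) h1 h2 (by linarith) (by linarith)
  have l := aff (m := 4 * S * β - ρ * W * 12 * ql * n)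
    (r := 4 * S * (ρ * α) + ρ * W * 3 * ql * n ^ 2 - 4 * S * (ρ * e + β * C))
    h1 h2 (by linarith) (by linarith)
  have c2 := mul_nonneg hρW (mul_nonneg (sub_nonneg.2 q2) hX2)
  have c4 := mul_nonneg hρW (mul_nonneg (sub_nonneg.2 q1) hX2)
  have c5 := mul_nonneg hρW (mul_nonneg q0 (sq_nonneg (2 * X - n)))
  rw [abs_le]
  constructor
  · apply le_of_mul_le_mul_left _ hρS
    rw [mul_sub, mul_add, hbt, hWc]
    linarith
  · apply le_of_mul_le_mul_left _ hρS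
    rw [mul_sub, mul_add, hbt, hWc]
    linarith

theorem okY_sound {C ρ α β e : ℕ} (hρ : ρ ≤ C) (h : okY C ρ α β e = true) {x t : ℝ}
    (ht : |t| ≤ 1) (hx : 128 * x = C + ρ * t) : |2 ^ 16 * √x - (α + β * t)| ≤ (e : ℝ) := by
  obtain ⟨h0, h1, h2, h3, h4⟩ := of_decide_eq_true h
  have e1 : e ≤ α := by omega
  have e2 : β ≤ α - e := by omega
  have hs : (2 : ℝ) ^ 16 * √x = √(2 ^ 25 * (C + ρ * t)) := by
    rw [← hx, show (2 : ℝ) ^ 25 * (128 * x) = (2 ^ 16) ^ 2 * x by ring,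
      Real.sqrt_mul (by positivity), Real.sqrt_sq (by positivity)]
  rw [hs]
  apply encY ht (Nat.cast_nonneg _) (Nat.cast_nonneg _)
  · exact_mod_cast h0
  · have := (Nat.cast_le (α := ℝ)).2 h1
    simpa only [Nat.cast_pow, Nat.cast_add, Nat.cast_sub e1, Nat.cast_mul, Nat.cast_ofNat]
      using this
  · have := (Nat.cast_le (α := ℝ)).2 h2
    simpa only [Nat.cast_pow, Nat.cast_add, Nat.cast_sub e2, Nat.cast_sub e1, Nat.cast_sub hρ,
      Nat.cast_mul, Nat.cast_ofNat] using this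
  · have := (Nat.cast_le (α := ℝ)).2 h3
    simpa only [Nat.cast_pow, Nat.cast_add, Nat.cast_mul, Nat.cast_ofNat] using this
  · have := (Nat.cast_le (α := ℝ)).2 h4
    simpa only [Nat.cast_pow, Nat.cast_add, Nat.cast_mul, Nat.cast_ofNat] using this

theorem okB_sound {C ρ E : ℕ} {b : Bn} (hρ0 : 0 < ρ) (hρ : ρ ≤ C) (h : okB C ρ E b = true)
    {x t p q : ℝ} (ht : |t| ≤ 1) (hx : 128 * x = C + ρ * t) (l1 : (b.l : ℝ) ≤ 128 * x)
    (l2 : 128 * x ≤ b.u) (p1 : (b.pl : ℝ) ≤ 10 ^ 9 * p) (p2 : 10 ^ 9 * p ≤ b.ph)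
    (q1 : (b.ql : ℝ) ≤ 10 ^ 9 * q) (q2 : 10 ^ 9 * q ≤ b.qh) :
    |2 ^ 16 * (p + q * x ^ 3) - (fld E 4 + fld E 5 * t)| ≤ (fld E 6 : ℝ) ∧
    |2 ^ 16 * (3 * q * x ^ 2) - (fld E 7 + fld E 8 * t)| ≤ (fld E 9 : ℝ) := by
  obtain ⟨t1, t2⟩ := abs_le.1 ht
  have hρr : (0 : ℝ) < ρ := by exact_mod_cast hρ0
  have x1 : ((C - ρ : ℕ) : ℝ) ≤ 128 * x := by
    rw [Nat.cast_sub hρ, hx]
    have := mul_le_mul_of_nonneg_left t1 hρr.le
    linarith
  have x2 : 128 * x ≤ ((C + ρ : ℕ) : ℝ) := by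
    rw [Nat.cast_add, hx]
    have := mul_le_mul_of_nonneg_left t2 hρr.le
    linarith
  have n1 : ¬ C + ρ < b.l := by
    intro hh
    have : ((C + ρ : ℕ) : ℝ) < b.l := by exact_mod_cast hh
    linarith
  have n2 : ¬ b.u < C - ρ := by
    intro hh
    have : (b.u : ℝ) < ((C - ρ : ℕ) : ℝ) := by exact_mod_cast hh
    linarith
  have hA : ((max b.l (C - ρ) : ℕ) : ℝ) ≤ 128 * x := by
    rw [Nat.cast_max]; exact max_le l1 x1
  have hB : 128 * x ≤ ((min b.u (C + ρ) : ℕ) : ℝ) := by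
    rw [Nat.cast_min]; exact le_min l2 x2
  unfold okB at h
  simp only [decide_eq_false n1, decide_eq_false n2, Bool.false_or, Bool.and_eq_true] at h
  generalize max b.l (C - ρ) = A at h hA
  generalize min b.u (C + ρ) = B at h hB
  generalize A + B = n at h
  obtain ⟨⟨⟨cA, cB⟩, dA⟩, dB⟩ := h
  obtain ⟨cA1, cA2⟩ := of_decide_eq_true cA
  obtain ⟨cB1, cB2⟩ := of_decide_eq_true cB
  obtain ⟨dA1, dA2⟩ := of_decide_eq_true dA
  obtain ⟨dB1, dB2⟩ := of_decide_eq_true dB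
  rw [← Nat.cast_le (α := ℝ)] at cA1 cA2 cB1 cB2 dA1 dA2 dB1 dB2
  simp only [Nat.cast_pow, Nat.cast_add, Nat.cast_mul, Nat.cast_ofNat]
    at cA1 cA2 cB1 cB2 dA1 dA2 dB1 dB2
  constructor
  · exact encC (S := 10 ^ 9 * 2 ^ 21) (W := 2 ^ 16) (Z := 2 ^ 21) (by positivity) (by positivity)
      (by positivity) hρr hx (Nat.cast_nonneg A) hA hB (Nat.cast_nonneg n) p1 p2
      (Nat.cast_nonneg _) q1 q2 (by ring) cA1 cA2 cB1 cB2
  · exact encD (S := 10 ^ 9 * 2 ^ 14) (W := 2 ^ 16) (by positivity) (by positivity)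
      hρr hx hA hB (Nat.cast_nonneg _) q1 q2 (by ring) dA1 dA2 dB1 dB2

theorem okE_of {T : ℕ} (h : tabOK T = true) {C : ℕ} (h1 : 512 < C) (h2 : C < 1024) :
    okE T C = true := by
  unfold tabOK at h
  have := List.all_eq_true.1 h (C - 513) (List.mem_range.2 (by omega))
  rwa [fc_eq, show 513 + (C - 513) = C by omega] at this

end TabSd

open TabSd in
theorem tabS_of (T : ℕ) (h : tabOK T = true) : TabS T := by
  have key : ∀ C, 512 < C → C < 1024 →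
      (0 < rh T C ∧ 512 + rh T C ≤ C ∧ C + rh T C ≤ 1024 ∧
        (1 < rh T C → 2 * (rh T C / 2) = rh T C ∧ rh T (C - rh T C / 2) = rh T C / 2 ∧
          rh T (C + rh T C / 2) = rh T C / 2)) ∧
      okY C (rh T C) (fld (ent T C) 1) (fld (ent T C) 2) (fld (ent T C) 3) = true ∧
      ∀ b ∈ brs, okB C (rh T C) (ent T C) b = true := by
    intro C h1 h2
    have hE := okE_of h h1 h2
    unfold okE at hE
    rw [fc_eq, fc_eq, Bool.and_eq_true, Bool.and_eq_true] at hE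
    exact ⟨of_decide_eq_true hE.1.1, hE.1.2, List.all_eq_true.1 hE.2⟩
  refine ⟨fun C h1 h2 => ?_, fun C h1 h2 => (key C h1 h2).1.2.2.2, ?_⟩
  · obtain ⟨⟨a, b, c, _⟩, _⟩ := key C h1 h2
    exact ⟨a, b, c⟩
  · intro C h1 h2 x c d t ht hx hb
    obtain ⟨⟨a1, a2, _, _⟩, hy, hB⟩ := key C h1 h2
    obtain ⟨b, hbm, p, q, l1, l2, p1, p2, q1, q2, rfl, rfl⟩ := hb
    have hρ : rh T C ≤ C := by omega
    obtain ⟨r1, r2⟩ := okB_sound a1 hρ (hB b hbm) ht hx l1 l2 p1 p2 q1 q2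
    refine ⟨okY_sound hρ hy ht hx, r1, r2, ?_⟩
    have hq : 0 ≤ q := by
      have : (0 : ℝ) ≤ b.ql := Nat.cast_nonneg _
      linarith
    positivity

theorem tabS : TabS tab := tabS_of _ tab_ok

end Pool.Agent.Lib.MP_f3b2fd_co.KN.AA
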