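import Pool.Agent.Lib.MP_f3b2fd_co.KEP.N.LeafS
import Pool.Agent.Lib.MP_f3b2fd_co.KEP.N.TabS

/-! Soundness of the search tree. -/

namespace Pool.Agent.Lib.MP_f3b2fd_co.KN.AA

open KA

def In (T C : ℕ) (x : ℝ) : Prop :=
  512 < C ∧ C < 1024 ∧ (C : ℝ) - rh T C ≤ 128 * x ∧ 128 * x ≤ C + rh T C ∧
    (128 * x < C + rh T C ∨ C + rh T C = 1024)

def OK (T C1 C2 C3 C4 C5 C6 : ℕ) : Prop :=
  ∀ x1 x2 x3 x4 x5 x6 c1 c2 c3 c4 c5 c6 d1 d2 d3 d4 d5 d6 : ℝ,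
    In T C1 x1 → In T C2 x2 → In T C3 x3 → In T C4 x4 → In T C5 x5 → In T C6 x6 →
    B0 x1 c1 d1 → B0 x2 c2 d2 → B0 x3 c3 d3 → B0 x4 c4 d4 → B0 x5 c5 d5 → B0 x6 c6 d6 →
    x2 ≤ x3 → x2 ≤ x5 → x2 ≤ x6 →
    ∃ r, r * d4 * x4 ≤ 2 * d4 ∧ qq x1 x2 x3 x4 x5 x6 c1 c2 c3 c4 c5 c6 d4 r < 0

variable {T C C1 C2 C3 C4 C5 C6 : ℕ} {x c d : ℝ} {t : Fin 6 → ℝ}

theorem fld_two (E i j : ℕ) : fld E i + fld E j ≤ 2 ^ 19 := by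
  have h : ∀ i, fld E i ≤ 262143 := fun i => Nat.and_le_right
  have := h i; have := h j; omega

theorem fld_zero (T C : ℕ) : fld (ent T C) 0 = rh T C := by
  have h : cE &&& 262143 = 262143 := by decide +kernel
  show ((_ &&& cE) >>> (18 * 0)) &&& 262143 = _ &&& 262143
  rw [Nat.mul_zero, Nat.shiftRight_zero, Nat.and_assoc, h]

theorem In.par (hT : TabS T) (h : In T C x) :
    |(128 * x - C) / rh T C| ≤ 1 ∧ 128 * x = C + rh T C * ((128 * x - C) / rh T C) := by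
  obtain ⟨h1, h2, h3, h4, -⟩ := h
  have hρ : (0 : ℝ) < rh T C := by exact_mod_cast (hT.bnd C h1 h2).1
  refine ⟨?_, by field_simp; ring⟩
  rw [abs_div, abs_of_pos hρ, div_le_one hρ, abs_le]; constructor <;> linarith

theorem co_spec (hT : TabS T) {P : ℕ} {k : ℕ → G → G → G → Bool} (i : Fin 6)
    (hP : P = cB ^ (i.1 + 1)) (h : In T C x) (hB : B0 x c d) (ht : t i = (128 * x - C) / rh T C)
    (hb : co T C P k = true) : ∃ X Y W, RepG t 10 X (2 ^ 7 * x) ∧ X.e = 0 ∧ X.R = rh T C ∧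
      RepG t 19 Y (2 ^ 16 * √x) ∧ RepG t 19 W (2 ^ 16 * c) ∧ k (ent T C) X Y W = true := by
  obtain ⟨p1, p2⟩ := h.par hT
  rw [← ht] at p1 p2
  obtain ⟨e1, e2, -, -⟩ := hT.enc C h.1 h.2.1 x c d _ p1 p2 hB
  have hb := (fc_eq _ _).symm.trans hb
  rw [fld_zero] at hb
  obtain ⟨X, rX, eX, RX, hb⟩ := var_spec (t := t) (k := 10) (v := 2 ^ 7 * x) i hP
    (hT.bnd C h.1 h.2.1).2.2 (by rw [← p2]; norm_num) hb
  obtain ⟨Y, rY, -, -, hb⟩ := var_spec i hP (fld_two _ _ _) e1 hb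
  obtain ⟨W, rW, -, -, hb⟩ := var_spec i hP (fld_two _ _ _) e2 hb
  exact ⟨X, Y, W, rX, eX, RX, rY, rW, hb⟩

theorem cP_eq : cP1 = cB ^ ((0 : Fin 6).1 + 1) ∧ cP2 = cB ^ ((1 : Fin 6).1 + 1) ∧
    cP3 = cB ^ ((2 : Fin 6).1 + 1) ∧ cP4 = cB ^ ((3 : Fin 6).1 + 1) ∧
    cP5 = cB ^ ((4 : Fin 6).1 + 1) ∧ cP6 = cB ^ ((5 : Fin 6).1 + 1) := by decide +kernel

theorem cell_spec (hT : TabS T) {r : ℕ} (hr : r ≤ 63) (h : cell T C1 C2 C3 C4 C5 C6 r = true) :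
    OK T C1 C2 C3 C4 C5 C6 := by
  intro x1 x2 x3 x4 x5 x6 c1 c2 c3 c4 c5 c6 d1 d2 d3 d4 d5 d6 i1 i2 i3 i4 i5 i6 b1 b2 b3 b4 b5 b6
    _ _ _
  obtain ⟨t, ht⟩ : ∃ t : Fin 6 → ℝ, t = ![(128 * x1 - C1) / rh T C1, (128 * x2 - C2) / rh T C2,
    (128 * x3 - C3) / rh T C3, (128 * x4 - C4) / rh T C4, (128 * x5 - C5) / rh T C5,
    (128 * x6 - C6) / rh T C6] := ⟨_, rfl⟩
  have t1 : ∀ i, |t i| ≤ 1 := by
    intro i; rw [ht]; fin_cases i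
    exacts [(i1.par hT).1, (i2.par hT).1, (i3.par hT).1, (i4.par hT).1, (i5.par hT).1, (i6.par hT).1]
  rw [cell] at h
  obtain ⟨P1, P2, P3, P4, P5, P6⟩ := cP_eq
  obtain ⟨X1, Y1, W1, rX1, eX1, -, rY1, rW1, h⟩ := co_spec (t := t) hT 0 P1 i1 b1 (by rw [ht]; rfl) h
  obtain ⟨X2, Y2, W2, rX2, eX2, -, rY2, rW2, h⟩ := co_spec (t := t) hT 1 P2 i2 b2 (by rw [ht]; rfl) h
  obtain ⟨X3, Y3, W3, rX3, eX3, -, rY3, rW3, h⟩ := co_spec (t := t) hT 2 P3 i3 b3 (by rw [ht]; rfl) h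
  obtain ⟨X5, Y5, W5, rX5, eX5, -, rY5, rW5, h⟩ := co_spec (t := t) hT 4 P5 i5 b5 (by rw [ht]; rfl) h
  obtain ⟨X6, Y6, W6, rX6, eX6, -, rY6, rW6, h⟩ := co_spec (t := t) hT 5 P6 i6 b6 (by rw [ht]; rfl) h
  obtain ⟨X4, Y4, W4, rX4, eX4, R4, rY4, rW4, h⟩ := co_spec (t := t) hT 3 P4 i4 b4 (by rw [ht]; rfl) h
  rw [an_iff, Nat.ble_eq, R4] at h
  obtain ⟨h0, h⟩ := h
  obtain ⟨p1, p2⟩ := i4.par hT
  rw [show (128 * x4 - C4) / rh T C4 = t 3 by rw [ht]; rfl] at p1 p2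
  obtain ⟨-, -, e3, d0⟩ := hT.enc C4 i4.1 i4.2.1 x4 c4 d4 _ p1 p2 b4
  obtain ⟨D, rD, -, -, h⟩ := var_spec 3 P4 (fld_two _ _ _) e3 h
  have hR : Rep t 6 (Nat.add r cR) 0 (2 ^ 4 * (((r : ℝ) - 16) / 16)) := by
    refine ⟨r - 16, 0, ?_, ?_, ?_⟩
    · have k1 : cR + 16 = cM := by decide +kernel
      have k2 : lin 0 = 0 := by simp [lin]
      have k3 : ((Nat.add r cR : ℕ) : ℤ) = r - 16 + lin 0 + cM := by
        rw [k2, ← k1, Nat.add_eq]; generalize cR = z; push_cast; ring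
      rw [k3]
      exact Int.add_modEq_right
    · simp only [nrm, Pi.zero_apply, abs_zero, Finset.sum_const_zero, add_zero, abs_le]; omega
    · simp [val]; ring
  obtain ⟨RR, rR, -, h⟩ := nm_spec hR (by decide) h
  have key := leaf_spec t1 rX1 eX1 rY1 rW1 rX2 eX2 rY2 rW2 rX3 eX3 rY3 rW3 rX4 eX4 rY4 rW4
    rX5 eX5 rY5 rW5 rX6 eX6 rY6 rW6 rD rR h
  have q1 : (512 : ℝ) + rh T C4 ≤ C4 := by exact_mod_cast (hT.bnd C4 i4.1 i4.2.1).2.1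
  have x0 : 0 ≤ x4 := by linarith [i4.2.2.1]
  refine ⟨(r - 16) / 16, ?_, ?_⟩
  · have k1 : (r : ℝ) * (C4 + rh T C4) ≤ 16 * (C4 + rh T C4) + 4096 := by exact_mod_cast h0
    have k2 := i4.2.2.2.1
    have k3 : ((r : ℝ) - 16) / 16 * x4 ≤ 2 := by
      rcases le_total (r : ℝ) 16 with k | k
      · nlinarith
      · nlinarith
    nlinarith
  · rw [qq, show 2 * x4 * √x4 = 2 * √x4 ^ 3 by rw [pow_succ, Real.sq_sqrt x0]; ring]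
    exact key

theorem In.split (hT : TabS T) (h : In T C x) (hρ : 1 < rh T C) :
    In T (C - rh T C / 2) x ∨ In T (C + rh T C / 2) x := by
  obtain ⟨h1, h2, h3, h4, h5⟩ := h
  obtain ⟨k1, k2, k3⟩ := hT.kid C h1 h2 hρ
  obtain ⟨-, b2, b3⟩ := hT.bnd C h1 h2
  unfold In
  rw [k2, k3]
  generalize rh T C / 2 = m at *
  have e : (rh T C : ℝ) = 2 * m := by exact_mod_cast k1.symm
  rcases lt_or_ge (128 * x) C with k | k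
  · refine .inl ⟨by omega, by omega, ?_⟩
    rw [Nat.cast_sub (by omega)]
    exact ⟨by linarith, by linarith, .inl (by linarith)⟩
  · refine .inr ⟨by omega, by omega, ?_⟩
    push_cast
    exact ⟨by linarith, by linarith, h5.imp (fun h => by linarith) (fun h => by omega)⟩

theorem In.lt {D : ℕ} {y : ℝ} (h : In T C x) (h' : In T D y) (hb : lt T C D = true) :
    x < y := by
  rw [AA.lt, Nat.ble_eq, Nat.add_eq, Nat.add_eq] at hb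
  have k1 : (C : ℝ) + rh T C + rh T D ≤ D := by exact_mod_cast hb
  have := h'.2.1
  rcases h.2.2.2.2 with k | k
  · linarith [h'.2.2.1]
  · omega

section
variable (hT : TabS T)
include hT

theorem OK.s1 (hρ : 1 < rh T C1) (l : OK T (C1 - rh T C1 / 2) C2 C3 C4 C5 C6)
    (r : OK T (C1 + rh T C1 / 2) C2 C3 C4 C5 C6) : OK T C1 C2 C3 C4 C5 C6 :=
  fun _ _ _ _ _ _ _ _ _ _ _ _ _ _ _ _ _ _ i1 i2 i3 i4 i5 i6 => (i1.split hT hρ).elim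
    (fun i => l _ _ _ _ _ _ _ _ _ _ _ _ _ _ _ _ _ _ i i2 i3 i4 i5 i6)
    (fun i => r _ _ _ _ _ _ _ _ _ _ _ _ _ _ _ _ _ _ i i2 i3 i4 i5 i6)

theorem OK.s2 (hρ : 1 < rh T C2) (l : OK T C1 (C2 - rh T C2 / 2) C3 C4 C5 C6)
    (r : OK T C1 (C2 + rh T C2 / 2) C3 C4 C5 C6) : OK T C1 C2 C3 C4 C5 C6 :=
  fun _ _ _ _ _ _ _ _ _ _ _ _ _ _ _ _ _ _ i1 i2 i3 i4 i5 i6 => (i2.split hT hρ).elim
    (fun i => l _ _ _ _ _ _ _ _ _ _ _ _ _ _ _ _ _ _ i1 i i3 i4 i5 i6)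
    (fun i => r _ _ _ _ _ _ _ _ _ _ _ _ _ _ _ _ _ _ i1 i i3 i4 i5 i6)

theorem OK.s3 (hρ : 1 < rh T C3) (l : OK T C1 C2 (C3 - rh T C3 / 2) C4 C5 C6)
    (r : OK T C1 C2 (C3 + rh T C3 / 2) C4 C5 C6) : OK T C1 C2 C3 C4 C5 C6 :=
  fun _ _ _ _ _ _ _ _ _ _ _ _ _ _ _ _ _ _ i1 i2 i3 i4 i5 i6 => (i3.split hT hρ).elim
    (fun i => l _ _ _ _ _ _ _ _ _ _ _ _ _ _ _ _ _ _ i1 i2 i i4 i5 i6)
    (fun i => r _ _ _ _ _ _ _ _ _ _ _ _ _ _ _ _ _ _ i1 i2 i i4 i5 i6)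

theorem OK.s4 (hρ : 1 < rh T C4) (l : OK T C1 C2 C3 (C4 - rh T C4 / 2) C5 C6)
    (r : OK T C1 C2 C3 (C4 + rh T C4 / 2) C5 C6) : OK T C1 C2 C3 C4 C5 C6 :=
  fun _ _ _ _ _ _ _ _ _ _ _ _ _ _ _ _ _ _ i1 i2 i3 i4 i5 i6 => (i4.split hT hρ).elim
    (fun i => l _ _ _ _ _ _ _ _ _ _ _ _ _ _ _ _ _ _ i1 i2 i3 i i5 i6)
    (fun i => r _ _ _ _ _ _ _ _ _ _ _ _ _ _ _ _ _ _ i1 i2 i3 i i5 i6)

theorem OK.s5 (hρ : 1 < rh T C5) (l : OK T C1 C2 C3 C4 (C5 - rh T C5 / 2) C6)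
    (r : OK T C1 C2 C3 C4 (C5 + rh T C5 / 2) C6) : OK T C1 C2 C3 C4 C5 C6 :=
  fun _ _ _ _ _ _ _ _ _ _ _ _ _ _ _ _ _ _ i1 i2 i3 i4 i5 i6 => (i5.split hT hρ).elim
    (fun i => l _ _ _ _ _ _ _ _ _ _ _ _ _ _ _ _ _ _ i1 i2 i3 i4 i i6)
    (fun i => r _ _ _ _ _ _ _ _ _ _ _ _ _ _ _ _ _ _ i1 i2 i3 i4 i i6)

theorem OK.s6 (hρ : 1 < rh T C6) (l : OK T C1 C2 C3 C4 C5 (C6 - rh T C6 / 2))
    (r : OK T C1 C2 C3 C4 C5 (C6 + rh T C6 / 2)) : OK T C1 C2 C3 C4 C5 C6 :=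
  fun _ _ _ _ _ _ _ _ _ _ _ _ _ _ _ _ _ _ i1 i2 i3 i4 i5 i6 => (i6.split hT hρ).elim
    (fun i => l _ _ _ _ _ _ _ _ _ _ _ _ _ _ _ _ _ _ i1 i2 i3 i4 i5 i)
    (fun i => r _ _ _ _ _ _ _ _ _ _ _ _ _ _ _ _ _ _ i1 i2 i3 i4 i5 i)

end

theorem cd_ne {b : Bool} {x y : ℕ} (h : cd b x y ≠ 0) : b = true ∧ x ≠ 0 ∨ y ≠ 0 := by
  cases b
  · exact .inr h
  · exact .inl ⟨rfl, h⟩

theorem sp_spec {s : ℕ} {k : ℕ → ℕ → ℕ} (h0 : ∀ B, k B 0 = 0) (h : sp T C s k ≠ 0) :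
    1 < rh T C ∧ k (C - rh T C / 2) s ≠ 0 ∧ ∃ s', k (C + rh T C / 2) s' ≠ 0 := by
  replace h : cd (Nat.blt 1 (rh T C)) (k (C + rh T C / 2) (k (C - rh T C / 2) s)) 0 ≠ 0 := h
  rcases cd_ne h with ⟨h1, h2⟩ | h1
  · exact ⟨Nat.blt_eq.mp h1, fun e => h2 (by rw [e, h0]), _, h2⟩
  · exact absurd rfl h1

theorem bb_zero (T n C1 C2 C3 C4 C5 C6 : ℕ) : bb T n C1 C2 C3 C4 C5 C6 0 = 0 := by
  cases n <;> rfl

theorem bb_spec (hT : TabS T) (n : ℕ) : ∀ C1 C2 C3 C4 C5 C6 s, bb T n C1 C2 C3 C4 C5 C6 s ≠ 0 →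
    OK T C1 C2 C3 C4 C5 C6 := by
  induction n with
  | zero => exact fun _ _ _ _ _ _ _ h => absurd rfl h
  | succ n ih =>
    intro C1 C2 C3 C4 C5 C6 s h
    obtain ⟨g, hg⟩ : ∃ g, g = Nat.land s 63 := ⟨_, rfl⟩
    obtain ⟨s', hs⟩ : ∃ g, g = Nat.shiftRight s 6 := ⟨_, rfl⟩
    replace h : cd (Nat.ble 8 g) (cd (cell T C1 C2 C3 C4 C5 C6 (Nat.sub g 8)) s' 0)
      (cd (Nat.beq g 1) (sp T C1 s' fun C => bb T n C C2 C3 C4 C5 C6)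
      (cd (Nat.beq g 2) (sp T C2 s' fun C => bb T n C1 C C3 C4 C5 C6)
      (cd (Nat.beq g 3) (sp T C3 s' fun C => bb T n C1 C2 C C4 C5 C6)
      (cd (Nat.beq g 4) (sp T C4 s' fun C => bb T n C1 C2 C3 C C5 C6)
      (cd (Nat.beq g 5) (sp T C5 s' fun C => bb T n C1 C2 C3 C4 C C6)
      (cd (Nat.beq g 6) (sp T C6 s' fun C => bb T n C1 C2 C3 C4 C5 C)
      (cd (an (Nat.beq g 7) (lt T C3 C2 || lt T C5 C2 || lt T C6 C2)) s' 0))))))) ≠ 0 := by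
      rw [hg, hs]; exact h
    have g63 : g ≤ 63 := hg ▸ Nat.and_le_right
    rcases cd_ne h with ⟨-, h⟩ | h
    · rcases cd_ne h with ⟨h, -⟩ | h
      · exact cell_spec hT ((Nat.sub_le _ _).trans g63) h
      · exact absurd rfl h
    rcases cd_ne h with ⟨-, h⟩ | h
    · obtain ⟨k1, k2, _, k3⟩ := sp_spec (fun _ => bb_zero ..) h
      exact OK.s1 hT k1 (ih _ _ _ _ _ _ _ k2) (ih _ _ _ _ _ _ _ k3)
    rcases cd_ne h with ⟨-, h⟩ | h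
    · obtain ⟨k1, k2, _, k3⟩ := sp_spec (fun _ => bb_zero ..) h
      exact OK.s2 hT k1 (ih _ _ _ _ _ _ _ k2) (ih _ _ _ _ _ _ _ k3)
    rcases cd_ne h with ⟨-, h⟩ | h
    · obtain ⟨k1, k2, _, k3⟩ := sp_spec (fun _ => bb_zero ..) h
      exact OK.s3 hT k1 (ih _ _ _ _ _ _ _ k2) (ih _ _ _ _ _ _ _ k3)
    rcases cd_ne h with ⟨-, h⟩ | h
    · obtain ⟨k1, k2, _, k3⟩ := sp_spec (fun _ => bb_zero ..) h
      exact OK.s4 hT k1 (ih _ _ _ _ _ _ _ k2) (ih _ _ _ _ _ _ _ k3)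
    rcases cd_ne h with ⟨-, h⟩ | h
    · obtain ⟨k1, k2, _, k3⟩ := sp_spec (fun _ => bb_zero ..) h
      exact OK.s5 hT k1 (ih _ _ _ _ _ _ _ k2) (ih _ _ _ _ _ _ _ k3)
    rcases cd_ne h with ⟨-, h⟩ | h
    · obtain ⟨k1, k2, _, k3⟩ := sp_spec (fun _ => bb_zero ..) h
      exact OK.s6 hT k1 (ih _ _ _ _ _ _ _ k2) (ih _ _ _ _ _ _ _ k3)
    rcases cd_ne h with ⟨h, -⟩ | h
    · rw [an_iff, Bool.or_eq_true, Bool.or_eq_true] at h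
      intro x1 x2 x3 x4 x5 x6 c1 c2 c3 c4 c5 c6 d1 d2 d3 d4 d5 d6 i1 i2 i3 i4 i5 i6 _ _ _ _ _ _
        l3 l5 l6
      rcases h.2 with (h | h) | h
      · exact absurd (i3.lt i2 h) (not_lt.2 l3)
      · exact absurd (i5.lt i2 h) (not_lt.2 l5)
      · exact absurd (i6.lt i2 h) (not_lt.2 l6)
    · exact absurd rfl h

theorem ok_of {C1 C2 C3 C4 C5 C6 : ℕ} (s : ℕ) (h : Nat.beq (bb tab 40 C1 C2 C3 C4 C5 C6 s) 1 = true) :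
    OK tab C1 C2 C3 C4 C5 C6 :=
  bb_spec tabS 40 _ _ _ _ _ _ s (by rw [Nat.beq_eq.mp h]; exact one_ne_zero)

def spl (C A B : ℕ) : Bool :=
  decide (1 < rh tab C ∧ A = C - rh tab C / 2 ∧ B = C + rh tab C / 2)

variable {A B : ℕ}

theorem j1 (C : ℕ) (l : OK tab A C2 C3 C4 C5 C6) (r : OK tab B C2 C3 C4 C5 C6)
    (h : spl C A B = true) : OK tab C C2 C3 C4 C5 C6 := by
  obtain ⟨k, rfl, rfl⟩ := of_decide_eq_true h; exact OK.s1 tabS k l r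
theorem j2 (C : ℕ) (l : OK tab C1 A C3 C4 C5 C6) (r : OK tab C1 B C3 C4 C5 C6)
    (h : spl C A B = true) : OK tab C1 C C3 C4 C5 C6 := by
  obtain ⟨k, rfl, rfl⟩ := of_decide_eq_true h; exact OK.s2 tabS k l r
theorem j3 (C : ℕ) (l : OK tab C1 C2 A C4 C5 C6) (r : OK tab C1 C2 B C4 C5 C6)
    (h : spl C A B = true) : OK tab C1 C2 C C4 C5 C6 := by
  obtain ⟨k, rfl, rfl⟩ := of_decide_eq_true h; exact OK.s3 tabS k l r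
theorem j4 (C : ℕ) (l : OK tab C1 C2 C3 A C5 C6) (r : OK tab C1 C2 C3 B C5 C6)
    (h : spl C A B = true) : OK tab C1 C2 C3 C C5 C6 := by
  obtain ⟨k, rfl, rfl⟩ := of_decide_eq_true h; exact OK.s4 tabS k l r
theorem j5 (C : ℕ) (l : OK tab C1 C2 C3 C4 A C6) (r : OK tab C1 C2 C3 C4 B C6)
    (h : spl C A B = true) : OK tab C1 C2 C3 C4 C C6 := by
  obtain ⟨k, rfl, rfl⟩ := of_decide_eq_true h; exact OK.s5 tabS k l r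
theorem j6 (C : ℕ) (l : OK tab C1 C2 C3 C4 C5 A) (r : OK tab C1 C2 C3 C4 C5 B)
    (h : spl C A B = true) : OK tab C1 C2 C3 C4 C5 C := by
  obtain ⟨k, rfl, rfl⟩ := of_decide_eq_true h; exact OK.s6 tabS k l r

theorem qq_a (x1 x2 x3 x4 x5 x6 c1 c2 c3 c4 c5 c6 d r : ℝ) :
    qq x1 x3 x2 x4 x6 x5 c1 c3 c2 c4 c6 c5 d r = qq x1 x2 x3 x4 x5 x6 c1 c2 c3 c4 c5 c6 d r := by
  have e1 : del4 x1 x3 x2 x4 x6 x5 = del4 x1 x2 x3 x4 x5 x6 := by unfold del4; ring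
  have e2 : del4 x3 x2 x1 x6 x5 x4 = del4 x3 x1 x2 x6 x4 x5 := by unfold del4; ring
  have e3 : del4 x5 x1 x6 x2 x4 x3 = del4 x5 x3 x4 x2 x6 x1 := by unfold del4; ring
  have e4 : del4 x2 x1 x3 x5 x4 x6 = del4 x2 x3 x1 x5 x6 x4 := by unfold del4; ring
  have e5 : del4 x6 x2 x4 x3 x5 x1 = del4 x6 x1 x5 x3 x4 x2 := by unfold del4; ring
  have e6 : uu x3 x2 x4 = uu x2 x3 x4 := by unfold uu; ring
  have e7 : uu x4 x6 x5 = uu x4 x5 x6 := by unfold uu; ring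
  have e8 : del x1 x3 x2 x4 x6 x5 = del x1 x2 x3 x4 x5 x6 := by unfold del; ring
  rw [qq, qq, qr, qr, e1, e2, e3, e4, e5, e6, e7, e8]; ring

theorem qq_b (x1 x2 x3 x4 x5 x6 c1 c2 c3 c4 c5 c6 d r : ℝ) :
    qq x1 x6 x5 x4 x3 x2 c1 c6 c5 c4 c3 c2 d r = qq x1 x2 x3 x4 x5 x6 c1 c2 c3 c4 c5 c6 d r := by
  have e1 : del4 x1 x6 x5 x4 x3 x2 = del4 x1 x2 x3 x4 x5 x6 := by unfold del4; ring
  have e2 : del4 x6 x5 x1 x3 x2 x4 = del4 x6 x1 x5 x3 x4 x2 := by unfold del4; ring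
  have e3 : del4 x2 x1 x3 x5 x4 x6 = del4 x2 x3 x1 x5 x6 x4 := by unfold del4; ring
  have e4 : del4 x5 x1 x6 x2 x4 x3 = del4 x5 x3 x4 x2 x6 x1 := by unfold del4; ring
  have e5 : del4 x3 x5 x4 x6 x2 x1 = del4 x3 x1 x2 x6 x4 x5 := by unfold del4; ring
  have e6 : uu x6 x5 x4 = uu x4 x5 x6 := by unfold uu; ring
  have e7 : uu x4 x3 x2 = uu x2 x3 x4 := by unfold uu; ring
  have e8 : del x1 x6 x5 x4 x3 x2 = del x1 x2 x3 x4 x5 x6 := by unfold del; ring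
  have e9 : uu x1 x6 x2 = uu x1 x2 x6 := by unfold uu; ring
  have e0 : uu x1 x5 x3 = uu x1 x3 x5 := by unfold uu; ring
  rw [qq, qq, qr, qr, e1, e2, e3, e4, e5, e6, e7, e8, e9, e0]; ring

theorem qs_of (h : OK tab 768 768 768 768 768 768) : QS B0 := by
  have hρ : rh tab 768 = 256 := by decide +kernel
  have hi : ∀ x : ℝ, 4 ≤ x → x ≤ 8 → In tab 768 x := fun x h1 h2 => by
    unfold In; rw [hρ]
    exact ⟨by norm_num, by norm_num, by push_cast; linarith, by push_cast; linarith, .inr rfl⟩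
  intro x1 x2 x3 x4 x5 x6 c1 c2 c3 c4 c5 c6 d1 d2 d3 d4 d5 d6 l1 l2 l3 l4 l5 l6 u1 u2 u3 u4 u5 u6
    b1 b2 b3 b4 b5 b6
  have i1 := hi _ l1 u1
  have i2 := hi _ l2 u2
  have i3 := hi _ l3 u3
  have i4 := hi _ l4 u4
  have i5 := hi _ l5 u5
  have i6 := hi _ l6 u6
  have hm : (x2 ≤ x3 ∧ x2 ≤ x5 ∧ x2 ≤ x6) ∨ (x3 ≤ x2 ∧ x3 ≤ x6 ∧ x3 ≤ x5) ∨
      (x6 ≤ x5 ∧ x6 ≤ x3 ∧ x6 ≤ x2) ∨ (x5 ≤ x6 ∧ x5 ≤ x2 ∧ x5 ≤ x3) := by grind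
  rcases hm with ⟨p, q, r⟩ | ⟨p, q, r⟩ | ⟨p, q, r⟩ | ⟨p, q, r⟩
  · exact h _ _ _ _ _ _ _ _ _ _ _ _ _ _ _ _ _ _ i1 i2 i3 i4 i5 i6 b1 b2 b3 b4 b5 b6 p q r
  · simpa only [qq_a x1 x2] using
      h _ _ _ _ _ _ _ _ _ _ _ _ _ _ _ _ _ _ i1 i3 i2 i4 i6 i5 b1 b3 b2 b4 b6 b5 p q r
  · simpa only [qq_b x1 x2] using
      h _ _ _ _ _ _ _ _ _ _ _ _ _ _ _ _ _ _ i1 i6 i5 i4 i3 i2 b1 b6 b5 b4 b3 b2 p q r
  · simpa only [qq_b x1 x3, qq_a x1 x2] using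
      h _ _ _ _ _ _ _ _ _ _ _ _ _ _ _ _ _ _ i1 i5 i6 i4 i2 i3 b1 b5 b6 b4 b2 b3 p q r

end Pool.Agent.Lib.MP_f3b2fd_co.KN.AA
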