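import Pool.Agent.Lib.MP_f3b2fd_co.KEP.N.NoMin
import Pool.Agent.Lib.MP_f3b2fd_co.KEP.N.Box

/-! The minimum of a branch over a box is attained at a vertex. -/

namespace Pool.Agent.Lib.MP_f3b2fd_co.KN

open Real Set KA

/-- no interior local minimum along the fourth coordinate. -/
def NoMinS : Prop := ∀ (k c1 c2 c3 c5 c6 p q x1 x2 x3 z x5 x6 r : ℝ), 4 ≤ x1 → x1 ≤ 8 →
  4 ≤ x2 → x2 ≤ 8 → 4 ≤ x3 → x3 ≤ 8 → 4 < z → z < 8 → 4 ≤ x5 → x5 ≤ 8 → 4 ≤ x6 → x6 ≤ 8 →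
  r * (3 * q * z ^ 2) * z ≤ 2 * (3 * q * z ^ 2) →
  qq x1 x2 x3 z x5 x6 c1 c2 c3 (p + q * z ^ 3) c5 c6 (3 * q * z ^ 2) r < 0 →
  ¬ IsLocalMin (fun t => br k ![c1, c2, c3, p + q * t ^ 3, c5, c6] ![x1, x2, x3, t, x5, x6]) z

namespace Calc

theorem uu_eq (a b c : ℝ) : uu a b c = Der.up a b c := by
  unfold uu Der.up
  ring

theorem dic_box (x1 x2 x3 x4 x5 x6 : ℝ) : dic x1 x2 x3 x4 x5 x6 = Box.dic x1 x2 x3 x4 x5 x6 := by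
  rw [dic, Box.dic, uu_eq, uu_eq]

theorem dA (a b c d e f : ℝ) : dic a b c d e f = dic a c b d f e := by
  unfold dic
  rw [mul_comm (uu a c e), show del4 a b c d e f = del4 a c b d f e by unfold del4; ring]

theorem dB (a b c d e f : ℝ) : dic a b c d e f = dic a f e d c b := by
  unfold dic
  rw [show del4 a b c d e f = del4 a f e d c b by unfold del4; ring,
    show uu a b f = uu a f b by unfold uu; ring, show uu a c e = uu a e c by unfold uu; ring]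

theorem dC (a b c d e f : ℝ) : dic a b c d e f = dic a e f d b c := by
  rw [dB, dA]

theorem br_eq (k c1 c2 c3 c4 c5 c6 x1 x2 x3 x4 x5 x6 : ℝ) :
    br k ![c1, c2, c3, c4, c5, c6] ![x1, x2, x3, x4, x5, x6] =
      √(del x1 x2 x3 x4 x5 x6) / 12 + k - c1 * dic x1 x2 x3 x4 x5 x6 - c2 * dic x2 x1 x3 x5 x4 x6 -
        c3 * dic x3 x1 x2 x6 x4 x5 - c4 * dic x4 x2 x6 x1 x5 x3 - c5 * dic x5 x1 x6 x2 x4 x3 -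
        c6 * dic x6 x1 x5 x3 x4 x2 := rfl

theorem sym1 (k c1 c2 c3 c4 c5 c6 x1 x2 x3 x4 x5 x6 : ℝ) :
    br k ![c4, c2, c6, c1, c5, c3] ![x4, x2, x6, x1, x5, x3] =
      br k ![c1, c2, c3, c4, c5, c6] ![x1, x2, x3, x4, x5, x6] := by
  rw [br_eq, br_eq, Der.sy4 x1 x2 x3 x4 x5 x6,
    dC x2 x4 x6 x5 x1 x3,
    dC x6 x4 x2 x3 x1 x5,
    dC x5 x4 x3 x2 x1 x6,
    dC x3 x4 x5 x6 x1 x2]
  ring

theorem sym2 (k c1 c2 c3 c4 c5 c6 x1 x2 x3 x4 x5 x6 : ℝ) :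
    br k ![c5, c1, c6, c2, c4, c3] ![x5, x1, x6, x2, x4, x3] =
      br k ![c1, c2, c3, c4, c5, c6] ![x1, x2, x3, x4, x5, x6] := by
  rw [br_eq, br_eq, Der.sy5 x1 x2 x3 x4 x5 x6,
    dC x1 x5 x6 x4 x2 x3,
    dA x6 x5 x1 x3 x2 x4,
    dC x4 x5 x3 x1 x2 x6,
    dB x3 x5 x4 x6 x2 x1]
  ring

theorem sym3 (k c1 c2 c3 c4 c5 c6 x1 x2 x3 x4 x5 x6 : ℝ) :
    br k ![c6, c1, c5, c3, c4, c2] ![x6, x1, x5, x3, x4, x2] =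
      br k ![c1, c2, c3, c4, c5, c6] ![x1, x2, x3, x4, x5, x6] := by
  rw [br_eq, br_eq, Der.sy6 x1 x2 x3 x4 x5 x6,
    dB x1 x6 x5 x4 x3 x2,
    dA x5 x6 x1 x2 x3 x4,
    dA x4 x6 x2 x1 x3 x5,
    dB x2 x6 x4 x5 x3 x1]
  ring

theorem sym5 (k c1 c2 c3 c4 c5 c6 x1 x2 x3 x4 x5 x6 : ℝ) :
    br k ![c2, c1, c3, c5, c4, c6] ![x2, x1, x3, x5, x4, x6] =
      br k ![c1, c2, c3, c4, c5, c6] ![x1, x2, x3, x4, x5, x6] := by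
  rw [br_eq, br_eq, Der.sy2 x1 x2 x3 x4 x5 x6,
    dA x3 x2 x1 x6 x5 x4,
    dB x6 x2 x4 x3 x5 x1]
  ring

theorem sym6 (k c1 c2 c3 c4 c5 c6 x1 x2 x3 x4 x5 x6 : ℝ) :
    br k ![c3, c1, c2, c6, c4, c5] ![x3, x1, x2, x6, x4, x5] =
      br k ![c1, c2, c3, c4, c5, c6] ![x1, x2, x3, x4, x5, x6] := by
  rw [br_eq, br_eq, Der.sy3 x1 x2 x3 x4 x5 x6,
    dA x1 x3 x2 x4 x6 x5,
    dA x2 x3 x1 x5 x6 x4,
    dB x4 x3 x5 x1 x6 x2,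
    dB x5 x3 x4 x2 x6 x1]
  ring

theorem cont (k c1 c2 c3 c5 c6 p q : ℝ) {x1 x2 x3 x5 x6 l u : ℝ} (h1 : x1 ∈ Icc (4 : ℝ) 8)
    (h2 : x2 ∈ Icc (4 : ℝ) 8) (h3 : x3 ∈ Icc (4 : ℝ) 8) (h5 : x5 ∈ Icc (4 : ℝ) 8)
    (h6 : x6 ∈ Icc (4 : ℝ) 8) (hl : 4 ≤ l) (hu : u ≤ 8) :
    ContinuousOn (fun t => br k ![c1, c2, c3, p + q * t ^ 3, c5, c6] ![x1, x2, x3, t, x5, x6])
      (Icc l u) := by
  simp only [br_eq, dic_box]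
  have K : ∀ c : ℝ, ContinuousOn (fun _ : ℝ => c) (Icc l u) := fun c => continuousOn_const
  have I : ContinuousOn (fun t : ℝ => t) (Icc l u) := continuousOn_id
  have m : ∀ t ∈ Icc l u, t ∈ Icc (4 : ℝ) 8 := fun t ht => ⟨hl.trans ht.1, ht.2.trans hu⟩
  have a1 := Box.dic_cont (K x1) (K x2) (K x3) I (K x5) (K x6) (fun _ _ => h1) (fun _ _ => h2)
    (fun _ _ => h3) (fun _ _ => h5) (fun _ _ => h6)
  have a2 := Box.dic_cont (K x2) (K x1) (K x3) (K x5) I (K x6) (fun _ _ => h2) (fun _ _ => h1)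
    (fun _ _ => h3) m (fun _ _ => h6)
  have a3 := Box.dic_cont (K x3) (K x1) (K x2) (K x6) I (K x5) (fun _ _ => h3) (fun _ _ => h1)
    (fun _ _ => h2) m (fun _ _ => h5)
  have a4 := Box.dic_cont I (K x2) (K x6) (K x1) (K x5) (K x3) m (fun _ _ => h2)
    (fun _ _ => h6) (fun _ _ => h5) (fun _ _ => h3)
  have a5 := Box.dic_cont (K x5) (K x1) (K x6) (K x2) I (K x3) (fun _ _ => h5) (fun _ _ => h1)
    (fun _ _ => h6) m (fun _ _ => h3)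
  have a6 := Box.dic_cont (K x6) (K x1) (K x5) (K x3) I (K x2) (fun _ _ => h6) (fun _ _ => h1)
    (fun _ _ => h5) m (fun _ _ => h2)
  have a0 : ContinuousOn (fun t => √(del x1 x2 x3 t x5 x6) / 12 + k) (Icc l u) := by
    unfold del
    fun_prop
  have a7 : ContinuousOn (fun t : ℝ => p + q * t ^ 3) (Icc l u) := by fun_prop
  exact (((((a0.sub ((K c1).mul a1)).sub ((K c2).mul a2)).sub ((K c3).mul a3)).sub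
    (a7.mul a4)).sub ((K c5).mul a5)).sub ((K c6).mul a6)

/-- the data on one coordinate. -/
def Ok (B : ℝ → ℝ → ℝ → Prop) (x c : ℝ) : Prop := x ∈ Icc (4 : ℝ) 8 ∧ ∃ d, B x c d

theorem line (h : NoMinS) {B : ℝ → ℝ → ℝ → Prop} (hQ : QS B)
    {k c1 c2 c3 c5 c6 p q x1 x2 x3 x5 x6 l u z : ℝ} (h1 : Ok B x1 c1) (h2 : Ok B x2 c2)
    (h3 : Ok B x3 c3) (h5 : Ok B x5 c5) (h6 : Ok B x6 c6)
    (h4 : 4 ≤ l ∧ u ≤ 8 ∧ ∀ t, l ≤ t → t ≤ u → B t (p + q * t ^ 3) (3 * q * t ^ 2))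
    (hz : z ∈ Icc l u)
    (a : 0 ≤ br k ![c1, c2, c3, p + q * l ^ 3, c5, c6] ![x1, x2, x3, l, x5, x6])
    (b : 0 ≤ br k ![c1, c2, c3, p + q * u ^ 3, c5, c6] ![x1, x2, x3, u, x5, x6]) :
    0 ≤ br k ![c1, c2, c3, p + q * z ^ 3, c5, c6] ![x1, x2, x3, z, x5, x6] := by
  obtain ⟨m, hm, hmin⟩ := isCompact_Icc.exists_isMinOn ⟨z, hz⟩
    (cont k c1 c2 c3 c5 c6 p q h1.1 h2.1 h3.1 h5.1 h6.1 h4.1 h4.2.1)
  refine le_trans ?_ (hmin hz)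
  rcases hm.1.eq_or_lt with rfl | k1
  · exact a
  rcases hm.2.eq_or_lt with rfl | k2
  · exact b
  obtain ⟨⟨a1, b1⟩, d1, e1⟩ := h1
  obtain ⟨⟨a2, b2⟩, d2, e2⟩ := h2
  obtain ⟨⟨a3, b3⟩, d3, e3⟩ := h3
  obtain ⟨⟨a5, b5⟩, d5, e5⟩ := h5
  obtain ⟨⟨a6, b6⟩, d6, e6⟩ := h6
  have a4 : 4 < m := h4.1.trans_lt k1
  have b4 : m < 8 := k2.trans_le h4.2.1
  obtain ⟨r, r1, r2⟩ := hQ _ _ _ _ _ _ _ _ _ _ _ _ _ _ _ _ _ _ a1 a2 a3 a4.le a5 a6 b1 b2 b3 b4.le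
    b5 b6 e1 e2 e3 (h4.2.2 m hm.1 hm.2) e5 e6
  exact absurd (hmin.isLocalMin (Icc_mem_nhds k1 k2))
    (h k c1 c2 c3 c5 c6 p q x1 x2 x3 m x5 x6 r a1 b1 a2 b2 a3 b3 a4 b4 a5 b5 a6 b6 r1 r2)

end Calc

open Calc in
theorem calcS_of (h : NoMinS) : CalcS := by
  intro B hQ k l u p q hB hv x hx
  have ok : ∀ e, ∀ t ∈ Icc (l e) (u e), Ok B t (p e + q e * t ^ 3) := fun e t ht =>
    ⟨⟨(hB e).1.trans ht.1, ht.2.trans (hB e).2.1⟩, _, (hB e).2.2 t ht.1 ht.2⟩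
  have lu : ∀ e, l e ≤ u e := fun e => (hx e).1.trans (hx e).2
  have L : ∀ e, l e ∈ Icc (l e) (u e) := fun e => left_mem_Icc.2 (lu e)
  have U : ∀ e, u e ∈ Icc (l e) (u e) := fun e => right_mem_Icc.2 (lu e)
  refine Box.six (fun x1 x2 x3 x4 x5 x6 => 0 ≤ br k ![p 0 + q 0 * x1 ^ 3, p 1 + q 1 * x2 ^ 3,
      p 2 + q 2 * x3 ^ 3, p 3 + q 3 * x4 ^ 3, p 4 + q 4 * x5 ^ 3, p 5 + q 5 * x6 ^ 3]
      ![x1, x2, x3, x4, x5, x6]) _ _ _ _ _ (Icc (l 5) (u 5)) (l6 := l 5) (u6 := u 5) (L 0) (U 0)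
    (L 1) (U 1) (L 2) (U 2) (L 3) (U 3) (L 4) (U 4) ?_ ?_ ?_ ?_ ?_ ?_ ?_ (x 0) (hx 0) (x 1) (hx 1) (x 2) (hx 2)
    (x 3) (hx 3) (x 4) (hx 4) (x 5) (hx 5)
  · intro x1 h1 x2 h2 x3 h3 x4 h4 x5 h5 x6 h6 a b
    rw [← sym1] at a b ⊢
    exact line h hQ (ok 3 _ h4) (ok 1 _ h2) (ok 5 _ h6) (ok 4 _ h5) (ok 2 _ h3) (hB 0) h1 a b
  · intro x1 h1 x2 h2 x3 h3 x4 h4 x5 h5 x6 h6 a b
    rw [← Calc.sym2] at a b ⊢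
    exact line h hQ (ok 4 _ h5) (ok 0 _ h1) (ok 5 _ h6) (ok 3 _ h4) (ok 2 _ h3) (hB 1) h2 a b
  · intro x1 h1 x2 h2 x3 h3 x4 h4 x5 h5 x6 h6 a b
    rw [← sym3] at a b ⊢
    exact line h hQ (ok 5 _ h6) (ok 0 _ h1) (ok 4 _ h5) (ok 3 _ h4) (ok 1 _ h2) (hB 2) h3 a b
  · intro x1 h1 x2 h2 x3 h3 x4 h4 x5 h5 x6 h6 a b
    exact line h hQ (ok 0 _ h1) (ok 1 _ h2) (ok 2 _ h3) (ok 4 _ h5) (ok 5 _ h6) (hB 3) h4 a b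
  · intro x1 h1 x2 h2 x3 h3 x4 h4 x5 h5 x6 h6 a b
    rw [← sym5] at a b ⊢
    exact line h hQ (ok 1 _ h2) (ok 0 _ h1) (ok 2 _ h3) (ok 3 _ h4) (ok 5 _ h6) (hB 4) h5 a b
  · intro x1 h1 x2 h2 x3 h3 x4 h4 x5 h5 x6 h6 a b
    rw [← sym6] at a b ⊢
    exact line h hQ (ok 2 _ h3) (ok 0 _ h1) (ok 1 _ h2) (ok 3 _ h4) (ok 4 _ h5) (hB 5) h6 a b
  · intro v1 v2 v3 v4 v5 v6 k1 k2 k3 k4 k5 k6
    exact hv ![v1, v2, v3, v4, v5, v6] fun e => by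
      fin_cases e
      exacts [k1, k2, k3, k4, k5, k6]

theorem calcS : CalcS := calcS_of noMin

end Pool.Agent.Lib.MP_f3b2fd_co.KN
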