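import Pool.Agent.Lib.MP_f3b2fd_co.KEP.A.St

/-! Derivatives of the six dihedral angles in the fourth squared edge length. -/

namespace Pool.Agent.Lib.MP_f3b2fd_co.KA.Der

open Real

/-- sixteen times the squared area of a triangle. -/
def up (a b c : ℝ) : ℝ := -a ^ 2 - b ^ 2 - c ^ 2 + 2 * a * b + 2 * a * c + 2 * b * c

theorem core {A D : ℝ → ℝ} {A' D' z c : ℝ} (hA : HasDerivAt A A' z) (hD : HasDerivAt D D' z)
    (h : 0 < D z) (e : A z * D' / 2 - A' * D z = c * (D z + A z ^ 2)) :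
    HasDerivAt (fun t => π / 2 - arctan (A t / √(D t))) (c / √(D z)) z := by
  have hs : 0 < √(D z) := Real.sqrt_pos.2 h
  have s2 : √(D z) ^ 2 = D z := Real.sq_sqrt h.le
  have h1 := ((hA.fun_div (hD.sqrt h.ne') hs.ne').arctan).const_sub (π / 2)
  refine h1.congr_deriv ?_
  have hp : 0 < D z + A z ^ 2 := by positivity
  generalize √(D z) = s at *
  rw [← s2] at e hp
  field_simp
  linear_combination 2 * e

theorem disc (x1 x2 x3 x4 x5 x6 : ℝ) :
    4 * x1 * del x1 x2 x3 x4 x5 x6 + del4 x1 x2 x3 x4 x5 x6 ^ 2 = up x1 x2 x6 * up x1 x3 x5 := by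
  unfold del del4 up
  ring

theorem poly2 (a b c z : ℝ) : HasDerivAt (fun t : ℝ => a * t ^ 2 + b * t + c) (2 * a * z + b) z := by
  have h := ((((hasDerivAt_id' z).fun_pow 2).const_mul a).fun_add
    ((hasDerivAt_id' z).const_mul b)).add_const c
  refine h.congr_deriv ?_
  simp only [Nat.cast_ofNat, Nat.add_one_sub_one, pow_one]
  ring

/-- derivative of a function that is a polynomial of degree at most two. -/
theorem quad {F : ℝ → ℝ} {z d : ℝ} (a b c : ℝ) (hF : ∀ t, F t = a * t ^ 2 + b * t + c)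
    (hd : d = 2 * a * z + b) : HasDerivAt F d z := by
  rw [hd, funext hF]
  exact poly2 a b c z

theorem d_del (x1 x2 x3 z x5 x6 : ℝ) :
    HasDerivAt (fun t => del x1 x2 x3 t x5 x6) (del4 x1 x2 x3 z x5 x6) z :=
  quad (-x1) (del4 x1 x2 x3 0 x5 x6) (del x1 x2 x3 0 x5 x6) (fun t => by unfold del del4; ring)
    (by unfold del4; ring)

theorem sq4 {x D : ℝ} (hx : 0 < x) (c : ℝ) :
    2 * x * c / √(4 * x * D) = √x * c / √D := by
  have e : √(4 * x * D) = 2 * √x * √D := by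
    rw [Real.sqrt_mul (by positivity), Real.sqrt_mul (by norm_num),
      show (4 : ℝ) = 2 ^ 2 by norm_num, Real.sqrt_sq (by norm_num)]
  have hs : 0 < √x := Real.sqrt_pos.2 hx
  have s2 : √x * √x = x := Real.mul_self_sqrt hx.le
  rw [e]
  generalize √x = s at *
  rw [← s2, show 2 * (s * s) * c = (2 * s) * (s * c) by ring, mul_div_mul_left _ _ (by positivity)]

section
variable {x1 x2 x3 z x5 x6 : ℝ}

theorem sy2 (x1 x2 x3 x4 x5 x6 : ℝ) : del x2 x1 x3 x5 x4 x6 = del x1 x2 x3 x4 x5 x6 := by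
  unfold del; ring

theorem sy3 (x1 x2 x3 x4 x5 x6 : ℝ) : del x3 x1 x2 x6 x4 x5 = del x1 x2 x3 x4 x5 x6 := by
  unfold del; ring

theorem sy4 (x1 x2 x3 x4 x5 x6 : ℝ) : del x4 x2 x6 x1 x5 x3 = del x1 x2 x3 x4 x5 x6 := by
  unfold del; ring

theorem sy5 (x1 x2 x3 x4 x5 x6 : ℝ) : del x5 x1 x6 x2 x4 x3 = del x1 x2 x3 x4 x5 x6 := by
  unfold del; ring

theorem sy6 (x1 x2 x3 x4 x5 x6 : ℝ) : del x6 x1 x5 x3 x4 x2 = del x1 x2 x3 x4 x5 x6 := by
  unfold del; ring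

/-- one angle along an edge other than the fourth. -/
theorem one {A : ℝ → ℝ} {x A' n u v : ℝ} (hx : 0 < x) (hd : 0 < del x1 x2 x3 z x5 x6)
    (hA : HasDerivAt A A' z) (hu : u ≠ 0)
    (e1 : 4 * x * del x1 x2 x3 z x5 x6 + A z ^ 2 = u * v)
    (e2 : A z * del4 x1 x2 x3 z x5 x6 - 2 * A' * del x1 x2 x3 z x5 x6 = n * v) :
    HasDerivAt (fun t => π / 2 - arctan (A t / √(4 * x * del x1 x2 x3 t x5 x6)))
      (√x * (n / u) / √(del x1 x2 x3 z x5 x6)) z := by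
  rw [← sq4 hx]
  refine core hA ((d_del x1 x2 x3 z x5 x6).const_mul (4 * x)) (by positivity) ?_
  rw [e1]
  field_simp
  linear_combination 4 * e2

theorem d1 (h : 0 < x1) (hd : 0 < del x1 x2 x3 z x5 x6) :
    HasDerivAt (fun t => dih x1 x2 x3 t x5 x6) (√x1 / √(del x1 x2 x3 z x5 x6)) z := by
  have := one (A := fun t => del4 x1 x2 x3 t x5 x6) (A' := -2 * x1) (n := 1) (u := 1)
    (v := up x1 x2 x6 * up x1 x3 x5) h hd
    (quad 0 (-2 * x1) (del4 x1 x2 x3 0 x5 x6) (fun t => by unfold del4; ring) (by ring))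
    one_ne_zero (by rw [disc, one_mul]) (by rw [← disc]; ring)
  simpa only [dih, div_one, mul_one] using this

theorem d2 (h : 0 < x2) (hd : 0 < del x1 x2 x3 z x5 x6) (hu : up x2 x3 z ≠ 0) :
    HasDerivAt (fun t => dih x2 x1 x3 x5 t x6)
      (√x2 * (-del4 x3 x1 x2 x6 z x5 / up x2 x3 z) / √(del x1 x2 x3 z x5 x6)) z := by
  have := one (A := fun t => del4 x2 x1 x3 x5 t x6) (A' := x1 + x2 - x6) (v := up x1 x2 x6)
    (n := -del4 x3 x1 x2 x6 z x5) h hd
    (quad 0 (x1 + x2 - x6) (del4 x2 x1 x3 x5 0 x6) (fun t => by unfold del4; ring) (by ring))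
    hu (by unfold del del4 up; ring) (by unfold del del4 up; ring)
  simpa only [dih, sy2 x1 x2 x3 _ x5 x6] using this

theorem d3 (h : 0 < x3) (hd : 0 < del x1 x2 x3 z x5 x6) (hu : up x2 x3 z ≠ 0) :
    HasDerivAt (fun t => dih x3 x1 x2 x6 t x5)
      (√x3 * (-del4 x2 x1 x3 x5 z x6 / up x2 x3 z) / √(del x1 x2 x3 z x5 x6)) z := by
  have := one (A := fun t => del4 x3 x1 x2 x6 t x5) (A' := x1 + x3 - x5) (v := up x1 x3 x5)
    (n := -del4 x2 x1 x3 x5 z x6) h hd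
    (quad 0 (x1 + x3 - x5) (del4 x3 x1 x2 x6 0 x5) (fun t => by unfold del4; ring) (by ring))
    hu (by unfold del del4 up; ring) (by unfold del del4 up; ring)
  simpa only [dih, sy3 x1 x2 x3 _ x5 x6] using this

theorem d5 (h : 0 < x5) (hd : 0 < del x1 x2 x3 z x5 x6) (hu : up z x5 x6 ≠ 0) :
    HasDerivAt (fun t => dih x5 x1 x6 x2 t x3)
      (√x5 * (-del4 x6 x1 x5 x3 z x2 / up z x5 x6) / √(del x1 x2 x3 z x5 x6)) z := by
  have := one (A := fun t => del4 x5 x1 x6 x2 t x3) (A' := x1 + x5 - x3) (v := up x1 x3 x5)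
    (n := -del4 x6 x1 x5 x3 z x2) h hd
    (quad 0 (x1 + x5 - x3) (del4 x5 x1 x6 x2 0 x3) (fun t => by unfold del4; ring) (by ring))
    hu (by unfold del del4 up; ring) (by unfold del del4 up; ring)
  simpa only [dih, sy5 x1 x2 x3 _ x5 x6] using this

theorem d6 (h : 0 < x6) (hd : 0 < del x1 x2 x3 z x5 x6) (hu : up z x5 x6 ≠ 0) :
    HasDerivAt (fun t => dih x6 x1 x5 x3 t x2)
      (√x6 * (-del4 x5 x1 x6 x2 z x3 / up z x5 x6) / √(del x1 x2 x3 z x5 x6)) z := by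
  have := one (A := fun t => del4 x6 x1 x5 x3 t x2) (A' := x1 + x6 - x2) (v := up x1 x2 x6)
    (n := -del4 x5 x1 x6 x2 z x3) h hd
    (quad 0 (x1 + x6 - x2) (del4 x6 x1 x5 x3 0 x2) (fun t => by unfold del4; ring) (by ring))
    hu (by unfold del del4 up; ring) (by unfold del del4 up; ring)
  simpa only [dih, sy6 x1 x2 x3 _ x5 x6] using this

/-- the sum in the formula of Schlaefli. -/
noncomputable def sch (x1 x2 x3 z x5 x6 : ℝ) : ℝ :=
  x1 - (x2 * del4 x3 x1 x2 x6 z x5 + x3 * del4 x2 x1 x3 x5 z x6) / up x2 x3 z -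
    (x5 * del4 x6 x1 x5 x3 z x2 + x6 * del4 x5 x1 x6 x2 z x3) / up z x5 x6

theorem d4 (h : 0 < z) (hd : 0 < del x1 x2 x3 z x5 x6) (hu : up x2 x3 z ≠ 0)
    (hv : up z x5 x6 ≠ 0) : HasDerivAt (fun t => dih t x2 x6 x1 x5 x3)
      (-sch x1 x2 x3 z x5 x6 / √z / √(del x1 x2 x3 z x5 x6)) z := by
  have hA : HasDerivAt (fun t => del4 t x2 x6 x1 x5 x3) (-2 * z - 2 * x1 + x2 + x3 + x5 + x6) z :=
    quad (-1) (-2 * x1 + x2 + x3 + x5 + x6) (del4 0 x2 x6 x1 x5 x3)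
      (fun t => by unfold del4; ring) (by ring)
  have hD := ((hasDerivAt_id' z).const_mul 4).fun_mul (d_del x1 x2 x3 z x5 x6)
  have e1 : 4 * z * del x1 x2 x3 z x5 x6 + del4 z x2 x6 x1 x5 x3 ^ 2 = up x2 x3 z * up z x5 x6 := by
    unfold del del4 up; ring
  have := core (c := 2 * z * (-sch x1 x2 x3 z x5 x6 / z)) hA hD (by positivity) (by
    rw [e1]
    unfold sch
    field_simp
    unfold del del4 up
    ring)
  rw [sq4 h] at this
  have hs : 0 < √z := Real.sqrt_pos.2 h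
  have e2 : √z * (-sch x1 x2 x3 z x5 x6 / z) = -sch x1 x2 x3 z x5 x6 / √z := by
    have s2 : √z * √z = z := Real.mul_self_sqrt h.le
    generalize sch x1 x2 x3 z x5 x6 = c
    generalize √z = s at *
    rw [← s2]
    field_simp
  rw [e2] at this
  simpa only [dih, sy4 x1 x2 x3 _ x5 x6] using this

end

end Pool.Agent.Lib.MP_f3b2fd_co.KA.Der
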