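import Pool.Agent.Lib.MP_f3b2fd_co.KEP.N.St

/-! The two forms of the dihedral angle; signs on the cube. -/

set_option autoImplicit false

namespace Pool.Agent.Lib.MP_f3b2fd_co.KN

open Real KA

theorem dic_disc (x1 x2 x3 x4 x5 x6 : ℝ) :
    uu x1 x2 x6 * uu x1 x3 x5 = 4 * x1 * del x1 x2 x3 x4 x5 x6 + del4 x1 x2 x3 x4 x5 x6 ^ 2 := by
  unfold del del4 uu
  ring

theorem dic_core {A D : ℝ} (h : 0 < D) : arccos (A / √(D + A ^ 2)) = π / 2 - arctan (A / √D) := by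
  have hs : 0 < √D := Real.sqrt_pos.2 h
  rw [arccos_eq_pi_div_two_sub_arcsin, arctan_eq_arcsin, div_div, div_pow, Real.sq_sqrt h.le,
    ← Real.sqrt_mul h.le]
  congr 4
  field_simp

theorem dicS : DicS := fun x1 x2 x3 x4 x5 x6 h1 h => by
  rw [dic, dih, dic_disc x1 x2 x3 x4 x5 x6, dic_core (by positivity)]

theorem dic_nonneg (x1 x2 x3 x4 x5 x6 : ℝ) : 0 ≤ dic x1 x2 x3 x4 x5 x6 := arccos_nonneg _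

theorem uu_ge {a b c : ℝ} (h1 : 4 ≤ a) (h2 : a ≤ 8) (h3 : 4 ≤ b) (h4 : b ≤ 8) (h5 : 4 ≤ c)
    (h6 : c ≤ 8) : 48 ≤ uu a b c := by
  unfold uu
  nlinarith [mul_nonneg (sub_nonneg.2 h1) (sub_nonneg.2 h2),
    mul_nonneg (sub_nonneg.2 h3) (sub_nonneg.2 h4), mul_nonneg (sub_nonneg.2 h5) (sub_nonneg.2 h6),
    mul_nonneg (sub_nonneg.2 h1) (sub_nonneg.2 h3), mul_nonneg (sub_nonneg.2 h1) (sub_nonneg.2 h5),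
    mul_nonneg (sub_nonneg.2 h3) (sub_nonneg.2 h5)]

namespace Dic

theorem st {t A B c v : ℝ} (h : 4 ≤ t ∧ t ≤ 8) (hA : 0 ≤ A) (hB : 0 ≤ B)
    (e : v = ((8 - t) * A + (t - 4) * B) / 4 + c * ((t - 4) * (8 - t))) :
    c * ((t - 4) * (8 - t)) ≤ v := by
  have := mul_nonneg (sub_nonneg.2 h.2) hA
  have := mul_nonneg (sub_nonneg.2 h.1) hB
  linarith

theorem st0 {t A B c v : ℝ} (h : 4 ≤ t ∧ t ≤ 8) (hA : 0 ≤ A) (hB : 0 ≤ B) (hc : 4 ≤ c)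
    (e : v = ((8 - t) * A + (t - 4) * B) / 4 + c * ((t - 4) * (8 - t))) : 0 ≤ v :=
  (mul_nonneg (by linarith) (mul_nonneg (sub_nonneg.2 h.1) (sub_nonneg.2 h.2))).trans (st h hA hB e)

theorem st1 {t A B c v : ℝ} (h : 4 < t ∧ t < 8) (hA : 0 ≤ A) (hB : 0 ≤ B) (hc : 4 ≤ c)
    (e : v = ((8 - t) * A + (t - 4) * B) / 4 + c * ((t - 4) * (8 - t))) : 0 < v :=
  (mul_pos (by linarith) (mul_pos (sub_pos.2 h.1) (sub_pos.2 h.2))).trans_le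
    (st ⟨h.1.le, h.2.le⟩ hA hB e)

theorem lo {x : ℝ} (h : x = 4 ∨ x = 8) : 4 ≤ x := by rcases h with rfl | rfl <;> norm_num

variable {x1 x2 x3 x4 x5 x6 : ℝ}

theorem l0 (h1 : x1 = 4 ∨ x1 = 8) (h2 : x2 = 4 ∨ x2 = 8) (h3 : x3 = 4 ∨ x3 = 8)
    (h4 : x4 = 4 ∨ x4 = 8) (h5 : x5 = 4 ∨ x5 = 8) (h6 : x6 = 4 ∨ x6 = 8) :
    0 ≤ del x1 x2 x3 x4 x5 x6 := by
  rcases h1 with rfl | rfl <;> rcases h2 with rfl | rfl <;> rcases h3 with rfl | rfl <;>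
    rcases h4 with rfl | rfl <;> rcases h5 with rfl | rfl <;> rcases h6 with rfl | rfl <;>
    norm_num [del]

theorem l1 (h1 : 4 ≤ x1 ∧ x1 ≤ 8) (h2 : x2 = 4 ∨ x2 = 8) (h3 : x3 = 4 ∨ x3 = 8)
    (h4 : x4 = 4 ∨ x4 = 8) (h5 : x5 = 4 ∨ x5 = 8) (h6 : x6 = 4 ∨ x6 = 8) :
    0 ≤ del x1 x2 x3 x4 x5 x6 :=
  st0 h1 (l0 (.inl rfl) h2 h3 h4 h5 h6) (l0 (.inr rfl) h2 h3 h4 h5 h6) (lo h4)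
    (by unfold del; ring)

theorem l2 (h1 : 4 ≤ x1 ∧ x1 ≤ 8) (h2 : 4 ≤ x2 ∧ x2 ≤ 8) (h3 : x3 = 4 ∨ x3 = 8)
    (h4 : x4 = 4 ∨ x4 = 8) (h5 : x5 = 4 ∨ x5 = 8) (h6 : x6 = 4 ∨ x6 = 8) :
    0 ≤ del x1 x2 x3 x4 x5 x6 :=
  st0 h2 (l1 h1 (.inl rfl) h3 h4 h5 h6) (l1 h1 (.inr rfl) h3 h4 h5 h6) (lo h5)
    (by unfold del; ring)

theorem l3 (h1 : 4 ≤ x1 ∧ x1 ≤ 8) (h2 : 4 ≤ x2 ∧ x2 ≤ 8) (h3 : 4 ≤ x3 ∧ x3 ≤ 8)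
    (h4 : x4 = 4 ∨ x4 = 8) (h5 : x5 = 4 ∨ x5 = 8) (h6 : x6 = 4 ∨ x6 = 8) :
    0 ≤ del x1 x2 x3 x4 x5 x6 :=
  st0 h3 (l2 h1 h2 (.inl rfl) h4 h5 h6) (l2 h1 h2 (.inr rfl) h4 h5 h6) (lo h6)
    (by unfold del; ring)

theorem l4 (h1 : 4 ≤ x1 ∧ x1 ≤ 8) (h2 : 4 ≤ x2 ∧ x2 ≤ 8) (h3 : 4 ≤ x3 ∧ x3 ≤ 8)
    (h4 : 4 ≤ x4 ∧ x4 ≤ 8) (h5 : x5 = 4 ∨ x5 = 8) (h6 : x6 = 4 ∨ x6 = 8) :
    0 ≤ del x1 x2 x3 x4 x5 x6 :=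
  st0 h4 (l3 h1 h2 h3 (.inl rfl) h5 h6) (l3 h1 h2 h3 (.inr rfl) h5 h6) h1.1
    (by unfold del; ring)

theorem l5 (h1 : 4 ≤ x1 ∧ x1 ≤ 8) (h2 : 4 ≤ x2 ∧ x2 ≤ 8) (h3 : 4 ≤ x3 ∧ x3 ≤ 8)
    (h4 : 4 ≤ x4 ∧ x4 ≤ 8) (h5 : 4 ≤ x5 ∧ x5 ≤ 8) (h6 : x6 = 4 ∨ x6 = 8) :
    0 ≤ del x1 x2 x3 x4 x5 x6 :=
  st0 h5 (l4 h1 h2 h3 h4 (.inl rfl) h6) (l4 h1 h2 h3 h4 (.inr rfl) h6) h2.1
    (by unfold del; ring)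

end Dic

section
variable {x1 x2 x3 x4 x5 x6 : ℝ}

theorem del_nonneg (h1 : 4 ≤ x1 ∧ x1 ≤ 8) (h2 : 4 ≤ x2 ∧ x2 ≤ 8) (h3 : 4 ≤ x3 ∧ x3 ≤ 8)
    (h4 : 4 ≤ x4 ∧ x4 ≤ 8) (h5 : 4 ≤ x5 ∧ x5 ≤ 8) (h6 : 4 ≤ x6 ∧ x6 ≤ 8) :
    0 ≤ del x1 x2 x3 x4 x5 x6 :=
  Dic.st0 h6 (Dic.l5 h1 h2 h3 h4 h5 (.inl rfl)) (Dic.l5 h1 h2 h3 h4 h5 (.inr rfl)) h3.1
    (by unfold del; ring)

theorem del_pos4 (h1 : 4 ≤ x1 ∧ x1 ≤ 8) (h2 : 4 ≤ x2 ∧ x2 ≤ 8) (h3 : 4 ≤ x3 ∧ x3 ≤ 8)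
    (h4 : 4 < x4 ∧ x4 < 8) (h5 : 4 ≤ x5 ∧ x5 ≤ 8) (h6 : 4 ≤ x6 ∧ x6 ≤ 8) :
    0 < del x1 x2 x3 x4 x5 x6 :=
  Dic.st1 h4 (del_nonneg h1 h2 h3 (x4 := 4) (by norm_num) h5 h6)
    (del_nonneg h1 h2 h3 (x4 := 8) (by norm_num) h5 h6) h1.1 (by unfold del; ring)

/-- `del` vanishes only at vertices of the cube. -/
theorem del_pos (h1 : 4 ≤ x1 ∧ x1 ≤ 8) (h2 : 4 ≤ x2 ∧ x2 ≤ 8) (h3 : 4 ≤ x3 ∧ x3 ≤ 8)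
    (h4 : 4 ≤ x4 ∧ x4 ≤ 8) (h5 : 4 ≤ x5 ∧ x5 ≤ 8) (h6 : 4 ≤ x6 ∧ x6 ≤ 8)
    (h : (4 < x1 ∧ x1 < 8) ∨ (4 < x2 ∧ x2 < 8) ∨ (4 < x3 ∧ x3 < 8) ∨ (4 < x4 ∧ x4 < 8) ∨
      (4 < x5 ∧ x5 < 8) ∨ (4 < x6 ∧ x6 < 8)) : 0 < del x1 x2 x3 x4 x5 x6 := by
  rcases h with h | h | h | h | h | h
  · exact (del_pos4 h4 h2 h6 h h5 h3).trans_eq (by unfold del; ring)
  · exact (del_pos4 h5 h1 h6 h h4 h3).trans_eq (by unfold del; ring)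
  · exact (del_pos4 h6 h1 h5 h h4 h2).trans_eq (by unfold del; ring)
  · exact del_pos4 h1 h2 h3 h h5 h6
  · exact (del_pos4 h2 h1 h3 h h4 h6).trans_eq (by unfold del; ring)
  · exact (del_pos4 h3 h1 h2 h h4 h5).trans_eq (by unfold del; ring)

end

end Pool.Agent.Lib.MP_f3b2fd_co.KN
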