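import Pool.Agent.Lib.MP_f3b2fd_co.KEP.N.Data
import Pool.Agent.Lib.MP_f3b2fd_co.KEP.A.Const

/-! The inequality for 2-cells. -/

namespace Pool.Agent.Lib.MP_f3b2fd_co.KN

open Real KA

namespace G2

/-- a lower bound of the weight by its value at the next knot. -/
theorem FF_ge {x : ℝ} : (x ≤ 17 / 4 → 829 / 1000 ≤ FF x) ∧ (x ≤ 37 / 8 → 1217 / 2000 ≤ FF x) ∧
    (x ≤ 41 / 8 → 757 / 2000 ≤ FF x) := by
  have k1 : x ≤ 17 / 4 → 829 / 1000 ≤ FF x := fun h => by
    rw [FF1 h, lin]; have := cube_le h; norm_num at this ⊢; linarith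
  have k2 : x ≤ 37 / 8 → 1217 / 2000 ≤ FF x := fun h => by
    rcases le_or_gt x (17 / 4) with g | g
    · linarith [k1 g]
    · rw [FF2 g h, lin]; have := cube_le h; norm_num at this ⊢; linarith
  refine ⟨k1, k2, fun h => ?_⟩
  rcases le_or_gt x (37 / 8) with g | g
  · linarith [k2 g]
  · rw [FF3 g h, lin]; have := cube_le h; norm_num at this ⊢; linarith

theorem fac (h : ℝ) : h * (2 - h ^ 2) / 3 - 4 * m1 / π * (1 - h / √2) =
    (√2 - h) * (h * (√2 + h) / 3 - 4 * m1 / π / √2) := by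
  have p := Const.s2_pos
  have s := Const.s2_sq
  generalize 4 * m1 / π = A
  have e : A * (1 - h / √2) = (√2 - h) * (A / √2) := by field_simp
  rw [e]
  linear_combination (-h / 3) * s

theorem sec {h c : ℝ} (c0 : 0 ≤ c) (hc : c ≤ h) :
    c * (1.4142 + c) / 3 - 0.9112 ≤ h * (√2 + h) / 3 - 4 * m1 / π / √2 := by
  have a : 4 * m1 / π / √2 ≤ 0.9112 := by
    rw [div_le_iff₀ Const.s2_pos]
    linarith [ca_hi, s2_lo]
  have b : c * (1.4142 + c) ≤ h * (√2 + h) :=
    mul_le_mul hc (by linarith [s2_lo]) (by linarith) (by linarith)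
  linarith

theorem low {h c d e : ℝ} (c0 : 0 ≤ c) (hc : c ≤ h) (h2 : h < √2) (d0 : 0 ≤ d)
    (hd : -d ≤ c * (1.4142 + c) / 3 - 0.9112) (he : (1.4143 - c) * d ≤ e) :
    -e ≤ h * (2 - h ^ 2) / 3 - 4 * m1 / π * (1 - h / √2) := by
  rw [fac]
  have a := mul_le_mul_of_nonneg_left (hd.trans (sec c0 hc)) (sub_pos.2 h2).le
  have b := mul_le_mul_of_nonneg_right (by linarith [s2_hi] : √2 - h ≤ 1.4143 - c) d0
  linarith

theorem main {h : ℝ} (h1 : 1 ≤ h) (h2 : h < √2) :
    (if 425 / 64 < 4 * h ^ 2 ∧ 4 * h ^ 2 ≤ 57 / 8 then (3 / 160 : ℝ) else 0) ≤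
      h * (2 - h ^ 2) / 3 - 4 * m1 / π * (1 - h / √2) + 8 * m2 / π * FF (4 * h ^ 2) := by
  have w : ∀ c : ℝ, 0 ≤ c → c ≤ FF (4 * h ^ 2) → 0.0647 * c ≤ 8 * m2 / π * FF (4 * h ^ 2) :=
    fun c c0 hc => mul_le_mul (by linarith [cb_lo]) hc c0 (by linarith [cb_lo])
  have r : ∀ c : ℝ, 4 * c ^ 2 ≤ 4 * h ^ 2 → c ≤ h := fun c hc =>
    le_of_sq_le_sq (by linarith) (by linarith)
  have w0 := w 0 le_rfl (FF_nonneg _)
  split_ifs with k
  · have a : (1.288 : ℝ) ≤ h := r _ (by linarith [k.1])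
    have b : h ≤ 1.3347 := le_of_sq_le_sq (by linarith [k.2]) (by norm_num)
    have c := sec (by norm_num) a
    have d := mul_le_mul (by linarith [s2_lo] : 0.0795 ≤ √2 - h) c (by norm_num)
      (sub_pos.2 h2).le
    rw [fac]
    linarith
  · rcases le_or_gt (4 * h ^ 2) (17 / 4) with g1 | g1
    · have a := low (d := 0.1065) (e := 0.0442) zero_le_one h1 h2 (by norm_num) (by norm_num)
        (by norm_num)
      linarith [w _ (by norm_num) (FF_ge.1 g1)]
    rcases le_or_gt (4 * h ^ 2) (37 / 8) with g2 | g2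
    · have a := low (c := 1.03) (d := 0.073) (e := 0.03) (by norm_num) (r _ (by linarith)) h2
        (by norm_num) (by norm_num) (by norm_num)
      linarith [w _ (by norm_num) (FF_ge.2.1 g2)]
    rcases le_or_gt (4 * h ^ 2) (41 / 8) with g3 | g3
    · have a := low (c := 1.07) (d := 0.03) (e := 0.02) (by norm_num) (r _ (by linarith)) h2
        (by norm_num) (by norm_num) (by norm_num)
      linarith [w _ (by norm_num) (FF_ge.2.2 g3)]
    · have a := low (c := 1.13) (d := 0) (e := 0) (by norm_num) (r _ (by linarith)) h2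
        le_rfl (by norm_num) (by norm_num)
      linarith

end G2

theorem g2 : G2p m1 (PP m2) := by
  intro h θ h1 h2 h0
  have k := mul_le_mul_of_nonneg_left (G2.main h1 h2) h0
  have c : cr 2 θ = -(3 / 160 * θ) := by
    rw [cr, if_neg (by norm_num), if_neg (by norm_num)]
  unfold PP
  rw [c]
  split_ifs at k ⊢ <;> linarith

end Pool.Agent.Lib.MP_f3b2fd_co.KN
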