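import Pool.Agent.Lib.MP_f3b2fd_co.KEP.N.G3c

/-! The inequality for 3-cells. -/

namespace Pool.Agent.Lib.MP_f3b2fd_co.KN.G3

open Real KA

attribute [local irreducible] add sub mul inv pos nng cq ce bind

variable {p : Pt} {A B C D : AA} {a0 b0 c0 d0 a b c d w : ℝ}

theorem PP_ge (x : ℝ) {θ : ℝ} (h : 0 ≤ θ) :
    (x ≤ 425 / 64 → 8 * m2 / π * FF x * θ ≤ PP m2 3 x θ) ∧ (57 / 8 < x → 0 ≤ PP m2 3 x θ) ∧
      -(3 / 160 * θ) ≤ PP m2 3 x θ ∧ -(11 / 1000) ≤ PP m2 3 x θ := by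
  have k : 0 ≤ 8 * m2 / π * FF x * θ :=
    mul_nonneg (mul_nonneg (by linarith [cb_lo]) (FF_nonneg x)) h
  have c : cr 3 θ = -min (3 / 160 * θ) (11 / 1000) := by
    rw [cr, if_neg (by norm_num), if_pos rfl]
  have l := min_le_left (3 / 160 * θ) (11 / 1000)
  have r := min_le_right (3 / 160 * θ) (11 / 1000)
  unfold PP
  rw [c]
  split_ifs with g
  · exact ⟨fun e => by linarith [g.1], fun e => by linarith [g.2], by linarith, by linarith⟩
  · exact ⟨fun _ => by linarith, fun _ => by linarith, by linarith, by linarith⟩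

theorem Hy.arg (h : Hy w a b c) : 0 ≤ √2 * (a * NN a b c)⁻¹ ∧
    bt w a b c = arctan (√2 * (a * NN a b c)⁻¹ * w) ∧ (√2 * (a * NN a b c)⁻¹ * w) ^ 2 =
      2 * DD a b c * ((a * NN a b c)⁻¹ * (a * NN a b c)⁻¹) := by
  have := h.a1
  have := h.N
  refine ⟨by positivity, by rw [bt]; congr 1; ring, ?_⟩
  rw [← h.wd, mul_pow, mul_pow, Real.sq_sqrt (by norm_num)]
  ring

theorem rS (h : Hy w a b c) (hd : Rel p D d0 (DD a b c)) (ha : Rel p A a0 a) (hb : Rel p B b0 b)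
    (hc : Rel p C c0 c) :
    ∃ z y, Rel p (SA D A B C) z y ∧ 4 * m1 / π * arctan (w / EE a b c) ≤ y * w := by
  have i := rel_inv (rE ha hb hc)
  simp only [SA, bind_eq]
  refine ⟨_, _, rel_mul rA (rel_mul i (rU (rel_mul hd (rel_mul i i)))), ?_⟩
  have k := atan_U (div_pos h.w0 h.E).le
  rw [show (w / EE a b c) ^ 2 = DD a b c * ((EE a b c)⁻¹ * (EE a b c)⁻¹) by
    rw [← h.wd]; ring] at k
  have := mul_le_mul_of_nonneg_left k (by linarith [ca_lo] : 0 ≤ 4 * m1 / π)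
  rw [div_eq_mul_inv w] at this ⊢
  linarith

theorem rPA (h : Hy w a b c) (hd : Rel p D d0 (DD a b c)) (ha : Rel p A a0 a) (hb : Rel p B b0 b)
    (hc : Rel p C c0 c) :
    ∃ z y, Rel p (PA D A B C) z y ∧ y * w ≤ PP m2 3 (4 * (a * a)) (bt w a b c) := by
  obtain ⟨j0, e1, e2⟩ := h.arg
  have w0 := h.w0
  have y0 := mul_nonneg j0 w0.le
  have t0 : 0 ≤ bt w a b c := by rw [e1]; exact arctan_nonneg.2 y0
  obtain ⟨p1, p2, p3, p4⟩ := PP_ge (4 * (a * a)) t0
  have u := rel_mul ha ha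
  have j := rel_inv (rel_mul ha (rN ha hb hc))
  have s := rel_mul (rel_mul r2 hd) (rel_mul j j)
  simp only [PA, bind_eq]
  cases g1 : pos (sub (mul A A) (cq 57 32))
  swap
  · have := of_pos (rel_sub u (rq 57 32 (57 / 32) (by norm_num))) g1
    exact ⟨0, 0, rq 0 1 0 (by norm_num), by rw [zero_mul]; exact p2 (by linarith)⟩
  rw [cond_false]
  cases g2 : nng (sub (cq 425 256) (mul A A))
  · rw [cond_false]
    cases Nat.blt 480000000000 _
    · refine ⟨_, _, rel_mul (rq (-3) 160 (-3 / 160) (by norm_num)) (rel_mul (rel_mul rR j) (rU s)),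
        le_trans ?_ p3⟩
      have k := atan_U y0
      rw [e2, ← e1] at k
      linarith
    · refine ⟨_, _, rel_mul (rq (-11) 2000 (-11 / 2000) (by norm_num)) (rel_add
        (rel_mul (rq 7 10 (7 / 10) (by norm_num)) (rel_inv hd)) (rq 10 7 (10 / 7) (by norm_num))),
        le_trans ?_ p4⟩
      have k : 2 ≤ (7 / 10 * (DD a b c)⁻¹ + 10 / 7) * w := by
        rw [← h.wd, ← sub_nonneg, show (7 / 10 * (w ^ 2)⁻¹ + 10 / 7) * w - 2 =
          10 / 7 * (w - 7 / 10) ^ 2 / w by field_simp; ring]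
        positivity
      linarith
  have x2 := of_nng (rel_sub (rq 425 256 (425 / 256) (by norm_num)) u) g2
  rw [cond_true]
  have f := rF (mul A A).c.toNat u
  have f1 := pc_min (mul A A).c.toNat (u := a * a) (by nlinarith [h.a1]) (by linarith)
  cases g3 : nng (FA (mul A A).c.toNat (mul A A))
  · exact ⟨0, PP m2 3 (4 * (a * a)) (bt w a b c) / w, rel_bad, (div_mul_cancel₀ _ w0.ne').le⟩
  have f0 := of_nng f g3
  refine ⟨_, _, rel_mul (rel_mul rB f) (rel_mul (rel_mul rR j) (rL s)), le_trans ?_ (p1 (by linarith))⟩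
  have k := atan_L y0
  rw [e2, ← e1] at k
  have cb : 0 ≤ 8 * m2 / π := by linarith [cb_lo]
  have k1 := mul_le_mul_of_nonneg_left k (mul_nonneg cb f0)
  have k2 := mul_le_mul_of_nonneg_right (mul_le_mul_of_nonneg_left f1 cb) t0
  linarith

theorem rTA (h : Hy w a b c) (hd : Rel p D d0 (DD a b c)) (ha : Rel p A a0 a) (hb : Rel p B b0 b)
    (hc : Rel p C c0 c) : ∃ z y, Rel p (TA D A B C) z y ∧ y * w ≤ TT w a b c := by
  obtain ⟨_, y1, h1, k1⟩ := rPA h hd ha hb hc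
  obtain ⟨_, y2, h2, k2⟩ := rS h hd ha hb hc
  simp only [TA, TT]
  exact ⟨_, _, rel_sub h1 h2, by linarith⟩

theorem DD_rot : DD b c a = DD a b c := by unfold DD; ring

theorem of_leaf (ha : Rel p A a0 a) (hb : Rel p B b0 b) (hc : Rel p C c0 c)
    (k : leaf A B C = true) : Gd a b c := by
  intro w h
  have hd := rD ha hb hc
  simp only [leaf, bind_eq, Bool.or_eq_true] at k
  rcases k with k | k
  · have := of_nng (rel_sub (rq 0 1 0 (by norm_num)) hd) k
    have := h.wd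
    have := pow_pos h.w0 2
    linarith
  obtain ⟨_, y1, h1, k1⟩ := rTA h hd ha hb hc
  obtain ⟨_, y2, h2, k2⟩ := rTA h.rot (DD_rot (a := a) ▸ hd) hb hc ha
  obtain ⟨_, y3, h3, k3⟩ := rTA h.rot.rot (DD_rot (a := c) ▸ hd) hc ha hb
  have := mul_nonneg (of_nng (rel_add (rel_add (rel_add (rel_mul rR
    (rq 1 3 (1 / 3) (by norm_num))) h1) h2) h3) k) h.w0.le
  linarith

theorem atan_z : arctan (3 - 2 * √2) = π * (1 / 4) - th0 * (1 / 2) := by
  have s := Const.s2_sq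
  have k := arctan_add (x := 1) (y := 3 - 2 * √2) (by linarith [s2_lo])
  rw [show (1 + (3 - 2 * √2)) / (1 - 1 * (3 - 2 * √2)) = √2 by
    rw [div_eq_iff (by linarith [s2_lo])]; linarith, atan_s2, arctan_one] at k
  linarith

theorem CR_le (h : Hy w a b c) (k : a ≤ 257 / 256) : CR (DD a b c) a b c * w ≤ TT w a b c := by
  obtain ⟨j0, e1, e2⟩ := h.arg
  have w0 := h.w0
  have a1 := h.a1
  have y0 := mul_nonneg j0 w0.le
  have t0 : 0 ≤ bt w a b c := by rw [e1]; exact arctan_nonneg.2 y0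
  have u1 : 1 ≤ a * a := by nlinarith
  have u2 : a * a ≤ 1.01 := by nlinarith
  have u3 : a * a * (a * a) ≤ 1.01 * 1.01 := mul_le_mul u2 u2 (by linarith) (by norm_num)
  have u4 : a * a * (a * a) * (a * a) ≤ 1.01 * 1.01 * 1.01 :=
    mul_le_mul u3 u2 (by linarith) (by norm_num)
  have p1 := (PP_ge (4 * (a * a)) t0).1 (by linarith)
  have f1 : 1857303 / 1000000 - 857303 / 1000000 * (a * a * (a * a) * (a * a)) ≤
      FF (4 * (a * a)) := FF_min u1 (by linarith) (by norm_num)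
  have k0 := atan_2 y0
  rw [e2, ← e1] at k0
  have cb : 0 ≤ 8 * m2 / π := by linarith [cb_lo]
  have k1 := mul_le_mul_of_nonneg_left k0 (mul_nonneg cb (by linarith :
    0 ≤ 1857303 / 1000000 - 857303 / 1000000 * (a * a * (a * a) * (a * a))))
  have k2 := mul_le_mul_of_nonneg_right (mul_le_mul_of_nonneg_left f1 cb) t0
  have z0 : 0 ≤ 3 - 2 * √2 := by linarith [s2_hi]
  have k3 := atan_T (div_pos w0 h.E).le z0
  have k4 := atan_T le_rfl z0
  rw [atan_z] at k3 k4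
  rw [arctan_zero] at k4
  have k5 : 1 ≤ ((DD a b c)⁻¹ + 1) * (1 / 2) * w := by
    rw [← h.wd, ← sub_nonneg, show ((w ^ 2)⁻¹ + 1) * (1 / 2) * w - 1 =
      (w - 1) ^ 2 / (2 * w) by field_simp; ring]
    positivity
  have k6 := mul_le_mul_of_nonneg_left k5 (by linarith : 0 ≤ π * (1 / 4) - th0 * (1 / 2) -
    (3 - 2 * √2) * (1 + (3 - 2 * √2) * (3 - 2 * √2))⁻¹)
  have k7 := mul_le_mul_of_nonneg_left (by rw [div_eq_mul_inv w] at k3 ⊢; linarith :
    arctan (w / EE a b c) ≤ ((π * (1 / 4) - th0 * (1 / 2) -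
      (3 - 2 * √2) * (1 + (3 - 2 * √2) * (3 - 2 * √2))⁻¹) * (((DD a b c)⁻¹ + 1) * (1 / 2)) +
      (1 + (3 - 2 * √2) * (3 - 2 * √2))⁻¹ * (EE a b c)⁻¹) * w) (by linarith [ca_lo] : 0 ≤ 4 * m1 / π)
  unfold CR TT
  linarith

theorem CR_one : √2 * (1 / 3) + CR (DD 1 1 1) 1 1 1 + CR (DD 1 1 1) 1 1 1 +
    CR (DD 1 1 1) 1 1 1 = 0 := by
  have s := Const.s2_sq
  have e : (EE 1 1 1)⁻¹ = 3 - 2 * √2 := by
    refine inv_eq_of_mul_eq_one_right ?_
    unfold EE NN
    linear_combination (-4 : ℝ) * s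
  have z := zero_oct
  have y : m1 = 4 * m1 / π * (π / 4) := by field_simp
  rw [CR, e, show DD 1 1 1 = 1 by norm_num [DD], show NN 1 1 1 = 1 by norm_num [NN]]
  generalize (1 + (3 - 2 * √2) * (3 - 2 * √2))⁻¹ = L
  generalize 8 * m2 / π = V at z ⊢
  generalize hU : 4 * m1 / π = U at z y ⊢
  norm_num
  linear_combination z / 2 - 3 * y + 3 / 4 * V * (π - th0) * s

/-- the test near the tight point. -/
def cor : Bool :=
  bind ⟨1099511627776, 4294967296, 0, 0, 0, 0, true⟩ fun a =>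
  bind ⟨1099511627776, 0, 4294967296, 0, 0, 0, true⟩ fun b =>
  bind ⟨1099511627776, 0, 0, 4294967296, 0, 0, true⟩ fun c => bind (DA a b c) fun D =>
  bind (add (add (add (mul kR (cq 1 3)) (CA D a b c)) (CA D b c a)) (CA D c a b)) fun f =>
    f.b && decide ((f.e : Int) ≤ f.a1) && decide ((f.e : Int) ≤ f.a2) && decide ((f.e : Int) ≤ f.a3)

theorem cor_ok : cor = true := by decide +kernel

theorem corner (ka : a ≤ 257 / 256) (kb : b ≤ 257 / 256) (kc : c ≤ 257 / 256) : Gd a b c := by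
  intro w h
  have a1 := h.a1
  have b1 := h.b1
  have c1 := h.c1
  let p : Pt := ⟨256 * (a - 1), 256 * (b - 1), 256 * (c - 1),
    max (256 * (a - 1)) (max (256 * (b - 1)) (256 * (c - 1))),
    by rw [abs_of_nonneg (by linarith)]; exact le_max_left _ _,
    by rw [abs_of_nonneg (by linarith)]; exact (le_max_left _ _).trans (le_max_right _ _),
    by rw [abs_of_nonneg (by linarith)]; exact (le_max_right _ _).trans (le_max_right _ _),
    max_le (by linarith) (max_le (by linarith) (by linarith))⟩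
  have ha : Rel p ⟨1099511627776, 4294967296, 0, 0, 0, 0, true⟩ 1 a := fun _ =>
    ⟨by norm_num, by simp only [p]; norm_num; ring⟩
  have hb : Rel p ⟨1099511627776, 0, 4294967296, 0, 0, 0, true⟩ 1 b := fun _ =>
    ⟨by norm_num, by simp only [p]; norm_num; ring⟩
  have hc : Rel p ⟨1099511627776, 0, 0, 4294967296, 0, 0, true⟩ 1 c := fun _ =>
    ⟨by norm_num, by simp only [p]; norm_num; ring⟩
  have hd := rD ha hb hc
  have f := rel_add (rel_add (rel_add (rel_mul rR (rq 1 3 (1 / 3) (by norm_num)))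
    (rC hd ha hb hc)) (rC hd hb hc ha)) (rC hd hc ha hb)
  have k := cor_ok
  simp only [cor, bind_eq, Bool.and_eq_true_iff, decide_eq_true_eq] at k
  obtain ⟨⟨⟨k0, k1⟩, k2⟩, k3⟩ := k
  have g := (abs_le.1 (f k0).2).1
  rw [CR_one] at g
  generalize add (add (add _ _) _) _ = F at g k1 k2 k3
  have m1 := mul_le_mul_of_nonneg_right (by exact_mod_cast k1 : (F.e : ℝ) ≤ F.a1)
    (by linarith : 0 ≤ 256 * (a - 1))
  have m2 := mul_le_mul_of_nonneg_right (by exact_mod_cast k2 : (F.e : ℝ) ≤ F.a2)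
    (by linarith : 0 ≤ 256 * (b - 1))
  have m3 := mul_le_mul_of_nonneg_right (by exact_mod_cast k3 : (F.e : ℝ) ≤ F.a3)
    (by linarith : 0 ≤ 256 * (c - 1))
  have m4 := mul_le_mul_of_nonneg_left (max_le (by linarith) (max_le (by linarith) (by linarith)) :
    p.t ≤ 256 * (a - 1) + 256 * (b - 1) + 256 * (c - 1)) (Nat.cast_nonneg (α := ℝ) F.e)
  have q1 := CR_le h ka
  have q2 := CR_le h.rot kb
  have q3 := CR_le h.rot.rot kc
  rw [DD_rot (a := a)] at q2
  rw [← DD_rot (a := c)] at q3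
  have := mul_nonneg (by simp only [p] at g m4; linarith : 0 ≤ √2 * (1 / 3) + CR (DD a b c) a b c +
    CR (DD a b c) b c a + CR (DD a b c) c a b) h.w0.le
  linarith

/-- the test on the box with corner `l` and half widths `w`. -/
def box (l1 l2 l3 w1 w2 w3 : Nat) : Bool :=
  (Nat.ble (Nat.add l1 (Nat.mul 2 w1)) 1103806595072 &&
    Nat.ble (Nat.add l2 (Nat.mul 2 w2)) 1103806595072 &&
    Nat.ble (Nat.add l3 (Nat.mul 2 w3)) 1103806595072) ||
  leaf ⟨Int.ofNat (Nat.add l1 w1), Int.ofNat w1, 0, 0, 0, 0, true⟩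
    ⟨Int.ofNat (Nat.add l2 w2), 0, Int.ofNat w2, 0, 0, 0, true⟩
    ⟨Int.ofNat (Nat.add l3 w3), 0, 0, Int.ofNat w3, 0, 0, true⟩

abbrev Bx : Type := Nat → Nat → Nat → Nat → Nat → Nat → Bool

/-- the test for ordered triples. -/
def obox : Bx := fun l1 l2 l3 w1 w2 w3 => Nat.blt (Nat.add l1 (Nat.mul 2 w1)) l2 ||
  Nat.blt (Nat.add l2 (Nat.mul 2 w2)) l3 || box l1 l2 l3 w1 w2 w3

/-- a leaf, a bisection of the first side, or a rotation of the coordinates. -/
inductive Tr where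
  | L : Tr
  | S : Tr → Tr → Tr
  | R : Tr → Tr

noncomputable def chk (t : Tr) : Bx → Bx :=
  Tr.rec (fun T => T)
    (fun _ _ p q T l1 l2 l3 w1 w2 w3 => fN (Nat.div (Nat.succ w1) 2) fun v =>
      fN (Nat.add l1 (Nat.mul 2 v)) fun l => p T l1 l2 l3 v w2 w3 && q T l l2 l3 v w2 w3)
    (fun _ p T l1 l2 l3 w1 w2 w3 =>
      p (fun l2 l3 l1 w2 w3 w1 => T l1 l2 l3 w1 w2 w3) l2 l3 l1 w2 w3 w1) t

open Tr in
def tree : Tr :=
  (S (S (S (R (S (S (S (R (S (R (R (S (R (S (R (R (S (R (R (S (S (R (R (S (R (S (R (S (R (S (R (S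
  (R (S (R (S (R (R (S (R (R (S (R (R (S (R (S (R (S (R (S L L)) (R (S L L)))) (R (R (S L L)))))
  L))) (R (R (S (S L L) L)))))) (R (S (R (R (S (R (S L L)) L))) L))))) L)) (R (S (R (S L L)) L))))
  (R (S (R (S (S L L) L)) (R (S L L)))))) L)) (R (S (R (S L (R (S L L)))) L)))) (R (S (R (S (S L
  L) L)) (R (S L L)))))) L))) (R (R (S (R (R (S (R (S (S L L) L)) (R (S L L))))) L)))) (S (R (R (S
  (R (S (R (R (S L L))) (R (R (S L L))))) L))) (R (R (S (S L L) L))))))) (R (S (S (R (S (S (S L L)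
  L) (S L L))) (R (R (S L (R (S (S L L) L)))))) L))))) L)) (R (R (S (R (R (S (R (S L (R (S (R (S
  (R (S L (R (S L L)))) L)) L)))) L))) (R (R (S (S (S (R (S L L)) L) (R (R (S L L)))) L)))))))))
  L)) (R (S (R (S L (R (S (R (S (R (S L (R (S (R (S L L)) L)))) L)) L)))) L))) L) L)) (R (S (S (S
  (R (S (R (R (S (R (S (S (S (R (S (S L L) L)) (R (R (S L (S L L))))) L) L)) (R (S (S (R (S (S L
  L) L)) (R (R (S L L)))) L))))) L)) (R (S (R (R (S (R (S (S (R (S L L)) L) L)) (R (S (R (R (S (R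
  (S L L)) (R (R (S L L)))))) L))))) L))) (S (R (S (R (S L (R (S (R (S (R (S L L)) L)) L)))) L))
  L)) L))) (R (S (S (S (R (S (R (R (S (R (R (S (S (R (R (S (R (S (R (R (S L L))) (R (R (S L L)))))
  L))) (R (R (S (S L L) L)))) (S (R (R (S (S L L) L))) (R (R (S (S L L) L))))))) (R (S (R (R (S (R
  (R (S (R (R (S L L))) (R (R (S L L)))))) (R (S (R (S L L)) (S L L)))))) L))))) L)) (R (S (S (R
  (S (R (R (S (R (S L L)) L))) (R (R (S (R (S L L)) L))))) (R (R (S L (S L L))))) L))) (R (R (S (R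
  (S (R (S (S (S L L) L) L)) (R (S (R (S L (R (S (R (S L L)) L)))) (R (S L (R (S L L)))))))) (R (R
  (S (S (R (R (S (R (R (S L L))) L))) L) (R (R (S L (S L L))))))))))) (R (R (S L (R (S (S (R (S (R
  (S L (R (S (R (S L L)) L)))) L)) L) L)))))))) (R (S (S (R (R (S (R (S (R (R (S (R (R (S (R (R (S
  (R (R (S (R (R (S (S L L) L))) (R (R (S (R (S (R (R (S L L))) (R (R (S L L))))) L)))))) (R (S (S
  (R (S L L)) L) L))))) L))) (R (R (S (R (R (S (R (R (S (R (R (S (R (R (S (R (S (S L L) L)) (R (R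
  (S (R (R (S L L))) (R (R (S L L))))))))) L))) (R (R (S (R (S (R (S (R (S (S L L) L)) (R (S L
  L)))) (R (R (S L L))))) L)))))) (R (S (R (R (S (R (R (S (R (R (S L L))) (R (R (S L L)))))) (R (S
  L L))))) L))))) L)))))) (R (S (S (R (S (R (R (S (R (S L L)) L))) (R (S (R (S L L)) L)))) (R (R
  (S L (S L (R (S L L))))))) L)))) (S (R (R (S (S (R (S (R (S (S (R (S L L)) (R (R (S L L)))) (R
  (R (S L L))))) L)) (R (R (S L (S L (S L L)))))) L))) (R (R (S (S L L) L))))))) (R (S (R (S (S (R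
  (R (S (R (R (S (R (R (S L L))) L))) L))) (R (S (R (S L L)) (R (S (S L L) L))))) (S (S (R (R (S
  (R (R (S L (R (S L L))))) L))) (R (R (S L L)))) (R (R (S L L)))))) (R (R (S L (S L (R (S (S L L)
  L))))))))) (S (R (S (R (S (R (S (R (S (R (S L L)) L)) (R (S (R (R (S L (R (R (S L L)))))) L))))
  (S (R (R (S (R (R (S L L))) L))) (R (R (S L L)))))) (S (R (S (S L L) L)) (R (R (S L L)))))) (R
  (R (S (S L (R (S (R (S (R (S L (R (S (R (S L L)) L)))) L)) L))) (R (R (S (S (R (S (S (R (S L L))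
  L) L)) L) L))))))))))

theorem chk_ok : chk tree obox 1099511627776 1099511627776 1099511627776
    227800000000 227800000000 227800000000 = true := by decide +kernel

/-- `x` lies in the interval. -/
def In (l w : Nat) (x : ℝ) : Prop := (l : ℝ) ≤ x * 2 ^ 40 ∧ x * 2 ^ 40 ≤ l + 2 * (w : ℝ)

theorem In.eps {l v : Nat} {x : ℝ} (h : In l v x) :
    ∃ e : ℝ, |e| ≤ 1 ∧ (x - (l + v) / 2 ^ 40) * 2 ^ 40 = v * e := by
  obtain ⟨h1, h2⟩ := h
  rcases (Nat.cast_nonneg (α := ℝ) v).eq_or_lt with k | k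
  · exact ⟨0, by norm_num, by linarith⟩
  · refine ⟨(x * 2 ^ 40 - l - v) / v, ?_, by field_simp; ring⟩
    rw [abs_le, le_div_iff₀ k, div_le_iff₀ k]
    constructor <;> linarith

theorem of_box {l1 l2 l3 w1 w2 w3 : Nat} (k : box l1 l2 l3 w1 w2 w3 = true) (ha : In l1 w1 a)
    (hb : In l2 w2 b) (hc : In l3 w3 c) : Gd a b c := by
  simp only [box, Bool.or_eq_true, Bool.and_eq_true_iff, Nat.ble_eq, Nat.add_eq, Nat.mul_eq] at k
  rcases k with ⟨⟨k1, k2⟩, k3⟩ | k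
  · have m : ∀ {l v : Nat} {x : ℝ}, In l v x → l + 2 * v ≤ 1103806595072 → x ≤ 257 / 256 :=
      fun {l v x} g e => by
        have : (l : ℝ) + 2 * v ≤ 1103806595072 := by exact_mod_cast e
        linarith [g.2]
    exact corner (m ha k1) (m hb k2) (m hc k3)
  obtain ⟨e1, p1, q1⟩ := ha.eps
  obtain ⟨e2, p2, q2⟩ := hb.eps
  obtain ⟨e3, p3, q3⟩ := hc.eps
  refine of_leaf (p := ⟨e1, e2, e3, 1, p1, p2, p3, le_rfl⟩) (a0 := (l1 + w1) / 2 ^ 40)
    (b0 := (l2 + w2) / 2 ^ 40) (c0 := (l3 + w3) / 2 ^ 40) (fun _ => ⟨?_, ?_⟩) (fun _ => ⟨?_, ?_⟩)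
    (fun _ => ⟨?_, ?_⟩) k <;> simp [q1, q2, q3]

/-- the test proves the property on the box. -/
def Snd (P : ℝ → ℝ → ℝ → Prop) (k : Bx) : Prop := ∀ l1 l2 l3 w1 w2 w3 a b c,
  k l1 l2 l3 w1 w2 w3 = true → In l1 w1 a → In l2 w2 b → In l3 w3 c → P a b c

theorem of_obox : Snd (fun a b c => b ≤ a → c ≤ b → Gd a b c) obox := by
  intro l1 l2 l3 w1 w2 w3 a b c k ha hb hc h1 h2
  simp only [obox, Bool.or_eq_true, Nat.blt_eq, Nat.add_eq, Nat.mul_eq] at k
  rcases k with (k | k) | k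
  · have : (l1 : ℝ) + 2 * w1 < l2 := by exact_mod_cast k
    linarith [ha.2, hb.1]
  · have : (l2 : ℝ) + 2 * w2 < l3 := by exact_mod_cast k
    linarith [hb.2, hc.1]
  · exact of_box k ha hb hc

theorem of_chk (t : Tr) : ∀ (P : ℝ → ℝ → ℝ → Prop) (T : Bx), Snd P T → Snd P (chk t T) := by
  induction t with
  | L => exact fun _ _ h => h
  | R t ih =>
    exact fun P T h _ _ _ _ _ _ _ _ _ k ha hb hc => ih (fun b c a => P a b c) _
      (fun _ _ _ _ _ _ _ _ _ k hb hc ha => h _ _ _ _ _ _ _ _ _ k ha hb hc) _ _ _ _ _ _ _ _ _ k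
      hb hc ha
  | S t u iht ihu =>
    intro P T h l1 l2 l3 w1 w2 w3 a b c e ha hb hc
    have e' : (fN (Nat.div (Nat.succ w1) 2) fun v => fN (Nat.add l1 (Nat.mul 2 v)) fun l =>
      chk t T l1 l2 l3 v w2 w3 && chk u T l l2 l3 v w2 w3) = true := e
    rw [fN_eq, fN_eq, Bool.and_eq_true_iff] at e'
    obtain ⟨k1, k2⟩ := e'
    have g : w1 ≤ 2 * Nat.div (Nat.succ w1) 2 := by change w1 ≤ 2 * ((w1 + 1) / 2); omega
    generalize Nat.div (Nat.succ w1) 2 = v at g k1 k2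
    have g' : (w1 : ℝ) ≤ 2 * v := by exact_mod_cast g
    rcases le_total (a * 2 ^ 40) (l1 + 2 * (v : ℝ)) with t | t
    · exact iht P T h _ _ _ _ _ _ _ _ _ k1 ⟨ha.1, t⟩ hb hc
    · refine ihu P T h _ _ _ _ _ _ _ _ _ k2 ?_ hb hc
      simp only [In, Nat.add_eq, Nat.mul_eq]
      push_cast
      exact ⟨t, by linarith [ha.2]⟩

theorem Gd.swap (h : Gd a c b) : Gd a b c := fun w k => by
  have e : ∀ a b c, TT w a c b = TT w a b c := fun a b c => by rw [TT, TT, bt_swap, EE_swap]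
  linarith [h w k.swap, e a b c, e b c a, e c a b]

theorem ord (h1 : b ≤ a) (h2 : c ≤ b) : Gd a b c := fun w h => by
  have m : ∀ x : ℝ, 1 ≤ x → x * x < 2 → In 1099511627776 227800000000 x := fun x g k => by
    have : x < 1.4143 := by
      by_contra e
      nlinarith
    exact ⟨by push_cast; linarith, by push_cast; linarith⟩
  exact of_chk tree _ _ of_obox _ _ _ _ _ _ a b c chk_ok (m a h.a1 h.a2) (m b h.b1 h.b2)
    (m c h.c1 h.c2) h1 h2 w h

end G3

theorem g3 : KA.G3p KA.m1 (PP KA.m2) := by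
  refine G3.red fun a b c => ?_
  rcases le_total b a with h1 | h1 <;> rcases le_total c b with h2 | h2 <;>
    rcases le_total c a with h3 | h3
  · exact G3.ord h1 h2
  · exact G3.ord h1 h2
  · exact (G3.ord h3 h2).swap
  · exact (G3.ord h3 h1).rot.rot
  · exact (G3.ord h1 h3).swap.rot
  · exact (G3.ord h2 h3).rot
  · exact (G3.ord h2 h1).rot.swap
  · exact (G3.ord h2 h1).rot.swap

end Pool.Agent.Lib.MP_f3b2fd_co.KN
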