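import Mathlib

/-! Affine arithmetic in three variables, in fixed point with 40 binary digits. -/

namespace Pool.Agent.Lib.MP_f3b2fd_co.KN.G3

/-- centre, three slopes, error at the centre, error of the slopes, validity. -/
structure AA where
  c : Int
  a1 : Int
  a2 : Int
  a3 : Int
  r : Nat
  e : Nat
  b : Bool

def fN {α : Type} (n : Nat) (k : Nat → α) : α :=
  match n with
  | Nat.zero => k 0
  | Nat.succ m => k (Nat.succ m)

def fI (x : Int) (k : Int → AA) : AA :=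
  match x with
  | Int.ofNat n => fN n fun m => k (Int.ofNat m)
  | Int.negSucc n => fN n fun m => k (Int.negSucc m)

def fB (x : Bool) (k : Bool → AA) : AA :=
  match x with
  | true => k true
  | false => k false

theorem fN_eq {α : Type} (n : Nat) (k : Nat → α) : fN n k = k n := by cases n <;> rfl

theorem fI_eq (x : Int) (k : Int → AA) : fI x k = k x := by cases x <;> simp only [fI, fN_eq]

theorem fB_eq (x : Bool) (k : Bool → AA) : fB x k = k x := by cases x <;> rfl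

/-- evaluates all the fields. -/
def mk0 (c a1 a2 a3 : Int) (r e : Nat) (b : Bool) : AA :=
  fI c fun c => fI a1 fun a1 => fI a2 fun a2 => fI a3 fun a3 => fN r fun r => fN e fun e =>
    fB b fun b => ⟨c, a1, a2, a3, r, e, b⟩

theorem mk0_eq (c a1 a2 a3 : Int) (r e : Nat) (b : Bool) :
    mk0 c a1 a2 a3 r e b = ⟨c, a1, a2, a3, r, e, b⟩ := by
  simp only [mk0, fI_eq, fN_eq, fB_eq]

def bind {α : Type} (x : AA) (k : AA → α) : α :=
  match x with
  | ⟨c, a1, a2, a3, r, e, b⟩ => k ⟨c, a1, a2, a3, r, e, b⟩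

theorem bind_eq {α : Type} (x : AA) (k : AA → α) : bind x k = k x := by cases x; rfl

/-- rounding from double precision. -/
def rnd (c a1 a2 a3 : Int) (r e : Nat) (b : Bool) : AA :=
  mk0 (Int.shiftRight c 40) (Int.shiftRight a1 40) (Int.shiftRight a2 40) (Int.shiftRight a3 40)
    (Nat.add (Nat.shiftRight r 40) 2) (Nat.add (Nat.shiftRight e 40) 4) b

/-- bound of the variation. -/
def mg (f : AA) : Nat := Nat.add (Nat.add (Nat.add f.a1.natAbs f.a2.natAbs) f.a3.natAbs) f.e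

def add (f g : AA) : AA := bind f fun f => bind g fun g =>
  mk0 (Int.add f.c g.c) (Int.add f.a1 g.a1) (Int.add f.a2 g.a2) (Int.add f.a3 g.a3)
    (Nat.add f.r g.r) (Nat.add f.e g.e) (f.b && g.b)

def sub (f g : AA) : AA := bind f fun f => bind g fun g =>
  mk0 (Int.sub f.c g.c) (Int.sub f.a1 g.a1) (Int.sub f.a2 g.a2) (Int.sub f.a3 g.a3)
    (Nat.add f.r g.r) (Nat.add f.e g.e) (f.b && g.b)

def mul (f g : AA) : AA := bind f fun f => bind g fun g =>
  rnd (Int.mul f.c g.c) (Int.add (Int.mul f.c g.a1) (Int.mul g.c f.a1))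
    (Int.add (Int.mul f.c g.a2) (Int.mul g.c f.a2)) (Int.add (Int.mul f.c g.a3) (Int.mul g.c f.a3))
    (Nat.add (Nat.add (Nat.mul f.c.natAbs g.r) (Nat.mul g.c.natAbs f.r)) (Nat.mul f.r g.r))
    (Nat.add (Nat.add (Nat.mul f.c.natAbs g.e) (Nat.mul g.c.natAbs f.e))
      (Nat.mul (Nat.add (mg f) f.r) (Nat.add (mg g) g.r))) (f.b && g.b)

def pos (f : AA) : Bool := bind f fun f => f.b && Nat.blt (Nat.add f.r (mg f)) f.c.toNat

def nng (f : AA) : Bool := bind f fun f =>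
  f.b && Nat.ble (Nat.succ (Nat.add f.r (mg f))) (f.c + 1).toNat

def T3 : Nat := 1329227995784915872903807060280344576

def inv (f : AA) : AA := bind f fun f => fN f.c.toNat fun n => fN (mg f) fun m =>
  fN (Nat.div T3 (Nat.add n f.r)) fun c =>
  fN (Nat.succ (Nat.div T3 (Nat.mul (Nat.sub (Nat.sub n f.r) m) (Nat.sub n f.r)))) fun w =>
  fN (Nat.div (Nat.add (Nat.div T3 (Nat.mul (Nat.add (Nat.add n f.r) m) (Nat.add n f.r))) w) 2)
    fun g =>
  rnd (Int.ofNat c) (Int.neg (Int.mul (Int.ofNat g) f.a1)) (Int.neg (Int.mul (Int.ofNat g) f.a2))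
    (Int.neg (Int.mul (Int.ofNat g) f.a3)) (Nat.sub (Nat.succ (Nat.div T3 (Nat.sub n f.r))) c)
    (Nat.add (Nat.mul m (Nat.sub w g)) (Nat.mul g f.e)) (pos f)

/-- a constant known up to one unit. -/
def ce (n : Int) : AA := ⟨n, 0, 0, 0, 1, 0, true⟩

/-- a rational constant. -/
def cq (n : Int) (d : Nat) : AA := fI (n * 1099511627776 / d) ce

def bad : AA := ⟨0, 0, 0, 0, 0, 0, false⟩

/-- the position in the box. -/
structure Pt where
  e1 : ℝ
  e2 : ℝ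
  e3 : ℝ
  t : ℝ
  h1 : |e1| ≤ t
  h2 : |e2| ≤ t
  h3 : |e3| ≤ t
  ht : t ≤ 1

/-- `c` is the value at the centre of the box, `x` the value at the point. -/
def Rel (p : Pt) (f : AA) (c x : ℝ) : Prop := f.b = true →
  |c * 2 ^ 40 - f.c| ≤ (f.r : ℝ) ∧
    |(x - c) * 2 ^ 40 - (f.a1 * p.e1 + f.a2 * p.e2 + f.a3 * p.e3)| ≤ f.e * p.t

variable {p : Pt} {f g : AA} {c x d y : ℝ}

theorem Pt.t0 (p : Pt) : 0 ≤ p.t := (abs_nonneg _).trans p.h1

theorem shI (n : Int) : |(n : ℝ) / 2 ^ 40 - (Int.shiftRight n 40 : Int)| ≤ 1 := by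
  have e : Int.shiftRight n 40 = n / 2 ^ 40 := Int.shiftRight_eq_div_pow n 40
  have h1 : (n / 2 ^ 40) * 2 ^ 40 ≤ n := Int.ediv_mul_le n (by norm_num)
  have h2 : n < (n / 2 ^ 40 + 1) * 2 ^ 40 := Int.lt_ediv_add_one_mul_self n (by norm_num)
  rw [e]
  generalize n / 2 ^ 40 = q at h1 h2
  have k1 : (q : ℝ) * 2 ^ 40 ≤ n := by exact_mod_cast h1
  have k2 : (n : ℝ) < (q + 1) * 2 ^ 40 := by exact_mod_cast h2
  rw [abs_le]
  constructor <;> linarith

theorem shN (n : Nat) : (n : ℝ) / 2 ^ 40 ≤ (Nat.shiftRight n 40 : Nat) + 1 := by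
  have e : Nat.shiftRight n 40 = n / 2 ^ 40 := Nat.shiftRight_eq_div_pow n 40
  have h2 : n < (n / 2 ^ 40 + 1) * 2 ^ 40 := by omega
  rw [e]
  generalize n / 2 ^ 40 = q at h2
  have k2 : (n : ℝ) < (q + 1) * 2 ^ 40 := by exact_mod_cast h2
  linarith

theorem rel_rnd {C A1 A2 A3 : Int} {R E : Nat} {b : Bool}
    (h : b = true → |c * 2 ^ 40 * 2 ^ 40 - C| ≤ (R : ℝ) ∧
      |(x - c) * 2 ^ 40 * 2 ^ 40 - (A1 * p.e1 + A2 * p.e2 + A3 * p.e3)| ≤ E * p.t) :
    Rel p (rnd C A1 A2 A3 R E b) c x := by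
  rw [rnd, mk0_eq]
  intro hb
  obtain ⟨h1, h2⟩ := h hb
  have s0 := abs_le.1 (shI C)
  have m : ∀ (n : Int) (e : ℝ), |e| ≤ p.t →
      |(n : ℝ) / 2 ^ 40 * e - (Int.shiftRight n 40 : Int) * e| ≤ p.t := fun n e he => by
    rw [← sub_mul, abs_mul]
    exact (mul_le_mul (shI n) he (abs_nonneg _) zero_le_one).trans (one_mul _).le
  have s1 := abs_le.1 (m A1 _ p.h1)
  have s2 := abs_le.1 (m A2 _ p.h2)
  have s3 := abs_le.1 (m A3 _ p.h3)
  have r1 := shN R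
  have r2 := mul_le_mul_of_nonneg_right (shN E) p.t0
  rw [abs_le] at h1 h2
  simp only [Nat.add_eq, abs_le]
  push_cast
  refine ⟨⟨?_, ?_⟩, ?_, ?_⟩
  · linarith [h1.1, s0.1]
  · linarith [h1.2, s0.2]
  · linarith [h2.1, s1.1, s2.1, s3.1]
  · linarith [h2.2, s1.2, s2.2, s3.2]

theorem cabs (n : Int) : ((n.natAbs : Nat) : ℝ) = |(n : ℝ)| := by
  rw [Nat.cast_natAbs, Int.cast_abs]

theorem mg_eq (f : AA) : (mg f : ℝ) = |(f.a1 : ℝ)| + |(f.a2 : ℝ)| + |(f.a3 : ℝ)| + f.e := by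
  simp only [mg, Nat.add_eq]
  push_cast
  simp only [cabs]

theorem var_le (h : |(x - c) * 2 ^ 40 - (f.a1 * p.e1 + f.a2 * p.e2 + f.a3 * p.e3)| ≤ f.e * p.t) :
    |(x - c) * 2 ^ 40| ≤ mg f * p.t := by
  have m : ∀ a e : ℝ, |e| ≤ p.t → |a * e| ≤ |a| * p.t := fun a e he => by
    rw [abs_mul]
    exact mul_le_mul_of_nonneg_left he (abs_nonneg _)
  have s1 := abs_le.1 (m f.a1 _ p.h1)
  have s2 := abs_le.1 (m f.a2 _ p.h2)
  have s3 := abs_le.1 (m f.a3 _ p.h3)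
  rw [abs_le] at h ⊢
  rw [mg_eq]
  constructor <;> linarith [h.1, h.2, s1.1, s1.2, s2.1, s2.2, s3.1, s3.2]

theorem var_le' (h : |(x - c) * 2 ^ 40 - (f.a1 * p.e1 + f.a2 * p.e2 + f.a3 * p.e3)| ≤ f.e * p.t) :
    |(x - c) * 2 ^ 40| ≤ (mg f : ℝ) :=
  (var_le h).trans (mul_le_of_le_one_right (Nat.cast_nonneg _) p.ht)

theorem rel_add (hf : Rel p f c x) (hg : Rel p g d y) : Rel p (add f g) (c + d) (x + y) := by
  simp only [add, bind_eq, mk0_eq]
  intro hb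
  obtain ⟨f1, f2⟩ := hf (Bool.and_eq_true_iff.1 hb).1
  obtain ⟨g1, g2⟩ := hg (Bool.and_eq_true_iff.1 hb).2
  rw [abs_le] at f1 f2 g1 g2
  simp only [Nat.add_eq, Int.add_def, abs_le]
  push_cast
  refine ⟨⟨?_, ?_⟩, ?_, ?_⟩ <;> linarith [f1.1, f1.2, f2.1, f2.2, g1.1, g1.2, g2.1, g2.2]

theorem rel_sub (hf : Rel p f c x) (hg : Rel p g d y) : Rel p (sub f g) (c - d) (x - y) := by
  simp only [sub, bind_eq, mk0_eq]
  intro hb
  obtain ⟨f1, f2⟩ := hf (Bool.and_eq_true_iff.1 hb).1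
  obtain ⟨g1, g2⟩ := hg (Bool.and_eq_true_iff.1 hb).2
  rw [abs_le] at f1 f2 g1 g2
  have e : ∀ a b : Int, Int.sub a b = a - b := fun _ _ => rfl
  simp only [Nat.add_eq, e, abs_le]
  push_cast
  refine ⟨⟨?_, ?_⟩, ?_, ?_⟩ <;> linarith [f1.1, f1.2, f2.1, f2.2, g1.1, g1.2, g2.1, g2.2]

theorem amul {a b A B : ℝ} (h : |a| ≤ A) (k : |b| ≤ B) : |a * b| ≤ A * B := by
  rw [abs_mul]
  exact mul_le_mul h k (abs_nonneg _) ((abs_nonneg _).trans h)

theorem rel_mul (hf : Rel p f c x) (hg : Rel p g d y) : Rel p (mul f g) (c * d) (x * y) := by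
  simp only [mul, bind_eq]
  refine rel_rnd fun hb => ?_
  obtain ⟨f1, f2⟩ := hf (Bool.and_eq_true_iff.1 hb).1
  obtain ⟨g1, g2⟩ := hg (Bool.and_eq_true_iff.1 hb).2
  have a1 := abs_le.1 (amul (le_refl |(f.c : ℝ)|) g1)
  have a2 := abs_le.1 (amul (le_refl |(g.c : ℝ)|) f1)
  have a3 := abs_le.1 (amul f1 g1)
  have b1 := abs_le.1 (amul (le_refl |(f.c : ℝ)|) g2)
  have b2 := abs_le.1 (amul (le_refl |(g.c : ℝ)|) f2)
  have b3 := abs_le.1 (amul f1 (var_le g2))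
  have b4 := abs_le.1 (amul g1 (var_le f2))
  have b5 := abs_le.1 (amul (var_le' f2) (var_le g2))
  have b6 : (0 : ℝ) ≤ f.r * g.r * p.t := by have := p.t0; positivity
  simp only [Nat.add_eq, Nat.mul_eq, Int.add_def, Int.mul_def, abs_le]
  push_cast
  simp only [cabs]
  refine ⟨⟨?_, ?_⟩, ?_, ?_⟩
  · linarith [a1.1, a2.1, a3.1]
  · linarith [a1.2, a2.2, a3.2]
  · linarith [b1.1, b2.1, b3.1, b4.1, b5.1]
  · linarith [b1.2, b2.2, b3.2, b4.2, b5.2]

theorem pos_nat (h : pos f = true) : f.b = true ∧ f.r + mg f < f.c.toNat ∧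
    ((f.c.toNat : Nat) : ℝ) = f.c := by
  simp only [pos, bind_eq, Bool.and_eq_true_iff, Nat.blt_eq, Nat.add_eq] at h
  refine ⟨h.1, h.2, ?_⟩
  have : ((f.c.toNat : Nat) : Int) = f.c := Int.toNat_of_nonneg (by omega)
  exact_mod_cast this

theorem of_pos (hf : Rel p f c x) (h : pos f = true) : 0 < x := by
  obtain ⟨hb, h1, h2⟩ := pos_nat h
  obtain ⟨f1, f2⟩ := hf hb
  have k : (f.r : ℝ) + mg f < (f.c.toNat : Nat) := by exact_mod_cast h1
  linarith [abs_le.1 f1, abs_le.1 (var_le' f2)]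

theorem of_nng (hf : Rel p f c x) (h : nng f = true) : 0 ≤ x := by
  simp only [nng, bind_eq, Bool.and_eq_true_iff, Nat.ble_eq, Nat.add_eq] at h
  obtain ⟨f1, f2⟩ := hf h.1
  have k0 : ((f.r : Int) + mg f) ≤ f.c := by omega
  have k : (f.r : ℝ) + mg f ≤ f.c := by exact_mod_cast k0
  linarith [abs_le.1 f1, abs_le.1 (var_le' f2)]

theorem dlo {n : Nat} {z : ℝ} (h0 : 0 < z) (h : z ≤ n) :
    ((Nat.div T3 n : Nat) : ℝ) ≤ 2 ^ 120 / z := by
  have e : ((T3 : Nat) : ℝ) = 2 ^ 120 := by norm_num [T3]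
  refine (Nat.cast_div_le (m := T3) (n := n)).trans ?_
  rw [e]
  exact div_le_div_of_nonneg_left (by positivity) h0 h

theorem dhi {n : Nat} {z : ℝ} (h0 : 0 < n) (h : n ≤ z) :
    2 ^ 120 / z ≤ ((Nat.succ (Nat.div T3 n) : Nat) : ℝ) := by
  have e : ((T3 : Nat) : ℝ) = 2 ^ 120 := by norm_num [T3]
  have k : T3 < (T3 / n + 1) * n := by
    have := Nat.lt_mul_div_succ T3 h0
    rwa [mul_comm] at this
  have n0 : (0 : ℝ) < n := by exact_mod_cast h0
  have k' : ((T3 : Nat) : ℝ) < ((T3 / n + 1 : Nat) : ℝ) * n := by exact_mod_cast k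
  rw [div_le_iff₀ (by linarith), ← e]
  exact k'.le.trans (mul_le_mul_of_nonneg_left h (Nat.cast_nonneg _))

theorem rel_inv (hf : Rel p f c x) : Rel p (inv f) c⁻¹ x⁻¹ := by
  simp only [inv, bind_eq, fN_eq]
  refine rel_rnd fun hb => ?_
  obtain ⟨hb, h1, h2⟩ := pos_nat hb
  obtain ⟨f1, f2⟩ := hf hb
  have v := var_le f2
  have v' := abs_le.1 (var_le' f2)
  rw [← h2, abs_le] at f1
  generalize f.c.toNat = n at h1 f1
  generalize mg f = m at h1 v v'
  have k : (f.r : ℝ) + m < n := by exact_mod_cast h1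
  have m0 : (0 : ℝ) ≤ m := Nat.cast_nonneg _
  have c0 : 0 < c := by linarith [f1.1]
  have x0 : 0 < x := by linarith [f1.1, v'.1]
  have p0 : ((Nat.sub n f.r : Nat) : ℝ) = n - f.r := Nat.cast_sub (by omega)
  have q0 : ((Nat.sub (Nat.sub n f.r) m : Nat) : ℝ) = n - f.r - m := by
    rw [← p0]
    exact Nat.cast_sub (by simp only [Nat.sub_eq]; omega)
  have u1 := dlo (n := Nat.add n f.r) (z := c * 2 ^ 40) (by positivity)
    (by simp only [Nat.add_eq]; push_cast; linarith [f1.2])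
  have u2 := dhi (n := Nat.sub n f.r) (z := c * 2 ^ 40) (by simp only [Nat.sub_eq]; omega)
    (by rw [p0]; linarith [f1.1])
  have u3 := dlo (n := Nat.mul (Nat.add (Nat.add n f.r) m) (Nat.add n f.r))
    (z := x * 2 ^ 40 * (c * 2 ^ 40)) (by positivity) (by
      simp only [Nat.add_eq, Nat.mul_eq]
      push_cast
      exact mul_le_mul (by linarith [f1.2, v'.2]) (by linarith [f1.2]) (by positivity)
        (by positivity))
  have u4 := dhi (n := Nat.mul (Nat.sub (Nat.sub n f.r) m) (Nat.sub n f.r))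
    (z := x * 2 ^ 40 * (c * 2 ^ 40))
    (Nat.mul_pos (by simp only [Nat.sub_eq]; omega) (by simp only [Nat.sub_eq]; omega)) (by
      rw [Nat.mul_eq, Nat.cast_mul, p0, q0]
      exact mul_le_mul (by linarith [f1.1, v'.1]) (by linarith [f1.1]) (by linarith)
        (by positivity))
  generalize Nat.div T3 (Nat.add n f.r) = C at u1
  generalize Nat.succ (Nat.div T3 (Nat.sub n f.r)) = C' at u2
  generalize Nat.div T3 (Nat.mul (Nat.add (Nat.add n f.r) m) (Nat.add n f.r)) = W at u3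
  generalize Nat.succ (Nat.div T3 (Nat.mul (Nat.sub (Nat.sub n f.r) m) (Nat.sub n f.r))) = W' at u4
  have w0 : W ≤ W' := by exact_mod_cast u3.trans u4
  have c1 : C ≤ C' := by exact_mod_cast u1.trans u2
  have g1 : Nat.div (Nat.add W W') 2 ≤ W' := by change (W + W') / 2 ≤ W'; omega
  have g2 : 2 * Nat.div (Nat.add W W') 2 ≤ W + W' := by
    change 2 * ((W + W') / 2) ≤ W + W'; omega
  generalize Nat.div (Nat.add W W') 2 = G at g1 g2
  have g3 : 2 * (G : ℝ) ≤ W + W' := by exact_mod_cast g2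
  have e1 : c⁻¹ * 2 ^ 40 * 2 ^ 40 = 2 ^ 120 / (c * 2 ^ 40) := by field_simp
  have e2 : (x⁻¹ - c⁻¹) * 2 ^ 40 * 2 ^ 40 =
      -((x - c) * 2 ^ 40 * (2 ^ 120 / (x * 2 ^ 40 * (c * 2 ^ 40)))) := by
    field_simp
    ring
  rw [e1, e2]
  generalize (2 : ℝ) ^ 120 / (c * 2 ^ 40) = Z at u1 u2
  generalize (2 : ℝ) ^ 120 / (x * 2 ^ 40 * (c * 2 ^ 40)) = Y at u3 u4
  have a1 : |Y - G| ≤ W' - G := abs_le.2 ⟨by linarith, by linarith⟩
  have b1 := abs_le.1 (amul v a1)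
  have b2 := abs_le.1 (amul (abs_of_nonneg (Nat.cast_nonneg G)).le f2)
  have e : ∀ a : Int, Int.neg a = -a := fun _ => rfl
  simp only [Nat.add_eq, Nat.mul_eq, Nat.sub_eq, Int.mul_def, e, abs_le, Int.ofNat_eq_natCast]
  push_cast [Nat.cast_sub c1, Nat.cast_sub g1]
  refine ⟨⟨?_, ?_⟩, ?_, ?_⟩ <;> linarith [b1.1, b1.2, b2.1, b2.2]

theorem rel_ce {n : Int} (h : |c * 2 ^ 40 - n| ≤ 1) : Rel p (ce n) c c := fun _ => by
  simpa [ce] using h

theorem rel_cq (n : Int) (k : Nat) (hk : 0 < k) (h : c = n / k) : Rel p (cq n k) c c := by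
  rw [cq, fI_eq]
  refine rel_ce ?_
  have k0 : (0 : Int) < k := by exact_mod_cast hk
  have k1 : (0 : ℝ) < k := by exact_mod_cast hk
  have h1 := Int.ediv_mul_le (n * 1099511627776) k0.ne'
  have h2 := Int.lt_ediv_add_one_mul_self (n * 1099511627776) k0
  generalize n * 1099511627776 / k = q at h1 h2
  have k1 : (q : ℝ) ≤ n * 1099511627776 / k := by rw [le_div_iff₀ k1]; exact_mod_cast h1
  have k2 : (n : ℝ) * 1099511627776 / k < q + 1 := by
    rw [div_lt_iff₀ (by exact_mod_cast hk)]; exact_mod_cast h2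
  have e : c * 2 ^ 40 = n * 1099511627776 / k := by rw [h]; ring
  rw [e, abs_le]
  constructor <;> linarith

theorem rel_bad : Rel p bad c x := fun h => by simp [bad] at h

end Pool.Agent.Lib.MP_f3b2fd_co.KN.G3
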