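import Pool.Agent.Lib.MP_f3b2fd_co.KEP.N.Data
import Pool.Agent.Lib.MP_f3b2fd_co.KEP.A.Const
import Pool.Agent.Lib.MP_f3b2fd_co.KEP.A.Euler

/-! The inequality for 3-cells in terms of the half lengths; bounds for the arc tangent. -/

namespace Pool.Agent.Lib.MP_f3b2fd_co.KN.G3

open Real KA

theorem mono {ψ ψ' : ℝ → ℝ} {a b : ℝ} (hab : a ≤ b) (hd : ∀ t, HasDerivAt ψ (ψ' t) t)
    (h0 : ∀ t, a ≤ t → t ≤ b → 0 ≤ ψ' t) : ψ a ≤ ψ b := by
  rcases hab.eq_or_lt with h | h
  · rw [h]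
  obtain ⟨c, hc, e⟩ := exists_hasDerivAt_eq_slope ψ ψ' h
    (fun t _ => (hd t).continuousAt.continuousWithinAt) fun t _ => hd t
  have := h0 c hc.1.le hc.2.le
  rw [e, le_div_iff₀ (by linarith)] at this
  linarith

/-- an upper bound for `arctan y / y`, at `s = y ^ 2`. -/
noncomputable def UU (s : ℝ) : ℝ := (s * (1 / 5) - 1 / 3) * s + 1

/-- a lower bound for `arctan y / y`, at `s = y ^ 2`. -/
noncomputable def LL (s : ℝ) : ℝ :=
  (1 + s * (3 + 4 * s * (5 + 9 * s * (7 + 16 * s * (9 + 25 / 11 * s)⁻¹)⁻¹)⁻¹)⁻¹)⁻¹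

theorem atan_U {y : ℝ} (h : 0 ≤ y) : arctan y ≤ y * UU (y ^ 2) := by
  have := mono (ψ := fun t => t ^ 5 / 5 - t ^ 3 / 3 + t - arctan t)
    (ψ' := fun t => t ^ 6 / (1 + t ^ 2)) h (fun t => by
      refine HasDerivAt.congr_deriv (((((hasDerivAt_pow 5 t).div_const 5).fun_sub
        ((hasDerivAt_pow 3 t).div_const 3)).fun_add (hasDerivAt_id' t)).fun_sub (hasDerivAt_arctan t)) ?_
      field_simp
      norm_num
      ring) fun t _ _ => by positivity
  simp only [arctan_zero] at this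
  unfold UU
  linarith

theorem atan_L {y : ℝ} (h : 0 ≤ y) : y * LL (y ^ 2) ≤ arctan y := by
  have := mono (ψ := fun t => arctan t - (231 * t ^ 5 + 1190 * t ^ 3 + 1155 * t) /
      (25 * t ^ 6 + 525 * t ^ 4 + 1575 * t ^ 2 + 1155))
    (ψ' := fun t => 6400 * t ^ 12 / ((1 + t ^ 2) *
      (25 * t ^ 6 + 525 * t ^ 4 + 1575 * t ^ 2 + 1155) ^ 2)) h (fun t => by
      refine HasDerivAt.congr_deriv ((hasDerivAt_arctan t).fun_sub (HasDerivAt.fun_div
        ((((hasDerivAt_pow 5 t).const_mul 231).fun_add ((hasDerivAt_pow 3 t).const_mul 1190)).fun_add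
          ((hasDerivAt_id' t).const_mul 1155))
        (((((hasDerivAt_pow 6 t).const_mul 25).fun_add ((hasDerivAt_pow 4 t).const_mul 525)).fun_add
          ((hasDerivAt_pow 2 t).const_mul 1575)).add_const 1155) (by positivity))) ?_
      field_simp
      norm_num
      ring) fun t _ _ => by positivity
  simp only [arctan_zero] at this
  have e : y * LL (y ^ 2) = (231 * y ^ 5 + 1190 * y ^ 3 + 1155 * y) /
      (25 * y ^ 6 + 525 * y ^ 4 + 1575 * y ^ 2 + 1155) := by
    unfold LL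
    field_simp
    ring
  rw [e]
  norm_num at this
  linarith

theorem atan_T {z w : ℝ} (hz : 0 ≤ z) (hw : 0 ≤ w) :
    arctan z ≤ arctan w + (z - w) * (1 + w * w)⁻¹ := by
  have := mono (ψ := fun t => t * ((z - w) * (1 + w * w)⁻¹) - arctan (w + t * (z - w)))
    (ψ' := fun t => (z - w) ^ 2 * t * (w + (w * (1 - t) + t * z)) /
      ((1 + w * w) * (1 + (w + t * (z - w)) ^ 2))) zero_le_one (fun t => by
      refine HasDerivAt.congr_deriv (((hasDerivAt_id' t).mul_const _).fun_sub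
        (((hasDerivAt_id' t).mul_const (z - w)).const_add w).arctan) ?_
      field_simp
      ring) fun t h0 h1 => by
      have := sub_nonneg.2 h1
      positivity
  simp only [zero_mul, add_zero, one_mul, add_sub_cancel] at this
  linarith

theorem atan_s2 : arctan √2 = (π - th0) / 2 := by
  have := arctan_inv_of_pos Const.s2_pos
  rw [← one_div, atan_half] at this
  linarith

theorem atan_2 {y : ℝ} (h : 0 ≤ y) : y * ((π - th0) / 2 * (√2 / 2) * (3 / 2) - 1 / 6 -
    ((π - th0) / 2 * (√2 / 2) * (1 / 4) - 1 / 12) * y ^ 2) ≤ arctan y := by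
  have s := Const.s2_sq
  have := mono (ψ := fun t => arctan (t * y) - y * (arctan (t * √2) * (√2 / 2) -
      (y ^ 2 - 2) / 4 * (arctan (t * √2) * (√2 / 2) - t / (1 + 2 * t ^ 2))))
    (ψ' := fun t => y * (y ^ 2 - 2) ^ 2 * t ^ 4 / ((1 + (t * y) ^ 2) * (1 + 2 * t ^ 2) ^ 2))
    zero_le_one (fun t => by
      have a : HasDerivAt (fun t => arctan (t * √2) * (√2 / 2)) (1 / (1 + 2 * t ^ 2)) t := by
        refine HasDerivAt.congr_deriv (((hasDerivAt_id' t).mul_const √2).arctan.mul_const _) ?_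
        rw [mul_pow, Real.sq_sqrt (by norm_num), one_mul, mul_assoc, ← mul_div_assoc, s]
        ring
      refine HasDerivAt.congr_deriv (((hasDerivAt_id' t).mul_const y).arctan.fun_sub
        ((a.fun_sub ((a.fun_sub ((hasDerivAt_id' t).fun_div
          (((hasDerivAt_pow 2 t).const_mul 2).const_add 1) (by positivity))).const_mul _)).const_mul
          y)) ?_
      field_simp
      norm_num
      ring) fun t _ _ => by positivity
  simp only [zero_mul, arctan_zero, one_mul, atan_s2] at this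
  linarith

/-- the squared volume, up to a factor. -/
def DD (a b c : ℝ) : ℝ := 1 - ((a * a - 1) * (a * a - 1) + (b * b - 1) * (b * b - 1) +
  (c * c - 1) * (c * c - 1)) - 2 * ((a * a - 1) * (b * b - 1) * (c * c - 1))

def NN (a b c : ℝ) : ℝ := b * b + c * c - a * a

noncomputable def EE (a b c : ℝ) : ℝ := b * c * ((b + c) * √2 + 2) + NN a b c

/-- the angle along a side of the face. -/
noncomputable def bt (w a b c : ℝ) : ℝ := arctan (√2 * w / (a * NN a b c))

/-- one side and the opposite vertex. -/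
noncomputable def TT (w a b c : ℝ) : ℝ :=
  PP m2 3 (4 * (a * a)) (bt w a b c) - 4 * m1 / π * arctan (w / EE a b c)

/-- the hypotheses. -/
structure Hy (w a b c : ℝ) : Prop where
  a1 : 1 ≤ a
  b1 : 1 ≤ b
  c1 : 1 ≤ c
  a2 : a * a < 2
  b2 : b * b < 2
  c2 : c * c < 2
  w0 : 0 < w
  wd : w ^ 2 = DD a b c

variable {w a b c : ℝ}

theorem Hy.rot (h : Hy w a b c) : Hy w b c a :=
  ⟨h.b1, h.c1, h.a1, h.b2, h.c2, h.a2, h.w0, by rw [h.wd]; unfold DD; ring⟩

theorem Hy.swap (h : Hy w a b c) : Hy w a c b :=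
  ⟨h.a1, h.c1, h.b1, h.a2, h.c2, h.b2, h.w0, by rw [h.wd]; unfold DD; ring⟩

theorem Hy.N (h : Hy w a b c) : 0 < NN a b c := by
  unfold NN
  nlinarith [h.a2, h.b1, h.c1]

theorem Hy.E (h : Hy w a b c) : 0 < EE a b c := by
  have := h.N
  have := h.b1
  have := h.c1
  unfold EE
  positivity

theorem bt_swap : bt w a c b = bt w a b c := by
  rw [bt, bt, show NN a c b = NN a b c by unfold NN; ring]

theorem EE_swap : EE a c b = EE a b c := by
  unfold EE NN; ring

theorem Hy.edge (h : Hy w a b c) :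
    dih (4 * (a * a)) 2 (4 * (c * c)) 2 (4 * (b * b)) 2 = bt w a b c := by
  have a1 := h.a1
  have w0 := h.w0
  have n := h.N
  have e : del (4 * (a * a)) 2 (4 * (c * c)) 2 (4 * (b * b)) 2 = 32 * w ^ 2 := by
    rw [h.wd]; unfold del DD; ring
  have e4 : del4 (4 * (a * a)) 2 (4 * (c * c)) 2 (4 * (b * b)) 2 = 16 * a * (a * NN a b c) := by
    unfold del4 NN; ring
  rw [dih_acute _ _ _ _ _ _ (by positivity) (by rw [e]; positivity) (by rw [e4]; positivity), e, e4,
    Const.sq_mul (16 * a * w) _ (by positivity) (by ring), bt]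
  congr 1
  field_simp

theorem Hy.vert (h : Hy w a b c) : dih 2 2 2 (4 * (a * a)) (4 * (b * b)) (4 * (c * c)) +
    bt w c a b + bt w b c a - π = 2 * arctan (w / EE a b c) := by
  have a1 := h.a1
  have b1 := h.b1
  have c1 := h.c1
  have w0 := h.w0
  have s := Const.s2_sq
  have p := Const.s2_pos
  have l : ∀ t : ℝ, 1 ≤ t → t * t < 2 → t < √2 := fun t _ k => by
    by_contra g
    nlinarith
  have lb := l b b1 h.b2
  have lc := l c c1 h.c2
  have e1 : √2 ^ 2 = (2 : ℝ) := Real.sq_sqrt (by norm_num)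
  have e2 : (2 * c) ^ 2 = 4 * (c * c) := by ring
  have e3 : (2 * b) ^ 2 = 4 * (b * b) := by ring
  have e : del 2 (4 * (c * c)) (4 * (b * b)) (4 * (a * a)) 2 2 = 32 * w ^ 2 := by
    rw [h.wd]; unfold del DD; ring
  have ee : eul √2 (2 * c) (2 * b) (4 * (a * a)) 2 2 = 4 * √2 * EE a b c := by
    unfold eul EE NN
    linear_combination (2 * b + 2 * c - 4 * b * c * (b + c)) * s
  have k := euler √2 (2 * c) (2 * b) (4 * (a * a)) 2 2 p (by positivity) (by positivity)
    (by rw [e1, e2, e3, e]; positivity) (by rw [ee]; have := h.E; positivity)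
    (mul_pos (mul_pos (by nlinarith [s2_hi]) (by nlinarith)) (by nlinarith))
  rw [e1, e2, e3, e, ee, h.rot.rot.edge, h.rot.swap.edge.trans bt_swap,
    Const.sq_mul (4 * w) (32 * w ^ 2) (by positivity) (by ring),
    show 4 * w * √2 / (4 * √2 * EE a b c) = w / EE a b c by field_simp] at k
  rw [← k, dih, dih, e, show del 2 2 2 (4 * (a * a)) (4 * (b * b)) (4 * (c * c)) = 32 * w ^ 2 by
    rw [h.wd]; unfold del DD; ring, show del4 2 2 2 (4 * (a * a)) (4 * (b * b)) (4 * (c * c)) =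
      del4 2 (4 * (c * c)) (4 * (b * b)) (4 * (a * a)) 2 2 by unfold del4; ring]

/-- the inequality at one point. -/
def Gd (a b c : ℝ) : Prop := ∀ w, Hy w a b c → 0 ≤ √2 / 3 * w + TT w a b c + TT w b c a + TT w c a b

theorem Gd.rot (h : Gd b c a) : Gd a b c := fun w k => by linarith [h w k.rot]

theorem red (h : ∀ a b c, Gd a b c) : G3p m1 (PP m2) := by
  intro x4 x5 x6 h4 h5 h6 k4 k5 k6 _ hd
  have ex : ∀ x : ℝ, 4 ≤ x → x < 8 → ∃ a, 1 ≤ a ∧ a * a < 2 ∧ x = 4 * (a * a) := fun x g k => by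
    have s := Real.mul_self_sqrt (by linarith : 0 ≤ x)
    have l : 2 ≤ √x := Real.le_sqrt_of_sq_le (by linarith)
    exact ⟨√x / 2, by linarith, by linarith, by linarith⟩
  obtain ⟨a, a1, a2, rfl⟩ := ex x4 h4 k4
  obtain ⟨b, b1, b2, rfl⟩ := ex x5 h5 k5
  obtain ⟨c, c1, c2, rfl⟩ := ex x6 h6 k6
  have e : del 2 2 2 (4 * (a * a)) (4 * (b * b)) (4 * (c * c)) = 32 * DD a b c := by
    unfold del DD; ring
  have d0 : 0 < DD a b c := by linarith
  have y : Hy √(DD a b c) a b c :=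
    ⟨a1, b1, c1, a2, b2, c2, Real.sqrt_pos.2 d0, Real.sq_sqrt d0.le⟩
  have g := h a b c _ y
  generalize √(DD a b c) = w at y g
  have v1 := y.vert
  have v2 := y.rot.swap.vert
  have v3 := y.rot.rot.vert
  rw [y.edge, y.rot.swap.edge, y.rot.rot.edge, e, ← y.wd,
    Const.sq_mul (4 * w) (32 * w ^ 2) (by have := y.w0; positivity) (by ring),
    bt_swap (a := b) (b := c)]
  rw [bt_swap (a := c) (b := a), bt_swap (a := a) (b := b), EE_swap (a := b) (b := c)] at v2
  unfold TT at g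
  have z : 6 * m1 = 4 * m1 / π * (3 * π / 2) := by field_simp; ring
  have z' : 2 * m1 / π = 4 * m1 / π / 2 := by ring
  rw [z, z']
  generalize 4 * m1 / π = A at g ⊢
  linear_combination g + A / 2 * (v1 + v2 + v3)

end Pool.Agent.Lib.MP_f3b2fd_co.KN.G3
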