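import Pool.Agent.Lib.MP_f3b2fd_co.KEP.N.G3a
import Pool.Agent.Lib.MP_f3b2fd_co.KEP.N.G3b

/-! The inequality for 3-cells: the test on one box. -/

namespace Pool.Agent.Lib.MP_f3b2fd_co.KN.G3

open Real KA

def kR : AA := ce 1554944255988
def kA : AA := ce 1416854195666
def kB : AA := ce 71157656229
def kP : AA := ce 3454217652358
def kT : AA := ce 1353454192687

def DA (a b c : AA) : AA :=
  bind (sub (mul a a) (cq 1 1)) fun u => bind (sub (mul b b) (cq 1 1)) fun v =>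
    bind (sub (mul c c) (cq 1 1)) fun w =>
      sub (sub (cq 1 1) (add (add (mul u u) (mul v v)) (mul w w))) (mul (cq 2 1) (mul (mul u v) w))

def NA (a b c : AA) : AA := sub (add (mul b b) (mul c c)) (mul a a)

def EA (a b c : AA) : AA := add (mul (mul b c) (add (mul (add b c) kR) (cq 2 1))) (NA a b c)

def UA (s : AA) : AA := bind s fun s => add (mul (sub (mul s (cq 1 5)) (cq 1 3)) s) (cq 1 1)

def LA (s : AA) : AA := bind s fun s =>
  inv (add (cq 1 1) (mul s (inv (add (cq 3 1) (mul (mul (cq 4 1) s) (inv (add (cq 5 1)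
    (mul (mul (cq 9 1) s) (inv (add (cq 7 1) (mul (mul (cq 16 1) s)
      (inv (add (cq 9 1) (mul (cq 25 11) s))))))))))))))

def SA (D a b c : AA) : AA := bind (inv (EA a b c)) fun i => mul kA (mul i (UA (mul D (mul i i))))

/-- the choice of an affine minorant of the weight. -/
def pc (x : Nat) : Int × Int :=
  cond (Nat.blt x 1168231104512) (1857303, 857303) (cond (Nat.blt x 1271310319616) (1592639, 636651)
    (cond (Nat.blt x 1408749273088) (1246238, 412560)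
      (cond (Nat.blt x 1580547964928) (861178, 229486) (457092, 93451))))

def FA (x : Nat) (u : AA) : AA :=
  sub (cq (pc x).1 1000000) (mul (cq (pc x).2 1000000) (mul (mul u u) u))

def PA (D a b c : AA) : AA := bind (mul a a) fun u =>
  cond (pos (sub u (cq 57 32))) (cq 0 1)
    (bind (inv (mul a (NA a b c))) fun j => bind (mul (mul (cq 2 1) D) (mul j j)) fun s =>
      cond (nng (sub (cq 425 256) u))
        (bind (FA u.c.toNat u) fun F => cond (nng F) (mul (mul kB F) (mul (mul kR j) (LA s))) bad)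
        (cond (Nat.blt 480000000000 s.c.toNat)
          (mul (cq (-11) 2000) (add (mul (cq 7 10) (inv D)) (cq 10 7)))
          (mul (cq (-3) 160) (mul (mul kR j) (UA s)))))

def TA (D a b c : AA) : AA := sub (PA D a b c) (SA D a b c)

def leaf (a b c : AA) : Bool := bind (DA a b c) fun D => nng (sub (cq 0 1) D) ||
  nng (add (add (add (mul kR (cq 1 3)) (TA D a b c)) (TA D b c a)) (TA D c a b))

def kZ : AA := sub (cq 3 1) (mul (cq 2 1) kR)
def kL : AA := inv (add (cq 1 1) (mul kZ kZ))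
def kO : AA := mul (mul (sub kP kT) (cq 1 2)) (mul kR (cq 1 2))

/-- the term near the tight point. -/
def CA (D a b c : AA) : AA := bind (mul a a) fun u => bind (inv (mul a (NA a b c))) fun j =>
  sub (mul (mul kB (FA 0 u)) (mul (mul kR j) (sub (sub (mul kO (cq 3 2)) (cq 1 6))
      (mul (sub (mul kO (cq 1 4)) (cq 1 12)) (mul (mul (cq 2 1) D) (mul j j))))))
    (mul kA (add (mul (sub (sub (mul kP (cq 1 4)) (mul kT (cq 1 2))) (mul kZ kL))
      (mul (add (inv D) (cq 1 1)) (cq 1 2))) (mul kL (inv (EA a b c)))))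

noncomputable def CR (D a b c : ℝ) : ℝ :=
  8 * m2 / π * (1857303 / 1000000 - 857303 / 1000000 * (a * a * (a * a) * (a * a))) *
    (√2 * (a * NN a b c)⁻¹ * ((π - th0) * (1 / 2) * (√2 * (1 / 2)) * (3 / 2) - 1 / 6 -
      ((π - th0) * (1 / 2) * (√2 * (1 / 2)) * (1 / 4) - 1 / 12) *
        (2 * D * ((a * NN a b c)⁻¹ * (a * NN a b c)⁻¹)))) -
  4 * m1 / π * ((π * (1 / 4) - th0 * (1 / 2) -
    (3 - 2 * √2) * (1 + (3 - 2 * √2) * (3 - 2 * √2))⁻¹) * ((D⁻¹ + 1) * (1 / 2)) +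
      (1 + (3 - 2 * √2) * (3 - 2 * √2))⁻¹ * (EE a b c)⁻¹)

attribute [local irreducible] add sub mul inv pos nng cq ce bind

variable {p : Pt} {A B C D : AA} {a0 b0 c0 d0 a b c d w : ℝ}

theorem rR : Rel p kR √2 √2 :=
  rel_ce (abs_le.2 ⟨by push_cast; linarith [s2_lo], by push_cast; linarith [s2_hi]⟩)

theorem rA : Rel p kA (4 * m1 / π) (4 * m1 / π) :=
  rel_ce (abs_le.2 ⟨by push_cast; linarith [ca_lo], by push_cast; linarith [ca_hi]⟩)

theorem rB : Rel p kB (8 * m2 / π) (8 * m2 / π) :=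
  rel_ce (abs_le.2 ⟨by push_cast; linarith [cb_lo], by push_cast; linarith [cb_hi]⟩)

theorem rP : Rel p kP π π :=
  rel_ce (abs_le.2 ⟨by push_cast; linarith [pi_gt_d20], by push_cast; linarith [pi_lt_d20]⟩)

theorem rT : Rel p kT th0 th0 :=
  rel_ce (abs_le.2 ⟨by push_cast; linarith [th0_lo], by push_cast; linarith [th0_hi]⟩)

theorem rq (n : Int) (k : Nat) (c : ℝ) (h : 0 < k ∧ c = n / k) : Rel p (cq n k) c c :=
  rel_cq n k h.1 h.2

theorem r1 : Rel p (cq 1 1) 1 1 := rq _ _ _ (by norm_num)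

theorem r2 : Rel p (cq 2 1) 2 2 := rq _ _ _ (by norm_num)

theorem rD (ha : Rel p A a0 a) (hb : Rel p B b0 b) (hc : Rel p C c0 c) :
    Rel p (DA A B C) (DD a0 b0 c0) (DD a b c) := by
  have u := rel_sub (rel_mul ha ha) r1
  have v := rel_sub (rel_mul hb hb) r1
  have w := rel_sub (rel_mul hc hc) r1
  simp only [DA, DD, bind_eq]
  exact rel_sub (rel_sub r1 (rel_add (rel_add (rel_mul u u) (rel_mul v v)) (rel_mul w w)))
    (rel_mul r2 (rel_mul (rel_mul u v) w))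

theorem rN (ha : Rel p A a0 a) (hb : Rel p B b0 b) (hc : Rel p C c0 c) :
    Rel p (NA A B C) (NN a0 b0 c0) (NN a b c) := by
  simp only [NA, NN]
  exact rel_sub (rel_add (rel_mul hb hb) (rel_mul hc hc)) (rel_mul ha ha)

theorem rE (ha : Rel p A a0 a) (hb : Rel p B b0 b) (hc : Rel p C c0 c) :
    Rel p (EA A B C) (EE a0 b0 c0) (EE a b c) := by
  simp only [EA, EE]
  exact rel_add (rel_mul (rel_mul hb hc) (rel_add (rel_mul (rel_add hb hc) rR) r2)) (rN ha hb hc)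

theorem rU (ha : Rel p A a0 a) : Rel p (UA A) (UU a0) (UU a) := by
  simp only [UA, UU, bind_eq]
  exact rel_add (rel_mul (rel_sub (rel_mul ha (rq _ _ _ (by norm_num))) (rq _ _ _ (by norm_num))) ha) r1

theorem rL (ha : Rel p A a0 a) : Rel p (LA A) (LL a0) (LL a) := by
  simp only [LA, LL, bind_eq]
  exact rel_inv (rel_add r1 (rel_mul ha (rel_inv (rel_add (rq _ _ _ (by norm_num))
    (rel_mul (rel_mul (rq _ _ _ (by norm_num)) ha) (rel_inv (rel_add (rq _ _ _ (by norm_num))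
    (rel_mul (rel_mul (rq _ _ _ (by norm_num)) ha) (rel_inv (rel_add (rq _ _ _ (by norm_num))
    (rel_mul (rel_mul (rq _ _ _ (by norm_num)) ha) (rel_inv (rel_add (rq _ _ _ (by norm_num))
    (rel_mul (rq _ _ _ (by norm_num)) ha))))))))))))))

theorem rF (x : Nat) (ha : Rel p A a0 a) : Rel p (FA x A)
    ((pc x).1 / 1000000 - (pc x).2 / 1000000 * (a0 * a0 * a0))
    ((pc x).1 / 1000000 - (pc x).2 / 1000000 * (a * a * a)) := by
  simp only [FA]
  exact rel_sub (rq _ _ _ (by norm_num)) (rel_mul (rq _ _ _ (by norm_num)) (rel_mul (rel_mul ha ha) ha))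

theorem rC (hd : Rel p D d0 d) (ha : Rel p A a0 a) (hb : Rel p B b0 b) (hc : Rel p C c0 c) :
    Rel p (CA D A B C) (CR d0 a0 b0 c0) (CR d a b c) := by
  have j := rel_inv (rel_mul ha (rN ha hb hc))
  have h : Rel p (cq 1 2) (1 / 2) (1 / 2) := rq _ _ _ (by norm_num)
  have q : Rel p (cq 1 4) (1 / 4) (1 / 4) := rq _ _ _ (by norm_num)
  have z : Rel p kZ _ _ := rel_sub (rq _ _ 3 (by norm_num)) (rel_mul r2 rR)
  have l : Rel p kL _ _ := rel_inv (rel_add r1 (rel_mul z z))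
  have o : Rel p kO _ _ := rel_mul (rel_mul (rel_sub rP rT) h) (rel_mul rR h)
  have u := rel_mul ha ha
  simp only [CA, CR, FA, bind_eq]
  exact rel_sub (rel_mul (rel_mul rB (rel_sub (rq 1857303 _ _ (by norm_num))
      (rel_mul (rq 857303 _ _ (by norm_num)) (rel_mul (rel_mul u u) u))))
    (rel_mul (rel_mul rR j) (rel_sub (rel_sub (rel_mul o (rq _ _ _ (by norm_num)))
      (rq _ _ _ (by norm_num))) (rel_mul (rel_sub (rel_mul o q) (rq _ _ _ (by norm_num)))
      (rel_mul (rel_mul r2 hd) (rel_mul j j))))))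
    (rel_mul rA (rel_add (rel_mul (rel_sub (rel_sub (rel_mul rP q) (rel_mul rT h)) (rel_mul z l))
      (rel_mul (rel_add (rel_inv hd) r1) h)) (rel_mul l (rel_inv (rE ha hb hc)))))

theorem FF_min {P Q u : ℝ} (h1 : 1 ≤ u) (h2 : u ≤ 425 / 256) (k : P - Q ≤ 1 ∧
    P - Q * (17 / 16) ^ 3 ≤ 829 / 1000 ∧ P - Q * (37 / 32) ^ 3 ≤ 1217 / 2000 ∧
    P - Q * (41 / 32) ^ 3 ≤ 757 / 2000 ∧ P - Q * (23 / 16) ^ 3 ≤ 359 / 2000 ∧
    P - Q * (425 / 256) ^ 3 ≤ 59 / 2000) : P - Q * (u * u * u) ≤ FF (4 * u) := by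
  obtain ⟨k0, k1, k2, k3, k4, k5⟩ := k
  have e : u * u * u = (4 * u) ^ 3 / 64 := by ring
  have g0 := cube_le (x := 4) (u := 4 * u) (by linarith)
  rw [e]
  rcases FF_cases (4 * u) with h | ⟨g, h⟩ | ⟨g, h⟩ | ⟨g, h⟩ | ⟨g, h⟩ | g
  · rw [FF1 h, lin]
    nlinarith [mul_nonneg (sub_nonneg.2 k0) (sub_nonneg.2 (cube_le h)),
      mul_nonneg (sub_nonneg.2 k1) (sub_nonneg.2 g0)]
  · rw [FF2 g h, lin]
    nlinarith [mul_nonneg (sub_nonneg.2 k1) (sub_nonneg.2 (cube_le h)),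
      mul_nonneg (sub_nonneg.2 k2) (sub_nonneg.2 (cube_le g.le))]
  · rw [FF3 g h, lin]
    nlinarith [mul_nonneg (sub_nonneg.2 k2) (sub_nonneg.2 (cube_le h)),
      mul_nonneg (sub_nonneg.2 k3) (sub_nonneg.2 (cube_le g.le))]
  · rw [FF4 g h, lin]
    nlinarith [mul_nonneg (sub_nonneg.2 k3) (sub_nonneg.2 (cube_le h)),
      mul_nonneg (sub_nonneg.2 k4) (sub_nonneg.2 (cube_le g.le))]
  · rw [FF5 g h, lin]
    nlinarith [mul_nonneg (sub_nonneg.2 k4) (sub_nonneg.2 (cube_le h)),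
      mul_nonneg (sub_nonneg.2 k5) (sub_nonneg.2 (cube_le g.le))]
  · linarith

theorem pc_min (x : Nat) {u : ℝ} (h1 : 1 ≤ u) (h2 : u ≤ 425 / 256) :
    (pc x).1 / 1000000 - (pc x).2 / 1000000 * (u * u * u) ≤ FF (4 * u) := by
  refine FF_min h1 h2 ?_
  unfold pc
  cases Nat.blt x 1168231104512 <;> cases Nat.blt x 1271310319616 <;>
    cases Nat.blt x 1408749273088 <;> cases Nat.blt x 1580547964928 <;> norm_num

end Pool.Agent.Lib.MP_f3b2fd_co.KN.G3
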