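import Pool.Agent.Lib.MP_f3b2fd_co.KEP.N.VertRun
import Pool.Agent.Lib.MP_f3b2fd_co.KEP.N.Calc
import Pool.Agent.Lib.MP_f3b2fd_co.KEP.N.Tab
import Pool.Agent.Lib.MP_f3b2fd_co.KEP.N.Data

/-! The inequality for 4-cells from the algebraic inequality and the values at the vertices. -/

namespace Pool.Agent.Lib.MP_f3b2fd_co.KS

open Real KA KN KN.AA

/-- weight `w` and constant `κ` are covered by the table at the knot `a`. -/
def Lab (a : ℕ) (w κ : ℝ) : Prop :=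
  (∃ j < 3, 2 ^ 20 * w ≤ ww j a ∧ 2 ^ 44 * (3 / 160 * (π / 2) - κ) ≤ dd j a) ∧
    (a = 0 → w = 4 * m1 / π - 8 * m2 / π ∧ κ = 0) ∧ (a = 7 → w = 4 * m1 / π ∧ κ = 0)

theorem xr0 : xr 0 = 4 := by norm_num [xr, xs]
theorem xr1 : xr 1 = 17 / 4 := by norm_num [xr, xs]
theorem xr2 : xr 2 = 37 / 8 := by norm_num [xr, xs]
theorem xr3 : xr 3 = 41 / 8 := by norm_num [xr, xs]
theorem xr4 : xr 4 = 23 / 4 := by norm_num [xr, xs]
theorem xr5 : xr 5 = 425 / 64 := by norm_num [xr, xs]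
theorem xr6 : xr 6 = 57 / 8 := by norm_num [xr, xs]
theorem xr7 : xr 7 = 8 := by norm_num [xr, xs]

theorem lab (a j : ℕ) (w κ : ℝ) (hj : j < 3) (h0 : a ≠ 0) (h7 : a ≠ 7) (h1 : 2 ^ 20 * w ≤ ww j a)
    (h2 : 2 ^ 44 * (3 / 160 * (π / 2) - κ) ≤ dd j a) : Lab a w κ :=
  ⟨⟨j, hj, h1, h2⟩, fun h => absurd h h0, fun h => absurd h h7⟩

/-- the branch through a point. -/
def Bra (x θ : ℝ) : Prop := ∃ (t : ℕ) (p q κ : ℝ), t < 7 ∧ xr t ≤ x ∧ x ≤ xr (t + 1) ∧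
  (∀ s, xr t ≤ s → s ≤ xr (t + 1) → B0 s (p + q * s ^ 3) (3 * q * s ^ 2)) ∧
  κ - (p + q * x ^ 3) * θ = PP m2 4 x θ - 4 * m1 / π * θ ∧
  Lab t (p + q * xr t ^ 3) κ ∧ Lab (t + 1) (p + q * xr (t + 1) ^ 3) κ

theorem bra_lin (x θ : ℝ) (t : ℕ) (l u a b : ℝ) (B : Bn) (ht : t < 7) (hl : xr t = l)
    (hu : xr (t + 1) = u) (h1 : l ≤ x) (h2 : x ≤ u) (h3 : x ≤ 425 / 64)
    (hF : FF x = KN.lin l u a b x)
    (hB : B ∈ brs) (b1 : (B.l : ℝ) ≤ 128 * l) (b2 : 128 * u ≤ B.u) (ne : u ^ 3 - l ^ 3 ≠ 0)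
    (b3 : (B.pl : ℝ) ≤
      10 ^ 9 * (4 * m1 / π - 8 * m2 / π * (a - (b - a) / (u ^ 3 - l ^ 3) * l ^ 3)))
    (b4 : 10 ^ 9 * (4 * m1 / π - 8 * m2 / π * (a - (b - a) / (u ^ 3 - l ^ 3) * l ^ 3)) ≤ B.ph)
    (b5 : (B.ql : ℝ) ≤ 10 ^ 9 * (-(8 * m2 / π) * ((b - a) / (u ^ 3 - l ^ 3))))
    (b6 : 10 ^ 9 * (-(8 * m2 / π) * ((b - a) / (u ^ 3 - l ^ 3))) ≤ B.qh)
    (l1 : Lab t (4 * m1 / π - 8 * m2 / π * a) 0)
    (l2 : Lab (t + 1) (4 * m1 / π - 8 * m2 / π * b) 0) : Bra x θ := by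
  refine ⟨t, 4 * m1 / π - 8 * m2 / π * (a - (b - a) / (u ^ 3 - l ^ 3) * l ^ 3),
    -(8 * m2 / π) * ((b - a) / (u ^ 3 - l ^ 3)), 0, ht, hl ▸ h1, hu ▸ h2, fun s s1 s2 =>
      ⟨B, hB, _, _, by linarith, by linarith, b3, b4, b5, b6, rfl, rfl⟩, ?_, ?_, ?_⟩
  · rw [PP, if_neg fun h => by linarith [h.1], hF, KN.lin]
    ring
  · convert l1 using 1
    rw [hl]
    ring
  · convert l2 using 1
    rw [hu]
    field_simp
    ring

theorem bra_cst (x θ : ℝ) (t : ℕ) (p κ : ℝ) (B : Bn) (ht : t < 7) (h1 : xr t ≤ x)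
    (h2 : x ≤ xr (t + 1)) (hB : B ∈ brs) (b1 : (B.l : ℝ) ≤ 128 * xr t) (b2 : 128 * xr (t + 1) ≤ B.u)
    (b3 : (B.pl : ℝ) ≤ 10 ^ 9 * p) (b4 : 10 ^ 9 * p ≤ B.ph) (b5 : B.ql = 0)
    (e : κ - p * θ = PP m2 4 x θ - 4 * m1 / π * θ) (l1 : Lab t p κ) (l2 : Lab (t + 1) p κ) :
    Bra x θ :=
  ⟨t, p, 0, κ, ht, h1, h2, fun s s1 s2 => ⟨B, hB, p, 0, by linarith, by linarith, b3, b4,
    by simp [b5], by simp, rfl, rfl⟩, by simpa using e, by simpa using l1, by simpa using l2⟩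

theorem bra (x θ : ℝ) (h4 : 4 ≤ x) (h8 : x ≤ 8) : Bra x θ := by
  have a1 := ca_lo
  have a2 := ca_hi
  have c1 := cb_lo
  have c2 := cb_hi
  have p1 := pi_gt_d20
  have p2 := pi_lt_d20
  have k1 : Lab 1 (4 * m1 / π - 8 * m2 / π * (829 / 1000)) 0 :=
    lab 1 0 _ _ (by norm_num) (by norm_num) (by norm_num) (by norm_num [ww]; linarith)
      (by norm_num [dd]; linarith)
  have k2 : Lab 2 (4 * m1 / π - 8 * m2 / π * (1217 / 2000)) 0 :=
    lab 2 0 _ _ (by norm_num) (by norm_num) (by norm_num) (by norm_num [ww]; linarith)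
      (by norm_num [dd]; linarith)
  have k3 : Lab 3 (4 * m1 / π - 8 * m2 / π * (757 / 2000)) 0 :=
    lab 3 0 _ _ (by norm_num) (by norm_num) (by norm_num) (by norm_num [ww]; linarith)
      (by norm_num [dd]; linarith)
  have k4 : Lab 4 (4 * m1 / π - 8 * m2 / π * (359 / 2000)) 0 :=
    lab 4 0 _ _ (by norm_num) (by norm_num) (by norm_num) (by norm_num [ww]; linarith)
      (by norm_num [dd]; linarith)
  have k5 : Lab 5 (4 * m1 / π - 8 * m2 / π * (59 / 2000)) 0 :=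
    lab 5 0 _ _ (by norm_num) (by norm_num) (by norm_num) (by norm_num [ww]; linarith)
      (by norm_num [dd]; linarith)
  rcases FF_cases x with h | ⟨g, h⟩ | ⟨g, h⟩ | ⟨g, h⟩ | ⟨g, h⟩ | g
  · exact bra_lin x θ 0 _ _ _ _ ⟨512, 544, 1168421398, 1168421401, 866912, 866915⟩ (by norm_num)
      xr0 xr1 h4 h (by linarith) (FF1 h) (by simp [brs]) (by norm_num) (by norm_num) (by norm_num)
      (by norm_num; linarith) (by norm_num; linarith) (by norm_num; linarith)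
      (by norm_num; linarith) ⟨⟨0, by norm_num, by norm_num [ww]; linarith,
        by norm_num [dd]; linarith⟩, fun _ => ⟨by ring, rfl⟩, fun h => by omega⟩ k1
  · exact bra_lin x θ 1 _ _ _ _ ⟨544, 592, 1185549790, 1185549793, 643786, 643789⟩ (by norm_num)
      xr1 xr2 g.le h (by linarith) (FF2 g h) (by simp [brs]) (by norm_num) (by norm_num)
      (by norm_num) (by norm_num; linarith) (by norm_num; linarith) (by norm_num; linarith)
      (by norm_num; linarith) k1 k2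
  · exact bra_lin x θ 2 _ _ _ _ ⟨592, 656, 1207967988, 1207967991, 417183, 417186⟩ (by norm_num)
      xr2 xr3 g.le h (by linarith) (FF3 g h) (by simp [brs]) (by norm_num) (by norm_num)
      (by norm_num) (by norm_num; linarith) (by norm_num; linarith) (by norm_num; linarith)
      (by norm_num; linarith) k2 k3
  · exact bra_lin x θ 3 _ _ _ _ ⟨656, 736, 1232888123, 1232888126, 232057, 232060⟩ (by norm_num)
      xr3 xr4 g.le h (by linarith) (FF4 g h) (by simp [brs]) (by norm_num) (by norm_num)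
      (by norm_num) (by norm_num; linarith) (by norm_num; linarith) (by norm_num; linarith)
      (by norm_num; linarith) k3 k4
  · exact bra_lin x θ 4 _ _ _ _ ⟨736, 850, 1259039610, 1259039613, 94497, 94500⟩ (by norm_num)
      xr4 xr5 g.le h h (FF5 g h) (by simp [brs]) (by norm_num) (by norm_num)
      (by norm_num) (by norm_num; linarith) (by norm_num; linarith) (by norm_num; linarith)
      (by norm_num; linarith) k4 k5
  rcases le_or_gt x (57 / 8) with h | h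
  · have e : PP m2 4 x θ = min (3 / 160 * (π / 2 - θ)) (13 / 800 * (θ - 2 * π / 5)) := by
      rw [PP, if_pos ⟨g, h⟩, FF6 g, cr, if_pos rfl]
      ring
    rcases le_total (3 / 160 * (π / 2 - θ)) (13 / 800 * (θ - 2 * π / 5)) with m | m
    · exact bra_cst x θ 5 (4 * m1 / π + 3 / 160) (3 / 160 * (π / 2))
        ⟨850, 912, 1272371383, 1307371386, 0, 0⟩ (by norm_num) (xr5 ▸ g.le) (xr6 ▸ h)
        (by simp [brs]) (by norm_num [xr5]) (by norm_num [xr6]) (by norm_num; linarith)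
        (by norm_num; linarith) rfl (by rw [e, min_eq_left m]; ring)
        (lab 5 1 _ _ (by norm_num) (by norm_num) (by norm_num) (by norm_num [ww]; linarith)
          (by norm_num [dd]))
        (lab 6 1 _ _ (by norm_num) (by norm_num) (by norm_num) (by norm_num [ww]; linarith)
          (by norm_num [dd]))
    · exact bra_cst x θ 5 (4 * m1 / π - 13 / 800) (-(13 / 800 * (2 * π / 5)))
        ⟨850, 912, 1272371383, 1307371386, 0, 0⟩ (by norm_num) (xr5 ▸ g.le) (xr6 ▸ h)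
        (by simp [brs]) (by norm_num [xr5]) (by norm_num [xr6]) (by norm_num; linarith)
        (by norm_num; linarith) rfl (by rw [e, min_eq_right m]; ring)
        (lab 5 2 _ _ (by norm_num) (by norm_num) (by norm_num) (by norm_num [ww]; linarith)
          (by norm_num [dd]; linarith))
        (lab 6 2 _ _ (by norm_num) (by norm_num) (by norm_num) (by norm_num [ww]; linarith)
          (by norm_num [dd]; linarith))
  · exact bra_cst x θ 6 (4 * m1 / π) 0 ⟨912, 1024, 1288621383, 1288621386, 0, 0⟩ (by norm_num)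
      (xr6 ▸ h.le) (xr7 ▸ h8) (by simp [brs]) (by norm_num [xr6]) (by norm_num [xr7])
      (by norm_num; linarith) (by norm_num; linarith) rfl
      (by rw [PP, if_neg fun q => by linarith [q.2], FF6 g]; ring)
      (lab 6 0 _ _ (by norm_num) (by norm_num) (by norm_num) (by norm_num [ww]; linarith)
        (by norm_num [dd]; linarith))
      ⟨⟨0, by norm_num, by norm_num [ww]; linarith, by norm_num [dd]; linarith⟩,
        fun h => by omega, fun _ => ⟨rfl, rfl⟩⟩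

theorem c0 : dic 4 4 4 4 4 4 = th0 := by
  rw [dicS _ _ _ _ _ _ (by norm_num) (by norm_num [del]), dih_tet]
theorem c1 : dic 8 4 4 4 4 4 = π / 2 := by
  rw [dicS _ _ _ _ _ _ (by norm_num) (by norm_num [del]), dih_q1]
theorem c2 : dic 4 8 4 4 4 4 = (π - th0) / 2 := by
  rw [dicS _ _ _ _ _ _ (by norm_num) (by norm_num [del]), dih_q2]
theorem c3 : dic 4 4 8 4 4 4 = (π - th0) / 2 := by
  rw [dicS _ _ _ _ _ _ (by norm_num) (by norm_num [del]), dih_q3]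
theorem c4 : dic 4 4 4 8 4 4 = π - th0 := by
  rw [dicS _ _ _ _ _ _ (by norm_num) (by norm_num [del]), dih_q4]
theorem c5 : dic 4 4 4 4 8 4 = (π - th0) / 2 := by
  rw [dicS _ _ _ _ _ _ (by norm_num) (by norm_num [del]), dih_q5]
theorem c6 : dic 4 4 4 4 4 8 = (π - th0) / 2 := by
  rw [dicS _ _ _ _ _ _ (by norm_num) (by norm_num [del]), dih_q6]
theorem s64 : √(64 * 64) = (64 : ℝ) := Real.sqrt_mul_self (by norm_num)
theorem c14 : dic 8 4 4 8 4 4 = π := by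
  rw [dic, show uu 8 4 4 = 64 by norm_num [uu], s64, ← arccos_neg_one]
  norm_num [del4]
theorem c25 : dic 4 8 4 4 8 4 = 0 := by
  rw [dic, show uu 4 8 4 = 64 by norm_num [uu], show uu 4 4 8 = 64 by norm_num [uu], s64,
    ← arccos_one]
  norm_num [del4]
theorem c36 : dic 4 4 8 4 4 8 = 0 := by
  rw [dic, show uu 4 8 4 = 64 by norm_num [uu], show uu 4 4 8 = 64 by norm_num [uu], s64,
    ← arccos_one]
  norm_num [del4]

theorem del_f : del 8 4 4 8 4 4 = 0 ∧ del 4 8 4 4 8 4 = 0 ∧ del 4 4 8 4 4 8 = 0 := by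
  norm_num [del]

theorem tb3 : ∀ t < 8, (i07 t = 0 ∧ 256 < xs t ∧ xs t < 512) ∨ t = 0 ∨ t = 7 := by decide

theorem inside {t : ℕ} (h : 256 < xs t ∧ xs t < 512) : 4 < xr t ∧ xr t < 8 := by
  have h1 : (256 : ℝ) < xs t := by exact_mod_cast h.1
  have h2 : (xs t : ℝ) < 512 := by exact_mod_cast h.2
  unfold xr
  constructor <;> linarith

theorem term {a : ℕ} {w κ : ℝ} (h : Lab a w κ) : ∃ j < 3, ∀ θ, 0 ≤ θ →
    2 ^ 44 * (w * θ + 3 / 160 * (π / 2) - κ) ≤ 2 ^ 24 * θ * ww j a + dd j a := by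
  obtain ⟨⟨j, hj, h1, h2⟩, -⟩ := h
  refine ⟨j, hj, fun θ h0 => ?_⟩
  have := mul_le_mul_of_nonneg_left h1 h0
  linarith

theorem vert (a : Fin 6 → ℕ) (w κ : Fin 6 → ℝ) (ha : ∀ e, a e < 8)
    (hl : ∀ e, Lab (a e) (w e) (κ e)) (f1 : i7 (a 0) + i7 (a 1) + i7 (a 5) < 2)
    (f2 : i7 (a 0) + i7 (a 2) + i7 (a 4) < 2) (f3 : i7 (a 1) + i7 (a 2) + i7 (a 3) < 2)
    (f4 : i7 (a 3) + i7 (a 4) + i7 (a 5) < 2) :
    0 ≤ br (8 * m1 + (κ 0 + κ 1 + κ 2 + κ 3 + κ 4 + κ 5)) w fun e => xr (a e) := by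
  by_cases hc : ∀ e, a e = 0 ∨ a e = 7
  · have z1 := zero_tet
    have z2 := zero_oct
    have z3 : 4 * m1 / π * π = 4 * m1 := div_mul_cancel₀ _ pi_pos.ne'
    have k : ∀ e, (a e = 0 ∧ w e = 4 * m1 / π - 8 * m2 / π ∧ κ e = 0) ∨
        (a e = 7 ∧ w e = 4 * m1 / π ∧ κ e = 0) := fun e =>
      (hc e).imp (fun h => ⟨h, (hl e).2.1 h⟩) fun h => ⟨h, (hl e).2.2 h⟩
    have i0 : i7 0 = 0 := rfl
    have i1 : i7 7 = 1 := rfl
    unfold br
    rcases k 0 with ⟨x0, y0, k0⟩ | ⟨x0, y0, k0⟩ <;> rcases k 1 with ⟨x1, y1, k1⟩ | ⟨x1, y1, k1⟩ <;>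
      rcases k 2 with ⟨x2, y2, k2⟩ | ⟨x2, y2, k2⟩ <;>
      rcases k 3 with ⟨x3, y3, k3⟩ | ⟨x3, y3, k3⟩ <;>
      rcases k 4 with ⟨x4, y4, k4⟩ | ⟨x4, y4, k4⟩ <;>
      rcases k 5 with ⟨x5, y5, k5⟩ | ⟨x5, y5, k5⟩ <;>
      simp only [x0, x1, x2, x3, x4, x5, i0, i1] at f1 f2 f3 f4 <;>
      first
        | omega
        | simp only [x0, x1, x2, x3, x4, x5, y0, y1, y2, y3, y4, y5, k0, k1, k2, k3, k4, k5, xr0,
            xr7, c0, c1, c2, c3, c4, c5, c6, c14, c25, c36, del_tet, del_q, del_f, sqrt128,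
            Real.sqrt_zero]
          linarith
  have m := fun e => xr_mem (ha e)
  have d0 : 0 < del (xr (a 0)) (xr (a 1)) (xr (a 2)) (xr (a 3)) (xr (a 4)) (xr (a 5)) := by
    obtain ⟨e, he⟩ := not_forall.1 hc
    have := inside ((tb3 _ (ha e)).resolve_right he).2
    refine del_pos (m 0) (m 1) (m 2) (m 3) (m 4) (m 5) ?_
    fin_cases e <;> simp only [Fin.zero_eta, Fin.mk_one, Fin.reduceFinMk] at this <;> tauto
  rcases tab_all _ _ _ _ _ _ (ha 0) (ha 1) (ha 2) (ha 3) (ha 4) (ha 5) with h | h | h | h | h | h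
  · obtain ⟨e, he⟩ := not_forall.1 hc
    have := ((tb3 _ (ha e)).resolve_right he).1
    have b := fun e => (tb1 _ (ha e)).2.2.2.2.2.2.2
    have := b 0; have := b 1; have := b 2; have := b 3; have := b 4; have := b 5
    fin_cases e <;> simp only [Fin.zero_eta, Fin.mk_one, Fin.reduceFinMk] at * <;> omega
  · omega
  · omega
  · omega
  · omega
  obtain ⟨j0, r0, t0⟩ := term (hl 0)
  obtain ⟨j1, r1, t1⟩ := term (hl 1)
  obtain ⟨j2, r2, t2⟩ := term (hl 2)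
  obtain ⟨j3, r3, t3⟩ := term (hl 3)
  obtain ⟨j4, r4, t4⟩ := term (hl 4)
  obtain ⟨j5, r5, t5⟩ := term (hl 5)
  have H := h d0 j0 r0 j1 r1 j2 r2 j3 r3 j4 r4 j5 r5
  have p : ∀ e, 0 < xr (a e) := fun e => by linarith [(m e).1]
  unfold tm at H
  rw [← dicS _ _ _ _ _ _ (p 0) d0, ← dicS _ _ _ _ _ _ (p 1) (d0.trans_eq (by unfold del; ring)),
    ← dicS _ _ _ _ _ _ (p 2) (d0.trans_eq (by unfold del; ring)),
    ← dicS _ _ _ _ _ _ (p 3) (d0.trans_eq (by unfold del; ring)),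
    ← dicS _ _ _ _ _ _ (p 4) (d0.trans_eq (by unfold del; ring)),
    ← dicS _ _ _ _ _ _ (p 5) (d0.trans_eq (by unfold del; ring))] at H
  unfold br
  linarith [t0 _ (dic_nonneg (xr (a 0)) (xr (a 1)) (xr (a 2)) (xr (a 3)) (xr (a 4)) (xr (a 5))),
    t1 _ (dic_nonneg (xr (a 1)) (xr (a 0)) (xr (a 2)) (xr (a 4)) (xr (a 3)) (xr (a 5))),
    t2 _ (dic_nonneg (xr (a 2)) (xr (a 0)) (xr (a 1)) (xr (a 5)) (xr (a 3)) (xr (a 4))),
    t3 _ (dic_nonneg (xr (a 3)) (xr (a 1)) (xr (a 5)) (xr (a 0)) (xr (a 4)) (xr (a 2))),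
    t4 _ (dic_nonneg (xr (a 4)) (xr (a 0)) (xr (a 5)) (xr (a 1)) (xr (a 3)) (xr (a 2))),
    t5 _ (dic_nonneg (xr (a 5)) (xr (a 0)) (xr (a 4)) (xr (a 2)) (xr (a 3)) (xr (a 1))),
    m1_lo, pi_gt_d20]

theorem tb4 : ∀ t < 8, i7 t = 0 ∨ t = 7 ∧ i7 t = 1 := by decide

theorem g4p (hQ : QS B0) : G4p m1 (PP m2) := by
  intro x1 x2 x3 x4 x5 x6 a1 a2 a3 a4 a5 a6 b1 b2 b3 b4 b5 b6 f1 f2 f3 f4 d0 _
  set x : Fin 6 → ℝ := ![x1, x2, x3, x4, x5, x6] with hx
  set θ : Fin 6 → ℝ := ![dih x1 x2 x3 x4 x5 x6, dih x2 x1 x3 x5 x4 x6, dih x3 x1 x2 x6 x4 x5,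
    dih x4 x2 x6 x1 x5 x3, dih x5 x1 x6 x2 x4 x3, dih x6 x1 x5 x3 x4 x2] with hθ
  have hm : ∀ e, 4 ≤ x e ∧ x e ≤ 8 := fun e => by
    fin_cases e <;> exact ⟨by assumption, le_of_lt (by assumption)⟩
  choose t p q κ h7 hl hu hB he l1 l2 using fun e => bra (x e) (θ e) (hm e).1 (hm e).2
  have H := calcS B0 hQ (8 * m1 + (κ 0 + κ 1 + κ 2 + κ 3 + κ 4 + κ 5)) (fun e => xr (t e))
    (fun e => xr (t e + 1)) p q
    (fun e => ⟨(xr_mem (by have := h7 e; omega)).1, (xr_mem (by have := h7 e; omega)).2, hB e⟩)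
    (fun v hv => by
      choose a ha hv using fun e => (show ∃ a, (a = t e ∨ a = t e + 1) ∧ v e = xr a from
        (hv e).elim (fun h => ⟨_, .inl rfl, h⟩) fun h => ⟨_, .inr rfl, h⟩)
      obtain rfl : v = fun e => xr (a e) := funext hv
      have a8 : ∀ e, a e < 8 := fun e => by have := h7 e; have := ha e; omega
      have k : ∀ e, 4 + 25 / 8 * (i7 (a e) : ℝ) ≤ x e := fun e => by
        rcases tb4 _ (a8 e) with h | ⟨h, g⟩
        · rw [h]; simpa using (hm e).1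
        · have := hl e
          rw [show t e = 6 by have := h7 e; have := ha e; omega, xr6] at this
          rw [g]; norm_num; linarith
      have fc : ∀ e f g, x e + x f + x g < 18 → i7 (a e) + i7 (a f) + i7 (a g) < 2 :=
        fun e f g h => by
          have : (i7 (a e) : ℝ) + i7 (a f) + i7 (a g) < 2 := by linarith [k e, k f, k g]
          exact_mod_cast this
      exact vert a (fun e => p e + q e * xr (a e) ^ 3) κ a8
        (fun e => (ha e).elim (fun h => by rw [h]; exact l1 e) fun h => by rw [h]; exact l2 e)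
        (fc 0 1 5 f1) (fc 0 2 4 f2) (fc 1 2 3 f3) (fc 3 4 5 f4))
    x fun e => ⟨hl e, hu e⟩
  have e0 := he 0
  have e1 := he 1
  have e2 := he 2
  have e3 := he 3
  have e4 := he 4
  have e5 := he 5
  unfold br at H
  simp only [hx, hθ, Matrix.cons_val] at H e0 e1 e2 e3 e4 e5
  rw [dicS x1 _ _ _ _ _ (by linarith) d0,
    dicS x2 _ _ _ _ _ (by linarith) (d0.trans_eq (by unfold del; ring)),
    dicS x3 _ _ _ _ _ (by linarith) (d0.trans_eq (by unfold del; ring)),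
    dicS x4 _ _ _ _ _ (by linarith) (d0.trans_eq (by unfold del; ring)),
    dicS x5 _ _ _ _ _ (by linarith) (d0.trans_eq (by unfold del; ring)),
    dicS x6 _ _ _ _ _ (by linarith) (d0.trans_eq (by unfold del; ring))] at H
  linarith

end Pool.Agent.Lib.MP_f3b2fd_co.KS
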