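import Pool.Agent.Lib.MP_f3b2fd_co.KEP.N.Tab

/-! The checker of the algebraic inequality: cells and the search tree. -/

namespace Pool.Agent.Lib.MP_f3b2fd_co.KN.AA

noncomputable section

def leaf (X1 X2 X3 X4 X5 X6 Y1 Y2 Y3 Y4 Y5 Y6 C1 C2 C3 C4 C5 C6 D RR : G) : Bool :=
  nm (Nat.add (Nat.add X2.n X3.n) (ng X4.n)) 0 fun g1 =>
  nm (Nat.add (Nat.mul 4 (mN X2 X3)) (ng (sN g1))) (Nat.add (Nat.mul 4 (m0 X2 X3)) (sE g1)) fun ua =>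
  rcp ua 17179869184 67108864 72057594037927936 fun ia =>
  nm (Nat.add (Nat.add X5.n X6.n) (ng X4.n)) 0 fun g3 =>
  nm (Nat.add (Nat.mul 4 (mN X5 X6)) (ng (sN g3))) (Nat.add (Nat.mul 4 (m0 X5 X6)) (sE g3)) fun ub =>
  rcp ub 17179869184 67108864 72057594037927936 fun ib =>
  rcp Y4 1073741824 524288 70368744177664 fun iy =>
  nm (mN C4 iy) (mE C4 iy) fun ka =>
  nm (Nat.add (Nat.mul 1237940039285380274899124224 D.n) (ng (mN ka iy))) (Nat.add (Nat.mul 1237940039285380274899124224 D.e) (mE ka iy)) fun g6 =>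
  nm (mN iy g6) (mE iy g6) fun et =>
  nm (Nat.add X1.n (ng X5.n)) 0 fun g8 =>
  nm (Nat.add X4.n (ng X2.n)) 0 fun g9 =>
  nm (Nat.add (Nat.add (Nat.add X1.n X2.n) (Nat.add X4.n X5.n)) (ng (Nat.add X3.n (Nat.mul 2 X6.n)))) 0 fun g10 =>
  nm (Nat.add (mN g8 g9) (mN X3 g10)) (Nat.add (m0 g8 g9) (m0 X3 g10)) fun d6 =>
  nm (Nat.add X3.n (ng X4.n)) 0 fun g12 =>
  nm (Nat.add X6.n (ng X1.n)) 0 fun g13 =>
  nm (Nat.add (Nat.add (Nat.add X3.n X1.n) (Nat.add X6.n X4.n)) (ng (Nat.add X2.n (Nat.mul 2 X5.n)))) 0 fun g14 =>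
  nm (Nat.add (mN g12 g13) (mN X2 g14)) (Nat.add (m0 g12 g13) (m0 X2 g14)) fun d5 =>
  nm (Nat.add (Nat.mul 34359738368 (mN C2 Y2)) (ng (mN ka X2))) (Nat.add (Nat.mul 34359738368 (mE C2 Y2)) (mE ka X2)) fun w2 =>
  nm (Nat.add (Nat.mul 34359738368 (mN C3 Y3)) (ng (mN ka X3))) (Nat.add (Nat.mul 34359738368 (mE C3 Y3)) (mE ka X3)) fun w3 =>
  nm (Nat.add (mN w2 d6) (mN w3 d5)) (Nat.add (mE w2 d6) (mE w3 d5)) fun g18 =>
  nm (mN ia g18) (mE ia g18) fun pa =>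
  nm (Nat.add (mN X2 d6) (mN X3 d5)) (Nat.add (mE X2 d6) (mE X3 d5)) fun g20 =>
  nm (Nat.add (Nat.add X2.n X3.n) (ng X4.n)) 0 fun g21 =>
  nm (mN ia g21) (mE ia g21) fun g22 =>
  nm (mN w2 d5) (mE w2 d5) fun g23 =>
  nm (mN w3 d6) (mE w3 d6) fun g24 =>
  nm (Nat.add X3.n (ng X1.n)) 0 fun g25 =>
  nm (Nat.add X6.n (ng X4.n)) 0 fun g26 =>
  nm (Nat.add (Nat.add (Nat.add X3.n X4.n) (Nat.add X6.n X1.n)) (ng (Nat.add X5.n (Nat.mul 2 X2.n)))) 0 fun g27 =>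
  nm (Nat.add (mN g25 g26) (mN X5 g27)) (Nat.add (m0 g25 g26) (m0 X5 g27)) fun d2 =>
  nm (Nat.add X1.n (ng X2.n)) 0 fun g29 =>
  nm (Nat.add X4.n (ng X5.n)) 0 fun g30 =>
  nm (Nat.add (Nat.add (Nat.add X1.n X5.n) (Nat.add X4.n X2.n)) (ng (Nat.add X6.n (Nat.mul 2 X3.n)))) 0 fun g31 =>
  nm (Nat.add (mN g29 g30) (mN X6 g31)) (Nat.add (m0 g29 g30) (m0 X6 g31)) fun d3 =>
  nm (Nat.add (Nat.mul 34359738368 (mN C5 Y5)) (ng (mN ka X5))) (Nat.add (Nat.mul 34359738368 (mE C5 Y5)) (mE ka X5)) fun w5 =>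
  nm (Nat.add (Nat.mul 34359738368 (mN C6 Y6)) (ng (mN ka X6))) (Nat.add (Nat.mul 34359738368 (mE C6 Y6)) (mE ka X6)) fun w6 =>
  nm (Nat.add (mN w6 d2) (mN w5 d3)) (Nat.add (mE w6 d2) (mE w5 d3)) fun g35 =>
  nm (mN ib g35) (mE ib g35) fun pb =>
  nm (Nat.add (mN X6 d2) (mN X5 d3)) (Nat.add (mE X6 d2) (mE X5 d3)) fun g37 =>
  nm (Nat.add (Nat.add X5.n X6.n) (ng X4.n)) 0 fun g38 =>
  nm (mN ib g38) (mE ib g38) fun g39 =>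
  nm (mN w6 d3) (mE w6 d3) fun g40 =>
  nm (mN w5 d2) (mE w5 d2) fun g41 =>
  nm (Nat.add (mN ia g23) (mN ib g40)) (Nat.add (mE ia g23) (mE ib g40)) fun g42 =>
  nm (Nat.add (mN ia g24) (mN ib g41)) (Nat.add (mE ia g24) (mE ib g41)) fun g43 =>
  nm (Nat.add (Nat.mul 295147905179352825856 X1.n) (ng (Nat.add (mN ia g20) (mN ib g37)))) (Nat.add (mE ia g20) (mE ib g37)) fun g44 =>
  nm (Nat.add X2.n (ng X6.n)) 0 fun g45 =>
  nm (Nat.add X5.n (ng X3.n)) 0 fun g46 =>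
  nm (Nat.add (Nat.add (Nat.add X2.n X3.n) (Nat.add X5.n X6.n)) (ng (Nat.add X1.n (Nat.mul 2 X4.n)))) 0 fun g47 =>
  nm (Nat.add (mN g45 g46) (mN X1 g47)) (Nat.add (m0 g45 g46) (m0 X1 g47)) fun d4 =>
  nm (Nat.add (Nat.mul 34359738368 (mN C1 Y1)) (ng (mN ka X1))) (Nat.add (Nat.mul 34359738368 (mE C1 Y1)) (mE ka X1)) fun w1 =>
  nm (Nat.add (Nat.mul 2658455991569831745807614120560689152 d4.n) (Nat.mul 24 (Nat.add (Nat.add pa.n pb.n) (ng (Nat.mul 295147905179352825856 w1.n))))) (Nat.add (Nat.mul 2658455991569831745807614120560689152 d4.e) (Nat.mul 24 (Nat.add (Nat.add pa.e pb.e) (Nat.mul 295147905179352825856 w1.e)))) fun g50 =>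
  nm (Nat.add (Nat.mul 24 (mN et g44)) (ng (Nat.add (Nat.mul 38685626227668133590597632 (mN RR g50)) (Nat.mul 12884901888 (Nat.add (mN g22 pa) (mN g39 pb)))))) (Nat.add (Nat.mul 24 (mE et g44)) (Nat.add (Nat.mul 38685626227668133590597632 (mE RR g50)) (Nat.mul 12884901888 (Nat.add (mE g22 pa) (mE g39 pb))))) fun g51 =>
  nm (Nat.add d4.n (mN X1 X4)) (Nat.add d4.e (m0 X1 X4)) fun g52 =>
  nm (Nat.add X2.n (ng X3.n)) 0 fun g53 =>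
  nm (Nat.add X5.n (ng X6.n)) 0 fun g54 =>
  nm (mN g53 g54) (m0 g53 g54) fun g55 =>
  nm (Nat.add (Nat.add X2.n X5.n) (ng (Nat.add X3.n X6.n))) 0 fun g56 =>
  nm (Nat.add (mN X2 X5) (ng (mN X3 X6))) (Nat.add (m0 X2 X5) (m0 X3 X6)) fun g57 =>
  nm (Nat.add (Nat.add (mN X4 g52) (mN X1 g55)) (ng (mN g56 g57))) (Nat.add (Nat.add (mE X4 g52) (mE X1 g55)) (mE g56 g57)) fun dl =>
  nm (Nat.add (Nat.add X2.n X6.n) (ng X1.n)) 0 fun g59 =>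
  nm (Nat.add (Nat.mul 4 (mN X2 X6)) (ng (sN g59))) (Nat.add (Nat.mul 4 (m0 X2 X6)) (sE g59)) fun u1 =>
  nm (Nat.add (Nat.add X3.n X5.n) (ng X1.n)) 0 fun g61 =>
  nm (Nat.add (Nat.mul 4 (mN X3 X5)) (ng (sN g61))) (Nat.add (Nat.mul 4 (m0 X3 X5)) (sE g61)) fun u2 =>
  nm (Nat.add (mN dl g51) (Nat.add (Nat.mul 950737950171172051122527404032 (Nat.add (Nat.add (mN u2 g42) (mN u1 g43)) (Nat.mul 295147905179352825856 (mN w1 d4)))) (ng (Nat.mul 105312291668557186697918027683670432318895095400549111254310977536 (mN u1 u2))))) (Nat.add (mE dl g51) (Nat.add (Nat.mul 950737950171172051122527404032 (Nat.add (Nat.add (mE u2 g42) (mE u1 g43)) (Nat.mul 295147905179352825856 (mE w1 d4)))) (Nat.mul 105312291668557186697918027683670432318895095400549111254310977536 (mE u1 u2)))) fun fin =>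
  neg fin

def cP (i : ℕ) : ℕ := Nat.pow cB i
def cP1 : ℕ := cP 1
def cP2 : ℕ := cP 2
def cP3 : ℕ := cP 3
def cP4 : ℕ := cP 4
def cP5 : ℕ := cP 5
def cP6 : ℕ := cP 6
def cR : ℕ := Nat.sub cM 16

/-- the forms of a coordinate, its root and its weight. -/
def co (T C P : ℕ) (k : ℕ → G → G → G → Bool) : Bool :=
  fc (ent T C) fun E => var P C (fld E 0) 0 fun X => var P (fld E 1) (fld E 2) (fld E 3) fun Y =>
    var P (fld E 4) (fld E 5) (fld E 6) fun W => k E X Y W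

def cell (T C1 C2 C3 C4 C5 C6 r : ℕ) : Bool :=
  co T C1 cP1 fun _ X1 Y1 W1 => co T C2 cP2 fun _ X2 Y2 W2 => co T C3 cP3 fun _ X3 Y3 W3 =>
  co T C5 cP5 fun _ X5 Y5 W5 => co T C6 cP6 fun _ X6 Y6 W6 => co T C4 cP4 fun E X4 Y4 W4 =>
  an (Nat.ble (Nat.mul r (Nat.add C4 X4.R)) (Nat.add (Nat.mul 16 (Nat.add C4 X4.R)) 4096))
    (var cP4 (fld E 7) (fld E 8) (fld E 9) fun D => nm (Nat.add r cR) 0 fun RR =>
      leaf X1 X2 X3 X4 X5 X6 Y1 Y2 Y3 Y4 Y5 Y6 W1 W2 W3 W4 W5 W6 D RR)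

def fn (v : ℕ) (k : ℕ → ℕ) : ℕ :=
  Nat.rec (motive := fun _ => ℕ) 0 (fun m _ => k m) (Nat.add v 1)

def cd (b : Bool) (x y : ℕ) : ℕ := Bool.rec y x b

/-- bisection of one coordinate. -/
def sp (T C s : ℕ) (k : ℕ → ℕ → ℕ) : ℕ :=
  fn (rh T C) fun ρ => cd (Nat.blt 1 ρ)
    (fn (Nat.div ρ 2) fun h => fn (Nat.sub C h) fun A => fn (Nat.add C h) fun B =>
      fn (k A s) fun s' => k B s') 0

def lt (T C D : ℕ) : Bool := Nat.ble (Nat.add (Nat.add C (rh T C)) (rh T D)) D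

/-- the search tree is read from `s`; the result is the rest of `s`, or `0`. -/
def bb (T n : ℕ) : ℕ → ℕ → ℕ → ℕ → ℕ → ℕ → ℕ → ℕ :=
  Nat.rec (motive := fun _ => ℕ → ℕ → ℕ → ℕ → ℕ → ℕ → ℕ → ℕ) (fun _ _ _ _ _ _ _ => 0)
    (fun _ ih C1 C2 C3 C4 C5 C6 s => fn (Nat.land s 63) fun g => fn (Nat.shiftRight s 6) fun s' =>
      cd (Nat.ble 8 g) (cd (cell T C1 C2 C3 C4 C5 C6 (Nat.sub g 8)) s' 0)
      (cd (Nat.beq g 1) (sp T C1 s' fun C => ih C C2 C3 C4 C5 C6)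
      (cd (Nat.beq g 2) (sp T C2 s' fun C => ih C1 C C3 C4 C5 C6)
      (cd (Nat.beq g 3) (sp T C3 s' fun C => ih C1 C2 C C4 C5 C6)
      (cd (Nat.beq g 4) (sp T C4 s' fun C => ih C1 C2 C3 C C5 C6)
      (cd (Nat.beq g 5) (sp T C5 s' fun C => ih C1 C2 C3 C4 C C6)
      (cd (Nat.beq g 6) (sp T C6 s' fun C => ih C1 C2 C3 C4 C5 C)
      (cd (an (Nat.beq g 7) (lt T C3 C2 || lt T C5 C2 || lt T C6 C2)) s' 0)))))))) n

end

end Pool.Agent.Lib.MP_f3b2fd_co.KN.AA
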