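import Pool.Agent.Lib.MP_f3b2fd_co.KEP.A.St

/-! The inequality for 4-cells: minima over boxes are attained at vertices. -/

namespace Pool.Agent.Lib.MP_f3b2fd_co.KN

open Real KA

noncomputable section

/-- `16` times the squared area of a triangle. -/
def uu (a b c : ℝ) : ℝ := 2 * (a * b + b * c + a * c) - a ^ 2 - b ^ 2 - c ^ 2

/-- the dihedral angle along the first edge, continuous on the closed cube. -/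
def dic (x1 x2 x3 x4 x5 x6 : ℝ) : ℝ :=
  arccos (del4 x1 x2 x3 x4 x5 x6 / √(uu x1 x2 x6 * uu x1 x3 x5))

/-- one branch of the cell function, with weights `c`. -/
def br (k : ℝ) (c x : Fin 6 → ℝ) : ℝ :=
  √(del (x 0) (x 1) (x 2) (x 3) (x 4) (x 5)) / 12 + k -
    c 0 * dic (x 0) (x 1) (x 2) (x 3) (x 4) (x 5) - c 1 * dic (x 1) (x 0) (x 2) (x 4) (x 3) (x 5) -
    c 2 * dic (x 2) (x 0) (x 1) (x 5) (x 3) (x 4) - c 3 * dic (x 3) (x 1) (x 5) (x 0) (x 4) (x 2) -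
    c 4 * dic (x 4) (x 0) (x 5) (x 1) (x 3) (x 2) - c 5 * dic (x 5) (x 0) (x 4) (x 2) (x 3) (x 1)

/-- the rational part of the second order expression in the variable `x4`. -/
def qr (x1 x2 x3 x4 x5 x6 w1 w2 w3 w5 w6 η r : ℝ) : ℝ :=
  -(uu x1 x2 x6 * uu x1 x3 x5) / 24 + w1 * del4 x1 x2 x3 x4 x5 x6 +
    uu x1 x3 x5 * (w2 * del4 x2 x3 x1 x5 x6 x4 / uu x2 x3 x4 +
      w6 * del4 x6 x1 x5 x3 x4 x2 / uu x4 x5 x6) +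
    uu x1 x2 x6 * (w3 * del4 x3 x1 x2 x6 x4 x5 / uu x2 x3 x4 +
      w5 * del4 x5 x3 x4 x2 x6 x1 / uu x4 x5 x6) +
    2 * del x1 x2 x3 x4 x5 x6 *
      (η * (x1 - (x2 * del4 x3 x1 x2 x6 x4 x5 + x3 * del4 x2 x3 x1 x5 x6 x4) / uu x2 x3 x4 -
          (x6 * del4 x5 x3 x4 x2 x6 x1 + x5 * del4 x6 x1 x5 x3 x4 x2) / uu x4 x5 x6) -
        r * (del4 x1 x2 x3 x4 x5 x6 / 24 - w1 +
          (w2 * del4 x3 x1 x2 x6 x4 x5 + w3 * del4 x2 x3 x1 x5 x6 x4) / uu x2 x3 x4 +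
          (w6 * del4 x5 x3 x4 x2 x6 x1 + w5 * del4 x6 x1 x5 x3 x4 x2) / uu x4 x5 x6) -
        2 * (x2 + x3 - x4) *
          (w2 * del4 x3 x1 x2 x6 x4 x5 + w3 * del4 x2 x3 x1 x5 x6 x4) / uu x2 x3 x4 ^ 2 -
        2 * (x5 + x6 - x4) *
          (w6 * del4 x5 x3 x4 x2 x6 x1 + w5 * del4 x6 x1 x5 x3 x4 x2) / uu x4 x5 x6 ^ 2)

/-- `2 del ^ (3 / 2) (g'' - r g')` for `g = br` as a function of `x4`, without the term in the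
angle along the fourth edge; `d` is the derivative of the fourth weight. -/
def qq (x1 x2 x3 x4 x5 x6 c1 c2 c3 c4 c5 c6 d r : ℝ) : ℝ :=
  qr x1 x2 x3 x4 x5 x6 (c1 * √x1 - c4 / √x4 * x1) (c2 * √x2 - c4 / √x4 * x2)
    (c3 * √x3 - c4 / √x4 * x3) (c5 * √x5 - c4 / √x4 * x5) (c6 * √x6 - c4 / √x4 * x6)
    (2 * d / √x4 - c4 / (2 * x4 * √x4)) r

end

/-- the algebraic inequality; `B x c d`: weight `c` with derivative `d` is admissible at `x`. -/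
def QS (B : ℝ → ℝ → ℝ → Prop) : Prop :=
  ∀ x1 x2 x3 x4 x5 x6 c1 c2 c3 c4 c5 c6 d1 d2 d3 d4 d5 d6 : ℝ,
    4 ≤ x1 → 4 ≤ x2 → 4 ≤ x3 → 4 ≤ x4 → 4 ≤ x5 → 4 ≤ x6 →
    x1 ≤ 8 → x2 ≤ 8 → x3 ≤ 8 → x4 ≤ 8 → x5 ≤ 8 → x6 ≤ 8 →
    B x1 c1 d1 → B x2 c2 d2 → B x3 c3 d3 → B x4 c4 d4 → B x5 c5 d5 → B x6 c6 d6 →
    ∃ r, r * d4 * x4 ≤ 2 * d4 ∧ qq x1 x2 x3 x4 x5 x6 c1 c2 c3 c4 c5 c6 d4 r < 0

/-- the minimum over a box is attained at a vertex. -/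
def CalcS : Prop := ∀ B : ℝ → ℝ → ℝ → Prop, QS B → ∀ (k : ℝ) (l u p q : Fin 6 → ℝ),
  (∀ e, 4 ≤ l e ∧ u e ≤ 8 ∧ ∀ t, l e ≤ t → t ≤ u e → B t (p e + q e * t ^ 3) (3 * q e * t ^ 2)) →
  (∀ v : Fin 6 → ℝ, (∀ e, v e = l e ∨ v e = u e) → 0 ≤ br k (fun e => p e + q e * v e ^ 3) v) →
  ∀ x : Fin 6 → ℝ, (∀ e, l e ≤ x e ∧ x e ≤ u e) → 0 ≤ br k (fun e => p e + q e * x e ^ 3) x

/-- the two forms of the angle agree. -/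
def DicS : Prop := ∀ x1 x2 x3 x4 x5 x6 : ℝ, 0 < x1 → 0 < del x1 x2 x3 x4 x5 x6 →
  dic x1 x2 x3 x4 x5 x6 = dih x1 x2 x3 x4 x5 x6

end Pool.Agent.Lib.MP_f3b2fd_co.KN
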