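import Pool.Agent.Lib.MP_f3b2fd_co.KEP.N.Leaf
import Pool.Agent.Lib.MP_f3b2fd_co.KEP.N.AAs
import Pool.Agent.Lib.MP_f3b2fd_co.KEP.N.St

/-! Soundness of the evaluation on one cell. -/

namespace Pool.Agent.Lib.MP_f3b2fd_co.KN.AA

open KA

theorem leaf_spec {t : Fin 6 → ℝ} (ht : ∀ i, |t i| ≤ 1)
    {x1 x2 x3 x4 x5 x6 y1 y2 y3 y4 y5 y6 c1 c2 c3 c4 c5 c6 d r : ℝ}
    {X1 X2 X3 X4 X5 X6 Y1 Y2 Y3 Y4 Y5 Y6 C1 C2 C3 C4 C5 C6 D RR : G}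
    (rX1 : RepG t 10 X1 (2 ^ 7 * x1)) (eX1 : X1.e = 0) (rY1 : RepG t 19 Y1 (2 ^ 16 * y1))
    (rC1 : RepG t 19 C1 (2 ^ 16 * c1))
    (rX2 : RepG t 10 X2 (2 ^ 7 * x2)) (eX2 : X2.e = 0) (rY2 : RepG t 19 Y2 (2 ^ 16 * y2))
    (rC2 : RepG t 19 C2 (2 ^ 16 * c2))
    (rX3 : RepG t 10 X3 (2 ^ 7 * x3)) (eX3 : X3.e = 0) (rY3 : RepG t 19 Y3 (2 ^ 16 * y3))
    (rC3 : RepG t 19 C3 (2 ^ 16 * c3))
    (rX4 : RepG t 10 X4 (2 ^ 7 * x4)) (eX4 : X4.e = 0) (rY4 : RepG t 19 Y4 (2 ^ 16 * y4))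
    (rC4 : RepG t 19 C4 (2 ^ 16 * c4))
    (rX5 : RepG t 10 X5 (2 ^ 7 * x5)) (eX5 : X5.e = 0) (rY5 : RepG t 19 Y5 (2 ^ 16 * y5))
    (rC5 : RepG t 19 C5 (2 ^ 16 * c5))
    (rX6 : RepG t 10 X6 (2 ^ 7 * x6)) (eX6 : X6.e = 0) (rY6 : RepG t 19 Y6 (2 ^ 16 * y6))
    (rC6 : RepG t 19 C6 (2 ^ 16 * c6))
    (rD : RepG t 19 D (2 ^ 16 * d)) (rRR : RepG t 6 RR (2 ^ 4 * r))
    (h : leaf X1 X2 X3 X4 X5 X6 Y1 Y2 Y3 Y4 Y5 Y6 C1 C2 C3 C4 C5 C6 D RR = true) :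
    qr x1 x2 x3 x4 x5 x6 (c1 * y1 - c4 / y4 * x1) (c2 * y2 - c4 / y4 * x2) (c3 * y3 - c4 / y4 * x3)
      (c5 * y5 - c4 / y4 * x5) (c6 * y6 - c4 / y4 * x6) (2 * d / y4 - c4 / (2 * y4 ^ 3)) r < 0 := by
  rw [leaf] at h
  obtain ⟨g1, rg1, eg1, h⟩ := nm_spec (Rep.add0 12 (Rep.add0 11 (RepG.n0 rX2 eX2) (RepG.n0 rX3 eX3) (by decide) (by decide)) (Rep.ng (RepG.n0 rX4 eX4)) (by decide) (by decide)) (by decide) h
  obtain ⟨vg1, hvg1⟩ : ∃ z, z = ((x2 + x3) + (-x4)) := ⟨_, rfl⟩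
  replace rg1 : RepG t 12 g1 (2 ^ 7 * vg1) := rg1.cg (by rw [hvg1]; ring)
  obtain ⟨ua, rua, -, h⟩ := nm_spec (Rep.add 26 (Rep.sm 4 2 (RepG.mul0 ht rX2 rX3 eX2 eX3) (by decide)) (Rep.ng (RepG.sq ht rg1 eg1)) (by decide) (by decide)) (by decide) h
  obtain ⟨vua, hvua⟩ : ∃ z, z = uu x2 x3 x4 := ⟨_, rfl⟩
  replace rua : RepG t 26 ua (2 ^ 14 * vua) := rua.cg (by rw [hvua, hvg1, uu]; ring)
  obtain ⟨ia, ria, h⟩ := rcp_spec ht 56 rua (by decide) (by decide) (by decide) (by decide) h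
  obtain ⟨via, hvia⟩ : ∃ z, z = vua⁻¹ := ⟨_, rfl⟩
  replace ria : RepG t 56 ia (2 ^ 54 * via) := ria.cg (by rw [hvia]; ring)
  obtain ⟨g3, rg3, eg3, h⟩ := nm_spec (Rep.add0 12 (Rep.add0 11 (RepG.n0 rX5 eX5) (RepG.n0 rX6 eX6) (by decide) (by decide)) (Rep.ng (RepG.n0 rX4 eX4)) (by decide) (by decide)) (by decide) h
  obtain ⟨vg3, hvg3⟩ : ∃ z, z = ((x5 + x6) + (-x4)) := ⟨_, rfl⟩
  replace rg3 : RepG t 12 g3 (2 ^ 7 * vg3) := rg3.cg (by rw [hvg3]; ring)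
  obtain ⟨ub, rub, -, h⟩ := nm_spec (Rep.add 26 (Rep.sm 4 2 (RepG.mul0 ht rX5 rX6 eX5 eX6) (by decide)) (Rep.ng (RepG.sq ht rg3 eg3)) (by decide) (by decide)) (by decide) h
  obtain ⟨vub, hvub⟩ : ∃ z, z = uu x4 x5 x6 := ⟨_, rfl⟩
  replace rub : RepG t 26 ub (2 ^ 14 * vub) := rub.cg (by rw [hvub, hvg3, uu]; ring)
  obtain ⟨ib, rib, h⟩ := rcp_spec ht 56 rub (by decide) (by decide) (by decide) (by decide) h
  obtain ⟨vib, hvib⟩ : ∃ z, z = vub⁻¹ := ⟨_, rfl⟩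
  replace rib : RepG t 56 ib (2 ^ 54 * vib) := rib.cg (by rw [hvib]; ring)
  obtain ⟨iy, riy, h⟩ := rcp_spec ht 46 rY4 (by decide) (by decide) (by decide) (by decide) h
  obtain ⟨viy, hviy⟩ : ∃ z, z = y4⁻¹ := ⟨_, rfl⟩
  replace riy : RepG t 46 iy (2 ^ 44 * viy) := riy.cg (by rw [hviy]; ring)
  obtain ⟨ka, rka, -, h⟩ := nm_spec (RepG.mul ht rC4 riy) (by decide) h
  obtain ⟨vka, hvka⟩ : ∃ z, z = (c4 * viy) := ⟨_, rfl⟩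
  replace rka : RepG t 65 ka (2 ^ 60 * vka) := rka.cg (by rw [hvka]; ring)
  obtain ⟨g6, rg6, -, h⟩ := nm_spec (Rep.add 112 (Rep.sm 1237940039285380274899124224 90 (RepG.n rD) (by decide)) (Rep.ng (RepG.mul ht rka riy)) (by decide) (by decide)) (by decide) h
  obtain ⟨vg6, hvg6⟩ : ∃ z, z = ((4 * d) + (-(vka * viy))) := ⟨_, rfl⟩
  replace rg6 : RepG t 112 g6 (2 ^ 104 * vg6) := rg6.cg (by rw [hvg6]; ring)
  obtain ⟨et, ret, -, h⟩ := nm_spec (RepG.mul ht riy rg6) (by decide) h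
  obtain ⟨vet, hvet⟩ : ∃ z, z = (viy * vg6) := ⟨_, rfl⟩
  replace ret : RepG t 158 et (2 ^ 148 * vet) := ret.cg (by rw [hvet]; ring)
  obtain ⟨g8, rg8, eg8, h⟩ := nm_spec (Rep.add0 11 (RepG.n0 rX1 eX1) (Rep.ng (RepG.n0 rX5 eX5)) (by decide) (by decide)) (by decide) h
  obtain ⟨vg8, hvg8⟩ : ∃ z, z = (x1 + (-x5)) := ⟨_, rfl⟩
  replace rg8 : RepG t 11 g8 (2 ^ 7 * vg8) := rg8.cg (by rw [hvg8]; ring)
  obtain ⟨g9, rg9, eg9, h⟩ := nm_spec (Rep.add0 11 (RepG.n0 rX4 eX4) (Rep.ng (RepG.n0 rX2 eX2)) (by decide) (by decide)) (by decide) h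
  obtain ⟨vg9, hvg9⟩ : ∃ z, z = (x4 + (-x2)) := ⟨_, rfl⟩
  replace rg9 : RepG t 11 g9 (2 ^ 7 * vg9) := rg9.cg (by rw [hvg9]; ring)
  obtain ⟨g10, rg10, eg10, h⟩ := nm_spec (Rep.add0 13 (Rep.add0 12 (Rep.add0 11 (RepG.n0 rX1 eX1) (RepG.n0 rX2 eX2) (by decide) (by decide)) (Rep.add0 11 (RepG.n0 rX4 eX4) (RepG.n0 rX5 eX5) (by decide) (by decide)) (by decide) (by decide)) (Rep.ng (Rep.add0 12 (RepG.n0 rX3 eX3) (Rep.sm0 2 1 (RepG.n0 rX6 eX6) (by decide)) (by decide) (by decide))) (by decide) (by decide)) (by decide) h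
  obtain ⟨vg10, hvg10⟩ : ∃ z, z = (((x1 + x2) + (x4 + x5)) + (-(x3 + (2 * x6)))) := ⟨_, rfl⟩
  replace rg10 : RepG t 13 g10 (2 ^ 7 * vg10) := rg10.cg (by rw [hvg10]; ring)
  obtain ⟨d6, rd6, -, h⟩ := nm_spec (Rep.add 24 (RepG.mul0 ht rg8 rg9 eg8 eg9) (RepG.mul0 ht rX3 rg10 eX3 eg10) (by decide) (by decide)) (by decide) h
  obtain ⟨vd6, hvd6⟩ : ∃ z, z = del4 x3 x1 x2 x6 x4 x5 := ⟨_, rfl⟩
  replace rd6 : RepG t 24 d6 (2 ^ 14 * vd6) := rd6.cg (by rw [hvd6, hvg8, hvg9, hvg10, del4]; ring)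
  obtain ⟨g12, rg12, eg12, h⟩ := nm_spec (Rep.add0 11 (RepG.n0 rX3 eX3) (Rep.ng (RepG.n0 rX4 eX4)) (by decide) (by decide)) (by decide) h
  obtain ⟨vg12, hvg12⟩ : ∃ z, z = (x3 + (-x4)) := ⟨_, rfl⟩
  replace rg12 : RepG t 11 g12 (2 ^ 7 * vg12) := rg12.cg (by rw [hvg12]; ring)
  obtain ⟨g13, rg13, eg13, h⟩ := nm_spec (Rep.add0 11 (RepG.n0 rX6 eX6) (Rep.ng (RepG.n0 rX1 eX1)) (by decide) (by decide)) (by decide) h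
  obtain ⟨vg13, hvg13⟩ : ∃ z, z = (x6 + (-x1)) := ⟨_, rfl⟩
  replace rg13 : RepG t 11 g13 (2 ^ 7 * vg13) := rg13.cg (by rw [hvg13]; ring)
  obtain ⟨g14, rg14, eg14, h⟩ := nm_spec (Rep.add0 13 (Rep.add0 12 (Rep.add0 11 (RepG.n0 rX3 eX3) (RepG.n0 rX1 eX1) (by decide) (by decide)) (Rep.add0 11 (RepG.n0 rX6 eX6) (RepG.n0 rX4 eX4) (by decide) (by decide)) (by decide) (by decide)) (Rep.ng (Rep.add0 12 (RepG.n0 rX2 eX2) (Rep.sm0 2 1 (RepG.n0 rX5 eX5) (by decide)) (by decide) (by decide))) (by decide) (by decide)) (by decide) h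
  obtain ⟨vg14, hvg14⟩ : ∃ z, z = (((x3 + x1) + (x6 + x4)) + (-(x2 + (2 * x5)))) := ⟨_, rfl⟩
  replace rg14 : RepG t 13 g14 (2 ^ 7 * vg14) := rg14.cg (by rw [hvg14]; ring)
  obtain ⟨d5, rd5, -, h⟩ := nm_spec (Rep.add 24 (RepG.mul0 ht rg12 rg13 eg12 eg13) (RepG.mul0 ht rX2 rg14 eX2 eg14) (by decide) (by decide)) (by decide) h
  obtain ⟨vd5, hvd5⟩ : ∃ z, z = del4 x2 x3 x1 x5 x6 x4 := ⟨_, rfl⟩
  replace rd5 : RepG t 24 d5 (2 ^ 14 * vd5) := rd5.cg (by rw [hvd5, hvg12, hvg13, hvg14, del4]; ring)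
  obtain ⟨w2, rw2, -, h⟩ := nm_spec (Rep.add 76 (Rep.sm 34359738368 35 (RepG.mul ht rC2 rY2) (by decide)) (Rep.ng (RepG.mul ht rka rX2)) (by decide) (by decide)) (by decide) h
  obtain ⟨vw2, hvw2⟩ : ∃ z, z = ((c2 * y2) + (-(vka * x2))) := ⟨_, rfl⟩
  replace rw2 : RepG t 76 w2 (2 ^ 67 * vw2) := rw2.cg (by rw [hvw2]; ring)
  obtain ⟨w3, rw3, -, h⟩ := nm_spec (Rep.add 76 (Rep.sm 34359738368 35 (RepG.mul ht rC3 rY3) (by decide)) (Rep.ng (RepG.mul ht rka rX3)) (by decide) (by decide)) (by decide) h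
  obtain ⟨vw3, hvw3⟩ : ∃ z, z = ((c3 * y3) + (-(vka * x3))) := ⟨_, rfl⟩
  replace rw3 : RepG t 76 w3 (2 ^ 67 * vw3) := rw3.cg (by rw [hvw3]; ring)
  obtain ⟨g18, rg18, -, h⟩ := nm_spec (Rep.add 101 (RepG.mul ht rw2 rd6) (RepG.mul ht rw3 rd5) (by decide) (by decide)) (by decide) h
  obtain ⟨vg18, hvg18⟩ : ∃ z, z = ((vw2 * vd6) + (vw3 * vd5)) := ⟨_, rfl⟩
  replace rg18 : RepG t 101 g18 (2 ^ 81 * vg18) := rg18.cg (by rw [hvg18]; ring)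
  obtain ⟨pa, rpa, -, h⟩ := nm_spec (RepG.mul ht ria rg18) (by decide) h
  obtain ⟨vpa, hvpa⟩ : ∃ z, z = (via * vg18) := ⟨_, rfl⟩
  replace rpa : RepG t 157 pa (2 ^ 135 * vpa) := rpa.cg (by rw [hvpa]; ring)
  obtain ⟨g20, rg20, -, h⟩ := nm_spec (Rep.add 35 (RepG.mul ht rX2 rd6) (RepG.mul ht rX3 rd5) (by decide) (by decide)) (by decide) h
  obtain ⟨vg20, hvg20⟩ : ∃ z, z = ((x2 * vd6) + (x3 * vd5)) := ⟨_, rfl⟩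
  replace rg20 : RepG t 35 g20 (2 ^ 21 * vg20) := rg20.cg (by rw [hvg20]; ring)
  obtain ⟨g21, rg21, eg21, h⟩ := nm_spec (Rep.add0 12 (Rep.add0 11 (RepG.n0 rX2 eX2) (RepG.n0 rX3 eX3) (by decide) (by decide)) (Rep.ng (RepG.n0 rX4 eX4)) (by decide) (by decide)) (by decide) h
  obtain ⟨vg21, hvg21⟩ : ∃ z, z = ((x2 + x3) + (-x4)) := ⟨_, rfl⟩
  replace rg21 : RepG t 12 g21 (2 ^ 7 * vg21) := rg21.cg (by rw [hvg21]; ring)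
  obtain ⟨g22, rg22, -, h⟩ := nm_spec (RepG.mul ht ria rg21) (by decide) h
  obtain ⟨vg22, hvg22⟩ : ∃ z, z = (via * vg21) := ⟨_, rfl⟩
  replace rg22 : RepG t 68 g22 (2 ^ 61 * vg22) := rg22.cg (by rw [hvg22]; ring)
  obtain ⟨g23, rg23, -, h⟩ := nm_spec (RepG.mul ht rw2 rd5) (by decide) h
  obtain ⟨vg23, hvg23⟩ : ∃ z, z = (vw2 * vd5) := ⟨_, rfl⟩
  replace rg23 : RepG t 100 g23 (2 ^ 81 * vg23) := rg23.cg (by rw [hvg23]; ring)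
  obtain ⟨g24, rg24, -, h⟩ := nm_spec (RepG.mul ht rw3 rd6) (by decide) h
  obtain ⟨vg24, hvg24⟩ : ∃ z, z = (vw3 * vd6) := ⟨_, rfl⟩
  replace rg24 : RepG t 100 g24 (2 ^ 81 * vg24) := rg24.cg (by rw [hvg24]; ring)
  obtain ⟨g25, rg25, eg25, h⟩ := nm_spec (Rep.add0 11 (RepG.n0 rX3 eX3) (Rep.ng (RepG.n0 rX1 eX1)) (by decide) (by decide)) (by decide) h
  obtain ⟨vg25, hvg25⟩ : ∃ z, z = (x3 + (-x1)) := ⟨_, rfl⟩
  replace rg25 : RepG t 11 g25 (2 ^ 7 * vg25) := rg25.cg (by rw [hvg25]; ring)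
  obtain ⟨g26, rg26, eg26, h⟩ := nm_spec (Rep.add0 11 (RepG.n0 rX6 eX6) (Rep.ng (RepG.n0 rX4 eX4)) (by decide) (by decide)) (by decide) h
  obtain ⟨vg26, hvg26⟩ : ∃ z, z = (x6 + (-x4)) := ⟨_, rfl⟩
  replace rg26 : RepG t 11 g26 (2 ^ 7 * vg26) := rg26.cg (by rw [hvg26]; ring)
  obtain ⟨g27, rg27, eg27, h⟩ := nm_spec (Rep.add0 13 (Rep.add0 12 (Rep.add0 11 (RepG.n0 rX3 eX3) (RepG.n0 rX4 eX4) (by decide) (by decide)) (Rep.add0 11 (RepG.n0 rX6 eX6) (RepG.n0 rX1 eX1) (by decide) (by decide)) (by decide) (by decide)) (Rep.ng (Rep.add0 12 (RepG.n0 rX5 eX5) (Rep.sm0 2 1 (RepG.n0 rX2 eX2) (by decide)) (by decide) (by decide))) (by decide) (by decide)) (by decide) h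
  obtain ⟨vg27, hvg27⟩ : ∃ z, z = (((x3 + x4) + (x6 + x1)) + (-(x5 + (2 * x2)))) := ⟨_, rfl⟩
  replace rg27 : RepG t 13 g27 (2 ^ 7 * vg27) := rg27.cg (by rw [hvg27]; ring)
  obtain ⟨d2, rd2, -, h⟩ := nm_spec (Rep.add 24 (RepG.mul0 ht rg25 rg26 eg25 eg26) (RepG.mul0 ht rX5 rg27 eX5 eg27) (by decide) (by decide)) (by decide) h
  obtain ⟨vd2, hvd2⟩ : ∃ z, z = del4 x5 x3 x4 x2 x6 x1 := ⟨_, rfl⟩
  replace rd2 : RepG t 24 d2 (2 ^ 14 * vd2) := rd2.cg (by rw [hvd2, hvg25, hvg26, hvg27, del4]; ring)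
  obtain ⟨g29, rg29, eg29, h⟩ := nm_spec (Rep.add0 11 (RepG.n0 rX1 eX1) (Rep.ng (RepG.n0 rX2 eX2)) (by decide) (by decide)) (by decide) h
  obtain ⟨vg29, hvg29⟩ : ∃ z, z = (x1 + (-x2)) := ⟨_, rfl⟩
  replace rg29 : RepG t 11 g29 (2 ^ 7 * vg29) := rg29.cg (by rw [hvg29]; ring)
  obtain ⟨g30, rg30, eg30, h⟩ := nm_spec (Rep.add0 11 (RepG.n0 rX4 eX4) (Rep.ng (RepG.n0 rX5 eX5)) (by decide) (by decide)) (by decide) h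
  obtain ⟨vg30, hvg30⟩ : ∃ z, z = (x4 + (-x5)) := ⟨_, rfl⟩
  replace rg30 : RepG t 11 g30 (2 ^ 7 * vg30) := rg30.cg (by rw [hvg30]; ring)
  obtain ⟨g31, rg31, eg31, h⟩ := nm_spec (Rep.add0 13 (Rep.add0 12 (Rep.add0 11 (RepG.n0 rX1 eX1) (RepG.n0 rX5 eX5) (by decide) (by decide)) (Rep.add0 11 (RepG.n0 rX4 eX4) (RepG.n0 rX2 eX2) (by decide) (by decide)) (by decide) (by decide)) (Rep.ng (Rep.add0 12 (RepG.n0 rX6 eX6) (Rep.sm0 2 1 (RepG.n0 rX3 eX3) (by decide)) (by decide) (by decide))) (by decide) (by decide)) (by decide) h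
  obtain ⟨vg31, hvg31⟩ : ∃ z, z = (((x1 + x5) + (x4 + x2)) + (-(x6 + (2 * x3)))) := ⟨_, rfl⟩
  replace rg31 : RepG t 13 g31 (2 ^ 7 * vg31) := rg31.cg (by rw [hvg31]; ring)
  obtain ⟨d3, rd3, -, h⟩ := nm_spec (Rep.add 24 (RepG.mul0 ht rg29 rg30 eg29 eg30) (RepG.mul0 ht rX6 rg31 eX6 eg31) (by decide) (by decide)) (by decide) h
  obtain ⟨vd3, hvd3⟩ : ∃ z, z = del4 x6 x1 x5 x3 x4 x2 := ⟨_, rfl⟩
  replace rd3 : RepG t 24 d3 (2 ^ 14 * vd3) := rd3.cg (by rw [hvd3, hvg29, hvg30, hvg31, del4]; ring)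
  obtain ⟨w5, rw5, -, h⟩ := nm_spec (Rep.add 76 (Rep.sm 34359738368 35 (RepG.mul ht rC5 rY5) (by decide)) (Rep.ng (RepG.mul ht rka rX5)) (by decide) (by decide)) (by decide) h
  obtain ⟨vw5, hvw5⟩ : ∃ z, z = ((c5 * y5) + (-(vka * x5))) := ⟨_, rfl⟩
  replace rw5 : RepG t 76 w5 (2 ^ 67 * vw5) := rw5.cg (by rw [hvw5]; ring)
  obtain ⟨w6, rw6, -, h⟩ := nm_spec (Rep.add 76 (Rep.sm 34359738368 35 (RepG.mul ht rC6 rY6) (by decide)) (Rep.ng (RepG.mul ht rka rX6)) (by decide) (by decide)) (by decide) h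
  obtain ⟨vw6, hvw6⟩ : ∃ z, z = ((c6 * y6) + (-(vka * x6))) := ⟨_, rfl⟩
  replace rw6 : RepG t 76 w6 (2 ^ 67 * vw6) := rw6.cg (by rw [hvw6]; ring)
  obtain ⟨g35, rg35, -, h⟩ := nm_spec (Rep.add 101 (RepG.mul ht rw6 rd2) (RepG.mul ht rw5 rd3) (by decide) (by decide)) (by decide) h
  obtain ⟨vg35, hvg35⟩ : ∃ z, z = ((vw6 * vd2) + (vw5 * vd3)) := ⟨_, rfl⟩
  replace rg35 : RepG t 101 g35 (2 ^ 81 * vg35) := rg35.cg (by rw [hvg35]; ring)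
  obtain ⟨pb, rpb, -, h⟩ := nm_spec (RepG.mul ht rib rg35) (by decide) h
  obtain ⟨vpb, hvpb⟩ : ∃ z, z = (vib * vg35) := ⟨_, rfl⟩
  replace rpb : RepG t 157 pb (2 ^ 135 * vpb) := rpb.cg (by rw [hvpb]; ring)
  obtain ⟨g37, rg37, -, h⟩ := nm_spec (Rep.add 35 (RepG.mul ht rX6 rd2) (RepG.mul ht rX5 rd3) (by decide) (by decide)) (by decide) h
  obtain ⟨vg37, hvg37⟩ : ∃ z, z = ((x6 * vd2) + (x5 * vd3)) := ⟨_, rfl⟩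
  replace rg37 : RepG t 35 g37 (2 ^ 21 * vg37) := rg37.cg (by rw [hvg37]; ring)
  obtain ⟨g38, rg38, eg38, h⟩ := nm_spec (Rep.add0 12 (Rep.add0 11 (RepG.n0 rX5 eX5) (RepG.n0 rX6 eX6) (by decide) (by decide)) (Rep.ng (RepG.n0 rX4 eX4)) (by decide) (by decide)) (by decide) h
  obtain ⟨vg38, hvg38⟩ : ∃ z, z = ((x5 + x6) + (-x4)) := ⟨_, rfl⟩
  replace rg38 : RepG t 12 g38 (2 ^ 7 * vg38) := rg38.cg (by rw [hvg38]; ring)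
  obtain ⟨g39, rg39, -, h⟩ := nm_spec (RepG.mul ht rib rg38) (by decide) h
  obtain ⟨vg39, hvg39⟩ : ∃ z, z = (vib * vg38) := ⟨_, rfl⟩
  replace rg39 : RepG t 68 g39 (2 ^ 61 * vg39) := rg39.cg (by rw [hvg39]; ring)
  obtain ⟨g40, rg40, -, h⟩ := nm_spec (RepG.mul ht rw6 rd3) (by decide) h
  obtain ⟨vg40, hvg40⟩ : ∃ z, z = (vw6 * vd3) := ⟨_, rfl⟩
  replace rg40 : RepG t 100 g40 (2 ^ 81 * vg40) := rg40.cg (by rw [hvg40]; ring)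
  obtain ⟨g41, rg41, -, h⟩ := nm_spec (RepG.mul ht rw5 rd2) (by decide) h
  obtain ⟨vg41, hvg41⟩ : ∃ z, z = (vw5 * vd2) := ⟨_, rfl⟩
  replace rg41 : RepG t 100 g41 (2 ^ 81 * vg41) := rg41.cg (by rw [hvg41]; ring)
  obtain ⟨g42, rg42, -, h⟩ := nm_spec (Rep.add 157 (RepG.mul ht ria rg23) (RepG.mul ht rib rg40) (by decide) (by decide)) (by decide) h
  obtain ⟨vg42, hvg42⟩ : ∃ z, z = ((via * vg23) + (vib * vg40)) := ⟨_, rfl⟩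
  replace rg42 : RepG t 157 g42 (2 ^ 135 * vg42) := rg42.cg (by rw [hvg42]; ring)
  obtain ⟨g43, rg43, -, h⟩ := nm_spec (Rep.add 157 (RepG.mul ht ria rg24) (RepG.mul ht rib rg41) (by decide) (by decide)) (by decide) h
  obtain ⟨vg43, hvg43⟩ : ∃ z, z = ((via * vg24) + (vib * vg41)) := ⟨_, rfl⟩
  replace rg43 : RepG t 157 g43 (2 ^ 135 * vg43) := rg43.cg (by rw [hvg43]; ring)
  obtain ⟨g44, rg44, -, h⟩ := nm_spec (Rep.addL 93 (Rep.sm0 295147905179352825856 68 (RepG.n0 rX1 eX1) (by decide)) (Rep.ng (Rep.add 92 (RepG.mul ht ria rg20) (RepG.mul ht rib rg37) (by decide) (by decide))) (by decide) (by decide)) (by decide) h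
  obtain ⟨vg44, hvg44⟩ : ∃ z, z = (x1 + (-((via * vg20) + (vib * vg37)))) := ⟨_, rfl⟩
  replace rg44 : RepG t 93 g44 (2 ^ 75 * vg44) := rg44.cg (by rw [hvg44]; ring)
  obtain ⟨g45, rg45, eg45, h⟩ := nm_spec (Rep.add0 11 (RepG.n0 rX2 eX2) (Rep.ng (RepG.n0 rX6 eX6)) (by decide) (by decide)) (by decide) h
  obtain ⟨vg45, hvg45⟩ : ∃ z, z = (x2 + (-x6)) := ⟨_, rfl⟩
  replace rg45 : RepG t 11 g45 (2 ^ 7 * vg45) := rg45.cg (by rw [hvg45]; ring)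
  obtain ⟨g46, rg46, eg46, h⟩ := nm_spec (Rep.add0 11 (RepG.n0 rX5 eX5) (Rep.ng (RepG.n0 rX3 eX3)) (by decide) (by decide)) (by decide) h
  obtain ⟨vg46, hvg46⟩ : ∃ z, z = (x5 + (-x3)) := ⟨_, rfl⟩
  replace rg46 : RepG t 11 g46 (2 ^ 7 * vg46) := rg46.cg (by rw [hvg46]; ring)
  obtain ⟨g47, rg47, eg47, h⟩ := nm_spec (Rep.add0 13 (Rep.add0 12 (Rep.add0 11 (RepG.n0 rX2 eX2) (RepG.n0 rX3 eX3) (by decide) (by decide)) (Rep.add0 11 (RepG.n0 rX5 eX5) (RepG.n0 rX6 eX6) (by decide) (by decide)) (by decide) (by decide)) (Rep.ng (Rep.add0 12 (RepG.n0 rX1 eX1) (Rep.sm0 2 1 (RepG.n0 rX4 eX4) (by decide)) (by decide) (by decide))) (by decide) (by decide)) (by decide) h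
  obtain ⟨vg47, hvg47⟩ : ∃ z, z = (((x2 + x3) + (x5 + x6)) + (-(x1 + (2 * x4)))) := ⟨_, rfl⟩
  replace rg47 : RepG t 13 g47 (2 ^ 7 * vg47) := rg47.cg (by rw [hvg47]; ring)
  obtain ⟨d4, rd4, -, h⟩ := nm_spec (Rep.add 24 (RepG.mul0 ht rg45 rg46 eg45 eg46) (RepG.mul0 ht rX1 rg47 eX1 eg47) (by decide) (by decide)) (by decide) h
  obtain ⟨vd4, hvd4⟩ : ∃ z, z = del4 x1 x2 x3 x4 x5 x6 := ⟨_, rfl⟩
  replace rd4 : RepG t 24 d4 (2 ^ 14 * vd4) := rd4.cg (by rw [hvd4, hvg45, hvg46, hvg47, del4]; ring)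
  obtain ⟨w1, rw1, -, h⟩ := nm_spec (Rep.add 76 (Rep.sm 34359738368 35 (RepG.mul ht rC1 rY1) (by decide)) (Rep.ng (RepG.mul ht rka rX1)) (by decide) (by decide)) (by decide) h
  obtain ⟨vw1, hvw1⟩ : ∃ z, z = ((c1 * y1) + (-(vka * x1))) := ⟨_, rfl⟩
  replace rw1 : RepG t 76 w1 (2 ^ 67 * vw1) := rw1.cg (by rw [hvw1]; ring)
  obtain ⟨g50, rg50, -, h⟩ := nm_spec (Rep.add 165 (Rep.sm 2658455991569831745807614120560689152 121 (RepG.n rd4) (by decide)) (Rep.sm 24 5 (Rep.add 159 (Rep.add 158 (RepG.n rpa) (RepG.n rpb) (by decide) (by decide)) (Rep.ng (Rep.sm 295147905179352825856 68 (RepG.n rw1) (by decide))) (by decide) (by decide)) (by decide)) (by decide) (by decide)) (by decide) h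
  obtain ⟨vg50, hvg50⟩ : ∃ z, z = (vd4 + (24 * ((vpa + vpb) + (-vw1)))) := ⟨_, rfl⟩
  replace rg50 : RepG t 165 g50 (2 ^ 135 * vg50) := rg50.cg (by rw [hvg50]; ring)
  obtain ⟨g51, rg51, -, h⟩ := nm_spec (Rep.add 262 (Rep.sm 24 5 (RepG.mul ht ret rg44) (by decide)) (Rep.ng (Rep.add 261 (Rep.sm 38685626227668133590597632 85 (RepG.mul ht rRR rg50) (by decide)) (Rep.sm 12884901888 34 (Rep.add 226 (RepG.mul ht rg22 rpa) (RepG.mul ht rg39 rpb) (by decide) (by decide)) (by decide)) (by decide) (by decide))) (by decide) (by decide)) (by decide) h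
  obtain ⟨vg51, hvg51⟩ : ∃ z, z = ((24 * (vet * vg44)) + (-((2 * (r * vg50)) + (96 * ((vg22 * vpa) + (vg39 * vpb)))))) := ⟨_, rfl⟩
  replace rg51 : RepG t 262 g51 (2 ^ 223 * vg51) := rg51.cg (by rw [hvg51]; ring)
  obtain ⟨g52, rg52, -, h⟩ := nm_spec (Rep.add 25 (RepG.n rd4) (RepG.mul0 ht rX1 rX4 eX1 eX4) (by decide) (by decide)) (by decide) h
  obtain ⟨vg52, hvg52⟩ : ∃ z, z = (vd4 + (x1 * x4)) := ⟨_, rfl⟩
  replace rg52 : RepG t 25 g52 (2 ^ 14 * vg52) := rg52.cg (by rw [hvg52]; ring)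
  obtain ⟨g53, rg53, eg53, h⟩ := nm_spec (Rep.add0 11 (RepG.n0 rX2 eX2) (Rep.ng (RepG.n0 rX3 eX3)) (by decide) (by decide)) (by decide) h
  obtain ⟨vg53, hvg53⟩ : ∃ z, z = (x2 + (-x3)) := ⟨_, rfl⟩
  replace rg53 : RepG t 11 g53 (2 ^ 7 * vg53) := rg53.cg (by rw [hvg53]; ring)
  obtain ⟨g54, rg54, eg54, h⟩ := nm_spec (Rep.add0 11 (RepG.n0 rX5 eX5) (Rep.ng (RepG.n0 rX6 eX6)) (by decide) (by decide)) (by decide) h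
  obtain ⟨vg54, hvg54⟩ : ∃ z, z = (x5 + (-x6)) := ⟨_, rfl⟩
  replace rg54 : RepG t 11 g54 (2 ^ 7 * vg54) := rg54.cg (by rw [hvg54]; ring)
  obtain ⟨g55, rg55, -, h⟩ := nm_spec (RepG.mul0 ht rg53 rg54 eg53 eg54) (by decide) h
  obtain ⟨vg55, hvg55⟩ : ∃ z, z = (vg53 * vg54) := ⟨_, rfl⟩
  replace rg55 : RepG t 22 g55 (2 ^ 14 * vg55) := rg55.cg (by rw [hvg55]; ring)
  obtain ⟨g56, rg56, eg56, h⟩ := nm_spec (Rep.add0 12 (Rep.add0 11 (RepG.n0 rX2 eX2) (RepG.n0 rX5 eX5) (by decide) (by decide)) (Rep.ng (Rep.add0 11 (RepG.n0 rX3 eX3) (RepG.n0 rX6 eX6) (by decide) (by decide))) (by decide) (by decide)) (by decide) h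
  obtain ⟨vg56, hvg56⟩ : ∃ z, z = ((x2 + x5) + (-(x3 + x6))) := ⟨_, rfl⟩
  replace rg56 : RepG t 12 g56 (2 ^ 7 * vg56) := rg56.cg (by rw [hvg56]; ring)
  obtain ⟨g57, rg57, -, h⟩ := nm_spec (Rep.add 21 (RepG.mul0 ht rX2 rX5 eX2 eX5) (Rep.ng (RepG.mul0 ht rX3 rX6 eX3 eX6)) (by decide) (by decide)) (by decide) h
  obtain ⟨vg57, hvg57⟩ : ∃ z, z = ((x2 * x5) + (-(x3 * x6))) := ⟨_, rfl⟩
  replace rg57 : RepG t 21 g57 (2 ^ 14 * vg57) := rg57.cg (by rw [hvg57]; ring)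
  obtain ⟨dl, rdl, -, h⟩ := nm_spec (Rep.add 37 (Rep.add 36 (RepG.mul ht rX4 rg52) (RepG.mul ht rX1 rg55) (by decide) (by decide)) (Rep.ng (RepG.mul ht rg56 rg57)) (by decide) (by decide)) (by decide) h
  obtain ⟨vdl, hvdl⟩ : ∃ z, z = del x1 x2 x3 x4 x5 x6 := ⟨_, rfl⟩
  replace rdl : RepG t 37 dl (2 ^ 21 * vdl) := rdl.cg (by rw [hvdl, hvg52, hvg55, hvg53, hvg54, hvg56, hvg57, hvd4, del4, del]; ring)
  obtain ⟨g59, rg59, eg59, h⟩ := nm_spec (Rep.add0 12 (Rep.add0 11 (RepG.n0 rX2 eX2) (RepG.n0 rX6 eX6) (by decide) (by decide)) (Rep.ng (RepG.n0 rX1 eX1)) (by decide) (by decide)) (by decide) h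
  obtain ⟨vg59, hvg59⟩ : ∃ z, z = ((x2 + x6) + (-x1)) := ⟨_, rfl⟩
  replace rg59 : RepG t 12 g59 (2 ^ 7 * vg59) := rg59.cg (by rw [hvg59]; ring)
  obtain ⟨u1, ru1, -, h⟩ := nm_spec (Rep.add 26 (Rep.sm 4 2 (RepG.mul0 ht rX2 rX6 eX2 eX6) (by decide)) (Rep.ng (RepG.sq ht rg59 eg59)) (by decide) (by decide)) (by decide) h
  obtain ⟨vu1, hvu1⟩ : ∃ z, z = uu x1 x2 x6 := ⟨_, rfl⟩
  replace ru1 : RepG t 26 u1 (2 ^ 14 * vu1) := ru1.cg (by rw [hvu1, hvg59, uu]; ring)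
  obtain ⟨g61, rg61, eg61, h⟩ := nm_spec (Rep.add0 12 (Rep.add0 11 (RepG.n0 rX3 eX3) (RepG.n0 rX5 eX5) (by decide) (by decide)) (Rep.ng (RepG.n0 rX1 eX1)) (by decide) (by decide)) (by decide) h
  obtain ⟨vg61, hvg61⟩ : ∃ z, z = ((x3 + x5) + (-x1)) := ⟨_, rfl⟩
  replace rg61 : RepG t 12 g61 (2 ^ 7 * vg61) := rg61.cg (by rw [hvg61]; ring)
  obtain ⟨u2, ru2, -, h⟩ := nm_spec (Rep.add 26 (Rep.sm 4 2 (RepG.mul0 ht rX3 rX5 eX3 eX5) (by decide)) (Rep.ng (RepG.sq ht rg61 eg61)) (by decide) (by decide)) (by decide) h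
  obtain ⟨vu2, hvu2⟩ : ∃ z, z = uu x1 x3 x5 := ⟨_, rfl⟩
  replace ru2 : RepG t 26 u2 (2 ^ 14 * vu2) := ru2.cg (by rw [hvu2, hvg61, uu]; ring)
  obtain ⟨fin, rfin, -, h⟩ := nm_spec (Rep.add 300 (RepG.mul ht rdl rg51) (Rep.add 286 (Rep.sm 950737950171172051122527404032 100 (Rep.add 185 (Rep.add 184 (RepG.mul ht ru2 rg42) (RepG.mul ht ru1 rg43) (by decide) (by decide)) (Rep.sm 295147905179352825856 68 (RepG.mul ht rw1 rd4) (by decide)) (by decide) (by decide)) (by decide)) (Rep.ng (Rep.sm 105312291668557186697918027683670432318895095400549111254310977536 216 (RepG.mul ht ru1 ru2) (by decide))) (by decide) (by decide)) (by decide) (by decide)) (by decide) h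
  obtain ⟨vfin, hvfin⟩ : ∃ z, z = ((vdl * vg51) + ((24 * (((vu2 * vg42) + (vu1 * vg43)) + (vw1 * vd4))) + (-(vu1 * vu2)))) := ⟨_, rfl⟩
  replace rfin : RepG t 300 fin (2 ^ 244 * vfin) := rfin.cg (by rw [hvfin]; ring)
  have hf := neg_spec ht rfin (by decide) h
  have e1 : c1 * y1 - c4 / y4 * x1 = vw1 := by rw [hvw1, hvka, hviy]; ring
  have e2 : c2 * y2 - c4 / y4 * x2 = vw2 := by rw [hvw2, hvka, hviy]; ring
  have e3 : c3 * y3 - c4 / y4 * x3 = vw3 := by rw [hvw3, hvka, hviy]; ring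
  have e5 : c5 * y5 - c4 / y4 * x5 = vw5 := by rw [hvw5, hvka, hviy]; ring
  have e6 : c6 * y6 - c4 / y4 * x6 = vw6 := by rw [hvw6, hvka, hviy]; ring
  have e4 : 2 * d / y4 - c4 / (2 * y4 ^ 3) = vet / 2 := by rw [hvet, hvg6, hvka, hviy]; ring
  rw [e1, e2, e3, e4, e5, e6, qr, ← hvua, ← hvub, ← hvu1, ← hvu2, ← hvd2, ← hvd3, ← hvd4, ← hvd5,
    ← hvd6, ← hvdl]
  refine lt_of_eq_of_lt (b := 2 ^ 244 * vfin / (2 ^ 244 * 24)) ?_ (div_neg_of_neg_of_pos hf (by positivity))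
  subst hvfin hvg61 hvg59 hvg57 hvg56 hvg55 hvg54 hvg53 hvg52 hvg51 hvg50 hvg47 hvg46 hvg45 hvg44 hvg43 hvg42 hvg41 hvg40 hvg39 hvg38 hvg37 hvpb hvg35 hvg31 hvg30 hvg29 hvg27 hvg26 hvg25 hvg24 hvg23 hvg22 hvg21 hvg20 hvpa hvg18 hvg14 hvg13 hvg12 hvg10 hvg9 hvg8 hvib hvg3 hvia hvg1
  ring

end Pool.Agent.Lib.MP_f3b2fd_co.KN.AA
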