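import Pool.Agent.Lib.MP_f3b2fd_co.KEP.N.St
import Pool.Agent.Lib.MP_f3b2fd_co.KEP.N.Der

/-! No interior local minimum in the fourth variable. -/

namespace Pool.Agent.Lib.MP_f3b2fd_co.KN

open Real KA KA.Der Filter Topology

namespace NoMin

theorem uu_up (a b c : ℝ) : uu a b c = up a b c := by
  unfold uu up
  ring

theorem up_pos {a b c : ℝ} (ha : 4 ≤ a) (ha' : a ≤ 8) (hb : 4 ≤ b) (hb' : b ≤ 8) (hc : 4 ≤ c)
    (hc' : c ≤ 8) : 0 < up a b c := by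
  have h1 := mul_nonneg (sub_nonneg.2 ha) (by linarith : 0 ≤ b + c - a)
  have h2 := mul_nonneg (sub_nonneg.2 hb) (by linarith : 0 ≤ a + c - b)
  have h3 := mul_nonneg (sub_nonneg.2 hc) (by linarith : 0 ≤ a + b - c)
  have e : up a b c = (a - 4) * (b + c - a) + (b - 4) * (a + c - b) + (c - 4) * (a + b - c) +
      4 * (a + b + c) := by
    unfold up
    ring
  linarith

theorem dic_eq {x1 x2 x3 x4 x5 x6 : ℝ} (h : 0 < x1) (hd : 0 < del x1 x2 x3 x4 x5 x6) :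
    dic x1 x2 x3 x4 x5 x6 = dih x1 x2 x3 x4 x5 x6 := by
  have hD : 0 < 4 * x1 * del x1 x2 x3 x4 x5 x6 := by positivity
  unfold dic dih
  rw [uu_up, uu_up, ← disc x1 x2 x3 x4 x5 x6, arctan_eq_arcsin, arccos]
  generalize 4 * x1 * del x1 x2 x3 x4 x5 x6 = D at *
  generalize del4 x1 x2 x3 x4 x5 x6 = A
  have hs : 0 < √D := Real.sqrt_pos.2 hD
  have e : D + A ^ 2 = D * (1 + (A / √D) ^ 2) := by
    rw [div_pow, Real.sq_sqrt hD.le]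
    field_simp
  rw [e, Real.sqrt_mul hD.le, div_div]

theorem st4 {x1 x2 x3 z x5 x6 : ℝ} (hz : 4 ≤ z) (hz' : z ≤ 8) (a : 0 ≤ del x1 x2 x3 4 x5 x6)
    (b : 0 ≤ del x1 x2 x3 8 x5 x6) : x1 * ((z - 4) * (8 - z)) ≤ del x1 x2 x3 z x5 x6 := by
  have e : 4 * del x1 x2 x3 z x5 x6 = (8 - z) * del x1 x2 x3 4 x5 x6 +
      (z - 4) * del x1 x2 x3 8 x5 x6 + 4 * (x1 * ((z - 4) * (8 - z))) := by
    unfold del
    ring
  have h1 := mul_nonneg (sub_nonneg.2 hz') a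
  have h2 := mul_nonneg (sub_nonneg.2 hz) b
  linarith

theorem st4' {x1 x2 x3 z x5 x6 : ℝ} (h : 4 ≤ x1) (hz : 4 ≤ z) (hz' : z ≤ 8)
    (a : 0 ≤ del x1 x2 x3 4 x5 x6) (b : 0 ≤ del x1 x2 x3 8 x5 x6) : 0 ≤ del x1 x2 x3 z x5 x6 :=
  le_trans (mul_nonneg (by linarith) (mul_nonneg (sub_nonneg.2 hz) (sub_nonneg.2 hz')))
    (st4 hz hz' a b)

theorem del_nonneg {x1 x2 x3 x4 x5 x6 : ℝ} (h1 : 4 ≤ x1) (h1' : x1 ≤ 8) (h2 : 4 ≤ x2)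
    (h2' : x2 ≤ 8) (h3 : 4 ≤ x3) (h3' : x3 ≤ 8) (h4 : 4 ≤ x4) (h4' : x4 ≤ 8) (h5 : 4 ≤ x5)
    (h5' : x5 ≤ 8) (h6 : 4 ≤ x6) (h6' : x6 ≤ 8) : 0 ≤ del x1 x2 x3 x4 x5 x6 := by
  have g : ∀ {a : ℝ}, a = 4 ∨ a = 8 → 4 ≤ a := fun h => by rcases h with rfl | rfl <;> norm_num
  have l : (4 : ℝ) = 4 ∨ (4 : ℝ) = 8 := Or.inl rfl
  have u : (8 : ℝ) = 4 ∨ (8 : ℝ) = 8 := Or.inr rfl
  have k0 : ∀ a1 a2 a3 a4 a5 a6 : ℝ, a1 = 4 ∨ a1 = 8 → a2 = 4 ∨ a2 = 8 → a3 = 4 ∨ a3 = 8 →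
      a4 = 4 ∨ a4 = 8 → a5 = 4 ∨ a5 = 8 → a6 = 4 ∨ a6 = 8 → 0 ≤ del a1 a2 a3 a4 a5 a6 := by
    rintro _ _ _ _ _ _ (rfl | rfl) (rfl | rfl) (rfl | rfl) (rfl | rfl) (rfl | rfl) (rfl | rfl) <;>
      norm_num [del]
  have k1 : ∀ a2 a3 a4 a5 a6 : ℝ, a2 = 4 ∨ a2 = 8 → a3 = 4 ∨ a3 = 8 →
      a4 = 4 ∨ a4 = 8 → a5 = 4 ∨ a5 = 8 → a6 = 4 ∨ a6 = 8 → 0 ≤ del x1 a2 a3 a4 a5 a6 := by
    intro a2 a3 a4 a5 a6 b2 b3 b4 b5 b6
    rw [← sy4]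
    exact st4' (g b4) h1 h1' (by rw [sy4]; exact k0 _ _ _ _ _ _ l b2 b3 b4 b5 b6)
      (by rw [sy4]; exact k0 _ _ _ _ _ _ u b2 b3 b4 b5 b6)
  have k2 : ∀ a3 a4 a5 a6 : ℝ, a3 = 4 ∨ a3 = 8 →
      a4 = 4 ∨ a4 = 8 → a5 = 4 ∨ a5 = 8 → a6 = 4 ∨ a6 = 8 → 0 ≤ del x1 x2 a3 a4 a5 a6 := by
    intro a3 a4 a5 a6 b3 b4 b5 b6
    rw [← sy5]
    exact st4' (g b5) h2 h2' (by rw [sy5]; exact k1 _ _ _ _ _ l b3 b4 b5 b6)
      (by rw [sy5]; exact k1 _ _ _ _ _ u b3 b4 b5 b6)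
  have k3 : ∀ a4 a5 a6 : ℝ,
      a4 = 4 ∨ a4 = 8 → a5 = 4 ∨ a5 = 8 → a6 = 4 ∨ a6 = 8 → 0 ≤ del x1 x2 x3 a4 a5 a6 := by
    intro a4 a5 a6 b4 b5 b6
    rw [← sy6]
    exact st4' (g b6) h3 h3' (by rw [sy6]; exact k2 _ _ _ _ l b4 b5 b6)
      (by rw [sy6]; exact k2 _ _ _ _ u b4 b5 b6)
  have k5 : ∀ a4 a6 : ℝ, a4 = 4 ∨ a4 = 8 → a6 = 4 ∨ a6 = 8 → 0 ≤ del x1 x2 x3 a4 x5 a6 := by
    intro a4 a6 b4 b6
    rw [← sy2 x1 x2 x3 a4 x5 a6]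
    exact st4' h2 h5 h5' (by rw [sy2 x1 x2 x3 a4 4 a6]; exact k3 _ _ _ b4 l b6)
      (by rw [sy2 x1 x2 x3 a4 8 a6]; exact k3 _ _ _ b4 u b6)
  have k6 : ∀ a4 : ℝ, a4 = 4 ∨ a4 = 8 → 0 ≤ del x1 x2 x3 a4 x5 x6 := by
    intro a4 b4
    rw [← sy3 x1 x2 x3 a4 x5 x6]
    exact st4' h3 h6 h6' (by rw [sy3 x1 x2 x3 a4 x5 4]; exact k5 _ _ b4 l)
      (by rw [sy3 x1 x2 x3 a4 x5 8]; exact k5 _ _ b4 u)
  exact st4' h1 h4 h4' (k6 _ l) (k6 _ u)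

theorem del_pos {x1 x2 x3 z x5 x6 : ℝ} (h1 : 4 ≤ x1) (h1' : x1 ≤ 8) (h2 : 4 ≤ x2)
    (h2' : x2 ≤ 8) (h3 : 4 ≤ x3) (h3' : x3 ≤ 8) (hz : 4 < z) (hz' : z < 8) (h5 : 4 ≤ x5)
    (h5' : x5 ≤ 8) (h6 : 4 ≤ x6) (h6' : x6 ≤ 8) : 0 < del x1 x2 x3 z x5 x6 :=
  lt_of_lt_of_le (mul_pos (by linarith) (mul_pos (sub_pos.2 hz) (sub_pos.2 hz')))
    (st4 hz.le hz'.le
      (del_nonneg h1 h1' h2 h2' h3 h3' le_rfl (by norm_num) h5 h5' h6 h6')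
      (del_nonneg h1 h1' h2 h2' h3 h3' (by norm_num) le_rfl h5 h5' h6 h6'))

/-- necessary conditions at a local minimum. -/
theorem sec {g g1 : ℝ → ℝ} {g2 z : ℝ} (h1 : ∀ᶠ t in 𝓝 z, HasDerivAt g (g1 t) t)
    (h2 : HasDerivAt g1 g2 z) (hm : IsLocalMin g z) : g1 z = 0 ∧ 0 ≤ g2 := by
  have a := hm.hasDerivAt_eq_zero h1.self_of_nhds
  refine ⟨a, not_lt.1 fun hn => ?_⟩
  have e : deriv g =ᶠ[𝓝 z] g1 := h1.mono fun t ht => ht.deriv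
  have e2 : deriv (deriv g) z = g2 := by rw [e.deriv_eq, h2.deriv]
  have hM := isLocalMax_of_deriv_deriv_neg (f := g) (x₀ := z) (by rwa [e2])
    (by rw [e.self_of_nhds, a]) h1.self_of_nhds.continuousAt
  have c : g =ᶠ[𝓝 z] fun _ => g z := (hm.and hM).mono fun t ht => le_antisymm ht.2 ht.1
  have c2 := c.deriv.deriv_eq
  rw [e2] at c2
  simp only [deriv_const', deriv_const] at c2
  linarith

theorem dq {n u : ℝ → ℝ} {n' u' z : ℝ} (hn : HasDerivAt n n' z) (hu : HasDerivAt u u' z)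
    (h : u z ≠ 0) : HasDerivAt (fun t => -n t / u t) (-n' / u z + n z * u' / u z ^ 2) z := by
  refine (hn.fun_neg.fun_div hu h).congr_deriv ?_
  field_simp
  ring

theorem isq {z : ℝ} (hz : 0 < z) : HasDerivAt (fun t : ℝ => (√t)⁻¹) (-(2 * z * √z)⁻¹) z := by
  have hs : 0 < √z := Real.sqrt_pos.2 hz
  refine ((Real.hasDerivAt_sqrt hz.ne').fun_inv hs.ne').congr_deriv ?_
  rw [Real.sq_sqrt hz.le]
  field_simp

theorem cub (p q z : ℝ) : HasDerivAt (fun t : ℝ => p + q * t ^ 3) (3 * q * z ^ 2) z := by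
  refine ((((hasDerivAt_id' z).fun_pow 3).const_mul q).const_add p).congr_deriv ?_
  simp only [Nat.cast_ofNat, Nat.add_one_sub_one]
  ring

/-- the numerator of the first derivative. -/
noncomputable def ff (c1 c2 c3 c5 c6 p q x1 x2 x3 x5 x6 t : ℝ) : ℝ :=
  del4 x1 x2 x3 t x5 x6 / 24 - c1 * √x1 -
    c2 * √x2 * (-del4 x3 x1 x2 x6 t x5 / up x2 x3 t) -
    c3 * √x3 * (-del4 x2 x1 x3 x5 t x6 / up x2 x3 t) -
    c5 * √x5 * (-del4 x6 x1 x5 x3 t x2 / up t x5 x6) -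
    c6 * √x6 * (-del4 x5 x1 x6 x2 t x3 / up t x5 x6) +
    (p + q * t ^ 3) * (√t)⁻¹ * (x1 + x2 * (-del4 x3 x1 x2 x6 t x5 / up x2 x3 t) +
      x3 * (-del4 x2 x1 x3 x5 t x6 / up x2 x3 t) + x5 * (-del4 x6 x1 x5 x3 t x2 / up t x5 x6) +
      x6 * (-del4 x5 x1 x6 x2 t x3 / up t x5 x6))

theorem first {k c1 c2 c3 c5 c6 p q x1 x2 x3 z x5 x6 : ℝ} (h1 : 0 < x1) (h2 : 0 < x2)
    (h3 : 0 < x3) (hz : 0 < z) (h5 : 0 < x5) (h6 : 0 < x6) (hd : 0 < del x1 x2 x3 z x5 x6)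
    (hu : up x2 x3 z ≠ 0) (hv : up z x5 x6 ≠ 0) :
    HasDerivAt (fun t => √(del x1 x2 x3 t x5 x6) / 12 + k - c1 * dih x1 x2 x3 t x5 x6 -
      c2 * dih x2 x1 x3 x5 t x6 - c3 * dih x3 x1 x2 x6 t x5 -
      (p + q * t ^ 3) * dih t x2 x6 x1 x5 x3 - c5 * dih x5 x1 x6 x2 t x3 -
      c6 * dih x6 x1 x5 x3 t x2)
      (ff c1 c2 c3 c5 c6 p q x1 x2 x3 x5 x6 z / √(del x1 x2 x3 z x5 x6) -
        3 * q * z ^ 2 * dih z x2 x6 x1 x5 x3) z := by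
  have h := (((((((((d_del x1 x2 x3 z x5 x6).sqrt hd.ne').div_const 12).add_const k).fun_sub
    ((d1 h1 hd).const_mul c1)).fun_sub ((d2 h2 hd hu).const_mul c2)).fun_sub
    ((d3 h3 hd hu).const_mul c3)).fun_sub ((cub p q z).fun_mul (d4 hz hd hu hv))).fun_sub
    ((d5 h5 hd hv).const_mul c5)).fun_sub ((d6 h6 hd hv).const_mul c6)
  refine h.congr_deriv ?_
  unfold ff sch
  ring

theorem second {c1 c2 c3 c5 c6 p q x1 x2 x3 z x5 x6 : ℝ} (r : ℝ) (hz : 0 < z)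
    (hu : up x2 x3 z ≠ 0) (hv : up z x5 x6 ≠ 0) :
    ∃ F', HasDerivAt (ff c1 c2 c3 c5 c6 p q x1 x2 x3 x5 x6) F' z ∧
      qq x1 x2 x3 z x5 x6 c1 c2 c3 (p + q * z ^ 3) c5 c6 (3 * q * z ^ 2) r =
        2 * del x1 x2 x3 z x5 x6 * F' -
          ff c1 c2 c3 c5 c6 p q x1 x2 x3 x5 x6 z * del4 x1 x2 x3 z x5 x6 +
          2 * del x1 x2 x3 z x5 x6 * (3 * q * z ^ 2) * sch x1 x2 x3 z x5 x6 / √z -
          2 * del x1 x2 x3 z x5 x6 * r * ff c1 c2 c3 c5 c6 p q x1 x2 x3 x5 x6 z := by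
  have a0 : HasDerivAt (fun t => del4 x1 x2 x3 t x5 x6) (-2 * x1) z :=
    quad 0 (-2 * x1) (del4 x1 x2 x3 0 x5 x6) (fun t => by unfold del4; ring) (by ring)
  have aU : HasDerivAt (fun t => up x2 x3 t) (2 * (x2 + x3 - z)) z :=
    quad (-1) (2 * (x2 + x3)) (up x2 x3 0) (fun t => by unfold up; ring) (by ring)
  have aV : HasDerivAt (fun t => up t x5 x6) (2 * (x5 + x6 - z)) z :=
    quad (-1) (2 * (x5 + x6)) (up 0 x5 x6) (fun t => by unfold up; ring) (by ring)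
  have r2 := dq (quad (F := fun t => del4 x3 x1 x2 x6 t x5) (d := x1 + x3 - x5) 0 (x1 + x3 - x5)
    (del4 x3 x1 x2 x6 0 x5) (fun t => by unfold del4; ring) (by ring)) aU hu
  have r3 := dq (quad (F := fun t => del4 x2 x1 x3 x5 t x6) (d := x1 + x2 - x6) 0 (x1 + x2 - x6)
    (del4 x2 x1 x3 x5 0 x6) (fun t => by unfold del4; ring) (by ring)) aU hu
  have r5 := dq (quad (F := fun t => del4 x6 x1 x5 x3 t x2) (d := x1 + x6 - x2) 0 (x1 + x6 - x2)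
    (del4 x6 x1 x5 x3 0 x2) (fun t => by unfold del4; ring) (by ring)) aV hv
  have r6 := dq (quad (F := fun t => del4 x5 x1 x6 x2 t x3) (d := x1 + x5 - x3) 0 (x1 + x5 - x3)
    (del4 x5 x1 x6 x2 0 x3) (fun t => by unfold del4; ring) (by ring)) aV hv
  refine ⟨_, ((((((a0.div_const 24).sub_const (c1 * √x1)).fun_sub
    (r2.const_mul (c2 * √x2))).fun_sub (r3.const_mul (c3 * √x3))).fun_sub
    (r5.const_mul (c5 * √x5))).fun_sub (r6.const_mul (c6 * √x6))).fun_add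
    (((cub p q z).fun_mul (isq hz)).fun_mul (((((r2.const_mul x2).const_add x1).fun_add
      (r3.const_mul x3)).fun_add (r5.const_mul x5)).fun_add (r6.const_mul x6))), ?_⟩
  have e0 := disc x1 x2 x3 z x5 x6
  have e2 : del4 x3 x1 x2 x6 z x5 * del4 x1 x2 x3 z x5 x6 -
      2 * (x1 + x3 - x5) * del x1 x2 x3 z x5 x6 = -del4 x2 x1 x3 x5 z x6 * up x1 x3 x5 := by
    unfold del del4 up; ring
  have e3 : del4 x2 x1 x3 x5 z x6 * del4 x1 x2 x3 z x5 x6 -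
      2 * (x1 + x2 - x6) * del x1 x2 x3 z x5 x6 = -del4 x3 x1 x2 x6 z x5 * up x1 x2 x6 := by
    unfold del del4 up; ring
  have e5 : del4 x6 x1 x5 x3 z x2 * del4 x1 x2 x3 z x5 x6 -
      2 * (x1 + x6 - x2) * del x1 x2 x3 z x5 x6 = -del4 x5 x1 x6 x2 z x3 * up x1 x2 x6 := by
    unfold del del4 up; ring
  have e6 : del4 x5 x1 x6 x2 z x3 * del4 x1 x2 x3 z x5 x6 -
      2 * (x1 + x5 - x3) * del x1 x2 x3 z x5 x6 = -del4 x6 x1 x5 x3 z x2 * up x1 x3 x5 := by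
    unfold del del4 up; ring
  have s3 : del4 x2 x3 x1 x5 x6 z = del4 x2 x1 x3 x5 z x6 := by unfold del4; ring
  have s6 : del4 x5 x3 z x2 x6 x1 = del4 x5 x1 x6 x2 z x3 := by unfold del4; ring
  unfold qq qr ff sch
  simp only [uu_up, s3, s6]
  generalize p + q * z ^ 3 = W at *
  generalize 3 * q * z ^ 2 = d at *
  generalize del x1 x2 x3 z x5 x6 = D at *
  generalize del4 x1 x2 x3 z x5 x6 = D4 at *
  generalize del4 x3 x1 x2 x6 z x5 = n2 at *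
  generalize del4 x2 x1 x3 x5 z x6 = n3 at *
  generalize del4 x6 x1 x5 x3 z x2 = n5 at *
  generalize del4 x5 x1 x6 x2 z x3 = n6 at *
  generalize up x2 x3 z = U at *
  generalize up z x5 x6 = V at *
  generalize up x1 x2 x6 = a at *
  generalize up x1 x3 x5 = b at *
  linear_combination (1 / 24) * e0 + ((c2 * √x2 - W / √z * x2) / U) * e2 +
    ((c3 * √x3 - W / √z * x3) / U) * e3 + ((c5 * √x5 - W / √z * x5) / V) * e5 +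
    ((c6 * √x6 - W / √z * x6) / V) * e6

end NoMin

open NoMin in
theorem noMin (k c1 c2 c3 c5 c6 p q x1 x2 x3 z x5 x6 r : ℝ) (h1 : 4 ≤ x1) (h1' : x1 ≤ 8)
    (h2 : 4 ≤ x2) (h2' : x2 ≤ 8) (h3 : 4 ≤ x3) (h3' : x3 ≤ 8) (hz : 4 < z) (hz' : z < 8)
    (h5 : 4 ≤ x5) (h5' : x5 ≤ 8) (h6 : 4 ≤ x6) (h6' : x6 ≤ 8)
    (hr : r * (3 * q * z ^ 2) * z ≤ 2 * (3 * q * z ^ 2))
    (hq : qq x1 x2 x3 z x5 x6 c1 c2 c3 (p + q * z ^ 3) c5 c6 (3 * q * z ^ 2) r < 0) :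
    ¬ IsLocalMin (fun t => br k ![c1, c2, c3, p + q * t ^ 3, c5, c6] ![x1, x2, x3, t, x5, x6])
      z := by
  intro hm
  have p1 : 0 < x1 := by linarith
  have p2 : 0 < x2 := by linarith
  have p3 : 0 < x3 := by linarith
  have p5 : 0 < x5 := by linarith
  have p6 : 0 < x6 := by linarith
  have pz : 0 < z := by linarith
  have ev : ∀ᶠ t in 𝓝 z, 0 < t ∧ 0 < del x1 x2 x3 t x5 x6 ∧ up x2 x3 t ≠ 0 ∧ up t x5 x6 ≠ 0 :=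
    (eventually_of_mem (Ioo_mem_nhds hz hz')) fun t ht =>
      ⟨by linarith [ht.1], del_pos h1 h1' h2 h2' h3 h3' ht.1 ht.2 h5 h5' h6 h6',
        (up_pos h2 h2' h3 h3' ht.1.le ht.2.le).ne', (up_pos ht.1.le ht.2.le h5 h5' h6 h6').ne'⟩
  have hm' : IsLocalMin (fun t => √(del x1 x2 x3 t x5 x6) / 12 + k - c1 * dih x1 x2 x3 t x5 x6 -
      c2 * dih x2 x1 x3 x5 t x6 - c3 * dih x3 x1 x2 x6 t x5 -
      (p + q * t ^ 3) * dih t x2 x6 x1 x5 x3 - c5 * dih x5 x1 x6 x2 t x3 -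
      c6 * dih x6 x1 x5 x3 t x2) z := by
    refine hm.congr (ev.mono fun t ht => ?_)
    obtain ⟨pt, hd, -, -⟩ := ht
    beta_reduce
    rw [← dic_eq p1 hd, ← dic_eq p2 ((sy2 x1 x2 x3 t x5 x6).symm ▸ hd),
      ← dic_eq p3 ((sy3 x1 x2 x3 t x5 x6).symm ▸ hd), ← dic_eq pt ((sy4 x1 x2 x3 t x5 x6).symm ▸ hd),
      ← dic_eq p5 ((sy5 x1 x2 x3 t x5 x6).symm ▸ hd), ← dic_eq p6 ((sy6 x1 x2 x3 t x5 x6).symm ▸ hd)]
    rfl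
  obtain ⟨-, hd, hu, hv⟩ := ev.self_of_nhds
  obtain ⟨F', hF, e⟩ := second (c1 := c1) (c2 := c2) (c3 := c3) (c5 := c5) (c6 := c6) (p := p)
    (q := q) (x1 := x1) r pz hu hv
  have hs : 0 < √(del x1 x2 x3 z x5 x6) := Real.sqrt_pos.2 hd
  have hc : HasDerivAt (fun t : ℝ => 3 * q * t ^ 2) (6 * q * z) z :=
    quad (3 * q) 0 0 (fun t => by ring) (by ring)
  obtain ⟨a, b⟩ := sec (ev.mono fun t ht => first p1 p2 p3 ht.1 p5 p6 ht.2.1 ht.2.2.1 ht.2.2.2)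
    ((hF.fun_div ((d_del x1 x2 x3 z x5 x6).sqrt hd.ne') hs.ne').fun_sub
      (hc.fun_mul (d4 pz hd hu hv))) hm'
  have θ0 : 0 ≤ dih z x2 x6 x1 x5 x3 := by
    rw [← dic_eq pz ((sy4 x1 x2 x3 z x5 x6).symm ▸ hd)]
    exact arccos_nonneg _
  have hr' : 0 ≤ 6 * q * z - r * (3 * q * z ^ 2) := by
    refine le_of_mul_le_mul_right ?_ pz
    linarith
  have s2 : √(del x1 x2 x3 z x5 x6) ^ 2 = del x1 x2 x3 z x5 x6 := Real.sq_sqrt hd.le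
  rw [e] at hq
  generalize ff c1 c2 c3 c5 c6 p q x1 x2 x3 x5 x6 z = F at *
  generalize dih z x2 x6 x1 x5 x3 = θ at *
  generalize sch x1 x2 x3 z x5 x6 = S at *
  generalize del4 x1 x2 x3 z x5 x6 = D4 at *
  generalize √(del x1 x2 x3 z x5 x6) = s at *
  generalize del x1 x2 x3 z x5 x6 = D at *
  generalize 3 * q * z ^ 2 = d at *
  generalize 6 * q * z = d' at *
  generalize √z = y at *
  subst s2
  have k1 := mul_nonneg (by positivity : 0 ≤ 2 * s ^ 3) b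
  have k2 := mul_nonneg (mul_nonneg (by positivity : 0 ≤ 2 * s ^ 3) hr') θ0
  have k3 : F = s * (d * θ) := by
    rw [sub_eq_zero, div_eq_iff hs.ne'] at a
    rw [a]
    ring
  have k4 : 2 * s ^ 3 * ((F' * s - F * (D4 / (2 * s))) / s ^ 2 - (d' * θ + d * (-S / y / s))) =
      2 * s ^ 2 * F' - F * D4 + 2 * s ^ 2 * d * S / y - 2 * s ^ 3 * d' * θ := by
    field_simp
    ring
  rw [k4] at k1
  have k5 : 2 * s ^ 2 * r * F = 2 * s ^ 3 * (r * d) * θ := by rw [k3]; ring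
  linarith

end Pool.Agent.Lib.MP_f3b2fd_co.KN
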