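import Pool.Agent.Lib.MP_f3b2fd_co.KEP.N.Q0
import Pool.Agent.Lib.MP_f3b2fd_co.KEP.N.Q1
import Pool.Agent.Lib.MP_f3b2fd_co.KEP.N.Q2
import Pool.Agent.Lib.MP_f3b2fd_co.KEP.N.Q3
import Pool.Agent.Lib.MP_f3b2fd_co.KEP.N.Q4

/-! The algebraic inequality. -/

namespace Pool.Agent.Lib.MP_f3b2fd_co.KN.AA

theorem qs : QS B0 := qs_of
  (j4 768
   (j4 640
    (j4 576
     (j2 768
      (j6 768
       q0.2.1
       (j3 768
        q2.2.2.1
        (j5 768
         (j2 640
          (j5 640
           (j1 768
            (j3 896
             q1.2.2.2.1
             (j6 896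
              q3.2.2.2.1
              (j1 640
               (j5 576
                (j2 576
                 (j6 960
                  q4.2.2.1
                  q1.1 (by decide +kernel))
                 q4.2.2.2.2.2.1 (by decide +kernel))
                q1.2.2.1 (by decide +kernel))
               q4.2.2.2.1 (by decide +kernel)) (by decide +kernel)) (by decide +kernel))
            q3.2.2.2.2 (by decide +kernel))
           q0.2.2.2.1 (by decide +kernel))
          q0.2.2.2.2 (by decide +kernel))
         q2.2.2.2.1 (by decide +kernel)) (by decide +kernel)) (by decide +kernel))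
      q1.2.2.2.2.2 (by decide +kernel))
     (j2 768
      (j6 768
       q0.2.2.1
       q3.1 (by decide +kernel))
      q2.2.2.2.2 (by decide +kernel)) (by decide +kernel))
    (j2 768
     (j6 768
      q2.2.1
      q2.1 (by decide +kernel))
     q1.2.2.2.2.1 (by decide +kernel)) (by decide +kernel))
   (j4 896
    (j2 768
     (j6 768
      q0.1
      q4.2.1 (by decide +kernel))
     q4.2.2.2.2.1 (by decide +kernel))
    (j5 768
     (j2 768
      (j3 768
       (j6 768
        q4.1
        q3.2.2.1 (by decide +kernel))
       q1.2.1 (by decide +kernel))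
      q4.2.2.2.2.2.2 (by decide +kernel))
     q3.2.1 (by decide +kernel)) (by decide +kernel)) (by decide +kernel))

end Pool.Agent.Lib.MP_f3b2fd_co.KN.AA
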