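import Pool.Agent.Lib.MP_f3b2fd_co.KEP.N.Simd
import Pool.Agent.Lib.MP_f3b2fd_co.KEP.N.Dic
import Pool.Agent.Lib.MP_f3b2fd_co.KEP.A.Const

/-! The values of the cell function at the vertices of the grid of knots: the checker. -/

namespace Pool.Agent.Lib.MP_f3b2fd_co.KS

open Real KA KN

def xs (t : ℕ) : ℕ := [256, 272, 296, 328, 368, 425, 456, 512].getD t 256
def xb (t : ℕ) : ℕ := Nat.shiftLeft (xs t) 32
def rs (t : ℕ) : ℕ :=
  [67108864, 69174233, 72161534, 75962076, 80460701, 86467792, 89565824, 94906265].getD t 0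
def atn (k : ℕ) : ℕ := [13176795, 7778717, 4110060, 2086331, 1047214, 524118, 262123, 131070, 65536,
  32768, 16384, 8192, 4096, 2048, 1024, 512, 256, 128, 64, 32, 16].getD k 0
def ww (j t : ℕ) : ℕ :=
  ([[1283357, 1294961, 1309924, 1325532, 1339037, 1349216, 1351218, 1351218],
    [1283357, 1294961, 1309924, 1325532, 1339037, 1370879, 1370879, 1351218],
    [1283357, 1294961, 1309924, 1325532, 1339037, 1334179, 1334179, 1351218]].getD j []).getD t 0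
def dd (j t : ℕ) : ℕ :=
  ([[518132647855, 518132647855, 518132647855, 518132647855, 518132647855, 518132647855,
      518132647855, 518132647855],
    [518132647855, 518132647855, 518132647855, 518132647855, 518132647855, 0, 0, 518132647855],
    [518132647855, 518132647855, 518132647855, 518132647855, 518132647855, 877371283700,
      877371283700, 518132647855]].getD j []).getD t 0
def i7 (t : ℕ) : ℕ := [0, 0, 0, 0, 0, 0, 0, 1].getD t 0
def i07 (t : ℕ) : ℕ := [1, 0, 0, 0, 0, 0, 0, 1].getD t 0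

/-- lanewise product with a function of the index described by the masks `M`. -/
def mulc (M r : ℕ → ℕ) (V n : ℕ) : ℕ :=
  Nat.rec 0 (fun t ih => Nat.add ih (Nat.mul (Nat.land V (M t)) (r t))) n

def vmax (G a b : ℕ) : ℕ :=
  Nat.sub (Nat.add b (Nat.land a (ge G a b))) (Nat.land b (ge G a b))

/-- upper bound for the angle of `(A - B, S)`. -/
def ang (O G A B S : ℕ) : ℕ :=
  rot O G (fun k => Nat.mul O (atn k)) 21 0
    (Nat.add (Nat.sub (Nat.land A (ge G A B)) (Nat.land B (ge G A B)))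
      (Nat.sub S (Nat.land S (ge G A B))))
    (Nat.add (Nat.land (Nat.add S (Nat.mul O 268435456)) (ge G A B))
      (Nat.sub (Nat.sub B (Nat.land B (ge G A B))) (Nat.sub A (Nat.land A (ge G A B)))))
    (Nat.sub (Nat.mul O 26353606) (Nat.land (Nat.mul O 26353590) (ge G A B)))

def wgt (O G : ℕ) (M : ℕ → ℕ) (z : ℕ) : ℕ :=
  vmax G (vmax G (Nat.add (mulc M (ww 0) z 8) (mulc M (dd 0) O 8))
    (Nat.add (mulc M (ww 1) z 8) (mulc M (dd 1) O 8)))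
    (Nat.add (mulc M (ww 2) z 8) (mulc M (dd 2) O 8))

def edge (O G s : ℕ) (M1 M2 M3 M4 M5 M6 : ℕ → ℕ) : ℕ :=
  wgt O G M1 (ang O G
    (Nat.add (Nat.add (mulc M2 xb (mulc M5 xs O 8) 8) (mulc M3 xb (mulc M6 xs O 8) 8))
      (mulc M1 xb (Nat.add (Nat.add (mulc M2 xs O 8) (mulc M3 xs O 8))
        (Nat.add (mulc M5 xs O 8) (mulc M6 xs O 8))) 8))
    (Nat.add (Nat.add (mulc M2 xb (mulc M3 xs O 8) 8) (mulc M5 xb (mulc M6 xs O 8) 8))
      (mulc M1 xb (Nat.add (mulc M1 xs O 8) (Nat.mul (mulc M4 xs O 8) 2)) 8))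
    (mulc M1 rs s 8))

def pr (O : ℕ) (M N : ℕ → ℕ) : ℕ := mulc M xs (mulc N xs O 8) 8

def dv (O : ℕ) (M1 M2 M3 M4 M5 M6 : ℕ → ℕ) : ℕ :=
  Nat.sub
    (Nat.add (Nat.add
      (Nat.add (mulc M1 xs (Nat.add (pr O M2 M5) (pr O M3 M6)) 8)
        (mulc M4 xs (Nat.add (pr O M2 M5) (pr O M3 M6)) 8))
      (Nat.add (mulc M2 xs (Nat.add (pr O M1 M4) (pr O M3 M6)) 8)
        (mulc M5 xs (Nat.add (pr O M1 M4) (pr O M3 M6)) 8)))
      (Nat.add (mulc M3 xs (Nat.add (pr O M1 M4) (pr O M2 M5)) 8)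
        (mulc M6 xs (Nat.add (pr O M1 M4) (pr O M2 M5)) 8)))
    (Nat.add (Nat.add
      (Nat.add (mulc M1 xs (Nat.add (Nat.add (pr O M1 M4) (pr O M3 M5)) (pr O M2 M6)) 8)
        (mulc M4 xs (Nat.add (Nat.add (pr O M1 M4) (pr O M2 M3)) (pr O M5 M6)) 8))
      (Nat.add (mulc M2 xs (pr O M2 M5) 8) (mulc M5 xs (pr O M2 M5) 8)))
      (Nat.add (mulc M3 xs (pr O M3 M6) 8) (mulc M6 xs (pr O M3 M6) 8)))

def two (O G : ℕ) (M1 M2 M3 : ℕ → ℕ) : ℕ :=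
  Nat.land (Nat.shiftLeft O 55)
    (ge G (Nat.add (Nat.add (mulc M1 i7 O 8) (mulc M2 i7 O 8)) (mulc M3 i7 O 8)) (Nat.mul O 2))

def fin (O G s : ℕ) (M1 M2 M3 M4 M5 M6 : ℕ → ℕ) : ℕ :=
  ge G
    (Nat.add (Nat.add (Nat.add (Nat.mul s 1398101) (Nat.mul O 145546515321113))
      (Nat.add (Nat.add (two O G M1 M2 M6) (two O G M1 M3 M5))
        (Nat.add (two O G M2 M3 M4) (two O G M4 M5 M6))))
      (Nat.land (Nat.shiftLeft O 55) (ge G
        (Nat.add (Nat.add (Nat.add (mulc M1 i07 O 8) (mulc M2 i07 O 8))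
          (Nat.add (mulc M3 i07 O 8) (mulc M4 i07 O 8)))
          (Nat.add (mulc M5 i07 O 8) (mulc M6 i07 O 8))) (Nat.mul O 6))))
    (Nat.add (Nat.add (Nat.add (edge O G s M1 M2 M3 M4 M5 M6) (edge O G s M2 M1 M3 M5 M4 M6))
      (Nat.add (edge O G s M3 M1 M2 M6 M4 M5) (edge O G s M4 M2 M6 M1 M5 M3)))
      (Nat.add (edge O G s M5 M1 M6 M2 M4 M3) (edge O G s M6 M1 M5 M3 M4 M2)))

def chk (O G : ℕ) (M1 M2 M3 M4 M5 M6 : ℕ → ℕ) : Bool :=
  Nat.beq (Nat.sub (Nat.mul O 9223372036854775807)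
    (fin O G (sq O G 27 (Nat.shiftLeft (dv O M1 M2 M3 M4 M5 M6) 22) 0) M1 M2 M3 M4 M5 M6)) 0

def msk (a c t : ℕ) : ℕ :=
  Nat.mul (Nat.mul (pk 64 a fun _ => 1)
    (pk (Nat.mul 64 a) 8 fun i => cond (Nat.beq i t) 9223372036854775807 0))
    (pk (Nat.mul 64 (Nat.mul a 8)) c fun _ => 1)

def one : ℕ := Nat.mul (pk 64 64 fun _ => 1) (pk 4096 64 fun _ => 1)

def cst (O a t : ℕ) : ℕ := cond (Nat.beq a t) (Nat.mul O 9223372036854775807) 0

def run (a b : ℕ) : Bool :=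
  chk one (Nat.shiftLeft one 63) (cst one a) (msk 1 512) (msk 8 64) (cst one b) (msk 64 8)
    (msk 512 1)

/-- the masks `M` describe the index `κ`. -/
def Rep (n : ℕ) (M κ : ℕ → ℕ) : Prop :=
  (∀ t < 8, M t = pk 64 n fun i => if κ i = t then 2 ^ 63 - 1 else 0) ∧ ∀ i < n, κ i < 8

/-- the knots. -/
noncomputable def xr (t : ℕ) : ℝ := xs t / 64

/-- one term of the sum over the edges. -/
noncomputable def tm (j a1 a2 a3 a4 a5 a6 : ℕ) : ℝ :=
  2 ^ 24 * dih (xr a1) (xr a2) (xr a3) (xr a4) (xr a5) (xr a6) * ww j a1 + dd j a1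

/-- the statement at one vertex. -/
def Tab (a1 a2 a3 a4 a5 a6 : ℕ) : Prop :=
  6 ≤ i07 a1 + i07 a2 + (i07 a3 + i07 a4) + (i07 a5 + i07 a6) ∨ 2 ≤ i7 a1 + i7 a2 + i7 a6 ∨
    2 ≤ i7 a1 + i7 a3 + i7 a5 ∨ 2 ≤ i7 a2 + i7 a3 + i7 a4 ∨ 2 ≤ i7 a4 + i7 a5 + i7 a6 ∨
    (0 < del (xr a1) (xr a2) (xr a3) (xr a4) (xr a5) (xr a6) →
      ∀ j1 < 3, ∀ j2 < 3, ∀ j3 < 3, ∀ j4 < 3, ∀ j5 < 3, ∀ j6 < 3,
      tm j1 a1 a2 a3 a4 a5 a6 + tm j2 a2 a1 a3 a5 a4 a6 +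
        (tm j3 a3 a1 a2 a6 a4 a5 + tm j4 a4 a2 a6 a1 a5 a3) +
        (tm j5 a5 a1 a6 a2 a4 a3 + tm j6 a6 a1 a5 a3 a4 a2) ≤
      2 ^ 44 * (√(del (xr a1) (xr a2) (xr a3) (xr a4) (xr a5) (xr a6)) / 12) + 145546515321113)

theorem mulc_pk {n : ℕ} {M κ : ℕ → ℕ} (h : Rep n M κ) (r f : ℕ → ℕ) (hf : ∀ i < n, f i < 2 ^ 63) :
    mulc M r (pk 64 n f) 8 = pk 64 n fun i => f i * r (κ i) := by
  have key : ∀ m ≤ 8, mulc M r (pk 64 n f) m =
      pk 64 n fun i => if κ i < m then f i * r (κ i) else 0 := by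
    intro m
    induction m with
    | zero =>
      intro _
      have := pk_mul 64 n 0 f
      simp only [mul_zero] at this
      simp only [Nat.not_lt_zero, if_false]
      exact this
    | succ m ih =>
      intro hm
      show mulc M r _ m + (_ &&& M m) * r m = _
      rw [ih (by omega), h.1 m (by omega), and_sel _ _ _ hf, pk_mul, pk_add]
      refine pk_congr _ _ _ _ fun i _ => ?_
      rcases lt_trichotomy (κ i) m with e | e | e
      · rw [if_pos e, if_neg e.ne, if_pos (by omega), zero_mul, add_zero]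
      · rw [if_neg (by omega), if_pos e, if_pos (by omega), zero_add, e]
      · rw [if_neg (by omega), if_neg e.ne', if_neg (by omega), zero_mul, add_zero]
  rw [key 8 le_rfl]
  exact pk_congr _ _ _ _ fun i hi => if_pos (h.2 i hi)

theorem val_pk {n : ℕ} {M κ : ℕ → ℕ} (h : Rep n M κ) (r : ℕ → ℕ) :
    mulc M r (pk 64 n fun _ => 1) 8 = pk 64 n fun i => r (κ i) := by
  rw [mulc_pk h r _ fun _ _ => by norm_num]
  exact pk_congr _ _ _ _ fun _ _ => one_mul _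

theorem vmax_pk (n : ℕ) (f g : ℕ → ℕ) (h : ∀ i < n, f i < 2 ^ 63 ∧ g i < 2 ^ 63) :
    vmax (pk 64 n fun _ => 2 ^ 63) (pk 64 n f) (pk 64 n g) = pk 64 n fun i => max (f i) (g i) := by
  show _ + (_ &&& ge _ _ _) - (_ &&& ge _ _ _) = _
  rw [ge_pk _ _ _ h, and_sel _ _ _ fun i hi => (h i hi).1, and_sel _ _ _ fun i hi => (h i hi).2,
    pk_add, pk_sub _ _ _ _ fun i _ => by split_ifs <;> omega]
  exact pk_congr _ _ _ _ fun i _ => by split_ifs <;> omega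

theorem atn_ok : ∀ j, 1 ≤ j → j < 21 → (2 : ℝ) ^ 24 * arctan (1 / 2 ^ j) ≤ atn j := by
  intro j h1 h2
  rcases lt_or_ge j 8 with h | h
  · have := Const.atan_hi (x := 1 / 2 ^ j) (by positivity)
      (by rw [div_lt_one (by positivity)]; exact one_lt_pow₀ one_lt_two (by omega)) 7
    refine (mul_le_mul_of_nonneg_left this (by positivity)).trans ?_
    simp only [Finset.sum_range_succ, Finset.sum_range_zero]
    interval_cases j <;> norm_num [atn]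
  · refine (mul_le_mul_of_nonneg_left (atan_le (1 / 2 ^ j) (by positivity))
      (by positivity)).trans ?_
    interval_cases j <;> norm_num [atn]

theorem first (x y : ℕ) (hy : 0 < y) : (2 : ℝ) ^ 24 * (π / 2 - arctan (x / y)) ≤
    ((if x ≤ y then 1 * atn 0 else 0 : ℕ) : ℝ) + 2 ^ 24 *
      arctan ((((y - if x ≤ y then x else 0) * 2 ^ 1 : ℕ) : ℝ) /
        (2 ^ 1 * ((x + if x ≤ y then y / 2 ^ (2 * 0) else 0 : ℕ) : ℝ))) := by
  have y0 : (0 : ℝ) < y := by exact_mod_cast hy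
  have x0 : (0 : ℝ) ≤ x := Nat.cast_nonneg x
  split_ifs with e
  · have e' : (x : ℝ) ≤ y := by exact_mod_cast e
    have := atan_turn 1 (x + y) (x + y) (x + y) one_pos (by positivity) (by linarith)
      (by positivity) (by linarith)
    have a := arctan_add (x := x / y) (y := (y - x) / (x + y)) (by
      rw [div_mul_div_comm, div_lt_one (by positivity)]
      nlinarith)
    rw [show ((x : ℝ) / y + (y - x) / (x + y)) / (1 - x / y * ((y - x) / (x + y))) = 1 by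
      rw [div_eq_one_iff_eq]
      · field_simp; ring
      · rw [div_mul_div_comm, sub_ne_zero]
        exact ((div_lt_one (by positivity)).2 (by nlinarith)).ne', arctan_one] at a
    simp only [mul_zero, pow_zero, Nat.div_one, pow_one, atn]
    push_cast [Nat.cast_sub e]
    rw [show ((y : ℝ) - x) * 2 / (2 * (x + y)) = (y - x) / (x + y) by field_simp]
    norm_num
    linarith [pi_lt_d20]
  · have e' : (y : ℝ) < x := by exact_mod_cast not_le.1 e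
    have x1 : (0 : ℝ) < x := by linarith
    simp only [add_zero, Nat.sub_zero, pow_one]
    push_cast
    rw [← arctan_inv_of_pos (by positivity), inv_div,
      show (y : ℝ) * 2 / (2 * x) = y / x by field_simp, zero_add]

theorem ang_pk (n : ℕ) (A B S : ℕ → ℕ) (h : ∀ i < n, A i < 2 ^ 55 ∧ B i < 2 ^ 55 ∧ S i < 2 ^ 55) :
    ∃ z : ℕ → ℕ, ang (pk 64 n fun _ => 1) (pk 64 n fun _ => 2 ^ 63) (pk 64 n A) (pk 64 n B)
      (pk 64 n S) = pk 64 n z ∧ ∀ i < n, z i < 2 ^ 26 ∧ ∀ R : ℝ, 0 < R → S i ≤ R →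
        R ≤ S i + 268435456 → 2 ^ 24 * (π / 2 - arctan ((A i - B i) / R)) ≤ z i := by
  set x : ℕ → ℕ := fun i => if B i ≤ A i then A i - B i else S i with hx
  set y : ℕ → ℕ := fun i => if B i ≤ A i then S i + 268435456 else B i - A i with hy
  set z : ℕ → ℕ := fun i => if B i ≤ A i then 16 else 26353606 with hz
  have b : ∀ i < n, x i < 2 ^ 55 ∧ y i < 2 ^ 56 ∧ 0 < y i := fun i hi => by
    have := h i hi
    simp only [hx, hy]
    split_ifs <;> omega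
  obtain ⟨z', e, H⟩ := rot_pk n (fun k => Nat.mul (pk 64 n fun _ => 1) (atn k))
    (fun k _ => 1 * atn k) (fun _ => 2 ^ 24) 20 1 le_rfl (by norm_num)
    (fun j h1 h2 => ⟨pk_mul _ _ _ _, fun _ _ => ⟨by interval_cases j <;> decide,
      by rw [one_mul]; exact atn_ok j h1 h2⟩⟩) (fun _ _ => by positivity)
    (fun i => x i + if x i ≤ y i then y i / 2 ^ (2 * 0) else 0)
    (fun i => (y i - if x i ≤ y i then x i else 0) * 2 ^ 1)
    (fun i => z i + if x i ≤ y i then 1 * atn 0 else 0)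
    fun i hi => by have := b i hi; split_ifs <;> omega
  refine ⟨z', Eq.trans ?_ (Eq.trans (rot_succ n 20 0 (by norm_num) _ (fun _ => 1 * atn 0) x y z
    (pk_mul _ _ _ _) fun i hi => ⟨by have := b i hi; omega, by have := b i hi; omega, by decide⟩)
    e), fun i hi => ⟨?_, fun R r0 r1 r2 => ?_⟩⟩
  · show rot _ _ _ 21 0 ((_ &&& ge _ _ _) - (_ &&& ge _ _ _) + (_ - (_ &&& ge _ _ _)))
      (((_ + _ * _) &&& ge _ _ _) + (_ - (_ &&& ge _ _ _) - (_ - (_ &&& ge _ _ _))))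
      (_ * _ - ((_ * _) &&& ge _ _ _)) = _
    rw [ge_pk _ _ _ fun i hi => by have := h i hi; omega, pk_mul, pk_mul, pk_mul, pk_add,
      and_sel _ A _ fun i hi => by have := h i hi; omega,
      and_sel _ B _ fun i hi => by have := h i hi; omega,
      and_sel _ S _ fun i hi => by have := h i hi; omega,
      and_sel _ _ _ fun i hi => by have := h i hi; omega,
      and_sel _ _ _ fun i hi => by norm_num,
      pk_sub _ _ _ _ fun i _ => by split_ifs <;> omega,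
      pk_sub _ _ _ _ fun i _ => by split_ifs <;> omega,
      pk_sub _ _ _ _ fun i _ => by split_ifs <;> omega,
      pk_sub _ _ _ _ fun i _ => by split_ifs <;> omega,
      pk_sub _ _ _ _ fun i _ => by split_ifs <;> omega,
      pk_sub _ _ _ _ fun i _ => by split_ifs <;> omega, pk_add, pk_add]
    congr 1 <;> refine pk_congr _ _ _ _ fun i _ => ?_ <;> simp only [hx, hy, hz] <;>
      split_ifs <;> omega
  · have h1 := (H i hi).1
    have h2 : ∑ j ∈ Finset.Ico 1 (1 + 20), 1 * atn j = 16070689 := by decide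
    have h3 : atn 0 = 13176795 := rfl
    have h4 : z i ≤ 26353606 := by simp only [hz]; split_ifs <;> omega
    split_ifs at h1 <;> omega
  · have h1 := (H i hi).2
    have h2 := first (x i) (y i) (b i hi).2.2
    rw [Nat.cast_add] at h1
    have h3 : 2 ^ 24 * (π / 2 - arctan ((A i - B i) / R)) + 16 ≤
        z i + 2 ^ 24 * (π / 2 - arctan (x i / y i)) := by
      simp only [hx, hy, hz]
      split_ifs with c
      · have c' : (0 : ℝ) ≤ A i - B i := by rw [sub_nonneg]; exact_mod_cast c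
        have := arctan_mono (div_le_div_of_nonneg_left c' r0 r2)
        push_cast [Nat.cast_sub c]
        linarith
      · have c0 := not_le.1 c
        have c' : (0 : ℝ) < B i - A i := by rw [sub_pos]; exact_mod_cast c0
        have e1 := arctan_inv_of_pos (div_pos r0 c')
        have e2 := arctan_mono (div_le_div_of_nonneg_right r1 c'.le)
        rw [inv_div] at e1
        rw [← neg_sub (B i : ℝ), neg_div, arctan_neg]
        push_cast [Nat.cast_sub c0.le]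
        linarith [pi_lt_d20]
    norm_num at h1 h2 h3 ⊢
    linarith

theorem tb1 : ∀ t < 8, 256 ≤ xs t ∧ xs t ≤ 512 ∧ xb t = xs t * 2 ^ 32 ∧ rs t < 2 ^ 27 ∧
    rs t ^ 2 ≤ xs t * 2 ^ 44 ∧ xs t * 2 ^ 44 ≤ (rs t + 1) ^ 2 ∧ i7 t ≤ 1 ∧ i07 t ≤ 1 := by decide

theorem tb2 : ∀ j < 3, ∀ t < 8, ww j t < 2 ^ 21 ∧ dd j t < 2 ^ 40 := by decide

theorem wgt_pk {n : ℕ} {M κ : ℕ → ℕ} (h : Rep n M κ) (z : ℕ → ℕ) (hz : ∀ i < n, z i < 2 ^ 26) :
    ∃ e : ℕ → ℕ, wgt (pk 64 n fun _ => 1) (pk 64 n fun _ => 2 ^ 63) M (pk 64 n z) = pk 64 n e ∧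
      ∀ i < n, e i < 2 ^ 48 ∧ ∀ j < 3, z i * ww j (κ i) + dd j (κ i) ≤ e i := by
  have b : ∀ i < n, ∀ j < 3, z i * ww j (κ i) + dd j (κ i) < 2 ^ 48 := fun i hi j hj => by
    have := tb2 j hj _ (h.2 i hi)
    have := Nat.mul_le_mul (hz i hi).le this.1.le
    omega
  have hz' : ∀ i < n, z i < 2 ^ 63 := fun i hi => by have := hz i hi; omega
  refine ⟨fun i => max (max (z i * ww 0 (κ i) + dd 0 (κ i)) (z i * ww 1 (κ i) + dd 1 (κ i)))
    (z i * ww 2 (κ i) + dd 2 (κ i)), ?_, fun i hi => ?_⟩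
  · show vmax _ (vmax _ (_ + _) (_ + _)) (_ + _) = _
    rw [val_pk h, val_pk h, val_pk h, mulc_pk h _ _ hz', mulc_pk h _ _ hz', mulc_pk h _ _ hz',
      pk_add, pk_add, pk_add, vmax_pk, vmax_pk] <;> intro i hi <;>
      have := b i hi 0 (by omega) <;> have := b i hi 1 (by omega) <;>
      have := b i hi 2 (by omega) <;> omega
  · have := b i hi 0 (by omega)
    have := b i hi 1 (by omega)
    have := b i hi 2 (by omega)
    beta_reduce
    exact ⟨by omega, fun j hj => by interval_cases j <;> omega⟩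

theorem xr_mem {t : ℕ} (h : t < 8) : 4 ≤ xr t ∧ xr t ≤ 8 := by
  have h1 : (256 : ℝ) ≤ xs t := by exact_mod_cast (tb1 t h).1
  have h2 : (xs t : ℝ) ≤ 512 := by exact_mod_cast (tb1 t h).2.1
  unfold xr
  constructor <;> linarith

theorem edge_pk {n : ℕ} {M1 M2 M3 M4 M5 M6 κ1 κ2 κ3 κ4 κ5 κ6 : ℕ → ℕ} (h1 : Rep n M1 κ1)
    (h2 : Rep n M2 κ2) (h3 : Rep n M3 κ3) (h4 : Rep n M4 κ4) (h5 : Rep n M5 κ5) (h6 : Rep n M6 κ6)
    (s : ℕ → ℕ) (D : ℕ → ℝ)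
    (hD : ∀ i, D i = del (xr (κ1 i)) (xr (κ2 i)) (xr (κ3 i)) (xr (κ4 i)) (xr (κ5 i)) (xr (κ6 i)))
    (hs : ∀ i < n, s i < 2 ^ 27 ∧ (s i : ℝ) ^ 2 ≤ 2 ^ 40 * D i ∧ 2 ^ 40 * D i ≤ (s i + 1) ^ 2) :
    ∃ e : ℕ → ℕ, edge (pk 64 n fun _ => 1) (pk 64 n fun _ => 2 ^ 63) (pk 64 n s)
      M1 M2 M3 M4 M5 M6 = pk 64 n e ∧ ∀ i < n, e i < 2 ^ 48 ∧ (0 < D i → ∀ j < 3,
        tm j (κ1 i) (κ2 i) (κ3 i) (κ4 i) (κ5 i) (κ6 i) ≤ e i) := by
  have t1 := fun i hi => tb1 _ (h1.2 i hi)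
  have t2 := fun i hi => tb1 _ (h2.2 i hi)
  have t3 := fun i hi => tb1 _ (h3.2 i hi)
  have t4 := fun i hi => tb1 _ (h4.2 i hi)
  have t5 := fun i hi => tb1 _ (h5.2 i hi)
  have t6 := fun i hi => tb1 _ (h6.2 i hi)
  obtain ⟨z, e1, hz⟩ := ang_pk n
    (fun i => xs (κ5 i) * xb (κ2 i) + xs (κ6 i) * xb (κ3 i) +
      (xs (κ2 i) + xs (κ3 i) + (xs (κ5 i) + xs (κ6 i))) * xb (κ1 i))
    (fun i => xs (κ3 i) * xb (κ2 i) + xs (κ6 i) * xb (κ5 i) +
      (xs (κ1 i) + xs (κ4 i) * 2) * xb (κ1 i))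
    (fun i => s i * rs (κ1 i)) fun i hi => by
      obtain ⟨-, a1, b1, c1, -⟩ := t1 i hi
      obtain ⟨-, a2, b2, -⟩ := t2 i hi
      obtain ⟨-, a3, b3, -⟩ := t3 i hi
      obtain ⟨-, a4, -⟩ := t4 i hi
      obtain ⟨-, a5, b5, -⟩ := t5 i hi
      obtain ⟨-, a6, -⟩ := t6 i hi
      have q1 : xb (κ1 i) ≤ 2 ^ 41 := by omega
      have q2 : xb (κ2 i) ≤ 2 ^ 41 := by omega
      have q3 : xb (κ3 i) ≤ 2 ^ 41 := by omega
      have q5 : xb (κ5 i) ≤ 2 ^ 41 := by omega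
      have := Nat.mul_le_mul a5 q2
      have := Nat.mul_le_mul a6 q3
      have := Nat.mul_le_mul a3 q2
      have := Nat.mul_le_mul a6 q5
      have := Nat.mul_le_mul
        (by omega : xs (κ2 i) + xs (κ3 i) + (xs (κ5 i) + xs (κ6 i)) ≤ 2048) q1
      have := Nat.mul_le_mul (by omega : xs (κ1 i) + xs (κ4 i) * 2 ≤ 2048) q1
      have := Nat.mul_le_mul (hs i hi).1.le c1.le
      omega
  obtain ⟨e, e2, he⟩ := wgt_pk h1 z fun i hi => (hz i hi).1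
  refine ⟨e, Eq.trans ?_ e2, fun i hi => ⟨(he i hi).1, fun d0 j hj => ?_⟩⟩
  · rw [← e1]
    show wgt _ _ _ (ang _ _ (_ + _ + mulc _ _ (_ + _ + (_ + _)) 8)
      (_ + _ + mulc _ _ (_ + _ * 2) 8) _) = _
    rw [val_pk h1, val_pk h2, val_pk h3, val_pk h4, val_pk h5, val_pk h6, pk_mul, pk_add, pk_add,
      pk_add, pk_add, mulc_pk h1, mulc_pk h1, mulc_pk h1, mulc_pk h2, mulc_pk h2, mulc_pk h3,
      mulc_pk h5, pk_add, pk_add, pk_add, pk_add] <;> intro i hi <;> have := t1 i hi <;>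
      have := t2 i hi <;> have := t3 i hi <;> have := t4 i hi <;> have := t5 i hi <;>
      have := t6 i hi <;> have := (hs i hi).1 <;> omega
  · obtain ⟨-, -, b1, c1, d1, f1, -⟩ := t1 i hi
    obtain ⟨s0, s1, s2⟩ := hs i hi
    have x1 := (xr_mem (h1.2 i hi)).1
    have d1' : (rs (κ1 i) : ℝ) ^ 2 ≤ xs (κ1 i) * 2 ^ 44 := by exact_mod_cast d1
    have f1' : (xs (κ1 i) : ℝ) * 2 ^ 44 ≤ (rs (κ1 i) + 1) ^ 2 := by exact_mod_cast f1
    have c1' : (rs (κ1 i) : ℝ) ≤ 2 ^ 27 := by exact_mod_cast c1.le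
    have s0' : (s i : ℝ) + 1 ≤ 2 ^ 27 := by exact_mod_cast s0
    have p0 : 0 < 4 * xr (κ1 i) * D i := mul_pos (by linarith) d0
    have q : (2 ^ 44 * √(4 * xr (κ1 i) * D i)) ^ 2 = 2 ^ 40 * D i * (xs (κ1 i) * 2 ^ 44) := by
      rw [mul_pow, Real.sq_sqrt p0.le, xr]; ring
    have r0 : 0 < 2 ^ 44 * √(4 * xr (κ1 i) * D i) := mul_pos (by norm_num) (Real.sqrt_pos.2 p0)
    have a := (hz i hi).2 (2 ^ 44 * √(4 * xr (κ1 i) * D i)) r0
      (by
        refine (pow_le_pow_iff_left₀ (Nat.cast_nonneg _) r0.le two_ne_zero).1 ?_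
        rw [q, Nat.cast_mul, mul_pow]
        exact mul_le_mul s1 d1' (sq_nonneg _) (by linarith))
      (by
        refine le_trans (b := ((s i : ℝ) + 1) * (rs (κ1 i) + 1))
          ((pow_le_pow_iff_left₀ r0.le (mul_nonneg (Nat.cast_add_one_pos _).le
            (Nat.cast_add_one_pos _).le) two_ne_zero).1 ?_)
          (by rw [Nat.cast_mul]; linarith)
        rw [q, mul_pow ((s i : ℝ) + 1)]
        exact mul_le_mul s2 f1' (mul_nonneg (Nat.cast_nonneg _) (by norm_num)) (sq_nonneg _))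
    have b : ((z i * ww j (κ1 i) + dd j (κ1 i) : ℕ) : ℝ) ≤ e i := by
      exact_mod_cast (he i hi).2 j hj
    rw [b1, (t2 i hi).2.2.1, (t3 i hi).2.2.1, (t5 i hi).2.2.1] at a
    push_cast at a b
    rw [tm, dih, ← hD i, ← mul_div_mul_left (del4 _ _ _ _ _ _) _ (by norm_num : (2 : ℝ) ^ 44 ≠ 0)]
    refine le_trans (add_le_add_left (mul_le_mul_of_nonneg_right (le_of_eq_of_le ?_ a)
      (Nat.cast_nonneg _)) _) b
    refine congrArg
      (fun t : ℝ => 2 ^ 24 * (π / 2 - arctan (t / (2 ^ 44 * √(4 * xr (κ1 i) * D i))))) ?_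
    simp only [del4, xr]
    ring

theorem dv_pk {n : ℕ} {M1 M2 M3 M4 M5 M6 κ1 κ2 κ3 κ4 κ5 κ6 : ℕ → ℕ} (h1 : Rep n M1 κ1)
    (h2 : Rep n M2 κ2) (h3 : Rep n M3 κ3) (h4 : Rep n M4 κ4) (h5 : Rep n M5 κ5)
    (h6 : Rep n M6 κ6) :
    ∃ d : ℕ → ℕ, dv (pk 64 n fun _ => 1) M1 M2 M3 M4 M5 M6 = pk 64 n d ∧ ∀ i < n, d i < 2 ^ 31 ∧
      (d i : ℝ) = 2 ^ 18 *
        del (xr (κ1 i)) (xr (κ2 i)) (xr (κ3 i)) (xr (κ4 i)) (xr (κ5 i)) (xr (κ6 i)) := by
  have hp : ∀ {M N κ μ : ℕ → ℕ}, Rep n M κ → Rep n N μ →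
      pr (pk 64 n fun _ => 1) M N = pk 64 n fun i => xs (μ i) * xs (κ i) := fun a b => by
    rw [pr, val_pk b, mulc_pk a _ _ fun i hi => by have := tb1 _ (b.2 i hi); omega]
  have hb : ∀ {M N κ μ : ℕ → ℕ}, Rep n M κ → Rep n N μ → ∀ i < n,
      xs (μ i) * xs (κ i) ≤ 2 ^ 18 := fun a b i hi =>
    (Nat.mul_le_mul (tb1 _ (b.2 i hi)).2.1 (tb1 _ (a.2 i hi)).2.1).trans (by norm_num)
  set P : ℕ → ℕ := fun i =>
    (xs (κ5 i) * xs (κ2 i) + xs (κ6 i) * xs (κ3 i)) * xs (κ1 i) +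
      (xs (κ5 i) * xs (κ2 i) + xs (κ6 i) * xs (κ3 i)) * xs (κ4 i) +
      ((xs (κ4 i) * xs (κ1 i) + xs (κ6 i) * xs (κ3 i)) * xs (κ2 i) +
        (xs (κ4 i) * xs (κ1 i) + xs (κ6 i) * xs (κ3 i)) * xs (κ5 i)) +
      ((xs (κ4 i) * xs (κ1 i) + xs (κ5 i) * xs (κ2 i)) * xs (κ3 i) +
        (xs (κ4 i) * xs (κ1 i) + xs (κ5 i) * xs (κ2 i)) * xs (κ6 i)) with hP
  set Q : ℕ → ℕ := fun i =>
    (xs (κ4 i) * xs (κ1 i) + xs (κ5 i) * xs (κ3 i) + xs (κ6 i) * xs (κ2 i)) * xs (κ1 i) +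
      (xs (κ4 i) * xs (κ1 i) + xs (κ3 i) * xs (κ2 i) + xs (κ6 i) * xs (κ5 i)) * xs (κ4 i) +
      (xs (κ5 i) * xs (κ2 i) * xs (κ2 i) + xs (κ5 i) * xs (κ2 i) * xs (κ5 i)) +
      (xs (κ6 i) * xs (κ3 i) * xs (κ3 i) + xs (κ6 i) * xs (κ3 i) * xs (κ6 i)) with hQ
  have e : ∀ i, (P i : ℝ) - Q i = 2 ^ 18 *
      del (xr (κ1 i)) (xr (κ2 i)) (xr (κ3 i)) (xr (κ4 i)) (xr (κ5 i)) (xr (κ6 i)) := fun i => by
    simp only [hP, hQ, del, xr]
    push_cast
    ring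
  have le : ∀ i < n, Q i ≤ P i := fun i hi => by
    have := del_nonneg (xr_mem (h1.2 i hi)) (xr_mem (h2.2 i hi)) (xr_mem (h3.2 i hi))
      (xr_mem (h4.2 i hi)) (xr_mem (h5.2 i hi)) (xr_mem (h6.2 i hi))
    have : (Q i : ℝ) ≤ P i := by linarith [e i]
    exact_mod_cast this
  refine ⟨fun i => P i - Q i, ?_, fun i hi => ⟨?_, by rw [Nat.cast_sub (le i hi), e]⟩⟩
  · show mulc _ _ (_ + _) 8 + mulc _ _ (_ + _) 8 + (mulc _ _ (_ + _) 8 + mulc _ _ (_ + _) 8) +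
      (mulc _ _ (_ + _) 8 + mulc _ _ (_ + _) 8) -
      (mulc _ _ (_ + _ + _) 8 + mulc _ _ (_ + _ + _) 8 + (_ + _) + (_ + _)) = _
    rw [← pk_sub _ _ _ _ le, hp h1 h4, hp h2 h5, hp h3 h6, hp h3 h5, hp h2 h6, hp h2 h3, hp h5 h6,
      pk_add, pk_add, pk_add, pk_add, pk_add, pk_add, pk_add, mulc_pk h1, mulc_pk h1, mulc_pk h4,
      mulc_pk h4, mulc_pk h2, mulc_pk h2, mulc_pk h5, mulc_pk h5, mulc_pk h3, mulc_pk h3,
      mulc_pk h6, mulc_pk h6, pk_add, pk_add, pk_add, pk_add, pk_add, pk_add, pk_add, pk_add,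
      pk_add, pk_add] <;> intro i hi <;> have := hb h1 h4 i hi <;> have := hb h2 h5 i hi <;>
      have := hb h3 h6 i hi <;> have := hb h3 h5 i hi <;> have := hb h2 h6 i hi <;>
      have := hb h2 h3 i hi <;> have := hb h5 h6 i hi <;> omega
  · have a := hb h1 h4 i hi
    have b := hb h2 h5 i hi
    have c := hb h3 h6 i hi
    have := Nat.mul_le_mul (Nat.add_le_add b c) (tb1 _ (h1.2 i hi)).2.1
    have := Nat.mul_le_mul (Nat.add_le_add b c) (tb1 _ (h4.2 i hi)).2.1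
    have := Nat.mul_le_mul (Nat.add_le_add a c) (tb1 _ (h2.2 i hi)).2.1
    have := Nat.mul_le_mul (Nat.add_le_add a c) (tb1 _ (h5.2 i hi)).2.1
    have := Nat.mul_le_mul (Nat.add_le_add a b) (tb1 _ (h3.2 i hi)).2.1
    have := Nat.mul_le_mul (Nat.add_le_add a b) (tb1 _ (h6.2 i hi)).2.1
    have : P i < 2 ^ 31 := by simp only [hP]; omega
    beta_reduce
    omega

theorem two_pk {n : ℕ} {M1 M2 M3 κ1 κ2 κ3 : ℕ → ℕ} (h1 : Rep n M1 κ1) (h2 : Rep n M2 κ2)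
    (h3 : Rep n M3 κ3) : two (pk 64 n fun _ => 1) (pk 64 n fun _ => 2 ^ 63) M1 M2 M3 =
      pk 64 n fun i => if 1 * 2 ≤ i7 (κ1 i) + i7 (κ2 i) + i7 (κ3 i) then 1 * 2 ^ 55 else 0 := by
  show (_ <<< 55) &&& ge _ (_ + _ + _) (_ * 2) = _
  rw [val_pk h1, val_pk h2, val_pk h3, pk_add, pk_add, pk_mul, pk_shl, ge_pk _ _ _ fun i hi => by
    have := tb1 _ (h1.2 i hi); have := tb1 _ (h2.2 i hi); have := tb1 _ (h3.2 i hi); omega,
    and_sel _ _ _ fun _ _ => by norm_num]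

theorem chk_sound {n : ℕ} {M1 M2 M3 M4 M5 M6 κ1 κ2 κ3 κ4 κ5 κ6 : ℕ → ℕ} (h1 : Rep n M1 κ1)
    (h2 : Rep n M2 κ2) (h3 : Rep n M3 κ3) (h4 : Rep n M4 κ4) (h5 : Rep n M5 κ5) (h6 : Rep n M6 κ6)
    (h : chk (pk 64 n fun _ => 1) (pk 64 n fun _ => 2 ^ 63) M1 M2 M3 M4 M5 M6 = true) :
    ∀ i < n, Tab (κ1 i) (κ2 i) (κ3 i) (κ4 i) (κ5 i) (κ6 i) := by
  obtain ⟨d, e0, hd⟩ := dv_pk h1 h2 h3 h4 h5 h6
  obtain ⟨s, e1, hs⟩ := sq_pk n (fun i => d i * 2 ^ 22) 27 (by norm_num) (fun i => d i * 2 ^ 22)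
    (fun _ => 0) fun i hi => by have := (hd i hi).1; omega
  have z0 : pk 64 n (fun _ => 0) = 0 := by
    have := pk_mul 64 n 0 fun _ => 0
    simpa using this.symm
  set D := fun i => del (xr (κ1 i)) (xr (κ2 i)) (xr (κ3 i)) (xr (κ4 i)) (xr (κ5 i)) (xr (κ6 i))
    with hD
  have hs' : ∀ i < n, s i < 2 ^ 27 ∧ (s i : ℝ) ^ 2 ≤ 2 ^ 40 * D i ∧
      2 ^ 40 * D i ≤ (s i + 1) ^ 2 := fun i hi => by
    obtain ⟨a, b⟩ := hs i hi
    obtain ⟨c, e⟩ := hd i hi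
    have a' : (s i : ℝ) ^ 2 ≤ d i * 2 ^ 22 := by exact_mod_cast a
    have b' : (d i : ℝ) * 2 ^ 22 < (s i + 1) ^ 2 := by exact_mod_cast b
    refine ⟨by by_contra q; nlinarith, by simp only [hD]; linarith, by simp only [hD]; linarith⟩
  obtain ⟨f1, q1, g1⟩ := edge_pk h1 h2 h3 h4 h5 h6 s D (fun _ => rfl) hs'
  obtain ⟨f2, q2, g2⟩ := edge_pk h2 h1 h3 h5 h4 h6 s D (fun _ => by simp only [hD, del]; ring) hs'
  obtain ⟨f3, q3, g3⟩ := edge_pk h3 h1 h2 h6 h4 h5 s D (fun _ => by simp only [hD, del]; ring) hs'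
  obtain ⟨f4, q4, g4⟩ := edge_pk h4 h2 h6 h1 h5 h3 s D (fun _ => by simp only [hD, del]; ring) hs'
  obtain ⟨f5, q5, g5⟩ := edge_pk h5 h1 h6 h2 h4 h3 s D (fun _ => by simp only [hD, del]; ring) hs'
  obtain ⟨f6, q6, g6⟩ := edge_pk h6 h1 h5 h3 h4 h2 s D (fun _ => by simp only [hD, del]; ring) hs'
  rw [chk, Nat.beq_eq, e0] at h
  change _ * _ - fin _ _ (sq _ _ 27 (_ <<< 22) 0) _ _ _ _ _ _ = 0 at h
  rw [pk_shl, ← z0, e1, z0] at h
  change _ - ge _ (_ * _ + _ * _ + (_ + _ + (_ + _)) +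
    ((_ <<< 55) &&& ge _ (_ + _ + (_ + _) + (_ + _)) (_ * 6))) (_ + _ + (_ + _) + (_ + _)) = 0 at h
  rw [q1, q2, q3, q4, q5, q6, two_pk h1 h2 h6, two_pk h1 h3 h5, two_pk h2 h3 h4, two_pk h4 h5 h6,
    val_pk h1, val_pk h2, val_pk h3, val_pk h4, val_pk h5, val_pk h6] at h
  simp only [pk_add, pk_mul, pk_shl] at h
  rw [ge_pk _ _ (fun _ => 1 * 6) fun i hi => by
      have := tb1 _ (h1.2 i hi); have := tb1 _ (h2.2 i hi); have := tb1 _ (h3.2 i hi)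
      have := tb1 _ (h4.2 i hi); have := tb1 _ (h5.2 i hi); have := tb1 _ (h6.2 i hi); omega,
    and_sel _ _ _ fun _ _ => by norm_num, pk_add, ge_pk _ _ _ fun i hi => by
      have := (g1 i hi).1; have := (g2 i hi).1; have := (g3 i hi).1; have := (g4 i hi).1
      have := (g5 i hi).1; have := (g6 i hi).1; have := (hs' i hi).1
      refine ⟨?_, by omega⟩
      split_ifs <;> omega,
    pk_sub _ _ _ _ fun i _ => by split_ifs <;> norm_num] at h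
  intro i hi
  have k := pk_eq_zero _ _ _ h i hi
  by_contra c
  simp only [Tab, not_or] at c
  obtain ⟨c0, c1, c2, c3, c4, c5⟩ := c
  simp only [one_mul, if_neg c0, if_neg c1, if_neg c2, if_neg c3, if_neg c4, add_zero] at k
  have r : f1 i + f2 i + (f3 i + f4 i) + (f5 i + f6 i) ≤ s i * 1398101 + 145546515321113 := by
    by_contra r
    rw [if_neg r] at k
    omega
  refine c5 fun d0 j1 a1 j2 a2 j3 a3 j4 a4 j5 a5 j6 a6 => ?_
  have r' : (f1 i : ℝ) + f2 i + (f3 i + f4 i) + (f5 i + f6 i) ≤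
    s i * 1398101 + 145546515321113 := by exact_mod_cast r
  have v : (s i : ℝ) ≤ 2 ^ 20 * √(D i) := by
    refine (pow_le_pow_iff_left₀ (Nat.cast_nonneg _) (by positivity) two_ne_zero).1 ?_
    rw [mul_pow, Real.sq_sqrt d0.le]
    linarith [(hs' i hi).2.1]
  have := Real.sqrt_nonneg (D i)
  simp only [hD] at v this
  linarith [(g1 i hi).2 d0 j1 a1, (g2 i hi).2 d0 j2 a2, (g3 i hi).2 d0 j3 a3,
    (g4 i hi).2 d0 j4 a4, (g5 i hi).2 d0 j5 a5, (g6 i hi).2 d0 j6 a6]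

theorem one_eq : one = pk 64 4096 fun _ => 1 := by
  have := pk_outer 64 64 64 (by norm_num) (fun _ => 1) fun _ => 1
  simp only [mul_one, Nat.reduceMul] at this
  rw [one, Nat.mul_eq, this]

theorem g_eq (n k : ℕ) : Nat.shiftLeft (pk 64 n fun _ => 1) k = pk 64 n fun _ => 2 ^ k :=
  (pk_shl 64 n k _).trans (pk_congr _ _ _ _ fun _ _ => one_mul _)

theorem rep_cst (n a : ℕ) (h : a < 8) : Rep n (cst (pk 64 n fun _ => 1) a) fun _ => a := by
  refine ⟨fun t _ => ?_, fun _ _ => h⟩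
  by_cases e : a = t
  · subst e
    rw [cst, Nat.beq_refl, cond_true, Nat.mul_eq, pk_mul]
    exact pk_congr _ _ _ _ fun _ _ => by norm_num
  · have := pk_mul 64 n 0 fun _ => 0
    simp only [mul_zero] at this
    rw [cst, Bool.eq_false_iff.2 fun q => e (Nat.eq_of_beq_eq_true q), cond_false]
    exact this.trans (pk_congr _ _ _ _ fun _ _ => (if_neg e).symm)

theorem rep_msk (a c : ℕ) (ha : 0 < a) (h : a * 8 * c = 4096) :
    Rep 4096 (msk a c) fun i => i % (a * 8) / a := by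
  refine ⟨fun t _ => ?_, fun i _ => (Nat.div_lt_iff_lt_mul ha).2
    (by rw [mul_comm 8]; exact Nat.mod_lt _ (by positivity))⟩
  show pk 64 a _ * pk (64 * a) 8 _ * pk (64 * (a * 8)) c _ = _
  rw [pk_outer _ _ _ ha, pk_outer _ _ _ (by positivity), h]
  refine pk_congr _ _ _ _ fun i _ => ?_
  rw [one_mul, mul_one]
  beta_reduce
  split_ifs with e
  · rw [e, Nat.beq_refl]; rfl
  · rw [Bool.eq_false_iff.2 fun q => e (Nat.eq_of_beq_eq_true q)]; rfl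

theorem run_sound (a1 a4 : ℕ) (h1 : a1 < 8) (h4 : a4 < 8) (h : run a1 a4 = true) (a2 a3 a5 a6 : ℕ)
    (h2 : a2 < 8) (h3 : a3 < 8) (h5 : a5 < 8) (h6 : a6 < 8) : Tab a1 a2 a3 a4 a5 a6 := by
  rw [run, one_eq, g_eq] at h
  have := chk_sound (rep_cst _ a1 h1) (rep_msk 1 512 one_pos rfl) (rep_msk 8 64 (by norm_num) rfl)
    (rep_cst _ a4 h4) (rep_msk 64 8 (by norm_num) rfl) (rep_msk 512 1 (by norm_num) rfl) h
    (a2 + 8 * a3 + 64 * a5 + 512 * a6) (by omega)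
  convert this using 1 <;> omega

end Pool.Agent.Lib.MP_f3b2fd_co.KS
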