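import Pool.Agent.Lib.MP_f3b2fd_co.KEP.N.Vert

/-! The values of the cell function at the vertices of the grid of knots: the computation. -/

namespace Pool.Agent.Lib.MP_f3b2fd_co.KS

set_option maxRecDepth 100000 in
theorem run_all :
    run 0 0 = true ∧ run 0 1 = true ∧ run 0 2 = true ∧ run 0 3 = true ∧
    run 0 4 = true ∧ run 0 5 = true ∧ run 0 6 = true ∧ run 0 7 = true ∧
    run 1 0 = true ∧ run 1 1 = true ∧ run 1 2 = true ∧ run 1 3 = true ∧
    run 1 4 = true ∧ run 1 5 = true ∧ run 1 6 = true ∧ run 1 7 = true ∧
    run 2 0 = true ∧ run 2 1 = true ∧ run 2 2 = true ∧ run 2 3 = true ∧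
    run 2 4 = true ∧ run 2 5 = true ∧ run 2 6 = true ∧ run 2 7 = true ∧
    run 3 0 = true ∧ run 3 1 = true ∧ run 3 2 = true ∧ run 3 3 = true ∧
    run 3 4 = true ∧ run 3 5 = true ∧ run 3 6 = true ∧ run 3 7 = true ∧
    run 4 0 = true ∧ run 4 1 = true ∧ run 4 2 = true ∧ run 4 3 = true ∧
    run 4 4 = true ∧ run 4 5 = true ∧ run 4 6 = true ∧ run 4 7 = true ∧
    run 5 0 = true ∧ run 5 1 = true ∧ run 5 2 = true ∧ run 5 3 = true ∧
    run 5 4 = true ∧ run 5 5 = true ∧ run 5 6 = true ∧ run 5 7 = true ∧
    run 6 0 = true ∧ run 6 1 = true ∧ run 6 2 = true ∧ run 6 3 = true ∧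
    run 6 4 = true ∧ run 6 5 = true ∧ run 6 6 = true ∧ run 6 7 = true ∧
    run 7 0 = true ∧ run 7 1 = true ∧ run 7 2 = true ∧ run 7 3 = true ∧
    run 7 4 = true ∧ run 7 5 = true ∧ run 7 6 = true ∧ run 7 7 = true :=
  ⟨by decide +kernel, by decide +kernel, by decide +kernel, by decide +kernel,
    by decide +kernel, by decide +kernel, by decide +kernel, by decide +kernel,
    by decide +kernel, by decide +kernel, by decide +kernel, by decide +kernel,
    by decide +kernel, by decide +kernel, by decide +kernel, by decide +kernel,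
    by decide +kernel, by decide +kernel, by decide +kernel, by decide +kernel,
    by decide +kernel, by decide +kernel, by decide +kernel, by decide +kernel,
    by decide +kernel, by decide +kernel, by decide +kernel, by decide +kernel,
    by decide +kernel, by decide +kernel, by decide +kernel, by decide +kernel,
    by decide +kernel, by decide +kernel, by decide +kernel, by decide +kernel,
    by decide +kernel, by decide +kernel, by decide +kernel, by decide +kernel,
    by decide +kernel, by decide +kernel, by decide +kernel, by decide +kernel,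
    by decide +kernel, by decide +kernel, by decide +kernel, by decide +kernel,
    by decide +kernel, by decide +kernel, by decide +kernel, by decide +kernel,
    by decide +kernel, by decide +kernel, by decide +kernel, by decide +kernel,
    by decide +kernel, by decide +kernel, by decide +kernel, by decide +kernel,
    by decide +kernel, by decide +kernel, by decide +kernel, by decide +kernel⟩

theorem tab_all (a1 a2 a3 a4 a5 a6 : ℕ) (h1 : a1 < 8) (h2 : a2 < 8) (h3 : a3 < 8) (h4 : a4 < 8)
    (h5 : a5 < 8) (h6 : a6 < 8) : Tab a1 a2 a3 a4 a5 a6 := by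
  refine run_sound a1 a4 h1 h4 ?_ a2 a3 a5 a6 h2 h3 h5 h6
  obtain ⟨r00, r01, r02, r03, r04, r05, r06, r07, r10, r11, r12, r13, r14, r15, r16, r17,
    r20, r21, r22, r23, r24, r25, r26, r27, r30, r31, r32, r33, r34, r35, r36, r37,
    r40, r41, r42, r43, r44, r45, r46, r47, r50, r51, r52, r53, r54, r55, r56, r57,
    r60, r61, r62, r63, r64, r65, r66, r67, r70, r71, r72, r73, r74, r75, r76, r77⟩ := run_all
  interval_cases a1 <;> interval_cases a4
  exacts [r00, r01, r02, r03, r04, r05, r06, r07, r10, r11, r12, r13, r14, r15, r16, r17,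
    r20, r21, r22, r23, r24, r25, r26, r27, r30, r31, r32, r33, r34, r35, r36, r37,
    r40, r41, r42, r43, r44, r45, r46, r47, r50, r51, r52, r53, r54, r55, r56, r57,
    r60, r61, r62, r63, r64, r65, r66, r67, r70, r71, r72, r73, r74, r75, r76, r77]

end Pool.Agent.Lib.MP_f3b2fd_co.KS
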